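import Mathlib

set_option autoImplicit false
set_option linter.unusedSectionVars false
set_option linter.deprecated false
open Set Filter Topology

namespace Pool.Agent.Lib.MP_9e0ccb_an

/-- The unit ball of `ℓ²(Γ)` as a subset of the product `Γ → ℝ`. -/
def BSet (Γ : Type) : Set (Γ → ℝ) := {x | ∀ F : Finset Γ, ∑ γ ∈ F, x γ ^ 2 ≤ 1}

/-- The unit ball of `ℓ²(Γ)` with the topology of pointwise convergence. -/
abbrev B (Γ : Type) : Type := ↥(BSet Γ)

variable {Γ : Type}

lemma B_sum_le (x : B Γ) (F : Finset Γ) : ∑ γ ∈ F, x.1 γ ^ 2 ≤ 1 := x.2 F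

lemma B_sq_le (x : B Γ) (γ : Γ) : x.1 γ ^ 2 ≤ 1 := by
  simpa using x.2 {γ}

lemma B_abs_le (x : B Γ) (γ : Γ) : |x.1 γ| ≤ 1 := by
  have := B_sq_le x γ
  rw [← sq_le_one_iff_abs_le_one]; exact this

lemma continuous_coord (γ : Γ) : Continuous fun x : B Γ => x.1 γ :=
  (continuous_apply γ).comp continuous_subtype_val

instance : CompactSpace (B Γ) := by
  apply isCompact_iff_compactSpace.mp
  have hc : IsClosed (BSet Γ) := by
    have : BSet Γ = ⋂ F : Finset Γ, {x : Γ → ℝ | ∑ γ ∈ F, x γ ^ 2 ≤ 1} := by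
      ext x; simp [BSet]
    rw [this]
    refine isClosed_iInter fun F => isClosed_le ?_ continuous_const
    exact continuous_finset_sum _ fun γ _ => (continuous_apply γ).pow 2
  refine (isCompact_univ_pi fun _ : Γ => isCompact_Icc (a := (-1 : ℝ)) (b := 1)).of_isClosed_subset
    hc ?_
  intro x hx γ _
  exact abs_le.mp (B_abs_le ⟨x, hx⟩ γ)

instance : Nonempty (B Γ) := ⟨⟨0, fun F => by simp⟩⟩

/-- Maps of the ball acting coordinatewise by contractions towards `0`. -/
def coordMap (φ : Γ → ℝ → ℝ) (hc : ∀ γ, Continuous (φ γ)) (hb : ∀ γ t, |φ γ t| ≤ |t|) :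
    C(B Γ, B Γ) where
  toFun x := ⟨fun γ => φ γ (x.1 γ), fun F => le_trans
    (Finset.sum_le_sum fun γ _ => sq_le_sq.mpr (hb γ _)) (x.2 F)⟩
  continuous_toFun := by
    refine Continuous.subtype_mk (continuous_pi fun γ => ?_) _
    exact (hc γ).comp (continuous_coord γ)

open Classical in
/-- Restriction of the coordinates to the set `A`. -/
noncomputable def RA (A : Set Γ) : C(B Γ, B Γ) :=
  coordMap (fun γ t => if γ ∈ A then t else 0)
    (fun γ => by by_cases h : γ ∈ A <;> simp [h, continuous_id', continuous_const])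
    (fun γ t => by by_cases h : γ ∈ A <;> simp [h])

open Classical in
lemma RA_apply (A : Set Γ) (x : B Γ) (γ : Γ) : (RA A x).1 γ = if γ ∈ A then x.1 γ else 0 := rfl

lemma RA_mem {A : Set Γ} (x : B Γ) {γ : Γ} (h : γ ∈ A) : (RA A x).1 γ = x.1 γ := by
  simp [RA_apply, h]

lemma RA_not_mem {A : Set Γ} (x : B Γ) {γ : Γ} (h : γ ∉ A) : (RA A x).1 γ = 0 := by
  simp [RA_apply, h]

lemma RA_sq_le (A : Set Γ) (x : B Γ) (γ : Γ) : (RA A x).1 γ ^ 2 ≤ x.1 γ ^ 2 := by
  by_cases h : γ ∈ A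
  · rw [RA_mem x h]
  · rw [RA_not_mem x h]; simpa using sq_nonneg _

lemma RA_RA (A A' : Set Γ) (x : B Γ) : RA A (RA A' x) = RA (A ∩ A') x := by
  apply Subtype.ext; funext γ
  by_cases h : γ ∈ A <;> by_cases h' : γ ∈ A' <;> simp [RA_apply, h, h']

/-- The mass of a point on a finite set of coordinates. -/
def mass (F : Finset Γ) : C(B Γ, ℝ) where
  toFun x := ∑ γ ∈ F, x.1 γ ^ 2
  continuous_toFun := continuous_finset_sum _ fun γ _ => (continuous_coord γ).pow 2

lemma mass_apply (F : Finset Γ) (x : B Γ) : mass F x = ∑ γ ∈ F, x.1 γ ^ 2 := rfl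

lemma mass_nonneg (F : Finset Γ) (x : B Γ) : 0 ≤ mass F x :=
  Finset.sum_nonneg fun _ _ => sq_nonneg _

lemma mass_le_one (F : Finset Γ) (x : B Γ) : mass F x ≤ 1 := x.2 F

lemma mass_mono {F F' : Finset Γ} (h : F ⊆ F') (x : B Γ) : mass F x ≤ mass F' x :=
  Finset.sum_le_sum_of_subset_of_nonneg h fun _ _ _ => sq_nonneg _

/-- A continuous function on the ball almost depends on finitely many coordinates. -/
lemma insens (h : C(B Γ, ℝ)) {ι : ℝ} (hι : 0 < ι) :
    ∃ (F : Finset Γ) (ω : ℝ), 0 < ω ∧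
      ∀ x y : B Γ, (∀ γ ∈ F, |x.1 γ - y.1 γ| ≤ ω) → |h x - h y| ≤ ι := by
  classical
  let K : Set (B Γ × B Γ) := {p | ι ≤ |h p.1 - h p.2|}
  have hK : IsClosed K := isClosed_le continuous_const
    ((h.continuous.comp continuous_fst).sub (h.continuous.comp continuous_snd)).abs
  let Z : Finset Γ × ℕ → Set (B Γ × B Γ) := fun i =>
    {p | ∀ γ ∈ i.1, |p.1.1 γ - p.2.1 γ| ≤ 1 / ((i.2 : ℝ) + 1)}
  have hZ : ∀ i, IsClosed (Z i) := by
    intro i
    have : Z i = ⋂ γ ∈ i.1, {p : B Γ × B Γ | |p.1.1 γ - p.2.1 γ| ≤ 1 / ((i.2 : ℝ) + 1)} := by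
      ext p; simp [Z]
    rw [this]
    refine isClosed_biInter fun γ _ => isClosed_le ?_ continuous_const
    exact (((continuous_coord γ).comp continuous_fst).sub
      ((continuous_coord γ).comp continuous_snd)).abs
  have hdir : Directed (· ⊇ ·) Z := by
    intro i j
    refine ⟨(i.1 ∪ j.1, max i.2 j.2), fun p hp γ hγ => ?_, fun p hp γ hγ => ?_⟩
    · refine (hp γ (Finset.mem_union_left _ hγ)).trans ?_
      exact Nat.one_div_le_one_div (le_max_left _ _)
    · refine (hp γ (Finset.mem_union_right _ hγ)).trans ?_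
      exact Nat.one_div_le_one_div (le_max_right _ _)
  have hemp : (K ∩ ⋂ i, Z i) = ∅ := by
    ext p
    simp only [mem_inter_iff, mem_iInter, mem_empty_iff_false, iff_false, not_and]
    intro hp hz
    have : p.1 = p.2 := by
      apply Subtype.ext; funext γ
      have : |p.1.1 γ - p.2.1 γ| ≤ 0 := by
        apply le_of_forall_pos_le_add
        intro ε hε
        obtain ⟨n, hn⟩ := exists_nat_one_div_lt hε
        have := hz ({γ}, n) γ (by simp)
        linarith
      exact sub_eq_zero.mp (abs_nonpos_iff.mp this)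
    simp only [K, mem_setOf_eq, this, sub_self, abs_zero] at hp
    linarith
  obtain ⟨i, hi⟩ := hK.isCompact.elim_directed_family_closed Z hZ hemp hdir
  refine ⟨i.1, 1 / ((i.2 : ℝ) + 1), Nat.one_div_pos_of_nat, fun x y hxy => ?_⟩
  by_contra hlt
  have : (x, y) ∈ K ∩ Z i := ⟨(not_le.mp hlt).le, hxy⟩
  rw [hi] at this; exact this

lemma insens_of_inv (h : C(B Γ, ℝ)) {A : Set Γ} (hA : ∀ x, h (RA A x) = h x) {ι : ℝ}
    (hι : 0 < ι) :
    ∃ (F : Finset Γ) (ω : ℝ), 0 < ω ∧ (∀ γ ∈ F, γ ∈ A) ∧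
      ∀ x y : B Γ, (∀ γ ∈ F, |x.1 γ - y.1 γ| ≤ ω) → |h x - h y| ≤ ι := by
  classical
  obtain ⟨F, ω, hω, hF⟩ := insens h hι
  refine ⟨F.filter (· ∈ A), ω, hω, fun γ hγ => (Finset.mem_filter.mp hγ).2, fun x y hxy => ?_⟩
  rw [← hA x, ← hA y]
  refine hF _ _ fun γ hγ => ?_
  by_cases hγA : γ ∈ A
  · rw [RA_mem x hγA, RA_mem y hγA]; exact hxy γ (Finset.mem_filter.mpr ⟨hγ, hγA⟩)
  · rw [RA_not_mem x hγA, RA_not_mem y hγA]; simpa using hω.le

/-- A point of the ball with a finite support and prescribed values. -/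
lemma exists_point_fin (F : Finset Γ) (v : Γ → ℝ) (h : ∑ γ ∈ F, v γ ^ 2 ≤ 1) :
    ∃ y : B Γ, (∀ γ ∈ F, y.1 γ = v γ) ∧ ∀ γ, γ ∉ F → y.1 γ = 0 := by
  classical
  refine ⟨⟨fun γ => if γ ∈ F then v γ else 0, fun F' => ?_⟩, fun γ hγ => by simp [hγ],
    fun γ hγ => by simp [hγ]⟩
  calc ∑ γ ∈ F', (if γ ∈ F then v γ else 0) ^ 2
      = ∑ γ ∈ F' ∩ F, v γ ^ 2 := by
        rw [← Finset.sum_ite_mem]; exact Finset.sum_congr rfl fun γ _ => by split_ifs <;> simp
    _ ≤ ∑ γ ∈ F, v γ ^ 2 :=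
        Finset.sum_le_sum_of_subset_of_nonneg Finset.inter_subset_right fun _ _ _ => sq_nonneg _
    _ ≤ 1 := h

/-- A point of the ball glued from finitely many disjoint pieces. -/
lemma exists_point {ι : Type} (s : Finset ι) (F : ι → Finset Γ)
    (hd : ∀ i ∈ s, ∀ j ∈ s, i ≠ j → Disjoint (F i) (F j)) (v : ι → Γ → ℝ)
    (h : ∑ i ∈ s, ∑ γ ∈ F i, v i γ ^ 2 ≤ 1) :
    ∃ y : B Γ, (∀ i ∈ s, ∀ γ ∈ F i, y.1 γ = v i γ) ∧
      ∀ γ, (∀ i ∈ s, γ ∉ F i) → y.1 γ = 0 := by
  classical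
  let w : Γ → ℝ := fun γ => ∑ i ∈ s, if γ ∈ F i then v i γ else 0
  have hw : ∀ i ∈ s, ∀ γ ∈ F i, w γ = v i γ := by
    intro i hi γ hγ
    simp only [w]
    rw [Finset.sum_eq_single_of_mem i hi]
    · simp [hγ]
    · intro j hj hji
      have := Finset.disjoint_left.mp (hd i hi j hj (Ne.symm hji)) hγ
      simp [this]
  have hsum : ∑ γ ∈ s.biUnion F, w γ ^ 2 ≤ 1 := by
    rw [Finset.sum_biUnion (fun i hi j hj hij => hd i hi j hj hij)]
    refine le_trans (le_of_eq ?_) h
    exact Finset.sum_congr rfl fun i hi => Finset.sum_congr rfl fun γ hγ => by rw [hw i hi γ hγ]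
  obtain ⟨y, hy1, hy2⟩ := exists_point_fin (s.biUnion F) w hsum
  refine ⟨y, fun i hi γ hγ => ?_, fun γ hγ => hy2 γ ?_⟩
  · rw [hy1 γ (Finset.mem_biUnion.mpr ⟨i, hi, hγ⟩), hw i hi γ hγ]
  · simpa using hγ

section pullpush
variable {α β δ : Type}

/-- Restriction of a point along an injective map of index sets. -/
def pull (e : α → β) (he : Function.Injective e) : C(B β, B α) where
  toFun x := ⟨fun a => x.1 (e a), fun F => by
    classical
    have := x.2 (F.image e)
    rwa [Finset.sum_image (fun a _ b _ h => he h)] at this⟩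
  continuous_toFun := Continuous.subtype_mk (continuous_pi fun a => continuous_coord (e a)) _

lemma pull_apply (e : α → β) (he : Function.Injective e) (x : B β) (a : α) :
    (pull e he x).1 a = x.1 (e a) := rfl

/-- Extension by zero along an injective map of index sets. -/
noncomputable def push (e : α → β) (he : Function.Injective e) : C(B α, B β) where
  toFun x := ⟨Function.extend e x.1 0, fun F => by
    classical
    have h1 := x.2 (F.preimage e he.injOn)
    refine le_trans (le_of_eq ?_) h1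
    symm
    have := Finset.sum_preimage e F he.injOn (fun b => Function.extend e x.1 0 b ^ 2)
      (fun b _ hb => by rw [Function.extend_apply' _ _ _ hb]; simp)
    rw [← this]
    exact Finset.sum_congr rfl fun a _ => by rw [he.extend_apply]⟩
  continuous_toFun := by
    refine Continuous.subtype_mk (continuous_pi fun b => ?_) _
    by_cases hb : ∃ a, e a = b
    · obtain ⟨a, rfl⟩ := hb
      simp only [he.extend_apply]; exact continuous_coord a
    · simp only [Function.extend_apply' _ _ _ hb]; exact continuous_const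

lemma push_apply (e : α → β) (he : Function.Injective e) (x : B α) (a : α) :
    (push e he x).1 (e a) = x.1 a := he.extend_apply _ _ _

lemma push_apply' (e : α → β) (he : Function.Injective e) (x : B α) {b : β}
    (hb : b ∉ range e) : (push e he x).1 b = 0 := by
  change Function.extend e x.1 0 b = 0
  rw [Function.extend_apply' _ _ _ hb]; rfl

lemma pull_push (e : α → β) (he : Function.Injective e) (x : B α) :
    pull e he (push e he x) = x := by
  apply Subtype.ext; funext a; rw [pull_apply, push_apply]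

lemma push_pull (e : α → β) (he : Function.Injective e) (x : B β) :
    push e he (pull e he x) = RA (range e) x := by
  apply Subtype.ext; funext b
  by_cases hb : b ∈ range e
  · obtain ⟨a, rfl⟩ := hb
    rw [push_apply, pull_apply, RA_mem _ (mem_range_self a)]
  · rw [push_apply' _ _ _ hb, RA_not_mem _ hb]

end pullpush

/-! ### The modulus of a functional on `C(K)` -/

section absF
variable {K : Type} [TopologicalSpace K] [CompactSpace K]

/-- The modulus of a functional on nonnegative functions. -/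
noncomputable def absP (φ : C(K, ℝ) →L[ℝ] ℝ) (f : C(K, ℝ)) : ℝ :=
  sSup ((fun h => φ h) '' {h : C(K, ℝ) | ∀ x, |h x| ≤ f x})

lemma absP_bdd (φ : C(K, ℝ) →L[ℝ] ℝ) (f : C(K, ℝ)) :
    BddAbove ((fun h => φ h) '' {h : C(K, ℝ) | ∀ x, |h x| ≤ f x}) := by
  refine ⟨‖φ‖ * ‖f‖, ?_⟩
  rintro _ ⟨h, hh, rfl⟩
  refine (le_abs_self _).trans ((φ.le_opNorm h).trans ?_)
  refine mul_le_mul_of_nonneg_left ?_ (norm_nonneg _)
  refine (ContinuousMap.norm_le _ (norm_nonneg _)).mpr fun x => ?_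
  exact (hh x).trans ((le_abs_self _).trans (f.norm_coe_le_norm x))

lemma le_absP (φ : C(K, ℝ) →L[ℝ] ℝ) {f h : C(K, ℝ)} (hh : ∀ x, |h x| ≤ f x) :
    φ h ≤ absP φ f := le_csSup (absP_bdd φ f) ⟨h, hh, rfl⟩

lemma absP_le (φ : C(K, ℝ) →L[ℝ] ℝ) {f : C(K, ℝ)} (hf : ∀ x, 0 ≤ f x) {c : ℝ}
    (H : ∀ h : C(K, ℝ), (∀ x, |h x| ≤ f x) → φ h ≤ c) : absP φ f ≤ c := by
  refine csSup_le ⟨_, ⟨0, fun x => by simpa using hf x, rfl⟩⟩ ?_
  rintro _ ⟨h, hh, rfl⟩; exact H h hh

lemma absP_add (φ : C(K, ℝ) →L[ℝ] ℝ) {f g : C(K, ℝ)} (hf : ∀ x, 0 ≤ f x) (hg : ∀ x, 0 ≤ g x) :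
    absP φ (f + g) = absP φ f + absP φ g := by
  apply le_antisymm
  · refine absP_le φ (fun x => add_nonneg (hf x) (hg x)) fun h hh => ?_
    let h1 : C(K, ℝ) := (h ⊓ f) ⊔ (-f)
    have e : h = h1 + (h - h1) := by abel
    rw [e, map_add]
    refine add_le_add (le_absP φ fun x => ?_) (le_absP φ fun x => ?_)
    · have := hf x
      simp only [h1, ContinuousMap.sup_apply, ContinuousMap.inf_apply, ContinuousMap.neg_apply]
      rw [abs_le]; constructor
      · exact le_max_right _ _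
      · exact max_le (min_le_right _ _) (by linarith)
    · have h0 := hf x
      have h2 := hg x
      have h3 := abs_le.mp (hh x)
      simp only [h1, ContinuousMap.sub_apply, ContinuousMap.sup_apply, ContinuousMap.inf_apply,
        ContinuousMap.neg_apply, ContinuousMap.add_apply] at h3 ⊢
      rw [abs_le]
      rcases le_total (h x) (f x) with h4 | h4 <;> rcases le_total (h x) (-f x) with h5 | h5 <;>
        simp only [min_def, max_def] <;> split_ifs <;> constructor <;> linarith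
  · have : absP φ f ≤ absP φ (f + g) - absP φ g := by
      refine absP_le φ hf fun h1 hh1 => ?_
      have : absP φ g ≤ absP φ (f + g) - φ h1 := by
        refine absP_le φ hg fun h2 hh2 => ?_
        have := le_absP φ (f := f + g) (h := h1 + h2) fun x =>
          (abs_add_le _ _).trans (add_le_add (hh1 x) (hh2 x))
        rw [map_add] at this; linarith
      linarith
    linarith

lemma absP_smul (φ : C(K, ℝ) →L[ℝ] ℝ) {f : C(K, ℝ)} (hf : ∀ x, 0 ≤ f x) {c : ℝ} (hc : 0 ≤ c) :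
    absP φ (c • f) = c * absP φ f := by
  rcases hc.eq_or_lt with rfl | hc
  · apply le_antisymm
    · refine absP_le φ (fun x => by simp) fun h hh => ?_
      have : h = 0 := by ext x; simpa using hh x
      simp [this]
    · simpa using le_absP φ (f := (0 : ℝ) • f) (h := 0) fun x => by simp
  · apply le_antisymm
    · refine absP_le φ (fun x => mul_nonneg hc.le (hf x)) fun h hh => ?_
      have := le_absP φ (f := f) (h := c⁻¹ • h) fun x => by
        have := hh x
        simp only [ContinuousMap.smul_apply, smul_eq_mul, abs_mul, abs_inv, abs_of_pos hc] at this ⊢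
        rw [inv_mul_le_iff₀ hc]; exact this
      rw [map_smul, smul_eq_mul, inv_mul_le_iff₀ hc] at this; exact this
    · rw [← le_div_iff₀' hc]
      refine absP_le φ hf fun h hh => ?_
      have := le_absP φ (f := c • f) (h := c • h) fun x => by
        simp only [ContinuousMap.smul_apply, smul_eq_mul, abs_mul, abs_of_pos hc]
        exact mul_le_mul_of_nonneg_left (hh x) hc.le
      rw [map_smul, smul_eq_mul] at this
      rw [le_div_iff₀' hc]; exact this

lemma absP_sub (φ : C(K, ℝ) →L[ℝ] ℝ) {f g : C(K, ℝ)} (hf : ∀ x, 0 ≤ f x) (hg : ∀ x, 0 ≤ g x) :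
    absP φ ((f - g) ⊔ 0) - absP φ ((-(f - g)) ⊔ 0) = absP φ f - absP φ g := by
  have h1 := absP_add φ (f := (f - g) ⊔ 0) (g := g) (fun x => le_max_right _ _) hg
  have h2 := absP_add φ (f := (-(f - g)) ⊔ 0) (g := f) (fun x => le_max_right _ _) hf
  have e : (f - g) ⊔ 0 + g = (-(f - g)) ⊔ 0 + f := by
    ext x
    simp only [ContinuousMap.add_apply, ContinuousMap.sup_apply, ContinuousMap.sub_apply,
      ContinuousMap.neg_apply, ContinuousMap.zero_apply, max_def]
    split_ifs <;> linarith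
  rw [e] at h1; linarith

lemma pos_sub_neg (f : C(K, ℝ)) : f = f ⊔ 0 - (-f) ⊔ 0 := by
  ext x
  simp only [ContinuousMap.sup_apply, ContinuousMap.sub_apply,
    ContinuousMap.neg_apply, ContinuousMap.zero_apply, max_def]
  split_ifs <;> linarith

/-- The modulus of a functional, as a positive linear functional. -/
noncomputable def absF (φ : C(K, ℝ) →L[ℝ] ℝ) : C(K, ℝ) →ₗ[ℝ] ℝ where
  toFun f := absP φ (f ⊔ 0) - absP φ ((-f) ⊔ 0)
  map_add' f g := by
    have hp : ∀ (u : C(K, ℝ)) (x : K), 0 ≤ (u ⊔ 0) x := fun u x => le_max_right _ _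
    have e : f + g = (f ⊔ 0 + g ⊔ 0) - ((-f) ⊔ 0 + (-g) ⊔ 0) := by
      conv_lhs => rw [pos_sub_neg f, pos_sub_neg g]
      abel
    have := absP_sub φ (f := f ⊔ 0 + g ⊔ 0) (g := (-f) ⊔ 0 + (-g) ⊔ 0)
      (fun x => add_nonneg (hp _ x) (hp _ x)) (fun x => add_nonneg (hp _ x) (hp _ x))
    rw [← e, absP_add φ (hp _) (hp _), absP_add φ (hp _) (hp _)] at this
    rw [this]; ring
  map_smul' c f := by
    have hp : ∀ (u : C(K, ℝ)) (x : K), 0 ≤ (u ⊔ 0) x := fun u x => le_max_right _ _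
    rcases le_total 0 c with hc | hc
    · have e : c • f = c • (f ⊔ 0) - c • ((-f) ⊔ 0) := by
        conv_lhs => rw [pos_sub_neg f]
        rw [smul_sub]
      have := absP_sub φ (f := c • (f ⊔ 0)) (g := c • ((-f) ⊔ 0))
        (fun x => mul_nonneg hc (hp _ x)) (fun x => mul_nonneg hc (hp _ x))
      rw [← e, absP_smul φ (hp _) hc, absP_smul φ (hp _) hc] at this
      rw [this]; simp only [RingHom.id_apply, smul_eq_mul]; ring
    · have hc' : 0 ≤ -c := by linarith
      have e : c • f = (-c) • ((-f) ⊔ 0) - (-c) • (f ⊔ 0) := by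
        conv_lhs => rw [pos_sub_neg f]
        rw [smul_sub, neg_smul, neg_smul]; abel
      have := absP_sub φ (f := (-c) • ((-f) ⊔ 0)) (g := (-c) • (f ⊔ 0))
        (fun x => mul_nonneg hc' (hp _ x)) (fun x => mul_nonneg hc' (hp _ x))
      rw [← e, absP_smul φ (hp _) hc', absP_smul φ (hp _) hc'] at this
      rw [this]; simp only [RingHom.id_apply, smul_eq_mul]; ring

lemma absF_eq (φ : C(K, ℝ) →L[ℝ] ℝ) {f : C(K, ℝ)} (hf : ∀ x, 0 ≤ f x) :
    absF φ f = absP φ f := by
  have := absP_sub φ (f := f) (g := 0) hf (fun x => le_rfl)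
  have h0 : absP φ 0 = 0 := by simpa using absP_smul φ (f := 0) (fun x => le_rfl) (le_refl 0)
  rw [sub_zero, h0, sub_zero] at this
  exact this

lemma abs_le_absF (φ : C(K, ℝ) →L[ℝ] ℝ) {f h : C(K, ℝ)} (hh : ∀ x, |h x| ≤ f x) :
    |φ h| ≤ absF φ f := by
  rw [absF_eq φ fun x => (abs_nonneg _).trans (hh x), abs_le]
  refine ⟨?_, le_absP φ hh⟩
  have := le_absP φ (f := f) (h := -h) fun x => by simpa using hh x
  rw [map_neg] at this; linarith

lemma absF_nonneg (φ : C(K, ℝ) →L[ℝ] ℝ) {f : C(K, ℝ)} (hf : ∀ x, 0 ≤ f x) : 0 ≤ absF φ f :=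
  (abs_nonneg _).trans (abs_le_absF φ (h := 0) fun x => by simpa using hf x)

lemma absF_mono (φ : C(K, ℝ) →L[ℝ] ℝ) {f g : C(K, ℝ)} (h : ∀ x, f x ≤ g x) :
    absF φ f ≤ absF φ g := by
  have := absF_nonneg φ (f := g - f) fun x => by simpa using h x
  rw [map_sub] at this; linarith

lemma absF_le (φ : C(K, ℝ) →L[ℝ] ℝ) {f : C(K, ℝ)} (hf : ∀ x, 0 ≤ f x) {c : ℝ}
    (H : ∀ h : C(K, ℝ), (∀ x, |h x| ≤ f x) → φ h ≤ c) : absF φ f ≤ c := by
  rw [absF_eq φ hf]; exact absP_le φ hf H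

lemma exists_lt_absF (φ : C(K, ℝ) →L[ℝ] ℝ) {f : C(K, ℝ)} (hf : ∀ x, 0 ≤ f x) {c : ℝ}
    (hc : c < absF φ f) : ∃ h : C(K, ℝ), (∀ x, |h x| ≤ f x) ∧ c < φ h := by
  by_contra H
  push_neg at H
  exact absurd (absF_le φ hf H) (not_le.mpr hc)

lemma absF_one_le (φ : C(K, ℝ) →L[ℝ] ℝ) {M : ℝ} (hM : ‖φ‖ ≤ M) : absF φ 1 ≤ M := by
  refine absF_le φ (fun x => by simp) fun h hh => ?_
  have h1 : ‖h‖ ≤ 1 := (ContinuousMap.norm_le _ zero_le_one).mpr fun x => by simpa using hh x
  have := φ.le_opNorm h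
  calc φ h ≤ ‖φ h‖ := le_abs_self _
    _ ≤ ‖φ‖ * ‖h‖ := this
    _ ≤ ‖φ‖ * 1 := mul_le_mul_of_nonneg_left h1 φ.opNorm_nonneg
    _ ≤ M := by simpa using hM

lemma absF_le_const (φ : C(K, ℝ) →L[ℝ] ℝ) {M : ℝ} (hM : ‖φ‖ ≤ M) {f : C(K, ℝ)} {c : ℝ}
    (hc : 0 ≤ c) (hf : ∀ x, f x ≤ c) : absF φ f ≤ c * M := by
  have := absF_mono φ (f := f) (g := c • 1) fun x => by simpa using hf x
  rw [map_smul, smul_eq_mul] at this
  exact this.trans (mul_le_mul_of_nonneg_left (absF_one_le φ hM) hc)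

end absF

end Pool.Agent.Lib.MP_9e0ccb_an
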