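import Pool.Agent.Lib.MP_9e0ccb_an.Good

set_option autoImplicit false
set_option linter.unusedSectionVars false
set_option linter.deprecated false
set_option linter.unusedVariables false
set_option linter.unusedSimpArgs false
open Set Filter Topology
open scoped Classical

namespace Pool.Agent.Lib.MP_9e0ccb_an

/-- An isomorphism `C(B Γ) ≃ C(L)` together with a system of enumerated good sets. -/
structure Rep : Type 1 where
  Γ : Type
  L : Type
  [top : TopologicalSpace L]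
  [cpt : CompactSpace L]
  [t2 : T2Space L]
  [td : TotallyDisconnectedSpace L]
  S : C(B Γ, ℝ) ≃L[ℝ] C(L, ℝ)
  e : Finset Γ → ℕ → Γ
  inj : ∀ s, Function.Injective (e s)
  good : ∀ s, Good S (range (e s))
  mono : ∀ s t, s ⊆ t → range (e s) ⊆ range (e t)
  e0 : ∀ x, e {x} 0 = x

attribute [instance] Rep.top Rep.cpt Rep.t2 Rep.td

namespace Rep
variable (ρ : Rep)

/-- Transport of functions along the enumeration of `s`. -/
def io (s : Finset ρ.Γ) (k : C(B ℕ, ℝ)) : C(B ρ.Γ, ℝ) := k.comp (pull (ρ.e s) (ρ.inj s))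

/-- The traces of the point functionals. -/
def Lam (s : Finset ρ.Γ) : Set (C(B ℕ, ℝ) → ℝ) := range fun (ℓ : ρ.L) k => ρ.S (ρ.io s k) ℓ

lemma isClosed_Lam (s : Finset ρ.Γ) : IsClosed (ρ.Lam s) :=
  (isCompact_range (continuous_pi fun k => (ρ.S _).continuous)).isClosed

lemma exists_ret (s : Finset ρ.Γ) : ∃ r : ρ.L → ρ.L, (∀ k ℓ, ρ.S (ρ.io s k) (r ℓ) = ρ.S (ρ.io s k) ℓ) ∧
    ∀ f : C(ρ.L, ℝ), ∃ k, ∀ ℓ, ρ.S (ρ.io s k) ℓ = f (r ℓ) := by
  choose r hr using ρ.good s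
  refine ⟨r, fun k ℓ => ?_, fun f => ⟨(ρ.S.symm f).comp (push (ρ.e s) (ρ.inj s)), fun ℓ => ?_⟩⟩
  · rw [hr]
    congr 2
    ext x
    simp only [io, ContinuousMap.comp_apply]
    rw [← push_pull (ρ.e s) (ρ.inj s), pull_push]
  · rw [← ρ.S.apply_symm_apply f, hr, ρ.S.symm_apply_apply]
    congr 2
    ext x
    simp only [io, ContinuousMap.comp_apply]
    rw [push_pull]

lemma Lam_mul (s : Finset ρ.Γ) (k k' : C(B ℕ, ℝ)) : ∃ k'', ∀ ψ ∈ ρ.Lam s, ψ k'' = ψ k * ψ k' := by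
  obtain ⟨r, h1, h2⟩ := ρ.exists_ret s
  obtain ⟨k'', hk⟩ := h2 (ρ.S (ρ.io s k) * ρ.S (ρ.io s k'))
  refine ⟨k'', ?_⟩
  rintro _ ⟨ℓ, rfl⟩
  simp only
  rw [hk, ContinuousMap.mul_apply, h1, h1]

lemma Lam_one (s : Finset ρ.Γ) : ∃ k, ∀ ψ ∈ ρ.Lam s, ψ k = 1 := by
  obtain ⟨r, h1, h2⟩ := ρ.exists_ret s
  obtain ⟨k, hk⟩ := h2 1
  refine ⟨k, ?_⟩
  rintro _ ⟨ℓ, rfl⟩
  simp only
  rw [hk]; rfl

lemma Lam_sep (s : Finset ρ.Γ) {ψ ψ' : C(B ℕ, ℝ) → ℝ} (h : ψ ∈ ρ.Lam s) (h' : ψ' ∈ ρ.Lam s)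
    (hne : ψ ≠ ψ') : ∃ k, ψ k = 1 ∧ ψ' k = 0 ∧ ∀ χ ∈ ρ.Lam s, χ k = 1 ∨ χ k = 0 := by
  obtain ⟨r, h1, h2⟩ := ρ.exists_ret s
  obtain ⟨ℓ, rfl⟩ := h
  obtain ⟨ℓ', rfl⟩ := h'
  have : r ℓ ≠ r ℓ' := by
    intro e
    apply hne
    funext k
    simp only
    rw [← h1, e, h1]
  obtain ⟨V, hV, h3, h4⟩ := exists_clopen_nhd (isOpen_compl_singleton (x := r ℓ')) this
  obtain ⟨k, hk⟩ := h2 (ind V)
  refine ⟨k, ?_, ?_, ?_⟩
  · simp only; rw [hk, ind_mem hV h3]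
  · simp only; rw [hk, ind_not_mem (fun hb => h4 hb rfl)]
  · rintro _ ⟨ℓ'', rfl⟩
    simp only
    rw [hk, ind_apply hV]; split_ifs <;> simp

end Rep

/-- Image of a finite set (with classical decidability). -/
noncomputable def img {α β : Type} (u : α → β) (J : Finset α) : Finset β := J.image u

lemma img_eq {α β : Type} [DecidableEq β] (u : α → β) (J : Finset α) : img u J = J.image u := by
  ext x; simp [img]

lemma mem_img {α β : Type} {u : α → β} {J : Finset α} {x : β} :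
    x ∈ img u J ↔ ∃ a ∈ J, u a = x := by simp [img]

/-- The data produced by the Ramsey argument. -/
structure EMD : Type 1 where
  ρ : Finset ℚ → Rep
  u : ∀ J, ℚ → (ρ J).Γ
  u_inj : ∀ J, InjOn (u J) J
  M : ℝ
  M_nonneg : 0 ≤ M
  S_le : ∀ J h, ‖(ρ J).S h‖ ≤ M * ‖h‖
  T_le : ∀ J h, ‖h‖ ≤ M * ‖(ρ J).S h‖
  K1 : ∀ (g : ℚ ≃o ℚ) (J₁ J₂ J J' : Finset ℚ) (a a' : ℕ), J ⊆ J₁ → J' ⊆ J₁ →
    J.image g ⊆ J₂ → J'.image g ⊆ J₂ →
    (ρ J₁).e (img (u J₁) J) a = (ρ J₁).e (img (u J₁) J') a' →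
    (ρ J₂).e (img (u J₂) (J.image g)) a = (ρ J₂).e (img (u J₂) (J'.image g)) a'
  K2 : ∀ (J₁ J₂ J J' : Finset ℚ), J ⊆ J₁ → J' ⊆ J₂ → J.card = J'.card →
    (ρ J₁).Lam (img (u J₁) J) = (ρ J₂).Lam (img (u J₂) J')

section rank
variable {α β : Type} [LinearOrder α] [LinearOrder β]

/-- Position of an element in a finite set. -/
noncomputable def rank (s : Finset α) (x : α) : ℕ := (s.filter (· < x)).card

/-- The elements of `s` at the positions in `P`. -/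
noncomputable def sub (s : Finset α) (P : Finset ℕ) : Finset α := s.filter fun x => rank s x ∈ P

lemma rank_image {s : Finset α} {u : α → β} (hu : StrictMonoOn u s) {x : α} (hx : x ∈ s) :
    rank (s.image u) (u x) = rank s x := by
  unfold rank
  rw [Finset.filter_image, Finset.card_image_of_injOn]
  · congr 1
    exact Finset.filter_congr fun y hy => hu.lt_iff_lt hy hx
  · exact hu.injOn.mono fun y hy => (Finset.mem_filter.mp hy).1

lemma rank_injOn (s : Finset α) : InjOn (rank s) s := by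
  have : StrictMonoOn (rank s) s := by
    intro x hx y hy hxy
    apply Finset.card_lt_card
    refine ⟨fun z hz => ?_, fun h => ?_⟩
    · exact Finset.mem_filter.mpr ⟨(Finset.mem_filter.mp hz).1,
        (Finset.mem_filter.mp hz).2.trans hxy⟩
    · exact lt_irrefl _ (Finset.mem_filter.mp (h (Finset.mem_filter.mpr ⟨hx, hxy⟩))).2
  exact this.injOn

lemma sub_image {s t : Finset α} {u : α → β} (hu : StrictMonoOn u s) (ht : t ⊆ s) :
    sub (s.image u) (t.image (rank s)) = t.image u := by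
  ext y
  simp only [sub, Finset.mem_filter, Finset.mem_image]
  constructor
  · rintro ⟨⟨x, hx, rfl⟩, z, hz, e⟩
    have := rank_image hu hx
    rw [this] at e
    exact ⟨z, hz, by rw [rank_injOn s (ht hz) hx e]⟩
  · rintro ⟨x, hx, rfl⟩
    exact ⟨⟨x, ht hx, rfl⟩, x, hx, (rank_image hu (ht hx)).symm⟩

end rank

lemma exists_EMD (H : ∀ Γ : Type, Uncountable Γ → ∃ (L : Type) (_ : TopologicalSpace L)
    (_ : CompactSpace L), T2Space L ∧ TotallyDisconnectedSpace L ∧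
      Nonempty (C(B Γ, ℝ) ≃L[ℝ] C(L, ℝ))) : Nonempty EMD := by
  have h1 : ∀ Y : Type, ∃ ρ : Rep, Cardinal.mk Y ≤ Cardinal.mk ρ.Γ := by
    intro Y
    have hU : Uncountable (Y ⊕ ℝ) := Sum.inr_injective.uncountable
    obtain ⟨L, _, _, _, _, ⟨S⟩⟩ := H (Y ⊕ ℝ) hU
    obtain ⟨e, h1, h2, h3, h4⟩ := exists_enum S
    exact ⟨⟨Y ⊕ ℝ, L, S, e, h1, h2, h3, h4⟩, Cardinal.mk_le_of_injective Sum.inl_injective⟩
  have hM : ∀ ρ : Rep, ∃ m : ℕ, (∀ h, ‖ρ.S h‖ ≤ m * ‖h‖) ∧ ∀ h, ‖h‖ ≤ m * ‖ρ.S h‖ := by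
    intro ρ
    obtain ⟨m, hm⟩ := exists_nat_ge (max ‖(ρ.S : C(B ρ.Γ, ℝ) →L[ℝ] C(ρ.L, ℝ))‖
      ‖(ρ.S.symm : C(ρ.L, ℝ) →L[ℝ] C(B ρ.Γ, ℝ))‖)
    refine ⟨m, fun h => ?_, fun h => ?_⟩
    · exact ((ρ.S : C(B ρ.Γ, ℝ) →L[ℝ] C(ρ.L, ℝ)).le_opNorm h).trans
        (mul_le_mul_of_nonneg_right ((le_max_left _ _).trans hm) (norm_nonneg _))
    · have := ((ρ.S.symm : C(ρ.L, ℝ) →L[ℝ] C(B ρ.Γ, ℝ)).le_opNorm (ρ.S h)).trans
        (mul_le_mul_of_nonneg_right ((le_max_right _ _).trans hm) (norm_nonneg _))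
      simpa using this
  choose m hm1 hm2 using hM
  let ord : ∀ ρ : Rep, LinearOrder ρ.Γ := fun ρ => linearOrderOfSTO WellOrderingRel
  let c : ∀ ρ : Rep, Finset ρ.Γ →
      Set (C(B ℕ, ℝ) → ℝ) × Set (Finset ℕ × ℕ × Finset ℕ × ℕ) × ℕ := fun ρ s =>
    (ρ.Lam s, {q | ρ.e (sub s q.1) q.2.1 = ρ.e (sub s q.2.2.1) q.2.2.2}, m ρ)
  obtain ⟨p, hp⟩ := morley (fun ρ : Rep => ρ.Γ) (fun μ => by
    obtain ⟨ρ, hρ⟩ := h1 μ.out
    exact ⟨ρ, by simpa using hρ⟩) c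
  have h2 : ∀ J : Finset ℚ, ∃ ρ : Rep, ∃ u : ℚ → ρ.Γ, StrictMonoOn u J ∧
      ∀ s : Finset ρ.Γ, s ⊆ J.image u → c ρ s = p s.card := by
    intro J
    obtain ⟨ρ, X, hX, hc⟩ := hp (J.card + 1)
    obtain ⟨t, ht, htc⟩ := hX.exists_subset_card_eq J.card
    obtain ⟨x0, -⟩ := hX.nonempty
    let u : ℚ → ρ.Γ := fun b => if hb : b ∈ J then
      t.orderEmbOfFin htc ((J.orderIsoOfFin rfl).symm ⟨b, hb⟩) else x0
    refine ⟨ρ, u, fun a ha b hb hab => ?_, fun s hs => hc s (fun x hx => ?_) ?_⟩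
    · have ha' : a ∈ J := ha
      have hb' : b ∈ J := hb
      simp only [u, ha', hb', dif_pos]
      apply (t.orderEmbOfFin htc).strictMono
      apply (J.orderIsoOfFin rfl).symm.strictMono
      exact hab
    · obtain ⟨b, hb, rfl⟩ := Finset.mem_image.mp (hs hx)
      simp only [u, hb, dif_pos]
      exact ht (t.orderEmbOfFin_mem htc _)
    · exact Nat.lt_succ_of_le ((Finset.card_le_card hs).trans Finset.card_image_le)
  choose ρ u hu hc using h2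
  have hcol : ∀ J₁ J : Finset ℚ, J ⊆ J₁ → c (ρ J₁) (J.image (u J₁)) = p J.card := by
    intro J₁ J hJ
    rw [hc J₁ _ (Finset.image_subset_image hJ),
      Finset.card_image_of_injOn ((hu J₁).injOn.mono hJ)]
  have hm : ∀ J, m (ρ J) = (p 0).2.2 := fun J => by
    have := congrArg (fun q => q.2.2) (hcol J ∅ (Finset.empty_subset _))
    simpa [c] using this
  refine ⟨⟨ρ, u, fun J => (hu J).injOn, ((p 0).2.2 : ℕ), Nat.cast_nonneg _,
    fun J h => by rw [← hm J]; exact hm1 _ h, fun J h => by rw [← hm J]; exact hm2 _ h, ?_, ?_⟩⟩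
  · intro g J₁ J₂ J J' a a' hJ hJ' hg hg' he
    have e1 := hcol J₁ (J ∪ J') (Finset.union_subset hJ hJ')
    have e2 := hcol J₂ ((J ∪ J').image g)
      (by rw [Finset.image_union]; exact Finset.union_subset hg hg')
    rw [Finset.card_image_of_injective _ g.injective, ← e1, Finset.image_image] at e2
    have e3 := congrArg (fun q => (J.image (rank (J ∪ J')), a, J'.image (rank (J ∪ J')), a') ∈ q.2.1)
      e2
    have m1 : StrictMonoOn (u J₁) ↑(J ∪ J') := (hu J₁).mono (Finset.union_subset hJ hJ')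
    have m2 : StrictMonoOn (u J₂ ∘ g) ↑(J ∪ J') := by
      intro x hx y hy hxy
      have hsub : (J ∪ J').image g ⊆ J₂ := by
        rw [Finset.image_union]; exact Finset.union_subset hg hg'
      exact hu J₂ (hsub (Finset.mem_image_of_mem _ hx)) (hsub (Finset.mem_image_of_mem _ hy))
        (g.strictMono hxy)
    simp only [c, mem_setOf_eq] at e3
    rw [sub_image m1 Finset.subset_union_left, sub_image m1 Finset.subset_union_right,
      sub_image m2 Finset.subset_union_left, sub_image m2 Finset.subset_union_right] at e3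
    rw [img_eq, img_eq] at he
    rw [img_eq, img_eq, Finset.image_image, Finset.image_image]
    exact e3.symm ▸ he
  · intro J₁ J₂ J J' hJ hJ' hcard
    have e1 := hcol J₁ J hJ
    have e2 := hcol J₂ J' hJ'
    rw [← hcard, ← e1] at e2
    rw [img_eq, img_eq]
    exact (congrArg (fun q => q.1) e2).symm

end Pool.Agent.Lib.MP_9e0ccb_an
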