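import Pool.Agent.Lib.MP_9e0ccb_an.Transfer

set_option autoImplicit false
set_option linter.unusedSectionVars false
set_option linter.deprecated false
set_option linter.unusedVariables false
set_option linter.unusedSimpArgs false
open Set Filter Topology
open scoped Classical

namespace Pool.Agent.Lib.MP_9e0ccb_an

variable {Γ L : Type} [TopologicalSpace L] [CompactSpace L] [T2Space L]
  [TotallyDisconnectedSpace L] {σ : Str Γ L}

/-- The fixed data of the chain argument in one stage. -/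
structure Setup (ρ : Root σ) where
  fr : Frame
  hR : ρ.R0 ⊆ fr.P
  p : Shr σ fr
  n : ℕ
  E : Set L
  hE : σ.CJ fr.P E
  hv : ∀ X, IsClopen X → X ⊆ E → p.Van X
  e : ℝ
  e_pos : 0 < e
  A : ℕ
  D' : ℕ
  hD' : 1 ≤ D'
  W : ℕ
  hW : 0 < W
  i : Fin W → ℕ
  win : Fin W → Win fr
  hD : ∀ w, (win w).D = D' * i w
  hk : ∀ w, (win w).k = A * (win w).D
  hd : ∀ w, 2 * (win w).D ≤ (win w).d
  hdisj : ∀ w w' j, i w < j → j ≤ (win w).k → i w' < j → j ≤ (win w').k → w = w'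
  herr : σ.M / p.θ ^ 2 * (2 / D' * σ.M + Real.exp A * (σ.M / W)) ≤ e
  hA : Real.exp (-(A / 4)) * σ.M * σ.M ≤ e
  s₁ : ℝ
  s₂ : ℝ
  s₂_pos : 0 < s₂
  s_lt : s₂ < s₁
  C : Set L
  hC : IsClopen C
  hCE : C ⊆ E
  hCK : ∀ ℓ ∈ C, ℓ ∉ ρ.K s₂
  hm : ∀ w, ∀ ℓ ∈ E \ C, ovl (fr.T ∪ fr.T') (fun b => ℓ ∈ ρ.U n b) ≤
    (win w).k * (win w).D * ((win w).d + 1)
  z₀ : L
  z₀_K : z₀ ∈ ρ.K s₁
  z₀_E : z₀ ∈ E
  z₀_U : z₀ ∈ BU (ρ.U n) fr.T

namespace Setup
variable {ρ : Root σ} (su : Setup ρ)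

lemma hU : ∀ b ∈ su.fr.T ∪ su.fr.T', σ.CJ su.fr.J0 (ρ.U su.n b) := fun b hb =>
  ρ.U_CJ' _ ((su.fr.above_of_mem_TT' hb).mono su.hR) (su.hR.trans su.fr.P_sub) (by
    rcases Finset.mem_union.mp hb with h | h
    · exact su.fr.T_sub h
    · exact su.fr.T'_sub h)

/-- Abbreviation for the averaged size. -/
noncomputable def Ps (w : Fin su.W) (F : Finset Γ) (X : Set L) : C(B Γ, ℝ) :=
  su.p.Psi (su.win w) (ρ.U su.n) F X

/-- The window is light. -/
def Light (z : L) (w : Fin su.W) (F : Finset Γ) : Prop :=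
  σ.Lam z (mass ((su.win w).winF σ (su.i w) F)) ≤ σ.M / su.W

/-- The marginal inequality. -/
def Marg (w : Fin su.W) (F : Finset Γ) (B' : Set L) : Prop :=
  ∀ y, av (fun ξ : (su.win w).Om' × (su.win w).Sel =>
    |σ.tau (su.E ∩ (B' ∩ BU (ρ.U su.n) (((su.win w).Gt ξ.1 ξ.2).image su.fr.κ))) (su.p.pi y)|) ≤
      su.Ps w F (su.E ∩ B') y + su.e / σ.M + su.p.Err (su.win w) F y

lemma exists_light (z : L) (F : Finset Γ) : ∃ w, su.Light z w F := by
  have : Nonempty (Fin su.W) := ⟨⟨0, su.hW⟩⟩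
  obtain ⟨w, hw⟩ := exists_le_av fun w => σ.Lam z (mass ((su.win w).winF σ (su.i w) F))
  refine ⟨w, hw.trans ?_⟩
  unfold av
  rw [Fintype.card_fin, ← map_sum]
  refine div_le_div_of_nonneg_right ?_ (Nat.cast_nonneg _)
  have := σ.Lam_le_const z (f := ∑ w, mass ((su.win w).winF σ (su.i w) F)) zero_le_one fun y => by
    rw [ContinuousMap.sum_apply]
    simp only [mass_apply]
    rw [← Finset.sum_biUnion]
    · exact B_sum_le _ _
    · intro w _ w' _ hne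
      refine Finset.disjoint_left.mpr fun δ h h' => hne ?_
      have h1 := (Finset.mem_filter.mp h).2
      have h2 := (Finset.mem_filter.mp h').2
      exact su.hdisj w w' _ h1.1 h1.2 h2.1 h2.2
  simpa using this

lemma Lam_Err {z : L} {w : Fin su.W} {F : Finset Γ} (h : su.Light z w F) :
    σ.Lam z (su.p.Err (su.win w) F) ≤ su.e := by
  have hM := σ.M_pos
  have h1 := σ.Lam_mono z (f := su.p.Err (su.win w) F)
    (g := (σ.M / su.p.θ ^ 2) • ((2 / su.D' : ℝ) • 1 +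
      Real.exp su.A • mass ((su.win w).winF σ (su.i w) F))) fun y => by
      simpa [mul_add] using su.p.Err_le (su.win w) su.hD' (su.hD w) (su.hk w) F y
  rw [map_smul, map_add, map_smul, map_smul] at h1
  simp only [smul_eq_mul] at h1
  refine h1.trans (le_trans ?_ su.herr)
  refine mul_le_mul_of_nonneg_left (add_le_add ?_ ?_) (by positivity)
  · exact mul_le_mul_of_nonneg_left (σ.Lam_one_le z) (by positivity)
  · exact mul_le_mul_of_nonneg_left h (by positivity)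

lemma Light.r {su : Setup ρ} {z : L} {w : Fin su.W} {F : Finset Γ} (h : su.Light z w F)
    (J : Finset ℚ) : su.Light (σ.r J z) w F :=
  (σ.Lam_r J (mass_nonneg _) z).trans ((σ.Lam_mono z fun y =>
    Finset.sum_le_sum fun γ _ => σ.R_sq_le _ _ _).trans h)

lemma marg (w : Fin su.W) {N : Finset ℚ} (hN : ∀ b ∈ N, Above su.fr.J0 b) {B' : Set L}
    (hB : σ.CJ (ρ.R0 ∪ N) B') : ∀ᶠ F in atTop, su.Marg w F B' := by
  have hι : 0 < su.e / σ.M := div_pos su.e_pos σ.M_pos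
  have key : ∀ ξ : (su.win w).Om' × (su.win w).Sel, ∀ᶠ F in atTop, ∀ y,
      |σ.tau (su.E ∩ (B' ∩ BU (ρ.U su.n) (((su.win w).Gt ξ.1 ξ.2).image su.fr.κ))) (su.p.pi y)| ≤
      |σ.tau ((su.E ∩ B') ∩ BU (ρ.U su.n) ((su.win w).Gt ξ.1 ξ.2)) (su.p.Cp (su.win w) ξ.1 F y)| +
        su.e / σ.M + σ.M / su.p.θ ^ 2 * (su.win w).cost σ ξ.1 F y := by
    rintro ⟨ω, g⟩
    obtain ⟨u, hu⟩ := exists_orderIso (su.fr.P ∪ (su.win w).Gt ω g ∪ N) su.fr.κ
      (((su.win w).strictMonoOn_κ ω g).mono fun b hb => by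
        rcases Finset.mem_union.mp hb with h | h
        · rcases Finset.mem_union.mp h with h | h
          · exact Or.inl h
          · exact Or.inr (Or.inl h)
        · exact Or.inr (Or.inr (hN b h)))
    have hu' : ∀ b ∈ su.fr.P ∪ (su.win w).Gt ω g ∪ N, u⁻¹ (su.fr.κ b) = b := fun b hb => by
      rw [← hu b hb]; exact u.symm_apply_apply b
    have hP : ∀ b ∈ su.fr.P, u⁻¹ b = b := fun b hb => by
      have := hu' b (by simp [hb])
      rwa [su.fr.κ_of_not_mem (su.fr.not_mem_T'_of_P hb)] at this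
    have hN' : ∀ b ∈ N, u⁻¹ b = b := fun b hb => by
      have := hu' b (by simp [hb])
      rwa [su.fr.κ_above (hN b hb)] at this
    have hab : ∀ b ∈ ((su.win w).Gt ω g).image su.fr.κ, Above ρ.R0 b := fun b hb =>
      (su.fr.T_above b ((su.win w).Gc_sub ω g hb)).mono su.hR
    have hX : σ.CJ (su.fr.P ∪ ((su.win w).Gt ω g).image su.fr.κ ∪ N)
        (su.E ∩ (B' ∩ BU (ρ.U su.n) (((su.win w).Gt ω g).image su.fr.κ))) := by
      refine (su.hE.mono (Finset.subset_union_left.trans Finset.subset_union_left)).inter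
        ((hB.mono (Finset.union_subset_union_left (su.hR.trans Finset.subset_union_left))).inter
        (Str.CJ.biInter _ fun b hb => ρ.U_CJ' _ (hab b hb) ?_ (by simp [hb])))
      exact su.hR.trans (Finset.subset_union_left.trans Finset.subset_union_left)
    have h3 := su.p.T3 (su.win w) ω g hN hX (su.hv _ hX.1 inter_subset_left) hu' hι
    have e1 : σ.gL u⁻¹ ⁻¹' (su.E ∩ (B' ∩ BU (ρ.U su.n) (((su.win w).Gt ω g).image su.fr.κ))) =
        (su.E ∩ B') ∩ BU (ρ.U su.n) ((su.win w).Gt ω g) := by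
      rw [preimage_inter, preimage_inter, su.hE.gL_fix hP, hB.gL_fix fun b hb => by
        rcases Finset.mem_union.mp hb with h | h
        · exact hP b (su.hR h)
        · exact hN' b h, inter_assoc]
      congr 2
      ext ℓ
      simp only [BU, mem_preimage, mem_setOf_eq, Finset.forall_mem_image]
      refine forall₂_congr fun b hb => ?_
      have := ρ.U_gL su.n (su.fr.κ b) u⁻¹ (hab _ (Finset.mem_image_of_mem _ hb))
        fun j hj => hP j (su.hR hj)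
      rw [hu' b (by simp [hb])] at this
      rw [← this]; rfl
    rwa [e1] at h3
  filter_upwards [eventually_all.mpr key] with F hF y
  rw [Ps, Shr.Psi_apply, Shr.Err_apply, ← av_const (ι := (su.win w).Om' × (su.win w).Sel)
    (su.e / σ.M), ← av_add, ← av_add]
  exact av_mono fun ξ => hF ξ y

/-- States of the chain. -/
structure CSt where
  z : L
  N : Finset ℚ
  w : Fin su.W
  F : Finset Γ
  B' : Set L
  V : Set L
  z_K : z ∈ ρ.K su.s₁
  N_above : ∀ b ∈ N, Above su.fr.J0 b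
  B_CJ : σ.CJ (ρ.R0 ∪ N) B'
  V_clopen : IsClopen V
  z_V : z ∈ V
  V_sub : V ⊆ su.E ∩ B' ∩ BU (ρ.U su.n) su.fr.T
  light : su.Light z w F
  marg : su.Marg w F B'

lemma nonempty_CSt : Nonempty su.CSt := by
  obtain ⟨F, hF⟩ := (eventually_all.mpr fun w => su.marg w (N := ∅) (by simp)
    (Str.CJ.univ _)).exists
  obtain ⟨w, hw⟩ := su.exists_light su.z₀ F
  exact ⟨⟨su.z₀, ∅, w, F, univ, su.E ∩ univ ∩ BU (ρ.U su.n) su.fr.T, su.z₀_K, by simp,
    Str.CJ.univ _, (su.hE.1.inter isClopen_univ).inter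
      (Str.CJ.biInter _ fun b hb => su.hU b (Finset.mem_union_left _ hb)).1,
    ⟨⟨su.z₀_E, mem_univ _⟩, su.z₀_U⟩, subset_rfl, hw, hF w⟩⟩

lemma exists_small : ∃ a : su.CSt, σ.Lam a.z (su.Ps a.w a.F (su.C ∩ a.B')) ≤ 6 * su.e := by
  by_contra Hbig
  push Not at Hbig
  have hM := σ.M_pos
  have he := su.e_pos
  have hη := ρ.η_pos
  have hs₂ := su.s₂_pos
  have hs₁ : 0 < su.s₁ := hs₂.trans su.s_lt
  obtain ⟨β₀, hβ₀⟩ := ρ.exists_Inv su.hC su.hCK
  obtain ⟨a₀⟩ := su.nonempty_CSt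
  refine no_chain (St := su.CSt) (Lab := Fin su.W) (fun a b => b.V ⊆ a.V ∧ a.F ⊆ b.F)
    (fun a => ⟨subset_rfl, subset_rfl⟩) (fun a b c h h' => ⟨h'.1.trans h.1, h.2.trans h'.2⟩)
    (fun a => a.w) (M := σ.M * σ.M) (c := 2 * su.e) (by positivity)
    (fun a X => σ.Lam a.z (su.Ps a.w a.F X))
    (fun a => ⟨fun X Y hX hY => ?_, fun ι t Y h1 h2 => ?_⟩) (ρ.Inv su.s₂ su.C) β₀ hβ₀ a₀ ?_
  · rw [← map_add]
    exact σ.Lam_mono _ fun y => su.p.Psi_sub _ su.hU _ hX hY y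
  · rw [← map_sum]
    refine σ.Lam_le_const _ hM.le fun y => ?_
    rw [ContinuousMap.sum_apply]
    simpa [Ps] using su.p.Psi_sum _ su.hU a.F t Y h1 zero_le_one (ovl_le_one h2) y
  intro a β hβ
  obtain ⟨J₁, k, n₀, δ, hJ₁, hk, hδ, hδ1, hCJ, hβJ, hfail⟩ := hβ.params ρ su.hC
  obtain ⟨JV, hJV⟩ := σ.exists_CJ a.V_clopen
  set J := su.fr.J0 ∪ a.N ∪ J₁ ∪ JV with hJ
  have hJ0 : su.fr.J0 ⊆ J :=
    Finset.subset_union_left.trans (Finset.subset_union_left.trans Finset.subset_union_left)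
  have hJN : a.N ⊆ J :=
    Finset.subset_union_right.trans (Finset.subset_union_left.trans Finset.subset_union_left)
  have hJ1 : J₁ ⊆ J := Finset.subset_union_right.trans Finset.subset_union_left
  have hRJ : ρ.R0 ⊆ J := hJ₁.trans hJ1
  have hVJ : σ.CJ J a.V := hJV.mono Finset.subset_union_right
  set θ₀ := max (1 - δ) (su.s₂ / su.s₁) with hθ₀
  have hr1 : su.s₂ / su.s₁ < 1 := (div_lt_one hs₁).mpr su.s_lt
  have hr0 : 0 ≤ su.s₂ / su.s₁ := by positivity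
  obtain ⟨q, hq⟩ := exists_pow_le (x := θ₀) (ε := su.e / (2 * σ.M * σ.M))
    (max_lt (by linarith) hr1) (by positivity) (hr0.trans (le_max_right _ _))
  obtain ⟨n, hn, T, hT, hsT, z, hzV, hzU, hcnt⟩ := ρ.K_subset_Theta _ a.z_K J hRJ a.V hVJ a.z_V
    (q * k) (max n₀ 1) (1 / 2) (by norm_num)
  have hn1 : (1 : ℝ) ≤ n := by exact_mod_cast (le_max_right _ _).trans hn
  have hTpos : (0 : ℝ) < T.card := lt_of_lt_of_le (by positivity) hsT
  have hTR : ∀ b ∈ T, Above ρ.R0 b := fun b hb => (hT b hb).mono hRJ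
  let BH : (Fin (q * k) → ℚ) → Set L := fun H => BU (ρ.U n) (im H ∩ T)
  have hBH : ∀ H, σ.CJ (ρ.R0 ∪ (a.N ∪ im H ∩ T)) (BH H) := fun H =>
    Str.CJ.biInter _ fun b hb => ρ.U_CJ' _ (hTR b (Finset.mem_inter.mp hb).2)
      Finset.subset_union_left (Finset.mem_union_right _ (Finset.mem_union_right _ hb))
  have hB'H : ∀ H, σ.CJ (ρ.R0 ∪ (a.N ∪ im H ∩ T)) (a.B' ∩ BH H) := fun H =>
    (a.B_CJ.mono (Finset.union_subset_union_right Finset.subset_union_left)).inter (hBH H)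
  have hsubJ : ∀ H : Fin (q * k) → ℚ, ρ.R0 ∪ (a.N ∪ im H ∩ T) ⊆ J ∪ im H := fun H =>
    Finset.union_subset (hRJ.trans Finset.subset_union_left) (Finset.union_subset
      (hJN.trans Finset.subset_union_left)
      (Finset.inter_subset_left.trans Finset.subset_union_right))
  have hNH : ∀ H : Fin (q * k) → ℚ, ∀ b ∈ a.N ∪ im H ∩ T, Above su.fr.J0 b := by
    intro H b hb
    rcases Finset.mem_union.mp hb with h | h
    · exact a.N_above b h
    · exact (hT b (Finset.mem_inter.mp h).2).mono hJ0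
  let X : (Fin (q * k) → ℚ) → Set L := fun H => su.C ∩ (a.B' ∩ BH H)
  have hX : ∀ H, σ.CJ (J ∪ im H) (X H) := fun H =>
    (hCJ.mono (hJ1.trans Finset.subset_union_left)).inter ((hB'H H).mono (hsubJ H))
  obtain ⟨O, hO1, hO2, hO3⟩ := ρ.exists_test (s := su.s₂) hβ.1 (seqs (q * k) T)
    (fun H => J ∪ im H) (fun H => hRJ.trans Finset.subset_union_left)
    (fun H => hβJ _ (hJ1.trans Finset.subset_union_left)) X hX isClosed_univ
    (θ := su.e / (2 * σ.M * σ.M) * (T.card : ℝ) ^ (q * k)) (by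
      intro ℓ _
      by_cases hℓ : ℓ ∈ su.C
      · set T' := T.filter (fun b => ℓ ∈ ρ.U n b) with hT'
        have hT'T : (T'.card : ℝ) ≤ T.card := Nat.cast_le.mpr (Finset.card_filter_le _ _)
        have h1 : ((cnt k T fun B => B ⊆ T' ∧ σ.r (J ∪ B) ℓ ∈ ρ.Sa su.s₂ (β ℓ) : ℕ) : ℝ) ≤
            cnt k T' fun B => σ.r (J ∪ B) ℓ ∈ ρ.Sa su.s₂ (β ℓ) := by
          exact Nat.cast_le.mpr ((cnt_restrict (T' := T') fun B _ h => h.1).trans
            (cnt_mono fun B _ h => h.2))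
        have h2 : ((cnt k T' fun B => σ.r (J ∪ B) ℓ ∈ ρ.Sa su.s₂ (β ℓ) : ℕ) : ℝ) ≤
            θ₀ * (T.card : ℝ) ^ k := by
          by_cases hs : su.s₂ * ρ.η * n ≤ T'.card
          · refine (hfail ℓ hℓ J hJ1 n ((le_max_left _ _).trans hn) T'
              (fun b hb => hT b (Finset.mem_filter.mp hb).1) hs
              (fun b hb => (Finset.mem_filter.mp hb).2)).trans ?_
            exact mul_le_mul (le_max_left _ _) (pow_le_pow_left₀ (Nat.cast_nonneg _) hT'T k)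
              (by positivity) (hr0.trans (le_max_right _ _))
          · have h3 : (T'.card : ℝ) ≤ su.s₂ / su.s₁ * T.card := by
              refine (not_le.mp hs).le.trans ?_
              rw [show su.s₂ * ρ.η * n = su.s₂ / su.s₁ * (su.s₁ * ρ.η * n) by field_simp]
              exact mul_le_mul_of_nonneg_left hsT hr0
            have h4 : ((cnt k T' fun B => σ.r (J ∪ B) ℓ ∈ ρ.Sa su.s₂ (β ℓ) : ℕ) : ℝ) ≤
                (T'.card : ℝ) ^ k := by exact_mod_cast cnt_le k T' _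
            refine h4.trans ((pow_le_pow_left₀ (Nat.cast_nonneg _) h3 k).trans ?_)
            rw [mul_pow]
            refine mul_le_mul_of_nonneg_right (le_trans ?_ (le_max_right _ _)) (by positivity)
            exact pow_le_of_le_one hr0 hr1.le (by omega)
        have h5 := cnt_boost q k T (Q := fun B => B ⊆ T' ∧ σ.r (J ∪ B) ℓ ∈ ρ.Sa su.s₂ (β ℓ))
          (fun B B' hB h' => ⟨hB.trans h'.1, (ρ.RCl_Sa _ _).her ρ
            (hRJ.trans Finset.subset_union_left) (Finset.union_subset_union_right hB) h'.2⟩)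
          (h1.trans h2)
        refine le_trans (Nat.cast_le.mpr (ovl_mono fun H hH h => ⟨fun b hb => ?_, h.2⟩))
          (h5.trans (mul_le_mul_of_nonneg_right hq (by positivity)))
        exact Finset.mem_filter.mpr ⟨im_subset hH hb,
          h.1.2.2 b (Finset.mem_inter.mpr ⟨hb, im_subset hH hb⟩)⟩
      · rw [ovl_congr (Q := fun _ => False) fun H _ => by simp [X, hℓ]]
        simp only [ovl, Finset.filter_false, Finset.card_empty, Nat.cast_zero]
        positivity)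
  have hvX : ∀ H (Z : Set L), IsClopen Z → ∀ Y, IsClopen Y → su.p.Van ((X H ∩ Z) ∩ Y) :=
    fun H Z hZ Y hY => su.hv _ (((hX H).1.inter hZ).inter hY) fun x hx => su.hCE hx.1.1.1
  have hι : 0 < su.e / σ.M := by positivity
  obtain ⟨F, hF0, hF⟩ := ((eventually_ge_atTop a.F).and ((eventually_all_finset (seqs (q * k) T)).mpr
    fun H _ => eventually_all.mpr fun w : Fin su.W => (su.marg w (hNH H) (hB'H H)).and
      (su.p.Psi_T2 (su.win w) su.hU (hvX H _ (hO1 H).1.compl) hι))).exists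
  obtain ⟨w, hw⟩ := su.exists_light z F
  obtain ⟨H, hH, hHm⟩ : ∃ H ∈ (seqs (q * k) T).filter fun H => σ.r (J ∪ im H) z ∈ ρ.K su.s₁,
      σ.Lam z (su.Ps w F (X H ∩ O H)) ≤ su.e := by
    have hc : 1 / 2 * (T.card : ℝ) ^ (q * k) ≤
        ((seqs (q * k) T).filter fun H => σ.r (J ∪ im H) z ∈ ρ.K su.s₁).card := by
      have : (1 : ℝ) - 1 / 2 = 1 / 2 := by norm_num
      rw [this] at hcnt
      exact hcnt
    have hTk : 0 < (T.card : ℝ) ^ (q * k) := by positivity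
    refine Finset.exists_le_of_sum_le (Finset.card_pos.mp (by
      have : (0 : ℝ) < _ := lt_of_lt_of_le (by positivity) hc
      exact_mod_cast this)) ?_
    rw [Finset.sum_const, nsmul_eq_mul]
    refine le_trans (Finset.sum_le_sum_of_subset_of_nonneg (Finset.filter_subset _ _)
      fun H _ _ => σ.Lam_nonneg _ (su.p.Psi_nonneg _ _ _ _)) ?_
    rw [← map_sum]
    refine (σ.Lam_le_const z (c := su.e / (2 * σ.M * σ.M) * (T.card : ℝ) ^ (q * k) * σ.M)
      (by positivity) fun y => ?_).trans ?_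
    · rw [ContinuousMap.sum_apply]
      refine su.p.Psi_sum _ su.hU F _ _ (fun H _ => (hX H).1.inter (hO1 H).1) (by positivity)
        (fun ℓ => ?_) y
      exact le_trans (Nat.cast_le.mpr (ovl_mono fun H _ h => h.2)) (hO3 ℓ (mem_univ _))
    · rw [show su.e / (2 * σ.M * σ.M) * (T.card : ℝ) ^ (q * k) * σ.M * σ.M =
        1 / 2 * (T.card : ℝ) ^ (q * k) * su.e by field_simp]
      exact mul_le_mul_of_nonneg_right hc he.le
  obtain ⟨hHs, hHK⟩ := Finset.mem_filter.mp hH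
  set z' := σ.r (J ∪ im H) z with hz'
  have hz'V : z' ∈ a.V := ((hVJ.mono Finset.subset_union_left).2 z).mpr hzV
  have hz'B : z' ∈ BH H := (((hBH H).mono (hsubJ H)).2 z).mpr
    fun b hb => hzU b (Finset.mem_inter.mp hb).2
  have hsm : σ.Lam z' (su.Ps w F (X H ∩ O H)) ≤ 2 * su.e := by
    refine (σ.Lam_r _ (su.p.Psi_nonneg _ _ _ _) z).trans ?_
    refine (σ.Lam_mono z (g := su.Ps w F (X H ∩ O H) + su.p.Err (su.win w) F) fun y => ?_).trans ?_
    · exact su.p.Psi_T1 _ su.hU F (hJ0.trans Finset.subset_union_left) ((hX H).inter (hO1 H))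
        (hvX H _ (hO1 H).1) y
    · rw [map_add]; linarith [su.Lam_Err hw]
  have mk : ∀ V₂, IsClopen V₂ → z' ∈ V₂ → ∃ b : su.CSt, b.z = z' ∧ b.w = w ∧ b.F = F ∧
      b.B' = a.B' ∩ BH H ∧ b.V = a.V ∩ BH H ∩ V₂ := fun V₂ h1 h2 =>
    ⟨⟨z', a.N ∪ im H ∩ T, w, F, a.B' ∩ BH H, a.V ∩ BH H ∩ V₂, hHK, hNH H, hB'H H,
      (a.V_clopen.inter (hBH H).1).inter h1, ⟨⟨hz'V, hz'B⟩, h2⟩, fun x hx =>
        ⟨⟨(a.V_sub hx.1.1).1.1, (a.V_sub hx.1.1).1.2, hx.1.2⟩, (a.V_sub hx.1.1).2⟩,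
      hw.r _, (hF H hHs w).1⟩, rfl, rfl, rfl, rfl, rfl⟩
  have hbig : 4 * su.e < σ.Lam z' (su.Ps w F (X H ∩ (O H)ᶜ)) := by
    obtain ⟨b, e1, e2, e3, e4, -⟩ := mk univ isClopen_univ (mem_univ _)
    have h1 := Hbig b
    rw [e1, e2, e3, e4] at h1
    have h2 := σ.Lam_mono z' (f := su.Ps w F (X H))
      (g := su.Ps w F (X H ∩ O H) + su.Ps w F (X H ∩ (O H)ᶜ))
      fun y => su.p.Psi_sub _ su.hU _ (hX H).1 (hO1 H).1 y
    rw [map_add] at h2
    change 6 * su.e < σ.Lam z' (su.Ps w F (X H)) at h1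
    linarith
  obtain ⟨V₂, hV₂, hzV₂, hV₂'⟩ := σ.Lam_lsc z' (su.p.Psi_nonneg _ _ _ _) hbig
  obtain ⟨b, e1, e2, e3, e4, e5⟩ := mk V₂ hV₂ hzV₂
  obtain ⟨β', hβ'1, hβ'2, hβ'3⟩ := hβ.refine ρ ((hX H).1.inter (hO1 H).1.compl) (hO2 H)
  refine ⟨b, β', X H ∩ (O H)ᶜ, ⟨by rw [e5]; exact fun x hx => hx.1.1, by rw [e3]; exact hF0⟩,
    hβ'1, (hX H).1.inter (hO1 H).1.compl, hβ'2, hβ'3, fun c hc hcw => ?_⟩
  have h1 := hV₂' c.z (by have := hc.1 c.z_V; rw [e5] at this; exact this.2)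
  have hcw' : c.w = w := hcw.trans e2
  have h2 := σ.Lam_mono c.z (f := su.Ps w F (X H ∩ (O H)ᶜ))
    (g := su.Ps w c.F (X H ∩ (O H)ᶜ) + ContinuousMap.const _ (su.e / σ.M) +
      su.p.Err (su.win w) c.F) fun y => (hF H hHs w).2 c.F (e3 ▸ hc.2) y
  rw [map_add, map_add] at h2
  have h3 := σ.Lam_le_const c.z (f := ContinuousMap.const _ (su.e / σ.M)) hι.le fun _ => le_rfl
  rw [div_mul_cancel₀ _ hM.ne'] at h3
  have h4 := su.Lam_Err (hcw' ▸ c.light)
  change 4 * su.e < σ.Lam c.z (su.Ps w F (X H ∩ (O H)ᶜ)) at h1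
  simp only [hcw']
  linarith

theorem core : ∃ z ∈ ρ.K su.s₁, ∃ (N : Finset ℚ) (Bs : Set L), (∀ b ∈ N, Above su.fr.P b) ∧
    σ.CJ (ρ.R0 ∪ N) Bs ∧ z ∈ su.E ∧ z ∈ Bs ∧
    σ.Lam z |(σ.tau (su.E ∩ Bs)).comp su.p.pi| ≤ 9 * su.e := by
  have hM := σ.M_pos
  have he := su.e_pos
  obtain ⟨a, ha⟩ := su.exists_small
  obtain ⟨ξ, hξ⟩ := exists_le_av fun ξ : (su.win a.w).Om' × (su.win a.w).Sel => σ.Lam a.z
    |(σ.tau (su.E ∩ (a.B' ∩ BU (ρ.U su.n) (((su.win a.w).Gt ξ.1 ξ.2).image su.fr.κ)))).comp su.p.pi|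
  have hG := (su.win a.w).Gc_sub ξ.1 ξ.2
  refine ⟨a.z, a.z_K, a.N ∪ su.fr.T,
    a.B' ∩ BU (ρ.U su.n) (((su.win a.w).Gt ξ.1 ξ.2).image su.fr.κ),
    fun b hb => ?_, ?_, (a.V_sub a.z_V).1.1,
    ⟨(a.V_sub a.z_V).1.2, fun b hb => (a.V_sub a.z_V).2 b (hG hb)⟩, hξ.trans ?_⟩
  · rcases Finset.mem_union.mp hb with h | h
    · exact (a.N_above b h).mono su.fr.P_sub
    · exact su.fr.T_above b h
  · exact (a.B_CJ.mono (Finset.union_subset_union_right Finset.subset_union_left)).inter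
      (Str.CJ.biInter _ fun b hb => ρ.U_CJ' _ ((su.fr.T_above b (hG hb)).mono su.hR)
        Finset.subset_union_left (by simp [hG hb]))
  rw [← map_avF]
  have hι : 0 < su.e / σ.M := by positivity
  refine (σ.Lam_mono a.z (g := su.Ps a.w a.F (su.C ∩ a.B') +
    ContinuousMap.const _ (Real.exp (-(su.A / 4)) * σ.M) + ContinuousMap.const _ (su.e / σ.M) +
    su.p.Err (su.win a.w) a.F) fun y => ?_).trans ?_
  · rw [avF_apply]
    refine (a.marg y).trans ?_
    have h1 := su.p.Psi_sub (su.win a.w) su.hU a.F (su.hE.1.inter a.B_CJ.1) su.hC y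
    have h2 := su.p.Psi_count (su.win a.w) su.hU a.F ((su.hE.1.inter a.B_CJ.1).diff su.hC)
      (su.hk a.w) (su.hd a.w) (fun ℓ hℓ => su.hm a.w ℓ ⟨hℓ.1.1, hℓ.2⟩) y
    have e : su.E ∩ a.B' ∩ su.C = su.C ∩ a.B' := by
      ext x; exact ⟨fun h => ⟨h.2, h.1.2⟩, fun h => ⟨⟨su.hCE h.1, h.2⟩, h.1⟩⟩
    rw [e] at h1
    simp only [ContinuousMap.add_apply, ContinuousMap.const_apply, Ps]
    linarith
  · rw [map_add, map_add, map_add]
    have h3 := σ.Lam_le_const a.z (f := ContinuousMap.const _ (su.e / σ.M)) hι.le fun _ => le_rfl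
    rw [div_mul_cancel₀ _ hM.ne'] at h3
    have h4 := σ.Lam_le_const a.z (f := ContinuousMap.const _ (Real.exp (-(su.A / 4)) * σ.M))
      (c := Real.exp (-(su.A / 4)) * σ.M) (by positivity) fun _ => le_rfl
    linarith [su.Lam_Err a.light, su.hA]

end Setup

end Pool.Agent.Lib.MP_9e0ccb_an
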