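import Mathlib

set_option autoImplicit false
set_option linter.unusedSectionVars false
set_option linter.deprecated false
set_option linter.unusedVariables false
set_option linter.unusedSimpArgs false
open Set Filter Topology

namespace Pool.Agent.Lib.MP_9e0ccb_an

variable {L : Type} [TopologicalSpace L]

/-- Subadditive set functions of bounded variation on the clopen algebra. -/
structure GoodN (M : ℝ) (N : Set L → ℝ) : Prop where
  sub : ∀ X Y, IsClopen X → IsClopen Y → N X ≤ N (X ∩ Y) + N (X \ Y)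
  bdd : ∀ (ι : Type) (s : Finset ι) (Y : ι → Set L), (∀ i ∈ s, IsClopen (Y i)) →
    (∀ i ∈ s, ∀ j ∈ s, i ≠ j → Disjoint (Y i) (Y j)) → ∑ i ∈ s, N (Y i) ≤ M

/-- Sums over disjoint clopen families inside `X`. -/
def varSet (N : Set L → ℝ) (X : Set L) : Set ℝ :=
  {t | ∃ (ι : Type) (s : Finset ι) (Y : ι → Set L), (∀ i ∈ s, IsClopen (Y i) ∧ Y i ⊆ X) ∧
    (∀ i ∈ s, ∀ j ∈ s, i ≠ j → Disjoint (Y i) (Y j)) ∧ t = ∑ i ∈ s, N (Y i)}

/-- The variation. -/
noncomputable def var (N : Set L → ℝ) (X : Set L) : ℝ := sSup (varSet N X)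

lemma zero_mem_varSet (N : Set L → ℝ) (X : Set L) : 0 ∈ varSet N X :=
  ⟨Unit, ∅, fun _ => ∅, by simp, by simp, by simp⟩

namespace GoodN
variable {M : ℝ} {N : Set L → ℝ} (h : GoodN M N)
include h

lemma ub (X : Set L) : M ∈ upperBounds (varSet N X) := by
  rintro _ ⟨ι, s, Y, h1, h2, rfl⟩
  exact h.bdd ι s Y (fun i hi => (h1 i hi).1) h2

lemma var_le (X : Set L) : var N X ≤ M := csSup_le ⟨0, zero_mem_varSet N X⟩ (h.ub X)

lemma var_nonneg (X : Set L) : 0 ≤ var N X := le_csSup ⟨M, h.ub X⟩ (zero_mem_varSet N X)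

lemma le_var {X : Set L} (hX : IsClopen X) : N X ≤ var N X :=
  le_csSup ⟨M, h.ub X⟩ ⟨Unit, {()}, fun _ => X, by simp [hX], by simp, by simp⟩

lemma var_add {X Y : Set L} (hY : IsClopen Y) : var N X = var N (X ∩ Y) + var N (X \ Y) := by
  apply le_antisymm
  · refine csSup_le ⟨0, zero_mem_varSet N X⟩ ?_
    rintro _ ⟨ι, s, Z, h1, h2, rfl⟩
    calc ∑ i ∈ s, N (Z i) ≤ ∑ i ∈ s, (N (Z i ∩ Y) + N (Z i \ Y)) :=
          Finset.sum_le_sum fun i hi => h.sub _ _ (h1 i hi).1 hY
      _ = ∑ i ∈ s, N (Z i ∩ Y) + ∑ i ∈ s, N (Z i \ Y) := Finset.sum_add_distrib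
      _ ≤ _ := add_le_add
          (le_csSup ⟨M, h.ub _⟩ ⟨ι, s, fun i => Z i ∩ Y, fun i hi =>
            ⟨(h1 i hi).1.inter hY, inter_subset_inter_left _ (h1 i hi).2⟩,
            fun i hi j hj hij => (h2 i hi j hj hij).mono inter_subset_left inter_subset_left, rfl⟩)
          (le_csSup ⟨M, h.ub _⟩ ⟨ι, s, fun i => Z i \ Y, fun i hi =>
            ⟨(h1 i hi).1.diff hY, diff_subset_diff_left (h1 i hi).2⟩,
            fun i hi j hj hij => (h2 i hi j hj hij).mono diff_subset diff_subset, rfl⟩)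
  · have : var N (X ∩ Y) ≤ var N X - var N (X \ Y) := by
      refine csSup_le ⟨0, zero_mem_varSet N _⟩ ?_
      rintro _ ⟨ι, s, Z, h1, h2, rfl⟩
      have : var N (X \ Y) ≤ var N X - ∑ i ∈ s, N (Z i) := by
        refine csSup_le ⟨0, zero_mem_varSet N _⟩ ?_
        rintro _ ⟨ι', s', Z', h1', h2', rfl⟩
        have := le_csSup ⟨M, h.ub X⟩ (show _ ∈ varSet N X from
          ⟨ι ⊕ ι', s.disjSum s', Sum.elim Z Z', by
            rintro (i | i) hi
            · have := h1 i (by simpa using hi)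
              exact ⟨this.1, this.2.trans inter_subset_left⟩
            · have := h1' i (by simpa using hi)
              exact ⟨this.1, this.2.trans diff_subset⟩, by
            have hd : ∀ i ∈ s, ∀ j ∈ s', Disjoint (Z i) (Z' j) := fun i hi j hj =>
              Disjoint.mono ((h1 i hi).2.trans inter_subset_right) (h1' j hj).2
                disjoint_sdiff_right
            rintro (i | i) hi (j | j) hj hij
            · exact h2 i (by simpa using hi) j (by simpa using hj) (by simpa using hij)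
            · exact hd i (by simpa using hi) j (by simpa using hj)
            · exact (hd j (by simpa using hj) i (by simpa using hi)).symm
            · exact h2' i (by simpa using hi) j (by simpa using hj) (by simpa using hij), rfl⟩)
        rw [Finset.sum_disjSum] at this
        simp only [Sum.elim_inl, Sum.elim_inr] at this
        change _ ≤ var N X at this
        linarith
      linarith
    linarith

end GoodN

/-- For a finitely additive measure, sets of measure bounded below have a common point infinitely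
often. -/
lemma recurrence_add [CompactSpace L] {M c : ℝ} (hc : 0 < c) (m : Set L → ℝ)
    (h0 : ∀ X, 0 ≤ m X) (hM : ∀ X, m X ≤ M)
    (hadd : ∀ X Y, IsClopen Y → m X = m (X ∩ Y) + m (X \ Y))
    (S : Set ℕ) (hS : S.Infinite) (F : ℕ → Set L) (hF : ∀ r, IsClopen (F r))
    (hFc : ∀ r ∈ S, c ≤ m (F r)) : ∃ ℓ, ∀ r₀, ∃ r, r₀ ≤ r ∧ ℓ ∈ F r := by
  have hmono : ∀ X Y, IsClopen X → X ⊆ Y → m X ≤ m Y := by
    intro X Y hX h
    rw [hadd Y X hX, inter_eq_right.mpr h]; linarith [h0 (Y \ X)]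
  let Big : Set L → Prop := fun X => ∃ δ > 0, ∀ r₀, ∃ r, r₀ ≤ r ∧ δ ≤ m (X ∩ F r)
  have hstep : ∀ X, IsClopen X → Big X → ∀ r₀, ∃ r, r₀ ≤ r ∧ Big (X ∩ F r) := by
    rintro X hX ⟨δ, hδ, hb⟩ r₀
    by_contra H
    push Not at H
    have key : ∀ n : ℕ, ∃ W, IsClopen W ∧ n * (δ / 2) ≤ m W ∧ ¬ Big W := by
      intro n
      induction n with
      | zero =>
        refine ⟨∅, isClopen_empty, by simpa using h0 _, ?_⟩
        rintro ⟨δ', hδ', hb'⟩
        obtain ⟨r, -, hr⟩ := hb' 0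
        have := hadd ∅ ∅ isClopen_empty
        simp only [empty_inter, diff_self] at this hr
        linarith
      | succ n ih =>
        obtain ⟨W, hW, h1, h2⟩ := ih
        have h2' := h2
        simp only [Big, not_exists, not_and, not_forall, not_le] at h2'
        obtain ⟨r₁, hr₁⟩ := h2' (δ / 2) (half_pos hδ)
        obtain ⟨r, hr, hr'⟩ := hb (max r₀ r₁)
        have h3 := hr₁ r ((le_max_right _ _).trans hr)
        have hXr : IsClopen (X ∩ F r) := hX.inter (hF r)
        refine ⟨W ∪ X ∩ F r, hW.union hXr, ?_, ?_⟩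
        · have e1 := hadd (W ∪ X ∩ F r) W hW
          rw [union_inter_cancel_left, union_diff_left] at e1
          have e2 := hadd (X ∩ F r) W hW
          have e3 := hmono (X ∩ F r ∩ W) (W ∩ F r) (hXr.inter hW) fun x hx => ⟨hx.2, hx.1.2⟩
          push_cast
          linarith
        · rintro ⟨δ', hδ', hb'⟩
          have h4 := H r ((le_max_left _ _).trans hr)
          simp only [Big, not_exists, not_and, not_forall, not_le] at h4
          obtain ⟨r₂, hr₂⟩ := h2' (δ' / 2) (half_pos hδ')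
          obtain ⟨r₃, hr₃⟩ := h4 (δ' / 2) (half_pos hδ')
          obtain ⟨q, hq, hq'⟩ := hb' (max r₂ r₃)
          have h5 := hr₂ q ((le_max_left _ _).trans hq)
          have h6 := hr₃ q ((le_max_right _ _).trans hq)
          have e1 := hadd ((W ∪ X ∩ F r) ∩ F q) W hW
          have e2 := hmono ((W ∪ X ∩ F r) ∩ F q ∩ W) (W ∩ F q)
            (((hW.union hXr).inter (hF q)).inter hW) fun x hx => ⟨hx.2, hx.1.2⟩
          have e3 := hmono (((W ∪ X ∩ F r) ∩ F q) \ W) (X ∩ F r ∩ F q)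
            (((hW.union hXr).inter (hF q)).diff hW) fun x hx => ⟨hx.1.1.resolve_left hx.2, hx.1.2⟩
          linarith
    obtain ⟨n, hn⟩ := exists_nat_gt (M / (δ / 2))
    obtain ⟨W, -, h1, -⟩ := key n
    rw [div_lt_iff₀ (half_pos hδ)] at hn
    linarith [hM W]
  have hU : Big univ := ⟨c, hc, fun r₀ => by
    obtain ⟨r, hr, hr'⟩ := hS.exists_gt r₀
    exact ⟨r, hr'.le, by rw [univ_inter]; exact hFc r hr⟩⟩
  choose nx hnx1 hnx2 using hstep
  let seq : ℕ → {X : Set L // IsClopen X ∧ Big X} := fun k => Nat.rec ⟨univ, isClopen_univ, hU⟩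
    (fun k X => ⟨X.1 ∩ F (nx X.1 X.2.1 X.2.2 k), X.2.1.inter (hF _), hnx2 _ _ _ _⟩) k
  obtain ⟨ℓ, hℓ⟩ := IsCompact.nonempty_iInter_of_sequence_nonempty_isCompact_isClosed
    (fun k => (seq k).1) (fun k => inter_subset_left) (fun k => by
      obtain ⟨δ, hδ, hb⟩ := (seq k).2.2
      obtain ⟨r, -, hr⟩ := hb 0
      by_contra hne
      rw [not_nonempty_iff_eq_empty.mp hne] at hr
      have := hadd ∅ ∅ isClopen_empty
      simp only [empty_inter, diff_self] at this hr
      linarith) (seq 0).2.1.isClosed.isCompact (fun k => (seq k).2.1.isClosed)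
  exact ⟨ℓ, fun r₀ => ⟨_, hnx1 _ (seq r₀).2.1 (seq r₀).2.2 r₀, (mem_iInter.mp hℓ (r₀ + 1)).2⟩⟩

lemma recurrence [CompactSpace L] {M c : ℝ} (hc : 0 < c) (S : Set ℕ) (hS : S.Infinite)
    (F : ℕ → Set L) (hF : ∀ r, IsClopen (F r))
    (H : ∀ R : ℕ, ∃ N, GoodN M N ∧ ∀ r ∈ S, r < R → c ≤ N (F r)) :
    ∃ ℓ, ∀ r₀, ∃ r, r₀ ≤ r ∧ ℓ ∈ F r := by
  choose N hN1 hN2 using H
  have : ∀ X : Set L, ∃ t ∈ Icc 0 M, Tendsto (fun R => var (N R) X) (hyperfilter ℕ) (𝓝 t) := by
    intro X
    exact isCompact_Icc.ultrafilter_le_nhds ((hyperfilter ℕ).map fun R => var (N R) X)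
      (by
        rw [le_principal_iff]
        exact mem_map.mpr (univ_mem' fun R => ⟨(hN1 R).var_nonneg X, (hN1 R).var_le X⟩))
  choose m hm1 hm2 using this
  refine recurrence_add (M := M) hc m (fun X => (hm1 X).1) (fun X => (hm1 X).2) (fun X Y hY => ?_)
    S hS F hF fun r hr => ?_
  · refine tendsto_nhds_unique (hm2 X) ?_
    simp only [fun R => (hN1 R).var_add (X := X) hY]
    exact (hm2 _).add (hm2 _)
  · refine ge_of_tendsto (hm2 _) ?_
    filter_upwards [Nat.hyperfilter_le_atTop (eventually_gt_atTop r)] with R hR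
    exact (hN2 R r hr hR).trans ((hN1 R).le_var (hF r))

/-- There is no infinite chain of states along which an ordinal valued function decreases on sets
of measure bounded below. -/
lemma no_chain [CompactSpace L] {St Lab : Type} [Finite Lab] (le : St → St → Prop)
    (hrefl : ∀ s, le s s) (htrans : ∀ a b c, le a b → le b c → le a c) (lab : St → Lab)
    {M c : ℝ} (hc : 0 < c) (N : St → Set L → ℝ) (hN : ∀ s, GoodN M (N s))
    (Inv : (L → Ordinal.{0}) → Prop) (β₀ : L → Ordinal.{0}) (hβ₀ : Inv β₀) (s₀ : St)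
    (step : ∀ s β, Inv β → ∃ s' β' F, le s s' ∧ Inv β' ∧ IsClopen F ∧ (∀ ℓ, β' ℓ ≤ β ℓ) ∧
      (∀ ℓ ∈ F, β' ℓ < β ℓ) ∧ ∀ s'', le s' s'' → lab s'' = lab s' → c ≤ N s'' F) : False := by
  choose s' β' F h1 h2 h3 h4 h5 h6 using step
  let seq : ℕ → St × {β // Inv β} := fun k => Nat.rec (s₀, ⟨β₀, hβ₀⟩)
    (fun _ a => (s' a.1 a.2.1 a.2.2, ⟨β' a.1 a.2.1 a.2.2, h2 _ _ _⟩)) k
  let G : ℕ → Set L := fun k => F (seq k).1 (seq k).2.1 (seq k).2.2
  have hle : ∀ a b, a ≤ b → le (seq a).1 (seq b).1 := by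
    intro a b hab
    induction b, hab using Nat.le_induction with
    | base => exact hrefl _
    | succ b _ ih => exact htrans _ _ _ ih (h1 _ _ (seq b).2.2)
  obtain ⟨w, hw⟩ := Finite.exists_infinite_fiber fun k => lab (seq (k + 1)).1
  have hS := Set.infinite_coe_iff.mp hw
  obtain ⟨ℓ, hℓ⟩ := recurrence (M := M) hc _ hS G (fun r => h3 _ _ _) fun R => by
    obtain ⟨R', hR', hlt⟩ := hS.exists_gt R
    refine ⟨N (seq (R' + 1)).1, hN _, fun r hr hrR => h6 _ _ _ _ (hle (r + 1) (R' + 1) (by omega)) ?_⟩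
    exact hR'.trans hr.symm
  have hanti : Antitone fun k => (seq k).2.1 ℓ :=
    antitone_nat_of_succ_le fun k => h4 _ _ (seq k).2.2 ℓ
  obtain ⟨_, ⟨r₀, rfl⟩, hmin⟩ := (wellFounded_lt (α := Ordinal.{0})).has_min
    (range fun k => (seq k).2.1 ℓ) (range_nonempty _)
  obtain ⟨r, hr, hr'⟩ := hℓ r₀
  exact hmin _ ⟨r + 1, rfl⟩ ((h5 _ _ _ ℓ hr').trans_le (hanti hr))

end Pool.Agent.Lib.MP_9e0ccb_an
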