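import Pool.Agent.Lib.MP_9e0ccb_an.Root
import Pool.Agent.Lib.MP_9e0ccb_an.Recur

set_option autoImplicit false
set_option linter.unusedSectionVars false
set_option linter.deprecated false
set_option linter.unusedVariables false
set_option linter.unusedSimpArgs false
open Set Filter Topology
open scoped Classical

namespace Pool.Agent.Lib.MP_9e0ccb_an

/-- The number of elements of `s` satisfying `P`. -/
noncomputable def ovl {ι : Type} (s : Finset ι) (P : ι → Prop) : ℕ := (s.filter P).card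

lemma ovl_eq {ι : Type} (s : Finset ι) (P : ι → Prop) [DecidablePred P] :
    ovl s P = (s.filter P).card := by
  unfold ovl; congr

lemma ovl_mono {ι : Type} {s : Finset ι} {P Q : ι → Prop} (h : ∀ i ∈ s, P i → Q i) :
    ovl s P ≤ ovl s Q := Finset.card_le_card (Finset.monotone_filter_right s h)

lemma ovl_le_card {ι : Type} (s : Finset ι) (P : ι → Prop) : ovl s P ≤ s.card :=
  Finset.card_filter_le _ _

lemma sum_ind_eq_ovl {L : Type} [TopologicalSpace L] {ι : Type} (s : Finset ι) (V : ι → Set L)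
    (hV : ∀ i ∈ s, IsClopen (V i)) (ℓ : L) :
    ∑ i ∈ s, ind (V i) ℓ = (ovl s fun i => ℓ ∈ V i : ℝ) := sum_ind_eq_card s V hV ℓ

section seqs

/-- Sequences of length `k` in `T`. -/
def seqs (k : ℕ) (T : Finset ℚ) : Finset (Fin k → ℚ) := Fintype.piFinset fun _ => T

/-- The set of values of a sequence. -/
def im {k : ℕ} (H : Fin k → ℚ) : Finset ℚ := Finset.univ.image H

/-- The number of sequences whose set of values satisfies `Q`. -/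
noncomputable def cnt (k : ℕ) (T : Finset ℚ) (Q : Finset ℚ → Prop) : ℕ :=
  ovl (seqs k T) fun H => Q (im H)

lemma mem_seqs {k : ℕ} {T : Finset ℚ} {H : Fin k → ℚ} : H ∈ seqs k T ↔ ∀ i, H i ∈ T := by
  simp [seqs]

lemma mem_im {k : ℕ} {H : Fin k → ℚ} {b : ℚ} : b ∈ im H ↔ ∃ i, H i = b := by simp [im]

lemma im_subset {k : ℕ} {T : Finset ℚ} {H : Fin k → ℚ} (h : H ∈ seqs k T) : im H ⊆ T := by
  intro b hb
  obtain ⟨i, rfl⟩ := mem_im.mp hb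
  exact mem_seqs.mp h i

lemma card_im_le {k : ℕ} (H : Fin k → ℚ) : (im H).card ≤ k :=
  Finset.card_image_le.trans (by simp)

lemma card_seqs (k : ℕ) (T : Finset ℚ) : (seqs k T).card = T.card ^ k := by
  simp [seqs, Fintype.card_piFinset]

lemma cnt_le (k : ℕ) (T : Finset ℚ) (Q : Finset ℚ → Prop) : cnt k T Q ≤ T.card ^ k :=
  (Finset.card_filter_le _ _).trans (card_seqs k T).le

lemma cnt_mono {k : ℕ} {T : Finset ℚ} {Q Q' : Finset ℚ → Prop} (h : ∀ A, A ⊆ T → Q A → Q' A) :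
    cnt k T Q ≤ cnt k T Q' :=
  ovl_mono fun H hH h' => h _ (im_subset hH) h'

lemma cnt_add (j k : ℕ) (T : Finset ℚ) {Q : Finset ℚ → Prop}
    (hQ : ∀ A A', A' ⊆ A → Q A → Q A') : cnt (j + k) T Q ≤ cnt j T Q * cnt k T Q := by
  unfold cnt ovl
  rw [← Finset.card_product]
  refine Finset.card_le_card_of_injOn
    (fun H => (fun i => H (Fin.castAdd k i), fun i => H (Fin.natAdd j i))) ?_ ?_
  · intro H hH
    simp only [Finset.coe_filter, mem_setOf_eq, mem_seqs, Finset.coe_product, mem_prod] at hH ⊢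
    refine ⟨⟨fun i => hH.1 _, hQ _ _ (fun b hb => ?_) hH.2⟩, fun i => hH.1 _,
      hQ _ _ (fun b hb => ?_) hH.2⟩
    · obtain ⟨i, rfl⟩ := mem_im.mp hb; exact mem_im.mpr ⟨_, rfl⟩
    · obtain ⟨i, rfl⟩ := mem_im.mp hb; exact mem_im.mpr ⟨_, rfl⟩
  · intro H _ H' _ h
    funext i
    refine Fin.addCases (fun i => ?_) (fun i => ?_) i
    · exact congrFun (congrArg Prod.fst h) i
    · exact congrFun (congrArg Prod.snd h) i

lemma cnt_mul (a k : ℕ) (T : Finset ℚ) {Q : Finset ℚ → Prop}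
    (hQ : ∀ A A', A' ⊆ A → Q A → Q A') : cnt (a * k) T Q ≤ cnt k T Q ^ a := by
  induction a with
  | zero => simpa using cnt_le 0 T Q
  | succ a ih =>
    rw [Nat.succ_mul, pow_succ]
    exact (cnt_add _ _ T hQ).trans (Nat.mul_le_mul_right _ ih)

lemma cnt_boost (a k : ℕ) (T : Finset ℚ) {Q : Finset ℚ → Prop}
    (hQ : ∀ A A', A' ⊆ A → Q A → Q A') {θ : ℝ} (h : (cnt k T Q : ℝ) ≤ θ * T.card ^ k) :
    (cnt (a * k) T Q : ℝ) ≤ θ ^ a * T.card ^ (a * k) := by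
  have h1 : (cnt (a * k) T Q : ℝ) ≤ (cnt k T Q : ℝ) ^ a := by exact_mod_cast cnt_mul a k T hQ
  refine h1.trans ((pow_le_pow_left₀ (Nat.cast_nonneg _) h a).trans (le_of_eq ?_))
  rw [mul_pow, ← pow_mul, mul_comm k a]

lemma cnt_sub {k : ℕ} {T T' : Finset ℚ} (hT : T' ⊆ T) (Q : Finset ℚ → Prop) :
    cnt k T Q + T'.card ^ k ≤ T.card ^ k + cnt k T' Q := by
  have hsub : seqs k T' ⊆ seqs k T := fun H hH => mem_seqs.mpr fun i => hT (mem_seqs.mp hH i)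
  have h1 := Finset.card_filter_add_card_filter_not (s := seqs k T) fun H => Q (im H)
  have h2 := Finset.card_filter_add_card_filter_not (s := seqs k T') fun H => Q (im H)
  have h3 := Finset.card_le_card (Finset.filter_subset_filter (fun H => ¬ Q (im H)) hsub)
  rw [card_seqs] at h1 h2
  unfold cnt ovl
  omega

lemma cnt_restrict {k : ℕ} {T T' : Finset ℚ} {Q : Finset ℚ → Prop}
    (h : ∀ A, A ⊆ T → Q A → A ⊆ T') : cnt k T Q ≤ cnt k T' Q :=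
  Finset.card_le_card fun H hH => by
    rw [Finset.mem_filter] at hH ⊢
    exact ⟨mem_seqs.mpr fun i => h _ (im_subset hH.1) hH.2 (mem_im.mpr ⟨i, rfl⟩), hH.2⟩

end seqs

variable {Γ L : Type} [TopologicalSpace L] [CompactSpace L] [T2Space L]
  [TotallyDisconnectedSpace L] {σ : Str Γ L}

lemma Str.sum_abs_tau_ovl (σ : Str Γ L) {ι : Type} (s : Finset ι) (V : ι → Set L)
    (hV : ∀ i ∈ s, IsClopen (V i)) {c : ℝ} (hc : 0 ≤ c)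
    (H : ∀ ℓ, (ovl s fun i => ℓ ∈ V i : ℝ) ≤ c) (y : B Γ) :
    ∑ i ∈ s, |σ.tau (V i) y| ≤ c * σ.M := σ.sum_abs_tau_le s V hV hc H y

/-- Clopen saturated neighbourhoods keeping an overlap bound. -/
lemma exists_O {ι : Type} (s : Finset ι) (J : ι → Finset ℚ) (K : ι → Set L)
    (hK : ∀ i, IsClosed (K i)) (hsat : ∀ i ℓ, σ.r (J i) ℓ ∈ K i ↔ ℓ ∈ K i) {Y : Set L}
    (hY : IsClosed Y) {θ : ℝ} (h : ∀ ℓ ∈ Y, (ovl s fun i => ℓ ∈ K i : ℝ) ≤ θ) :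
    ∃ O : ι → Set L, (∀ i, σ.CJ (J i) (O i) ∧ K i ⊆ O i) ∧
      ∀ ℓ ∈ Y, (ovl s fun i => ℓ ∈ O i : ℝ) ≤ θ := by
  refine hY.isCompact.induction_on
    (p := fun Z : Set L => ∃ O : ι → Set L, (∀ i, σ.CJ (J i) (O i) ∧ K i ⊆ O i) ∧
      ∀ ℓ ∈ Z, (ovl s fun i => ℓ ∈ O i : ℝ) ≤ θ)
    ⟨fun _ => univ, fun i => ⟨Str.CJ.univ _, subset_univ _⟩, by simp⟩
    (fun Z Z' hZ ⟨O, h1, h2⟩ => ⟨O, h1, fun ℓ hℓ => h2 ℓ (hZ hℓ)⟩) ?_ ?_
  · rintro Z Z' ⟨O, h1, h2⟩ ⟨O', h1', h2'⟩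
    refine ⟨fun i => O i ∩ O' i, fun i => ⟨(h1 i).1.inter (h1' i).1,
      subset_inter (h1 i).2 (h1' i).2⟩, fun ℓ hℓ => ?_⟩
    rcases hℓ with hℓ | hℓ
    · refine le_trans ?_ (h2 ℓ hℓ)
      exact Nat.cast_le.mpr (ovl_mono fun i _ hi => hi.1)
    · refine le_trans ?_ (h2' ℓ hℓ)
      exact Nat.cast_le.mpr (ovl_mono fun i _ hi => hi.2)
  · intro ℓ hℓ
    have : ∀ i, ∃ O, (σ.CJ (J i) O ∧ K i ⊆ O) ∧ (ℓ ∉ K i → ℓ ∉ O) := by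
      intro i
      by_cases hi : ℓ ∈ K i
      · exact ⟨univ, ⟨Str.CJ.univ _, subset_univ _⟩, fun h => absurd hi h⟩
      · obtain ⟨W, hW, h1, h2⟩ := exists_clopen_nhd (hK i).isOpen_compl
          (ℓ := σ.r (J i) ℓ) (fun h => hi ((hsat i ℓ).mp h))
        exact ⟨(σ.r (J i) ⁻¹' W)ᶜ, ⟨(Str.CJ.preimage_r _ hW).compl,
          fun x hx hx' => h2 hx' ((hsat i x).mpr hx)⟩, fun _ h => h h1⟩
    choose O hO1 hO2 using this
    refine ⟨⋂ i ∈ s.filter (fun i => ℓ ∉ K i), (O i)ᶜ, mem_nhdsWithin_of_mem_nhds ?_, O, hO1,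
      fun x hx => le_trans ?_ (h ℓ hℓ)⟩
    · rw [biInter_finset_mem]
      exact fun i hi => (hO1 i).1.1.compl.isOpen.mem_nhds (hO2 i (Finset.mem_filter.mp hi).2)
    · refine Nat.cast_le.mpr (ovl_mono fun i hi hx' => ?_)
      by_contra hn
      exact mem_iInter₂.mp hx i (Finset.mem_filter.mpr ⟨hi, hn⟩) hx'

namespace Root
variable (ρ : Root σ)

/-- One step of the capacity derivation. -/
def Theta (s : ℝ) (A : Set L) : Set L :=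
  {ℓ | ∀ J, ρ.R0 ⊆ J → ∀ V, σ.CJ J V → ℓ ∈ V → ∀ (k n₀ : ℕ) (δ : ℝ), 0 < δ →
    ∃ n, n₀ ≤ n ∧ ∃ T : Finset ℚ, (∀ b ∈ T, Above J b) ∧ s * ρ.η * n ≤ T.card ∧
      ∃ z ∈ V, (∀ b ∈ T, z ∈ ρ.U n b) ∧
        (1 - δ) * T.card ^ k ≤ cnt k T fun B => σ.r (J ∪ B) z ∈ A}

/-- Sets closed under the retractions. -/
def RCl (A : Set L) : Prop := ∀ J, ρ.R0 ⊆ J → ∀ ℓ ∈ A, σ.r J ℓ ∈ A

lemma isClosed_Theta (s : ℝ) (A : Set L) : IsClosed (ρ.Theta s A) := by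
  rw [← closure_subset_iff_isClosed]
  intro ℓ hℓ J hJ V hV hℓV
  obtain ⟨ℓ', h1, h2⟩ := mem_closure_iff.mp hℓ V hV.1.isOpen hℓV
  exact h2 J hJ V hV h1

lemma RCl.her {A : Set L} (hA : ρ.RCl A) {J J' : Finset ℚ} (hJ : ρ.R0 ⊆ J) (h : J ⊆ J') {z : L}
    (hz : σ.r J' z ∈ A) : σ.r J z ∈ A := by
  rw [← σ.r_r_of_subset h]; exact hA J hJ _ hz

lemma RCl_Theta (s : ℝ) {A : Set L} (hA : ρ.RCl A) : ρ.RCl (ρ.Theta s A) := by
  intro J' hJ' ℓ hℓ J hJ V hV hℓV k n₀ δ hδ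
  obtain ⟨n, hn, T, hT, hs, z, hz, hU, hc⟩ := hℓ (J ∪ J') (hJ.trans Finset.subset_union_left)
    (σ.r J' ⁻¹' V) ((Str.CJ.preimage_r J' hV.1).mono Finset.subset_union_right) hℓV k n₀ δ hδ
  refine ⟨n, hn, T, fun b hb => (hT b hb).mono Finset.subset_union_left, hs,
    σ.r (J' ∪ T) z, ?_, fun b hb => ?_, hc.trans (Nat.cast_le.mpr (cnt_mono fun B hB h => ?_))⟩
  · rw [← hV.2, σ.r_r]
    have e : J ∩ (J' ∪ T) = J ∩ J' := by
      ext b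
      simp only [Finset.mem_inter, Finset.mem_union]
      refine ⟨fun h => ⟨h.1, h.2.resolve_right fun hb => ?_⟩, fun h => ⟨h.1, Or.inl h.2⟩⟩
      exact (hT b hb).not_mem (Finset.mem_union_left _ h.1)
    rw [e, ← σ.r_r, hV.2]; exact hz
  · rw [(ρ.U_CJ' n ((hT b hb).mono (hJ.trans Finset.subset_union_left))
      (hJ'.trans Finset.subset_union_left) (Finset.mem_union_right _ hb)).2]
    exact hU b hb
  · rw [σ.r_r]
    refine hA.her ρ (Finset.subset_inter (hJ.trans Finset.subset_union_left)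
      (hJ'.trans Finset.subset_union_left)) ?_ h
    exact Finset.inter_subset_left.trans (Finset.union_subset_union_left Finset.subset_union_left)

lemma Theta_mono {s s' : ℝ} (hs : s' ≤ s) {A A' : Set L} (hA : A ⊆ A') :
    ρ.Theta s A ⊆ ρ.Theta s' A' := by
  intro ℓ hℓ J hJ V hV hℓV k n₀ δ hδ
  obtain ⟨n, hn, T, hT, h1, z, hz, hU, hc⟩ := hℓ J hJ V hV hℓV k n₀ δ hδ
  refine ⟨n, hn, T, hT, le_trans ?_ h1, z, hz, hU,
    hc.trans (Nat.cast_le.mpr (cnt_mono fun B _ h => hA h))⟩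
  exact mul_le_mul_of_nonneg_right (mul_le_mul_of_nonneg_right hs ρ.η_pos.le) (Nat.cast_nonneg _)

/-- The transfinite derivation. -/
def Sa (s : ℝ) (α : Ordinal.{0}) : Set L := ⋂ β : {β // β < α}, ρ.Theta s (Sa s β.1)
termination_by α
decreasing_by exact β.2

lemma mem_Sa {s : ℝ} {α : Ordinal.{0}} {ℓ : L} :
    ℓ ∈ ρ.Sa s α ↔ ∀ β < α, ℓ ∈ ρ.Theta s (ρ.Sa s β) := by
  rw [Sa]; simp

lemma isClosed_Sa (s : ℝ) (α : Ordinal.{0}) : IsClosed (ρ.Sa s α) := by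
  rw [Sa]; exact isClosed_iInter fun β => ρ.isClosed_Theta _ _

lemma RCl_Sa (s : ℝ) (α : Ordinal.{0}) : ρ.RCl (ρ.Sa s α) := by
  induction α using WellFoundedLT.induction with
  | ind α ih =>
    intro J hJ ℓ hℓ
    rw [mem_Sa] at hℓ ⊢
    exact fun β hβ => ρ.RCl_Theta s (ih β hβ) J hJ ℓ (hℓ β hβ)

lemma Sa_mono {s s' : ℝ} (hs : s' ≤ s) (α : Ordinal.{0}) : ρ.Sa s α ⊆ ρ.Sa s' α := by
  induction α using WellFoundedLT.induction with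
  | ind α ih =>
    intro ℓ hℓ
    rw [mem_Sa] at hℓ ⊢
    exact fun β hβ => ρ.Theta_mono hs (ih β hβ) (hℓ β hβ)

/-- The kernel: points of hereditary capacity at least `s`. -/
def K (s : ℝ) : Set L := ⋂ α : Ordinal.{0}, ρ.Sa s α

lemma isClosed_K (s : ℝ) : IsClosed (ρ.K s) := isClosed_iInter fun α => ρ.isClosed_Sa s α

lemma RCl_K (s : ℝ) : ρ.RCl (ρ.K s) := fun J hJ ℓ hℓ =>
  mem_iInter.mpr fun α => ρ.RCl_Sa s α J hJ ℓ (mem_iInter.mp hℓ α)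

lemma K_mono {s s' : ℝ} (hs : s' ≤ s) : ρ.K s ⊆ ρ.K s' :=
  iInter_mono fun α => ρ.Sa_mono hs α

lemma K_subset_Theta (s : ℝ) : ρ.K s ⊆ ρ.Theta s (ρ.K s) := by
  have : ∀ ℓ : L, ∃ α : Ordinal.{0}, ℓ ∈ ρ.Sa s α → ℓ ∈ ρ.K s := by
    intro ℓ
    by_cases h : ℓ ∈ ρ.K s
    · exact ⟨0, fun _ => h⟩
    · obtain ⟨α, hα⟩ := not_forall.mp (fun h' => h (mem_iInter.mpr h'))
      exact ⟨α, fun h' => absurd h' hα⟩
  choose a ha using this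
  intro ℓ hℓ
  have h1 := ρ.mem_Sa.mp (mem_iInter.mp hℓ (Order.succ (⨆ x, a x))) _ (Order.lt_succ _)
  refine ρ.Theta_mono le_rfl (fun x hx => ha x ?_) h1
  rw [mem_Sa] at hx ⊢
  exact fun β hβ => hx β (hβ.trans_le (Ordinal.le_iSup a x))

/-- Rank assignments on `C`. -/
def Inv (s : ℝ) (C : Set L) (β : L → Ordinal.{0}) : Prop :=
  IsLocallyConstant β ∧ ∀ ℓ ∈ C, ℓ ∉ ρ.Theta s (ρ.Sa s (β ℓ))

lemma exists_Inv {s : ℝ} {C : Set L} (hC : IsClopen C) (h : ∀ ℓ ∈ C, ℓ ∉ ρ.K s) :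
    ∃ β, ρ.Inv s C β := by
  refine exists_locConst (fun ℓ (i : Ordinal.{0}) => ℓ ∈ C → ℓ ∉ ρ.Theta s (ρ.Sa s i)) 0 fun ℓ => ?_
  by_cases hℓ : ℓ ∈ C
  · obtain ⟨α, hα⟩ := not_forall.mp (fun h' => h ℓ hℓ (mem_iInter.mpr h'))
    rw [mem_Sa] at hα
    push Not at hα
    obtain ⟨β, -, hβ⟩ := hα
    obtain ⟨V, hV, h1, h2⟩ := exists_clopen_nhd (ρ.isClosed_Theta s (ρ.Sa s β)).isOpen_compl hβ
    exact ⟨β, V, hV, h1, fun ℓ' h' _ => h2 h'⟩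
  · exact ⟨0, Cᶜ, hC.compl, hℓ, fun ℓ' h' h'' => absurd h'' h'⟩

lemma Inv.refine {s : ℝ} {C : Set L} {β : L → Ordinal.{0}} (h : ρ.Inv s C β) {F : Set L}
    (hF : IsClopen F) (hFs : ∀ ℓ ∈ F, ℓ ∉ ρ.Sa s (β ℓ)) :
    ∃ β', ρ.Inv s C β' ∧ (∀ ℓ, β' ℓ ≤ β ℓ) ∧ ∀ ℓ ∈ F, β' ℓ < β ℓ := by
  obtain ⟨β', h1, h2⟩ := exists_locConst (fun ℓ (i : Ordinal.{0}) =>
      (ℓ ∈ F → i < β ℓ ∧ ℓ ∉ ρ.Theta s (ρ.Sa s i)) ∧ (ℓ ∉ F → i = β ℓ)) 0 fun ℓ => by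
    by_cases hℓ : ℓ ∈ F
    · have hα := hFs ℓ hℓ
      rw [mem_Sa] at hα
      push Not at hα
      obtain ⟨i, hi, hi'⟩ := hα
      obtain ⟨V, hV, h1, h2⟩ := exists_clopen_nhd (ρ.isClosed_Theta s (ρ.Sa s i)).isOpen_compl hi'
      refine ⟨i, V ∩ F ∩ {x | β x = β ℓ}, (hV.inter hF).inter (h.1.isClopen_fiber _),
        ⟨⟨h1, hℓ⟩, rfl⟩, fun x hx => ⟨fun _ => ⟨?_, h2 hx.1.1⟩, fun h' => absurd hx.1.2 h'⟩⟩
      rw [show β x = β ℓ from hx.2]; exact hi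
    · exact ⟨β ℓ, Fᶜ ∩ {x | β x = β ℓ}, hF.compl.inter (h.1.isClopen_fiber _), ⟨hℓ, rfl⟩,
        fun x hx => ⟨fun h' => absurd h' hx.1, fun _ => hx.2.symm⟩⟩
  refine ⟨β', ⟨h1, fun ℓ hℓ => ?_⟩, fun ℓ => ?_, fun ℓ hℓ => ((h2 ℓ).1 hℓ).1⟩
  · by_cases hℓF : ℓ ∈ F
    · exact ((h2 ℓ).1 hℓF).2
    · rw [(h2 ℓ).2 hℓF]; exact h.2 ℓ hℓ
  · by_cases hℓF : ℓ ∈ F
    · exact ((h2 ℓ).1 hℓF).1.le
    · exact ((h2 ℓ).2 hℓF).le

/-- Failure of the derivation step with given parameters. -/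
def Fail (s : ℝ) (A : Set L) (z : L) (J₁ : Finset ℚ) (k n₀ : ℕ) (δ : ℝ) : Prop :=
  ∀ J, J₁ ⊆ J → ∀ n, n₀ ≤ n → ∀ T : Finset ℚ, (∀ b ∈ T, Above J b) → s * ρ.η * n ≤ T.card →
    (∀ b ∈ T, z ∈ ρ.U n b) → (cnt k T fun B => σ.r (J ∪ B) z ∈ A) ≤ (1 - δ) * T.card ^ k

lemma Fail.mono {s : ℝ} {A : Set L} (hA : ρ.RCl A) {z : L} {J₁ J₂ : Finset ℚ} {k k' n₀ n₁ : ℕ}
    {δ δ' : ℝ} (h : ρ.Fail s A z J₁ k n₀ δ) (hR : ρ.R0 ⊆ J₁) (hJ : J₁ ⊆ J₂) (hk : k ≤ k')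
    (hn : n₀ ≤ n₁) (hδ : δ' ≤ δ) : ρ.Fail s A z J₂ k' n₁ δ' := by
  intro J hJ' n hn' T hT hs hU
  have h1 := h J (hJ.trans hJ') n (hn.trans hn') T hT hs hU
  obtain ⟨j, rfl⟩ := Nat.exists_eq_add_of_le hk
  have h2 := (cnt_add k j T (Q := fun B => σ.r (J ∪ B) z ∈ A) fun B B' hB h' =>
    hA.her ρ (hR.trans ((hJ.trans hJ').trans Finset.subset_union_left))
      (Finset.union_subset_union_right hB) h').trans (Nat.mul_le_mul_left _ (cnt_le j T _))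
  have h3 : ((cnt (k + j) T fun B => σ.r (J ∪ B) z ∈ A : ℕ) : ℝ) ≤
      (cnt k T fun B => σ.r (J ∪ B) z ∈ A : ℕ) * (T.card : ℝ) ^ j := by exact_mod_cast h2
  calc _ ≤ _ := h3
    _ ≤ (1 - δ) * T.card ^ k * (T.card : ℝ) ^ j := mul_le_mul_of_nonneg_right h1 (by positivity)
    _ = (1 - δ) * T.card ^ (k + j) := by ring
    _ ≤ (1 - δ') * T.card ^ (k + j) := mul_le_mul_of_nonneg_right (by linarith) (by positivity)

lemma Inv.params {s : ℝ} {C : Set L} (hC : IsClopen C) {β : L → Ordinal.{0}} (h : ρ.Inv s C β) :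
    ∃ (J₁ : Finset ℚ) (k n₀ : ℕ) (δ : ℝ), ρ.R0 ⊆ J₁ ∧ 1 ≤ k ∧ 0 < δ ∧ δ ≤ 1 ∧ σ.CJ J₁ C ∧
      (∀ J, J₁ ⊆ J → ∀ ℓ, β (σ.r J ℓ) = β ℓ) ∧ ∀ z ∈ C, ρ.Fail s (ρ.Sa s (β z)) z J₁ k n₀ δ := by
  have := hC.isClosed.isCompact.induction_on
    (p := fun Z : Set L => ∃ (J₁ : Finset ℚ) (k n₀ : ℕ) (δ : ℝ), ρ.R0 ⊆ J₁ ∧ 0 < δ ∧
      ∀ z ∈ Z, ρ.Fail s (ρ.Sa s (β z)) z J₁ k n₀ δ)
    ⟨ρ.R0, 0, 0, 1, subset_rfl, one_pos, by simp⟩
    (fun Z Z' hZ ⟨J, k, n, δ, h1, h2, h3⟩ => ⟨J, k, n, δ, h1, h2, fun z hz => h3 z (hZ hz)⟩)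
    (by
      rintro Z Z' ⟨J, k, n, δ, h1, h2, h3⟩ ⟨J', k', n', δ', h1', h2', h3'⟩
      refine ⟨J ∪ J', max k k', max n n', min δ δ', h1.trans Finset.subset_union_left,
        lt_min h2 h2', fun z hz => ?_⟩
      rcases hz with hz | hz
      · exact (h3 z hz).mono ρ (ρ.RCl_Sa _ _) h1 Finset.subset_union_left (le_max_left _ _)
          (le_max_left _ _) (min_le_left _ _)
      · exact (h3' z hz).mono ρ (ρ.RCl_Sa _ _) h1' Finset.subset_union_right (le_max_right _ _)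
          (le_max_right _ _) (min_le_right _ _))
    (by
      intro ℓ hℓ
      have h1 := h.2 ℓ hℓ
      simp only [Theta, mem_setOf_eq] at h1
      push Not at h1
      obtain ⟨J, hJ, V, hV, hℓV, k, n₀, δ, hδ, h2⟩ := h1
      refine ⟨V ∩ {x | β x = β ℓ}, mem_nhdsWithin_of_mem_nhds
        ((hV.1.inter (h.1.isClopen_fiber _)).isOpen.mem_nhds ⟨hℓV, rfl⟩), J, k, n₀, δ, hJ, hδ, ?_⟩
      rintro z ⟨hz, hz'⟩ J' hJ' n hn T hT hs hU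
      rw [show β z = β ℓ from hz']
      refine le_trans (Nat.cast_le.mpr (cnt_mono fun B _ hB => ?_))
        (h2 n hn T (fun b hb => (hT b hb).mono hJ') hs z hz hU).le
      exact (ρ.RCl_Sa _ _).her ρ (hJ.trans Finset.subset_union_left)
        (Finset.union_subset_union_left hJ') hB)
  obtain ⟨J, k, n₀, δ, h1, h2, h3⟩ := this
  obtain ⟨J₂, hJ₂⟩ := σ.exists_CJ hC
  obtain ⟨J₃, hJ₃⟩ := σ.exists_inv_locConst h.1
  refine ⟨J ∪ J₂ ∪ J₃, max k 1, n₀, min δ 1,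
    h1.trans (Finset.subset_union_left.trans Finset.subset_union_left), le_max_right _ _,
    lt_min h2 one_pos, min_le_right _ _,
    hJ₂.mono (Finset.subset_union_right.trans Finset.subset_union_left),
    fun J' hJ' => hJ₃ J' (Finset.subset_union_right.trans hJ'), fun z hz => ?_⟩
  exact (h3 z hz).mono ρ (ρ.RCl_Sa _ _) h1 (Finset.subset_union_left.trans Finset.subset_union_left)
    (le_max_left _ _) le_rfl (min_le_left _ _)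

/-- The clopen sets used in one step of the chain arguments. -/
lemma exists_test {s : ℝ} {β : L → Ordinal.{0}} (hβ : IsLocallyConstant β) {ι : Type}
    (t : Finset ι) (J : ι → Finset ℚ) (hJ : ∀ i, ρ.R0 ⊆ J i) (hβJ : ∀ i ℓ, β (σ.r (J i) ℓ) = β ℓ)
    (X : ι → Set L) (hX : ∀ i, σ.CJ (J i) (X i)) {Y : Set L} (hY : IsClosed Y) {θ : ℝ}
    (h : ∀ ℓ ∈ Y, (ovl t fun i => ℓ ∈ X i ∧ σ.r (J i) ℓ ∈ ρ.Sa s (β ℓ) : ℝ) ≤ θ) :
    ∃ O : ι → Set L, (∀ i, σ.CJ (J i) (O i)) ∧ (∀ i, ∀ ℓ ∈ X i \ O i, ℓ ∉ ρ.Sa s (β ℓ)) ∧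
      ∀ ℓ ∈ Y, (ovl t fun i => ℓ ∈ O i : ℝ) ≤ θ := by
  obtain ⟨O, h1, h2⟩ := exists_O (σ := σ) t J
    (fun i => {ℓ | ℓ ∈ X i ∧ σ.r (J i) ℓ ∈ ρ.Sa s (β ℓ)}) (fun i => by
      refine (hX i).1.isClosed.inter ?_
      rw [← isOpen_compl_iff, isOpen_iff_mem_nhds]
      intro ℓ hℓ
      have h3 : {x | β x = β ℓ} ∩ σ.r (J i) ⁻¹' (ρ.Sa s (β ℓ))ᶜ ∈ 𝓝 ℓ :=
        ((hβ.isOpen_fiber _).inter ((ρ.isClosed_Sa _ _).isOpen_compl.preimage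
          (σ.r (J i)).continuous)).mem_nhds ⟨rfl, hℓ⟩
      filter_upwards [h3] with x hx hx'
      have e : β x = β ℓ := hx.1
      exact hx.2 (e ▸ hx'))
    (fun i ℓ => by
      simp only [mem_setOf_eq]
      rw [(hX i).2, hβJ, σ.r_r_of_subset subset_rfl]) hY h
  exact ⟨O, fun i => (h1 i).1, fun i ℓ hℓ hs => hℓ.2 ((h1 i).2
    ⟨hℓ.1, ρ.RCl_Sa _ _ _ (hJ i) _ hs⟩), h2⟩

end Root

end Pool.Agent.Lib.MP_9e0ccb_an
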