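import Pool.Agent.Lib.MP_9e0ccb_an.Stab

set_option autoImplicit false
set_option linter.unusedSectionVars false
set_option linter.deprecated false
set_option linter.unusedVariables false
set_option linter.unusedSimpArgs false
open Set Filter Topology
open scoped Classical

namespace Pool.Agent.Lib.MP_9e0ccb_an

/-- Soft thresholding. -/
def soft (ω t : ℝ) : ℝ := t - max (-|ω|) (min t |ω|)

lemma continuous_soft (ω : ℝ) : Continuous (soft ω) := by
  unfold soft; fun_prop

lemma abs_soft_le (ω t : ℝ) : |soft ω t| ≤ |t| := by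
  have := abs_nonneg ω
  unfold soft
  rw [abs_le]
  rcases abs_cases t with ⟨h, _⟩ | ⟨h, _⟩ <;> rw [h] <;> simp only [max_def, min_def] <;>
    split_ifs <;> constructor <;> linarith

lemma abs_soft_sub {ω : ℝ} (hω : 0 ≤ ω) (t : ℝ) : |soft ω t - t| ≤ ω := by
  unfold soft
  rw [abs_of_nonneg hω, abs_le]
  simp only [max_def, min_def]
  split_ifs <;> constructor <;> linarith

lemma soft_gain {ω : ℝ} (hω : 0 ≤ ω) {t : ℝ} (h : soft ω t ≠ 0) : soft ω t ^ 2 + ω ^ 2 ≤ t ^ 2 := by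
  unfold soft at h ⊢
  rw [abs_of_nonneg hω] at h ⊢
  simp only [max_def, min_def] at h ⊢
  split_ifs at h ⊢
  · simp at h
  · nlinarith
  · nlinarith
  · nlinarith

variable {Γ : Type}

/-- Total mass of the copies. -/
def Qf (F : Finset Γ) (src : Γ → Γ) : C(B Γ, ℝ) where
  toFun x := ∑ γ ∈ F, x.1 (src γ) ^ 2
  continuous_toFun := continuous_finset_sum _ fun γ _ => (continuous_coord _).pow 2

lemma Qf_apply (F : Finset Γ) (src : Γ → Γ) (x : B Γ) : Qf F src x = ∑ γ ∈ F, x.1 (src γ) ^ 2 := rfl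

/-- The normalised copy map. -/
noncomputable def Om (F : Finset Γ) (src : Γ → Γ) : C(B Γ, B Γ) where
  toFun x := ⟨fun γ => if γ ∈ F then x.1 (src γ) / Real.sqrt (max 1 (Qf F src x)) else 0,
    fun F' => by
      have h1 : (0 : ℝ) < max 1 (Qf F src x) := lt_of_lt_of_le one_pos (le_max_left _ _)
      calc ∑ γ ∈ F', (if γ ∈ F then x.1 (src γ) / Real.sqrt (max 1 (Qf F src x)) else 0) ^ 2
          = ∑ γ ∈ F' ∩ F, x.1 (src γ) ^ 2 / max 1 (Qf F src x) := by
            rw [← Finset.sum_ite_mem]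
            refine Finset.sum_congr rfl fun γ _ => ?_
            split_ifs
            · rw [div_pow, Real.sq_sqrt h1.le]
            · simp
        _ ≤ ∑ γ ∈ F, x.1 (src γ) ^ 2 / max 1 (Qf F src x) :=
            Finset.sum_le_sum_of_subset_of_nonneg Finset.inter_subset_right
              fun _ _ _ => by positivity
        _ ≤ 1 := by
            rw [← Finset.sum_div, div_le_one h1]; exact le_max_right _ _⟩
  continuous_toFun := by
    refine Continuous.subtype_mk (continuous_pi fun γ => ?_) _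
    by_cases h : γ ∈ F
    · simp only [h, if_true]
      refine (continuous_coord _).div (continuous_const.max (Qf F src).continuous).sqrt fun x => ?_
      exact (Real.sqrt_pos.mpr (lt_of_lt_of_le one_pos (le_max_left _ _))).ne'
    · simp only [h, if_false]; exact continuous_const

lemma Om_apply_of_le {F : Finset Γ} {src : Γ → Γ} {x : B Γ} (h : Qf F src x ≤ 1) (γ : Γ) :
    (Om F src x).1 γ = if γ ∈ F then x.1 (src γ) else 0 := by
  change (if γ ∈ F then x.1 (src γ) / Real.sqrt (max 1 (Qf F src x)) else 0) = _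
  rw [max_eq_left h, Real.sqrt_one, div_one]

lemma Om_eq_zero {F : Finset Γ} {src : Γ → Γ} {x : B Γ} {γ : Γ} (h : γ ∈ F → x.1 (src γ) = 0) :
    (Om F src x).1 γ = 0 := by
  change (if γ ∈ F then x.1 (src γ) / Real.sqrt (max 1 (Qf F src x)) else 0) = _
  split_ifs with h'
  · rw [h h', zero_div]
  · rfl

variable {L : Type} [TopologicalSpace L] [CompactSpace L] [T2Space L]
  [TotallyDisconnectedSpace L]

namespace Str
variable (σ : Str Γ L)

/-- The map shrinking the `c`-part of a point. -/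
noncomputable def piM (c : ℚ) (F : Finset Γ) (ω : ℝ) : C(B Γ, B Γ) :=
  coordMap (fun γ t => if c ∈ σ.supp γ then (if γ ∈ F then soft ω t else 0) else t)
    (fun γ => by
      by_cases h : c ∈ σ.supp γ <;> by_cases h' : γ ∈ F <;>
        simp [h, h', continuous_id', continuous_const, continuous_soft])
    (fun γ t => by
      by_cases h : c ∈ σ.supp γ <;> by_cases h' : γ ∈ F <;> simp [h, h', abs_soft_le])

lemma piM_apply (c : ℚ) (F : Finset Γ) (ω : ℝ) (x : B Γ) (γ : Γ) : (σ.piM c F ω x).1 γ =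
    if c ∈ σ.supp γ then (if γ ∈ F then soft ω (x.1 γ) else 0) else x.1 γ := rfl

lemma piM_sq_le (c : ℚ) (F : Finset Γ) (ω : ℝ) (x : B Γ) (γ : Γ) :
    (σ.piM c F ω x).1 γ ^ 2 ≤ x.1 γ ^ 2 := by
  rw [piM_apply, sq_le_sq]
  split_ifs
  · exact abs_soft_le _ _
  · simp
  · exact le_rfl

lemma piM_close (c : ℚ) {F : Finset Γ} {ω : ℝ} (hω : 0 ≤ ω) (x : B Γ) {γ : Γ} (h : γ ∈ F) :
    |(σ.piM c F ω x).1 γ - x.1 γ| ≤ ω := by
  rw [piM_apply]
  split_ifs
  · exact abs_soft_sub hω _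
  · simpa using hω

lemma piM_R (c : ℚ) (F : Finset Γ) (ω : ℝ) (J : Finset ℚ) (x : B Γ) :
    σ.piM c F ω (σ.R J x) = σ.R J (σ.piM c F ω x) := by
  apply Subtype.ext; funext γ
  by_cases h : σ.supp γ ⊆ J
  · rw [σ.R_mem _ h, piM_apply, piM_apply, σ.R_mem _ h]
  · rw [σ.R_not_mem _ h, piM_apply, σ.R_not_mem _ h]
    have : soft ω 0 = 0 := abs_nonpos_iff.mp (by simpa using abs_soft_le ω 0)
    simp [this]

lemma piM_gain (c : ℚ) (F : Finset Γ) {ω : ℝ} (hω : 0 ≤ ω) (x : B Γ) :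
    (∀ γ, c ∈ σ.supp γ → (σ.piM c F ω x).1 γ = 0) ∨
      ∀ F', mass F' (σ.piM c F ω x) ≤ 1 - ω ^ 2 := by
  by_cases h : ∀ γ, c ∈ σ.supp γ → (σ.piM c F ω x).1 γ = 0
  · exact Or.inl h
  · right
    push Not at h
    obtain ⟨γ, hγ, hne⟩ := h
    intro F'
    have h1 : (σ.piM c F ω x).1 γ ^ 2 + ω ^ 2 ≤ x.1 γ ^ 2 := by
      rw [piM_apply, if_pos hγ] at hne ⊢
      split_ifs at hne ⊢
      · exact soft_gain hω hne
      · exact absurd rfl hne
    have h2 := mass_mono (Finset.subset_insert γ F') (σ.piM c F ω x)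
    have h3 := mass_le_one (insert γ F') x
    rw [mass_apply, ← Finset.add_sum_erase _ _ (Finset.mem_insert_self γ F')] at h3
    rw [mass_apply (insert γ F'), ← Finset.add_sum_erase _ _ (Finset.mem_insert_self γ F')] at h2
    have h4 : ∑ a ∈ (insert γ F').erase γ, (σ.piM c F ω x).1 a ^ 2 ≤
        ∑ a ∈ (insert γ F').erase γ, x.1 a ^ 2 := Finset.sum_le_sum fun a _ => σ.piM_sq_le _ _ _ _ _
    linarith

/-- Transport of a coordinate along a map which is strictly monotone on its support. -/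
noncomputable def tr (κ : ℚ → ℚ) (γ : Γ) : Γ :=
  if h : StrictMonoOn κ (σ.supp γ) then σ.act (exists_orderIso _ _ h).choose γ else γ

lemma tr_eq {κ : ℚ → ℚ} {γ : Γ} {g : ℚ ≃o ℚ} (hg : ∀ b ∈ σ.supp γ, g b = κ b) :
    σ.tr κ γ = σ.act g γ := by
  have h : StrictMonoOn κ (σ.supp γ) := fun a ha b hb hab => by
    rw [← hg a ha, ← hg b hb]; exact g.strictMono hab
  rw [tr, dif_pos h]
  exact σ.act_agree fun b hb => by rw [(exists_orderIso _ _ h).choose_spec b hb, hg b hb]

lemma supp_tr {κ : ℚ → ℚ} {γ : Γ} (h : StrictMonoOn κ (σ.supp γ)) :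
    σ.supp (σ.tr κ γ) = (σ.supp γ).image κ := by
  obtain ⟨g, hg⟩ := exists_orderIso _ _ h
  rw [σ.tr_eq hg, σ.supp_act, Finset.image_congr hg]

lemma tr_inj {κ : ℚ → ℚ} {γ γ' : Γ} (h : StrictMonoOn κ (σ.supp γ)) (hs : σ.supp γ = σ.supp γ')
    (e : σ.tr κ γ = σ.tr κ γ') : γ = γ' := by
  obtain ⟨g, hg⟩ := exists_orderIso _ _ h
  rw [σ.tr_eq hg, σ.tr_eq (hs ▸ hg)] at e
  exact (σ.act g).injective e

end Str

end Pool.Agent.Lib.MP_9e0ccb_an
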