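import Pool.Agent.Lib.MP_9e0ccb_an.Canon

set_option autoImplicit false
set_option linter.unusedSectionVars false
set_option linter.deprecated false
set_option linter.unusedVariables false
set_option linter.unusedSimpArgs false
open Set Filter Topology
open scoped Classical

namespace Pool.Agent.Lib.MP_9e0ccb_an

namespace EMD
variable (D : EMD)

/-- Realisation of a coordinate inside the model attached to `J₁`. -/
noncomputable def val (J₁ : Finset ℚ) (p : Finset ℚ × ℕ) : (D.ρ J₁).Γ :=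
  (D.ρ J₁).e (img (D.u J₁) p.1) p.2

/-- Identification of coordinates. -/
def rel (p q : Finset ℚ × ℕ) : Prop := ∀ J₁, p.1 ⊆ J₁ → q.1 ⊆ J₁ → D.val J₁ p = D.val J₁ q

lemma rel_of {J₁ : Finset ℚ} {p q : Finset ℚ × ℕ} (hp : p.1 ⊆ J₁) (hq : q.1 ⊆ J₁)
    (h : D.val J₁ p = D.val J₁ q) : D.rel p q := by
  intro J₂ hp' hq'
  have e : ∀ J : Finset ℚ, J.image (1 : ℚ ≃o ℚ) = J := fun J => Finset.image_id
  have := D.K1 1 J₁ J₂ p.1 q.1 p.2 q.2 hp hq (by rwa [e]) (by rwa [e]) h
  rwa [e, e] at this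

/-- The setoid of coordinates. -/
def setoid : Setoid (Finset ℚ × ℕ) where
  r := D.rel
  iseqv := ⟨fun _ _ _ _ => rfl, fun h J h1 h2 => (h J h2 h1).symm, fun {p q r} h h' =>
    D.rel_of (J₁ := p.1 ∪ q.1 ∪ r.1)
      (Finset.subset_union_left.trans Finset.subset_union_left) Finset.subset_union_right
      ((h _ (Finset.subset_union_left.trans Finset.subset_union_left)
        (Finset.subset_union_right.trans Finset.subset_union_left)).trans
      (h' _ (Finset.subset_union_right.trans Finset.subset_union_left) Finset.subset_union_right))⟩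

/-- The limit index set. -/
def G : Type := Quotient D.setoid

/-- The enumeration attached to `J` in the limit. -/
def et (J : Finset ℚ) (a : ℕ) : D.G := Quotient.mk D.setoid (J, a)

lemma et_eq_iff {J J' J₁ : Finset ℚ} {a a' : ℕ} (h : J ⊆ J₁) (h' : J' ⊆ J₁) :
    D.et J a = D.et J' a' ↔ D.val J₁ (J, a) = D.val J₁ (J', a') :=
  ⟨fun e => Quotient.exact e J₁ h h', fun e => Quotient.sound (D.rel_of h h' e)⟩

lemma et_inj (J : Finset ℚ) : Function.Injective (D.et J) := fun a a' h =>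
  (D.ρ J).inj _ ((D.et_eq_iff subset_rfl subset_rfl).mp h)

lemma exists_et (γ : D.G) : ∃ J a, γ = D.et J a := by
  obtain ⟨⟨J, a⟩, rfl⟩ := Quotient.exists_rep γ
  exact ⟨J, a, rfl⟩

lemma exists_inc {J J' : Finset ℚ} (h : J ⊆ J') : ∃ inc : ℕ → ℕ, Function.Injective inc ∧
    D.et J = D.et J' ∘ inc ∧
    (D.ρ J').e (img (D.u J') J) = (D.ρ J').e (img (D.u J') J') ∘ inc := by
  have hsub : img (D.u J') J ⊆ img (D.u J') J' := fun x hx => by
    obtain ⟨a, ha, rfl⟩ := mem_img.mp hx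
    exact mem_img.mpr ⟨a, h ha, rfl⟩
  choose inc hinc using fun a => (D.ρ J').mono _ _ hsub (mem_range_self a)
  refine ⟨inc, fun a a' e => (D.ρ J').inj (img (D.u J') J) ?_, ?_, ?_⟩
  · rw [← hinc, ← hinc, e]
  · funext a
    exact (D.et_eq_iff h subset_rfl).mpr (hinc a).symm
  · funext a; exact (hinc a).symm

/-- The action on coordinates. -/
def actF (g : ℚ ≃o ℚ) : D.G → D.G :=
  Quotient.map' (s₁ := D.setoid) (s₂ := D.setoid) (fun p => (p.1.image g, p.2)) fun p q h J₂ hp hq =>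
    D.K1 g (p.1 ∪ q.1) J₂ p.1 q.1 p.2 q.2 Finset.subset_union_left Finset.subset_union_right hp hq
      (h _ Finset.subset_union_left Finset.subset_union_right)

lemma actF_et (g : ℚ ≃o ℚ) (J : Finset ℚ) (a : ℕ) : D.actF g (D.et J a) = D.et (J.image g) a := rfl

instance : MulAction (ℚ ≃o ℚ) D.G where
  smul := D.actF
  one_smul γ := by
    obtain ⟨J, a, rfl⟩ := D.exists_et γ
    change D.actF 1 _ = _
    rw [actF_et]; congr 1; exact Finset.image_id
  mul_smul g g' γ := by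
    obtain ⟨J, a, rfl⟩ := D.exists_et γ
    change D.actF (g * g') _ = D.actF g (D.actF g' _)
    rw [actF_et, actF_et, actF_et, Finset.image_image]; rfl

/-- The action as a homomorphism. -/
def act : (ℚ ≃o ℚ) →* Equiv.Perm D.G := MulAction.toPermHom (ℚ ≃o ℚ) D.G

lemma act_et (g : ℚ ≃o ℚ) (J : Finset ℚ) (a : ℕ) : D.act g (D.et J a) = D.et (J.image g) a := rfl

lemma supports_et (J : Finset ℚ) (a : ℕ) : Supports D.act J (D.et J a) := by
  intro g hg
  rw [act_et]
  congr 1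
  rw [Finset.image_congr (g := id) hg, Finset.image_id]

/-- The trace set attached to `J`. -/
def Lam (J : Finset ℚ) : Set (C(B ℕ, ℝ) → ℝ) := (D.ρ J).Lam (img (D.u J) J)

/-- Transport of functions along the enumeration of `J`. -/
def io (J : Finset ℚ) (k : C(B ℕ, ℝ)) : C(B D.G, ℝ) := k.comp (pull (D.et J) (D.et_inj J))

/-- The limit space. -/
def LS : Set (WeakDual ℝ C(B D.G, ℝ)) :=
  {φ | (∀ h, |φ h| ≤ D.M * ‖h‖) ∧ ∀ J, (fun k => φ (D.io J k)) ∈ D.Lam J}

lemma isCompact_LS : IsCompact D.LS := by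
  refine (WeakDual.isCompact_closedBall (0 : StrongDual ℝ C(B D.G, ℝ)) D.M).of_isClosed_subset ?_ ?_
  · have : D.LS = (⋂ h, {φ : WeakDual ℝ C(B D.G, ℝ) | |φ h| ≤ D.M * ‖h‖}) ∩
        ⋂ J, (fun (φ : WeakDual ℝ C(B D.G, ℝ)) k => φ (D.io J k)) ⁻¹' D.Lam J := by
      ext φ; simp [LS]
    rw [this]
    refine IsClosed.inter (isClosed_iInter fun h => isClosed_le ?_ continuous_const)
      (isClosed_iInter fun J => ((D.ρ J).isClosed_Lam _).preimage ?_)
    · exact (WeakDual.eval_continuous h).abs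
    · exact continuous_pi fun k => WeakDual.eval_continuous _
  · intro φ hφ
    simp only [mem_preimage, mem_closedBall_zero_iff]
    exact ContinuousLinearMap.opNorm_le_bound _ D.M_nonneg fun h => hφ.1 h

instance : CompactSpace D.LS := isCompact_iff_compactSpace.mp D.isCompact_LS

lemma io_inc {J J' : Finset ℚ} {inc : ℕ → ℕ} (hi : Function.Injective inc)
    (e : D.et J = D.et J' ∘ inc) (k : C(B ℕ, ℝ)) : D.io J k = D.io J' (k.comp (pull inc hi)) := by
  ext x
  simp only [io, ContinuousMap.comp_apply]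
  congr 1
  apply Subtype.ext; funext a
  simp only [pull_apply, e]; rfl

lemma mem_LS_of {φ : WeakDual ℝ C(B D.G, ℝ)} (hb : ∀ h, |φ h| ≤ D.M * ‖h‖) (J₀ : Finset ℚ)
    (h : ∀ J, J₀ ⊆ J → (fun k => φ (D.io J k)) ∈ D.Lam J) : φ ∈ D.LS := by
  refine ⟨hb, fun J => ?_⟩
  obtain ⟨inc, hi, e1, e2⟩ := D.exists_inc (Finset.subset_union_left (s₁ := J) (s₂ := J₀))
  obtain ⟨ℓ, hℓ⟩ := h (J ∪ J₀) Finset.subset_union_right
  rw [Lam, D.K2 J (J ∪ J₀) J J subset_rfl Finset.subset_union_left rfl]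
  refine ⟨ℓ, funext fun k => ?_⟩
  simp only
  rw [D.io_inc hi e1, ← congrFun hℓ (k.comp (pull inc hi))]
  congr 2
  ext x
  simp only [Rep.io, ContinuousMap.comp_apply]
  congr 1
  apply Subtype.ext; funext a
  simp only [pull_apply, e2]; rfl

lemma exists_ext {J : Finset ℚ} {ψ : C(B ℕ, ℝ) → ℝ} (hψ : ψ ∈ D.Lam J) :
    ∃ φ ∈ D.LS, ∀ h : C(B D.G, ℝ), φ h = ψ (h.comp (push (D.et J) (D.et_inj J))) := by
  have hψ' := hψ
  obtain ⟨ℓ, rfl⟩ := hψ
  let φ : C(B D.G, ℝ) →L[ℝ] ℝ := (ContinuousMap.evalCLM ℝ ℓ).comp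
    (((D.ρ J).S : C(B (D.ρ J).Γ, ℝ) →L[ℝ] C((D.ρ J).L, ℝ)).comp
      ((ContinuousMap.compCLM ℝ ℝ (pull _ ((D.ρ J).inj (img (D.u J) J)))).comp
        (ContinuousMap.compCLM ℝ ℝ (push (D.et J) (D.et_inj J)))))
  have hφ : ∀ h : C(B D.G, ℝ), φ h = (D.ρ J).S ((D.ρ J).io (img (D.u J) J)
    (h.comp (push (D.et J) (D.et_inj J)))) ℓ := fun h => rfl
  refine ⟨φ, D.mem_LS_of (fun h => ?_) J fun J' hJ' => ?_, hφ⟩
  · change |φ h| ≤ _
    rw [hφ]
    refine (ContinuousMap.norm_coe_le_norm _ ℓ).trans ((D.S_le J _).trans ?_)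
    exact mul_le_mul_of_nonneg_left ((norm_comp_le' _ _).trans (norm_comp_le' _ _)) D.M_nonneg
  · obtain ⟨inc, hi, e1, e2⟩ := D.exists_inc hJ'
    rw [Lam, D.K2 J J' J J subset_rfl hJ' rfl] at hψ'
    obtain ⟨ℓ₁, hℓ₁⟩ := hψ'
    obtain ⟨ℓ₂, hℓ₂⟩ := (D.ρ J').good (img (D.u J') J) ℓ₁
    refine ⟨ℓ₂, funext fun k => ?_⟩
    change _ = φ (D.io J' k)
    rw [hφ]
    have := congrFun hℓ₁ ((D.io J' k).comp (push (D.et J) (D.et_inj J)))
    simp only at this ⊢
    rw [← this, hℓ₂]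
    congr 2
    ext x
    simp only [Rep.io, io, ContinuousMap.comp_apply]
    congr 1
    apply Subtype.ext; funext a
    simp only [pull_apply]
    by_cases ha : a ∈ range inc
    · obtain ⟨a', rfl⟩ := ha
      have e3 : D.et J' (inc a') = D.et J a' := (congrFun e1 a').symm
      have e4 := congrFun e2 a'
      simp only [Function.comp_apply] at e4
      rw [e3, push_apply, pull_apply, ← e4, RA_mem _ (mem_range_self a')]
    · rw [RA_not_mem, push_apply']
      · rintro ⟨a', h⟩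
        rw [e1] at h
        exact ha ⟨a', D.et_inj J' h⟩
      · rintro ⟨a', h⟩
        rw [e2] at h
        exact ha ⟨a', (D.ρ J').inj _ h⟩

lemma exists_res {φ : WeakDual ℝ C(B D.G, ℝ)} (hφ : φ ∈ D.LS) (J : Finset ℚ) :
    ∃ φ' ∈ D.LS, ∀ h : C(B D.G, ℝ), φ' h = φ (h.comp (RA (range (D.et J)))) := by
  obtain ⟨φ', h1, h2⟩ := D.exists_ext (hφ.2 J)
  refine ⟨φ', h1, fun h => ?_⟩
  rw [h2]
  congr 1
  ext x
  simp only [io, ContinuousMap.comp_apply]
  rw [push_pull]

lemma dense_io : DenseRange fun p : Finset ℚ × C(B ℕ, ℝ) => D.io p.1 p.2 := by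
  rw [Metric.denseRange_iff]
  intro h ε hε
  obtain ⟨F, ω, hω, hF⟩ := insens h (half_pos hε)
  choose Jf af hf using D.exists_et
  let J := F.biUnion Jf
  refine ⟨(J, h.comp (push (D.et J) (D.et_inj J))), ?_⟩
  rw [dist_eq_norm]
  refine lt_of_le_of_lt ((ContinuousMap.norm_le _ (half_pos hε).le).mpr fun x => ?_)
    (half_lt_self hε)
  simp only [io, ContinuousMap.sub_apply, ContinuousMap.comp_apply]
  rw [push_pull]
  refine hF _ _ fun γ hγ => ?_
  obtain ⟨inc, hi, e1, -⟩ := D.exists_inc (Finset.subset_biUnion_of_mem Jf hγ)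
  have hm : γ ∈ range (D.et J) := ⟨inc (af γ), (congrFun e1 _).symm.trans (hf γ).symm⟩
  rw [RA_mem x hm]
  simpa using hω.le

/-- The evaluation operator of the limit. -/
noncomputable def St : C(B D.G, ℝ) →L[ℝ] C(D.LS, ℝ) :=
  LinearMap.mkContinuous
    { toFun := fun h => ⟨fun φ => φ.1 h, (WeakDual.eval_continuous h).comp continuous_subtype_val⟩
      map_add' := fun h h' => by ext φ; simp
      map_smul' := fun c h => by ext φ; simp } D.M
    fun h => (ContinuousMap.norm_le _ (mul_nonneg D.M_nonneg (norm_nonneg _))).mpr fun φ => φ.2.1 h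

lemma St_apply (h : C(B D.G, ℝ)) (φ : D.LS) : D.St h φ = φ.1 h := rfl

lemma St_lower (h : C(B D.G, ℝ)) : ‖h‖ ≤ D.M * ‖D.St h‖ := by
  refine D.dense_io.induction_on h
    (isClosed_le continuous_norm (continuous_const.mul D.St.continuous.norm)) ?_
  rintro ⟨J, k⟩
  simp only
  have h1 : ‖k‖ ≤ ‖(D.ρ J).io (img (D.u J) J) k‖ := by
    have : k = ((D.ρ J).io (img (D.u J) J) k).comp (push _ ((D.ρ J).inj (img (D.u J) J))) := by
      ext x; simp [Rep.io, pull_push]
    conv_lhs => rw [this]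
    exact norm_comp_le' _ _
  refine (norm_comp_le' _ _).trans (h1.trans ((D.T_le J _).trans ?_))
  refine mul_le_mul_of_nonneg_left ?_ D.M_nonneg
  refine (ContinuousMap.norm_le _ (norm_nonneg _)).mpr fun ℓ => ?_
  obtain ⟨φ, hφ, h2⟩ := D.exists_ext (J := J) ⟨ℓ, rfl⟩
  have := (D.St (D.io J k)).norm_coe_le_norm ⟨φ, hφ⟩
  rw [St_apply, h2] at this
  have e : (D.io J k).comp (push (D.et J) (D.et_inj J)) = k := by
    ext x; simp [io, pull_push]
  rw [e] at this
  exact this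

lemma isClosed_range_St : IsClosed (range D.St) := by
  have : AntilipschitzWith ⟨D.M, D.M_nonneg⟩ D.St :=
    AddMonoidHomClass.antilipschitz_of_bound D.St D.St_lower
  exact this.isClosed_range D.St.uniformContinuous

lemma St_surj : D.St.range = ⊤ := by
  have hone : (1 : C(D.LS, ℝ)) ∈ D.St.range := by
    obtain ⟨k, hk⟩ := (D.ρ ∅).Lam_one (img (D.u ∅) ∅)
    exact ⟨D.io ∅ k, by ext φ; exact hk _ (φ.2.2 ∅)⟩
  have hmul : ∀ h h' : C(B D.G, ℝ), D.St h * D.St h' ∈ range D.St := by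
    intro h h'
    refine D.dense_io.induction_on₂ (p := fun h h' => D.St h * D.St h' ∈ range D.St)
      (D.isClosed_range_St.preimage ((D.St.continuous.comp continuous_fst).mul
        (D.St.continuous.comp continuous_snd))) ?_ h h'
    rintro ⟨J, k⟩ ⟨J', k'⟩
    simp only
    obtain ⟨inc, hi, e1, -⟩ := D.exists_inc (Finset.subset_union_left (s₁ := J) (s₂ := J'))
    obtain ⟨inc', hi', e1', -⟩ := D.exists_inc (Finset.subset_union_right (s₁ := J) (s₂ := J'))
    rw [D.io_inc hi e1, D.io_inc hi' e1']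
    obtain ⟨k'', hk⟩ := (D.ρ (J ∪ J')).Lam_mul (img (D.u (J ∪ J')) (J ∪ J'))
      (k.comp (pull inc hi)) (k'.comp (pull inc' hi'))
    exact ⟨D.io (J ∪ J') k'', by ext φ; exact hk _ (φ.2.2 _)⟩
  let A : Subalgebra ℝ C(D.LS, ℝ) := D.St.range.toSubalgebra hone (by
    rintro _ _ ⟨h, rfl⟩ ⟨h', rfl⟩; exact hmul h h')
  have hsep : A.SeparatesPoints := by
    intro φ φ' hne
    have : ∃ h, φ.1 h ≠ φ'.1 h := by
      by_contra H
      push Not at H
      exact hne (Subtype.ext (DFunLike.ext _ _ H))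
    obtain ⟨h, hh⟩ := this
    exact ⟨D.St h, ⟨D.St h, ⟨h, rfl⟩, rfl⟩, hh⟩
  rw [eq_top_iff]
  intro f _
  have := ContinuousMap.continuousMap_mem_subalgebra_closure_of_separatesPoints A hsep f
  exact D.isClosed_range_St.closure_subset this

/-- The limit isomorphism. -/
noncomputable def Se : C(B D.G, ℝ) ≃L[ℝ] C(D.LS, ℝ) :=
  ContinuousLinearEquiv.ofBijective D.St (by
    rw [LinearMap.ker_eq_bot']
    intro h hh
    have := D.St_lower h
    change D.St h = 0 at hh
    rw [hh, norm_zero, mul_zero] at this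
    exact norm_le_zero_iff.mp this) D.St_surj

lemma Se_apply (h : C(B D.G, ℝ)) (φ : D.LS) : D.Se h φ = φ.1 h := rfl

instance : TotallySeparatedSpace D.LS := by
  rw [totallySeparatedSpace_iff_exists_isClopen]
  intro φ φ' hne
  have : ∃ J, (fun k => φ.1 (D.io J k)) ≠ fun k => φ'.1 (D.io J k) := by
    by_contra H
    push Not at H
    refine hne (Subtype.ext (DFunLike.ext _ _ fun h => ?_))
    refine D.dense_io.induction_on (p := fun h => φ.1 h = φ'.1 h) h
      (isClosed_eq φ.1.continuous φ'.1.continuous) ?_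
    rintro ⟨J, k⟩
    exact congrFun (H J) k
  obtain ⟨J, hJ⟩ := this
  obtain ⟨k, h1, h2, h3⟩ := (D.ρ J).Lam_sep _ (φ.2.2 J) (φ'.2.2 J) hJ
  have hc := (D.St (D.io J k)).continuous
  refine ⟨{χ | D.St (D.io J k) χ = 1}, ⟨isClosed_eq hc continuous_const, ?_⟩, h1, ?_⟩
  · have : {χ | D.St (D.io J k) χ = 1} = {χ | 0 < D.St (D.io J k) χ} := by
      ext χ
      rcases h3 _ (χ.2.2 J) with h | h
      · simp only [mem_setOf_eq, St_apply, h]; simp
      · simp only [mem_setOf_eq, St_apply, h]; simp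
    rw [this]; exact isOpen_lt continuous_const hc
  · simp only [mem_compl_iff, mem_setOf_eq, St_apply]
    rw [h2]; exact zero_ne_one

/-- Precomposition of a functional with a self-map of the ball. -/
noncomputable def pre (φ : WeakDual ℝ C(B D.G, ℝ)) (Φ : C(B D.G, B D.G)) :
    WeakDual ℝ C(B D.G, ℝ) :=
  ContinuousLinearMap.comp (φ : C(B D.G, ℝ) →L[ℝ] ℝ) (ContinuousMap.compCLM ℝ ℝ Φ)

lemma pre_apply (φ : WeakDual ℝ C(B D.G, ℝ)) (Φ : C(B D.G, B D.G)) (h : C(B D.G, ℝ)) :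
    D.pre φ Φ h = φ (h.comp Φ) := rfl

lemma pre_bound {φ : WeakDual ℝ C(B D.G, ℝ)} (hφ : φ ∈ D.LS) (Φ : C(B D.G, B D.G))
    (h : C(B D.G, ℝ)) : |D.pre φ Φ h| ≤ D.M * ‖h‖ :=
  (hφ.1 _).trans (mul_le_mul_of_nonneg_left (norm_comp_le' _ _) D.M_nonneg)

lemma nonempty_Str : Nonempty (Str D.G D.LS) := by
  obtain ⟨supp, hs1, hs2⟩ := exists_supp D.act fun γ => by
    obtain ⟨J, a, rfl⟩ := D.exists_et γ
    exact ⟨J, D.supports_et J a⟩
  refine ⟨⟨D.act, supp, hs2, fun g γ h => (hs1 γ _).mpr subset_rfl g h, fun b => D.et {b} 0,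
    fun b => ?_, fun g b => by rw [act_et, Finset.image_singleton], D.Se, fun J φ => ?_,
    fun g φ => ?_⟩⟩
  · have h1 := (hs1 _ _).mp (D.supports_et {b} 0)
    rcases Finset.subset_singleton_iff.mp h1 with h | h
    · exfalso
      have h2 := (hs1 _ ∅).mpr h.subset (OrderIso.addRight 1) (by simp)
      rw [act_et, Finset.image_singleton,
        D.et_eq_iff (J₁ := {b, b + 1}) (by simp) (by simp)] at h2
      simp only [val, img_eq, Finset.image_singleton, Rep.e0] at h2
      have := D.u_inj {b, b + 1} (by simp) (by simp) h2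
      simp at this
    · exact h
  · refine ⟨⟨D.pre φ.1 (RA {γ | supp γ ⊆ J}), D.mem_LS_of (D.pre_bound φ.2 _) J fun J₁ hJ₁ => ?_⟩,
      fun h => rfl⟩
    obtain ⟨tw, htw⟩ := exists_twin J₁
    obtain ⟨g, hg⟩ := exists_orderIso J₁ (fun b => if b ∈ J then b else tw b) (by
      intro x hx y hy hxy
      have h1 := (htw x).2 y hy hxy
      have h2 := (htw y).1
      simp only
      split_ifs <;> linarith)
    obtain ⟨φ', h1, h2⟩ := D.exists_res φ.2 (J₁.image g)
    have : (fun k => D.pre φ.1 (RA {γ | supp γ ⊆ J}) (D.io J₁ k)) = fun k => φ' (D.io J₁ k) := by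
      funext k
      rw [pre_apply, h2]
      congr 1
      ext x
      simp only [io, ContinuousMap.comp_apply]
      congr 1
      apply Subtype.ext; funext a
      simp only [pull_apply, RA_apply]
      congr 1
      apply propext
      constructor
      · intro h
        refine ⟨a, ?_⟩
        rw [← act_et]
        exact (hs1 _ _).mpr h g fun b hb => by rw [hg b (hJ₁ hb)]; simp [hb]
      · rintro ⟨a', h⟩ b hb
        have h3 := (hs1 _ _).mp (D.supports_et J₁ a) hb
        have h4 := (hs1 _ _).mp (D.supports_et (J₁.image g) a') (h ▸ hb)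
        obtain ⟨c, hc, e⟩ := Finset.mem_image.mp h4
        rw [hg c hc] at e
        by_cases hcJ : c ∈ J
        · simp only [hcJ, if_true] at e; exact e ▸ hcJ
        · simp only [hcJ, if_false] at e
          exact absurd ((htw c).2 b h3 (e ▸ (htw c).1)) (by rw [e]; exact lt_irrefl _)
    rw [this]; exact h1.2 J₁
  · refine ⟨⟨D.pre φ.1 (pull (D.act g) (D.act g).injective), D.pre_bound φ.2 _, fun J => ?_⟩,
      fun h => rfl⟩
    have := φ.2.2 (J.image g)
    rw [Lam, ← D.K2 J (J.image g) J (J.image g) subset_rfl subset_rfl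
      (Finset.card_image_of_injective _ g.injective).symm] at this
    exact this

end EMD

/-- Part A: a family of isomorphisms produces a symmetric one. -/
lemma exists_Str (H : ∀ Γ : Type, Uncountable Γ → ∃ (L : Type) (_ : TopologicalSpace L)
    (_ : CompactSpace L), T2Space L ∧ TotallyDisconnectedSpace L ∧
      Nonempty (C(B Γ, ℝ) ≃L[ℝ] C(L, ℝ))) :
    ∃ (Γ L : Type) (_ : TopologicalSpace L) (_ : CompactSpace L), T2Space L ∧
      TotallyDisconnectedSpace L ∧ Nonempty (Str Γ L) := by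
  obtain ⟨D⟩ := exists_EMD H
  exact ⟨D.G, D.LS, inferInstance, inferInstance, inferInstance, inferInstance, D.nonempty_Str⟩

end Pool.Agent.Lib.MP_9e0ccb_an
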