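import Pool.Agent.Lib.MP_9e0ccb_an.Basic

set_option autoImplicit false
set_option linter.unusedSectionVars false
set_option linter.deprecated false
set_option linter.unusedVariables false
set_option linter.unusedSimpArgs false
open Set Filter Topology
open scoped BoundedContinuousFunction

namespace Pool.Agent.Lib.MP_9e0ccb_an

/-- The Hilbert space `ℓ²(Γ)`. -/
abbrev H2 (Γ : Type) : Type := lp (fun _ : Γ => ℝ) 2

variable {Γ : Type}

lemma rpow_two_eq (t : ℝ) : ‖t‖ ^ (2 : ENNReal).toReal = t ^ 2 := by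
  simp [sq_abs]

/-- A point of the ball as a vector of `ℓ²`. -/
def toH (x : B Γ) : H2 Γ :=
  ⟨x.1, memℓp_gen' (C := 1) fun s => by simp only [rpow_two_eq]; exact x.2 s⟩

lemma toH_apply (x : B Γ) (γ : Γ) : toH x γ = x.1 γ := rfl

lemma norm_toH (x : B Γ) : ‖toH x‖ ≤ 1 :=
  lp.norm_le_of_forall_sum_le (by simp) zero_le_one fun s => by
    simp only [rpow_two_eq, Real.one_rpow]; exact x.2 s

lemma continuous_eval_toH (f : StrongDual ℝ (H2 Γ)) : Continuous fun x : B Γ => f (toH x) := by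
  classical
  let v := (InnerProductSpace.toDual ℝ (H2 Γ)).symm f
  have hv : ∀ y, f y = inner ℝ v y := fun y => (InnerProductSpace.toDual_symm_apply).symm
  refine continuous_of_uniform_approx_of_continuous fun u hu => ?_
  obtain ⟨ε, hε, hεu⟩ := Metric.uniformity_basis_dist.mem_iff.mp hu
  have := lp.hasSum_single (p := 2) (by simp) v
  rw [HasSum, Metric.tendsto_nhds] at this
  obtain ⟨s, hs⟩ := (this ε hε).exists
  refine ⟨fun x => ∑ γ ∈ s, x.1 γ * v γ,
    continuous_finset_sum _ fun γ _ => (continuous_coord γ).mul continuous_const,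
    fun x => hεu ?_⟩
  have e : ∑ γ ∈ s, x.1 γ * v γ = inner ℝ (∑ γ ∈ s, lp.single 2 γ (v γ) : H2 Γ) (toH x) := by
    rw [sum_inner]
    refine Finset.sum_congr rfl fun γ _ => ?_
    rw [lp.inner_single_left]; simp [toH_apply]
  simp only [mem_setOf_eq]
  rw [e, hv, dist_eq_norm, ← inner_sub_left]
  refine lt_of_le_of_lt (norm_inner_le_norm _ _) ?_
  rw [dist_comm, dist_eq_norm] at hs
  calc _ ≤ ‖v - ∑ γ ∈ s, lp.single 2 γ (v γ)‖ * 1 :=
        mul_le_mul_of_nonneg_left (norm_toH x) (norm_nonneg _)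
    _ < ε := by rwa [mul_one]

/-- The ball is homeomorphic to the weak unit ball of `ℓ²`. -/
lemma exists_homeo :
    Nonempty (B Γ ≃ₜ ↥(toWeakSpace ℝ (H2 Γ) '' Metric.closedBall (0 : H2 Γ) 1)) := by
  let f : B Γ → ↥(toWeakSpace ℝ (H2 Γ) '' Metric.closedBall (0 : H2 Γ) 1) := fun x =>
    ⟨toWeakSpace ℝ (H2 Γ) (toH x), toH x, by simpa using norm_toH x, rfl⟩
  have hc : Continuous f := by
    refine Continuous.subtype_mk ?_ _
    exact WeakBilin.continuous_of_continuous_eval _ fun g => continuous_eval_toH g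
  have hb : Function.Bijective f := by
    constructor
    · intro x y h
      have h1 : toH x = toH y := (toWeakSpace ℝ (H2 Γ)).injective (congrArg Subtype.val h)
      apply Subtype.ext; funext γ
      rw [← toH_apply, h1, toH_apply]
    · rintro ⟨_, y, hy, rfl⟩
      refine ⟨⟨fun γ => y γ, fun s => ?_⟩, rfl⟩
      have h1 := lp.sum_rpow_le_norm_rpow (p := 2) (by simp) y s
      simp only [rpow_two_eq] at h1
      have h2 : ‖y‖ ≤ 1 := by simpa using hy
      refine h1.trans ?_
      exact Real.rpow_le_one (norm_nonneg _) h2 (by simp)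
  exact ⟨Continuous.homeoOfEquivCompactToT2 (f := Equiv.ofBijective f hb) hc⟩

lemma not_separable [Uncountable Γ] : ¬ TopologicalSpace.SeparableSpace (H2 Γ) := by
  classical
  intro hs
  let e : Γ → H2 Γ := fun γ => lp.single 2 γ 1
  have hd : ∀ a b, a ≠ b → 1 ≤ ‖e a - e b‖ := by
    intro a b hab
    have := lp.norm_apply_le_norm (p := 2) (by simp) (e a - e b) a
    simpa [e, lp.single_apply, Pi.single_apply, hab] using this
  have : Countable Γ := Pairwise.countable_of_isOpen_disjoint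
    (s := fun γ => Metric.ball (e γ) (1 / 2))
    (fun a b hab => Metric.ball_disjoint_ball (by rw [dist_eq_norm]; linarith [hd a b hab]))
    (fun _ => Metric.isOpen_ball) (fun γ => ⟨e γ, by simp⟩)
  exact not_countable (α := Γ) this

lemma reduction (H : ∀ (H : Type) [NormedAddCommGroup H] [InnerProductSpace ℝ H] [CompleteSpace H],
      ¬ TopologicalSpace.SeparableSpace H →
      ∃ (L : Type) (_ : TopologicalSpace L),
        CompactSpace L ∧ T2Space L ∧ TotallyDisconnectedSpace L ∧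
        Nonempty ((↥(toWeakSpace ℝ H '' Metric.closedBall (0 : H) 1) →ᵇ ℝ) ≃L[ℝ] (L →ᵇ ℝ))) :
    ∀ Γ : Type, Uncountable Γ → ∃ (L : Type) (_ : TopologicalSpace L)
    (_ : CompactSpace L), T2Space L ∧ TotallyDisconnectedSpace L ∧
      Nonempty (C(B Γ, ℝ) ≃L[ℝ] C(L, ℝ)) := by
  intro Γ _
  obtain ⟨L, _, h1, h2, h3, ⟨S⟩⟩ := H (H2 Γ) not_separable
  obtain ⟨φ⟩ := exists_homeo (Γ := Γ)
  have := φ.compactSpace
  let e1 : C(B Γ, ℝ) ≃L[ℝ] C(↥(toWeakSpace ℝ (H2 Γ) '' Metric.closedBall (0 : H2 Γ) 1), ℝ) :=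
    ContinuousLinearEquiv.equivOfInverse (ContinuousMap.compCLM ℝ ℝ (φ.symm : C(_, _)))
      (ContinuousMap.compCLM ℝ ℝ (φ : C(_, _))) (fun f => by ext x; simp) (fun f => by ext x; simp)
  exact ⟨L, _, h1, h2, h3, ⟨e1.trans
    ((ContinuousMap.linearIsometryBoundedOfCompact _ ℝ ℝ).toContinuousLinearEquiv.trans
    (S.trans (ContinuousMap.linearIsometryBoundedOfCompact _ ℝ ℝ).toContinuousLinearEquiv.symm))⟩⟩

end Pool.Agent.Lib.MP_9e0ccb_an
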