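import Pool.Agent.Lib.MP_9e0ccb_an.Final
import Pool.Agent.Lib.MP_9e0ccb_an.Limit
import Pool.Agent.Lib.MP_9e0ccb_an.LpBall

/-!
An explicit cardinal bound for the canonization step.
-/

set_option autoImplicit false
set_option linter.unusedSectionVars false
set_option linter.deprecated false
set_option linter.unusedVariables false
set_option linter.unusedSimpArgs false
open Set Filter Topology Cardinal
open scoped Classical

namespace Pool.Agent.Lib.MP_9e0ccb_an

/-- The threshold cardinal. -/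
noncomputable def theta : Cardinal.{0} := beth (Order.succ (beth 3)).ord

lemma theta_lim : Order.IsSuccLimit (Order.succ (beth.{0} 3)).ord :=
  isSuccLimit_ord ((aleph0_le_beth 3).trans (Order.le_succ _))

lemma theta_two_pow {μ : Cardinal.{0}} (h : μ < theta) : 2 ^ μ < theta :=
  (isStrongLimit_beth.mpr theta_lim.isSuccPrelimit).isStrongPrelimit h

lemma aleph0_le_theta : ℵ₀ ≤ theta := aleph0_le_beth _

lemma beth3_lt_theta : beth 3 < theta := by
  refine beth_lt_beth.mpr ?_
  have h1 : (3 : Ordinal.{0}) < Ordinal.omega0 := by exact_mod_cast Ordinal.natCast_lt_omega0 3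
  exact h1.trans_le (omega0_le_ord.mpr ((aleph0_le_beth 3).trans (Order.le_succ _)))

lemma theta_mul {a b : Cardinal.{0}} (ha : a < theta) (hb : b < theta) : a * b < theta :=
  mul_lt_of_lt aleph0_le_theta ha hb

lemma theta_pow {a b : Cardinal.{0}} (ha : a < theta) (hb : b < theta) : a ^ b < theta := by
  refine lt_of_le_of_lt (power_le_power_right (cantor a).le) ?_
  rw [← power_mul]
  exact theta_two_pow (theta_mul ha hb)

lemma theta_succ {a : Cardinal.{0}} (ha : a < theta) : Order.succ a < theta :=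
  lt_of_le_of_lt (Order.succ_le_of_lt (cantor a)) (theta_two_pow ha)

lemma theta_iSup {Col : Type} (hC : #Col ≤ beth 3) (μ : Col → Cardinal.{0})
    (hμ : ∀ q, μ q < theta) : ⨆ q, μ q < theta := by
  have h1 : ∀ q, ∃ o < (Order.succ (beth.{0} 3)).ord, μ q ≤ beth o := by
    intro q
    have := hμ q
    rw [theta, beth_limit theta_lim] at this
    have hne : Nonempty (Iio (Order.succ (beth.{0} 3)).ord) := ⟨⟨0, theta_lim.bot_lt⟩⟩
    obtain ⟨o, ho⟩ := exists_lt_of_lt_ciSup this
    exact ⟨o.1, o.2, ho.le⟩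
  choose o ho1 ho2 using h1
  have h2 : ⨆ q, o q < (Order.succ (beth.{0} 3)).ord :=
    iSup_lt_ord_of_isRegular (isRegular_succ (aleph0_le_beth 3)) (Order.lt_succ_of_le hC) ho1
  refine lt_of_le_of_lt (ciSup_le' fun q => (ho2 q).trans ?_) (beth_lt_beth.mpr h2)
  exact beth_le_beth.mpr (Ordinal.le_iSup o q)

/-- The Erdős–Rado theorem below `theta`. -/
lemma erdos_rado' (Col : Type) (hC : #Col < theta) (n : ℕ) : ∀ μ : Cardinal.{0}, μ < theta →
    ∃ Θ : Cardinal.{0}, Θ < theta ∧ ∀ (Y : Type),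
    Θ ≤ #Y → ∀ c : Finset Y → Col, ∃ X : Set Y, μ ≤ #X ∧
      ∃ p, ∀ s : Finset Y, (↑s : Set Y) ⊆ X → s.card = n → c s = p := by
  induction n with
  | zero =>
    intro μ hμ
    refine ⟨μ, hμ, fun Y hY c => ⟨univ, by simpa using hY, c ∅, fun s _ hs => ?_⟩⟩
    rw [Finset.card_eq_zero.mp hs]
  | succ n ih =>
    intro μ hμ
    obtain ⟨Θ, hΘt, hΘ⟩ := ih μ hμ
    let W : Type := Θ.ord.ToType
    have hW : #W = Θ := by simp [W]
    refine ⟨Order.succ #(W × (Finset W → Col)), ?_, fun Y hY c => ?_⟩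
    · refine theta_succ ?_
      rw [mk_prod, lift_id, lift_id, ← power_def, hW]
      refine theta_mul hΘt (theta_pow hC ?_)
      refine lt_of_le_of_lt (mk_le_of_injective (Finset.coe_injective (α := W))) ?_
      rw [mk_set, hW]
      exact theta_two_pow hΘt
    obtain ⟨f, y, hf, hend⟩ := end_homog (Order.succ_le_iff.mp hY) c
    obtain ⟨X, hX, p, hp⟩ := hΘ W hW.ge (fun s => c (insert y (s.image f)))
    refine ⟨f '' X, by rwa [Cardinal.mk_image_eq hf], p, fun s hs hcard => ?_⟩
    obtain ⟨t, htX, rfl⟩ : ∃ t : Finset W, (↑t : Set W) ⊆ X ∧ t.image f = s := by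
      refine ⟨s.preimage f hf.injOn, fun x hx => ?_, ?_⟩
      · obtain ⟨x', hx', e⟩ := hs (Finset.mem_preimage.mp hx)
        rwa [← hf e]
      · rw [Finset.image_preimage]
        exact Finset.filter_true_of_mem fun x hx => image_subset_range _ _ (hs hx)
    rw [Finset.card_image_of_injective _ hf] at hcard
    have hne : t.Nonempty := Finset.card_pos.mp (by omega)
    have e : t = insert (t.max' hne) (t.erase (t.max' hne)) :=
      (Finset.insert_erase (t.max'_mem hne)).symm
    rw [e, Finset.image_insert, hend]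
    · refine hp _ (fun x hx => htX (Finset.mem_of_mem_erase hx)) ?_
      rw [Finset.card_erase_of_mem (t.max'_mem hne)]; omega
    · intro x hx
      exact lt_of_le_of_ne (t.le_max' x (Finset.mem_of_mem_erase hx)) (Finset.ne_of_mem_erase hx)

/-- Morley's argument inside one set of size at least `theta`. -/
lemma morley' {Γ : Type} (hbig : theta ≤ #Γ) {Col : Type} (hC : #Col ≤ beth 3)
    (c : Finset Γ → Col) :
    ∃ p : ℕ → Col, ∀ N : ℕ, ∃ X : Set Γ, X.Infinite ∧
      ∀ s : Finset Γ, (↑s : Set Γ) ⊆ X → s.card < N → c s = p s.card := by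
  let Large : ℕ → (ℕ → Col) → Prop := fun n p => ∀ μ : Cardinal.{0}, μ < theta → ∃ X : Set Γ,
    μ ≤ #X ∧ ∀ s : Finset Γ, (↑s : Set Γ) ⊆ X → s.card < n → c s = p s.card
  have step : ∀ n p, Large n p → ∃ q, Large (n + 1) (Function.update p n q) := by
    intro n p hp
    by_contra H
    simp only [Large, not_exists, not_forall] at H
    choose μ hμt hμ using H
    obtain ⟨Θ, hΘt, hΘ⟩ := erdos_rado' Col (hC.trans_lt beth3_lt_theta) n (⨆ q, μ q)
      (theta_iSup hC μ hμt)
    obtain ⟨X, hX, hc⟩ := hp Θ hΘt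
    obtain ⟨X', hX', q, hq⟩ := hΘ X hX (fun s => c (s.map (Function.Embedding.subtype _)))
    apply hμ q (Subtype.val '' X')
    refine ⟨?_, fun s hs hcard => ?_⟩
    · rw [Cardinal.mk_image_eq Subtype.val_injective]
      exact (le_ciSup (Cardinal.bddAbove_of_small) q).trans hX'
    · have hsX : (↑s : Set Γ) ⊆ X := fun x hx => by
        obtain ⟨x', _, rfl⟩ := hs hx; exact x'.2
      rcases Nat.lt_succ_iff_lt_or_eq.mp hcard with h | h
      · rw [Function.update_of_ne h.ne]; exact hc s hsX h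
      · rw [h, Function.update_self]
        have e : (s.subtype (· ∈ X)).map (Function.Embedding.subtype _) = s :=
          Finset.subtype_map_of_mem fun x hx => hsX hx
        have := hq (s.subtype (· ∈ X)) (fun x hx => by
          obtain ⟨x', hx', e'⟩ := hs (Finset.mem_subtype.mp hx)
          rwa [← Subtype.ext e']) (by rw [← h, ← Finset.card_map (Function.Embedding.subtype _), e])
        rw [e] at this; exact this
  have h0 : Large 0 (fun _ => c ∅) := fun μ hμ =>
    ⟨univ, by simpa using hμ.le.trans hbig, fun s _ h => absurd h (Nat.not_lt_zero _)⟩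
  choose q hq using step
  let seq : (n : ℕ) → {p // Large n p} := fun n =>
    Nat.rec (motive := fun n => {p // Large n p}) ⟨fun _ => c ∅, h0⟩
    (fun n a => ⟨_, hq n a.1 a.2⟩) n
  have hseq : ∀ n m, m < n → (seq n).1 m = (seq (m + 1)).1 m := by
    intro n
    induction n with
    | zero => intro m h; omega
    | succ n ih =>
      intro m h
      rcases Nat.lt_succ_iff_lt_or_eq.mp h with h | h
      · rw [← ih m h]
        change Function.update _ _ _ _ = _
        rw [Function.update_of_ne h.ne]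
      · rw [h]
  refine ⟨fun m => (seq (m + 1)).1 m, fun N => ?_⟩
  obtain ⟨X, hX, hc⟩ := (seq N).2 ℵ₀ ((aleph0_le_beth 3).trans_lt beth3_lt_theta)
  refine ⟨X, Set.infinite_coe_iff.mp (Cardinal.infinite_iff.mpr hX), fun s hs hcard => ?_⟩
  rw [hc s hs hcard, hseq N _ hcard]

/-- A separable metric space has at most continuum many points. -/
lemma mk_le_of_separable (X : Type) [MetricSpace X] [TopologicalSpace.SeparableSpace X] :
    #X ≤ 𝔠 := by
  rcases isEmpty_or_nonempty X with h | h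
  · simp
  have hd := TopologicalSpace.denseRange_denseSeq X
  have h1 : ∀ x : X, ∃ s : ℕ → ℕ,
      Tendsto (fun n => TopologicalSpace.denseSeq X (s n)) atTop (𝓝 x) := by
    intro x
    obtain ⟨u, hu, hlim⟩ := mem_closure_iff_seq_limit.mp (hd x)
    choose s hs using hu
    exact ⟨s, by simpa only [hs] using hlim⟩
  choose s hs using h1
  have h2 : Function.Injective s := fun x y hxy =>
    tendsto_nhds_unique (hs x) (by rw [hxy]; exact hs y)
  simpa using mk_le_of_injective h2

lemma beth_two : beth.{0} 2 = 2 ^ 𝔠 := by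
  rw [← beth_one, ← beth_add_one, one_add_one_eq_two]

lemma beth_three : beth.{0} 3 = 2 ^ (2 : Cardinal.{0}) ^ 𝔠 := by
  rw [← beth_two, ← beth_add_one, two_add_one_eq_three]

lemma mk_col : #(Set (C(B ℕ, ℝ) → ℝ) × Set (Finset ℕ × ℕ × Finset ℕ × ℕ) × ℕ) ≤ beth 3 := by
  have h1 : #C(B ℕ, ℝ) ≤ 𝔠 := mk_le_of_separable _
  have h2 : #(C(B ℕ, ℝ) → ℝ) ≤ 2 ^ 𝔠 := by
    rw [← power_def, mk_real]
    refine (power_le_power_left continuum_ne_zero h1).trans ?_
    rw [← two_power_aleph0, ← power_mul, two_power_aleph0, aleph0_mul_continuum]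
  have h3 : #(Set (C(B ℕ, ℝ) → ℝ)) ≤ beth 3 := by
    rw [mk_set, beth_three]
    exact power_le_power_left two_ne_zero h2
  have h4 : #(Set (Finset ℕ × ℕ × Finset ℕ × ℕ)) ≤ beth 3 := by
    rw [mk_set, mk_eq_aleph0, two_power_aleph0, ← beth_one]
    exact beth_le_beth.mpr (by norm_num)
  have h5 : #ℕ ≤ beth 3 := by rw [mk_nat]; exact aleph0_le_beth 3
  rw [mk_prod, mk_prod]
  simp only [lift_id]
  have hm : ∀ a b : Cardinal.{0}, a ≤ beth 3 → b ≤ beth 3 → a * b ≤ beth 3 := fun a b ha hb =>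
    (mul_le_mul' ha hb).trans (mul_eq_self (aleph0_le_beth 3)).le
  exact hm _ _ h3 (hm _ _ h4 h5)

lemma exists_EMD' (ρ : Rep) (hbig : theta ≤ #ρ.Γ) : Nonempty EMD := by
  obtain ⟨m, hm1, hm2⟩ : ∃ m : ℕ, (∀ h, ‖ρ.S h‖ ≤ m * ‖h‖) ∧ ∀ h, ‖h‖ ≤ m * ‖ρ.S h‖ := by
    obtain ⟨m, hm⟩ := exists_nat_ge (max ‖(ρ.S : C(B ρ.Γ, ℝ) →L[ℝ] C(ρ.L, ℝ))‖
      ‖(ρ.S.symm : C(ρ.L, ℝ) →L[ℝ] C(B ρ.Γ, ℝ))‖)
    refine ⟨m, fun h => ?_, fun h => ?_⟩
    · exact ((ρ.S : C(B ρ.Γ, ℝ) →L[ℝ] C(ρ.L, ℝ)).le_opNorm h).trans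
        (mul_le_mul_of_nonneg_right ((le_max_left _ _).trans hm) (norm_nonneg _))
    · have := ((ρ.S.symm : C(ρ.L, ℝ) →L[ℝ] C(B ρ.Γ, ℝ)).le_opNorm (ρ.S h)).trans
        (mul_le_mul_of_nonneg_right ((le_max_right _ _).trans hm) (norm_nonneg _))
      simpa using this
  let ord : LinearOrder ρ.Γ := linearOrderOfSTO WellOrderingRel
  let c : Finset ρ.Γ →
      Set (C(B ℕ, ℝ) → ℝ) × Set (Finset ℕ × ℕ × Finset ℕ × ℕ) × ℕ := fun s =>
    (ρ.Lam s, {q | ρ.e (sub s q.1) q.2.1 = ρ.e (sub s q.2.2.1) q.2.2.2}, 0)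
  obtain ⟨p, hp⟩ := morley' hbig mk_col c
  have h2 : ∀ J : Finset ℚ, ∃ u : ℚ → ρ.Γ, StrictMonoOn u J ∧
      ∀ s : Finset ρ.Γ, s ⊆ J.image u → c s = p s.card := by
    intro J
    obtain ⟨X, hX, hc⟩ := hp (J.card + 1)
    obtain ⟨t, ht, htc⟩ := hX.exists_subset_card_eq J.card
    obtain ⟨x0, -⟩ := hX.nonempty
    let u : ℚ → ρ.Γ := fun b => if hb : b ∈ J then
      t.orderEmbOfFin htc ((J.orderIsoOfFin rfl).symm ⟨b, hb⟩) else x0
    refine ⟨u, fun a ha b hb hab => ?_, fun s hs => hc s (fun x hx => ?_) ?_⟩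
    · have ha' : a ∈ J := ha
      have hb' : b ∈ J := hb
      simp only [u, ha', hb', dif_pos]
      apply (t.orderEmbOfFin htc).strictMono
      apply (J.orderIsoOfFin rfl).symm.strictMono
      exact hab
    · obtain ⟨b, hb, rfl⟩ := Finset.mem_image.mp (hs hx)
      simp only [u, hb, dif_pos]
      exact ht (t.orderEmbOfFin_mem htc _)
    · exact Nat.lt_succ_of_le ((Finset.card_le_card hs).trans Finset.card_image_le)
  choose u hu hc using h2
  have hcol : ∀ J₁ J : Finset ℚ, J ⊆ J₁ → c (J.image (u J₁)) = p J.card := by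
    intro J₁ J hJ
    rw [hc J₁ _ (Finset.image_subset_image hJ),
      Finset.card_image_of_injOn ((hu J₁).injOn.mono hJ)]
  refine ⟨⟨fun _ => ρ, u, fun J => (hu J).injOn, (m : ℕ), Nat.cast_nonneg _,
    fun J h => hm1 h, fun J h => hm2 h, ?_, ?_⟩⟩
  · intro g J₁ J₂ J J' a a' hJ hJ' hg hg' he
    have e1 := hcol J₁ (J ∪ J') (Finset.union_subset hJ hJ')
    have e2 := hcol J₂ ((J ∪ J').image g)
      (by rw [Finset.image_union]; exact Finset.union_subset hg hg')
    rw [Finset.card_image_of_injective _ g.injective, ← e1, Finset.image_image] at e2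
    have e3 := congrArg (fun q => (J.image (rank (J ∪ J')), a, J'.image (rank (J ∪ J')), a') ∈ q.2.1)
      e2
    have m1 : StrictMonoOn (u J₁) ↑(J ∪ J') := (hu J₁).mono (Finset.union_subset hJ hJ')
    have m2 : StrictMonoOn (u J₂ ∘ g) ↑(J ∪ J') := by
      intro x hx y hy hxy
      have hsub : (J ∪ J').image g ⊆ J₂ := by
        rw [Finset.image_union]; exact Finset.union_subset hg hg'
      exact hu J₂ (hsub (Finset.mem_image_of_mem _ hx)) (hsub (Finset.mem_image_of_mem _ hy))
        (g.strictMono hxy)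
    simp only [c, mem_setOf_eq] at e3
    rw [sub_image m1 Finset.subset_union_left, sub_image m1 Finset.subset_union_right,
      sub_image m2 Finset.subset_union_left, sub_image m2 Finset.subset_union_right] at e3
    rw [img_eq, img_eq] at he
    rw [img_eq, img_eq, Finset.image_image, Finset.image_image]
    exact e3.symm ▸ he
  · intro J₁ J₂ J J' hJ hJ' hcard
    have e1 := hcol J₁ J hJ
    have e2 := hcol J₂ J' hJ'
    rw [← hcard, ← e1] at e2
    rw [img_eq, img_eq]
    exact (congrArg (fun q => q.1) e2).symm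

/-- No isomorphism for an index set of size at least `theta`. -/
theorem not_iso {Γ : Type} (hbig : theta ≤ #Γ) (L : Type) [TopologicalSpace L] [CompactSpace L]
    [T2Space L] [TotallyDisconnectedSpace L] (S : C(B Γ, ℝ) ≃L[ℝ] C(L, ℝ)) : False := by
  have : Infinite Γ := Cardinal.infinite_iff.mpr (aleph0_le_theta.trans hbig)
  obtain ⟨e, h1, h2, h3, h4⟩ := exists_enum S
  obtain ⟨D⟩ := exists_EMD' ⟨Γ, L, S, e, h1, h2, h3, h4⟩ hbig
  obtain ⟨σ⟩ := D.nonempty_Str
  exact σ.false

/-- The same with `L` in any universe. -/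
theorem not_iso' {Γ : Type} (hbig : theta ≤ #Γ) (L : Type*) [TopologicalSpace L] [CompactSpace L]
    [T2Space L] [TotallyDisconnectedSpace L] (S : C(B Γ, ℝ) ≃L[ℝ] C(L, ℝ)) : False := by
  have hs : Small.{0} L := by
    refine small_of_injective (f := fun (ℓ : L) (h : C(B Γ, ℝ)) => S h ℓ) fun a b hab => ?_
    by_contra hne
    obtain ⟨f, hf0, hf1, -⟩ := exists_continuous_zero_one_of_isClosed
      (isClosed_singleton (x := a)) (isClosed_singleton (x := b)) (by simpa using hne)
    have := congrFun hab (S.symm f)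
    simp only [ContinuousLinearEquiv.apply_symm_apply] at this
    rw [hf0 rfl, hf1 rfl] at this
    simp at this
  let φ : L ≃ₜ Shrink.{0} L := Shrink.homeomorph L
  have := φ.compactSpace
  have := φ.t2Space
  have := φ.totallyDisconnectedSpace
  exact not_iso hbig (Shrink.{0} L) (S.trans
    (ContinuousLinearEquiv.equivOfInverse (ContinuousMap.compCLM ℝ ℝ (φ.symm : C(_, _)))
      (ContinuousMap.compCLM ℝ ℝ (φ : C(_, _))) (fun f => by ext x; simp) (fun f => by ext x; simp)))

end Pool.Agent.Lib.MP_9e0ccb_an
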