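import Pool.Agent.Lib.MP_9e0ccb_an.Host

set_option autoImplicit false
set_option linter.unusedSectionVars false
set_option linter.deprecated false
set_option linter.unusedVariables false
set_option linter.unusedSimpArgs false
open Set Filter Topology
open scoped Classical

namespace Pool.Agent.Lib.MP_9e0ccb_an

lemma sum_groups (f : ℕ → ℝ) (q N : ℕ) :
    ∑ t ∈ Finset.range N, ∑ j ∈ Finset.Ico (t * q) (t * q + q), f j =
      ∑ j ∈ Finset.range (N * q), f j := by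
  induction N with
  | zero => simp
  | succ N ih =>
    rw [Finset.sum_range_succ, ih, Nat.succ_mul, Finset.sum_range_add_sum_Ico _ (Nat.le_add_right _ _)]

lemma cnt_one_le (T : Finset ℚ) (Q : Finset ℚ → Prop) : cnt 1 T Q ≤ ovl T fun b => Q {b} := by
  refine Finset.card_le_card_of_injOn (fun H => H 0) (fun H hH => ?_) fun H _ H' _ h => ?_
  · obtain ⟨h1, h2⟩ := Finset.mem_filter.mp hH
    refine Finset.mem_coe.mpr (Finset.mem_filter.mpr ⟨mem_seqs.mp h1 0, ?_⟩)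
    have : im H = {H 0} := by simp [im]
    rwa [this] at h2
  · funext i; rw [Subsingleton.elim i 0]; exact h

variable {Γ L : Type} [TopologicalSpace L] [CompactSpace L] [T2Space L]
  [TotallyDisconnectedSpace L]

/-- Part B: there is no symmetric isomorphism. -/
theorem Str.false (σ : Str Γ L) : False := by
  have hM := σ.M_pos
  have hM1 := σ.one_le_M
  obtain ⟨ρ⟩ := σ.exists_root
  have hη := ρ.η_pos
  set ε : ℝ := 1 / (8000 * σ.M ^ 3) with hε
  have hε0 : 0 < ε := by positivity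
  obtain ⟨st⟩ := ρ.exists_stab hε0
  have hsm : 0 < st.sm := lt_of_lt_of_le (by positivity) st.sm_ge
  have h16 : 0 < 1 / (16 * σ.M) := by positivity
  obtain ⟨J₀', hJ₀'⟩ := σ.exists_CJ st.E1_clopen
  let a₀ : StageIn st := ⟨ρ.R0 ∪ J₀', st.E1, st.sp, Finset.subset_union_left,
    hJ₀'.mono Finset.subset_union_right, subset_rfl, st.lt, st.ne⟩
  let f : ∀ a : StageIn st, StageOut a (1 / (16 * σ.M)) (14 * σ.M * ε) := fun a =>
    (stage hε0 a h16).some
  let A : ℕ → StageIn st := fun j => Nat.rec a₀ (fun _ a => (f a).nx) j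
  have hAJ : Monotone fun j => (A j).J := monotone_nat_of_le_succ fun j =>
    (Finset.subset_insert _ _).trans (f (A j)).J_sub
  have hAE : Antitone fun j => (A j).Em := antitone_nat_of_succ_le fun j =>
    (f (A j)).En_sub.trans (inter_subset_left.trans (f (A j)).E_sub)
  obtain ⟨q, hq⟩ := exists_nat_gt (4 * σ.M ^ 2)
  have hq0 : (0 : ℝ) < q := lt_of_le_of_lt (by positivity) hq
  obtain ⟨α, hα⟩ := exists_nat_gt (8192 * σ.M ^ 6)
  have hα0 : (0 : ℝ) < α := lt_of_le_of_lt (by positivity) hα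
  set p := 2 * α * q with hp
  have hp0 : (0 : ℝ) < p := by rw [hp]; push_cast; positivity
  set J := (A p).J with hJ
  set J₀ := a₀.J with hJ₀
  have hJ₀J : J₀ ⊆ J := hAJ (Nat.zero_le p)
  obtain ⟨ℓ, hℓK, hℓE⟩ := (A p).ne
  obtain ⟨n, hn, T, hT, hsT, z, hz, hzU, hcnt⟩ := ρ.K_subset_Theta _ hℓK J (A p).hJ (A p).Em
    (A p).hE hℓE 1 1 (1 / 2) (by norm_num)
  have hn1 : (1 : ℝ) ≤ n := by exact_mod_cast hn
  have hsp : 0 < (A p).s := hsm.trans (A p).hs
  have hTpos : (0 : ℝ) < T.card :=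
    lt_of_lt_of_le (mul_pos (mul_pos hsp hη) (by linarith only [hn1])) hsT
  obtain ⟨ζ, hζ, hhost⟩ := ρ.host (J₀ := J₀) (J := J) (T := T) a₀.hJ hJ₀J hT a₀.hE n
    (α := α) (by exact_mod_cast hα0) h16
  obtain ⟨F, hF1, hF2⟩ := (hhost.and (σ.twins p (fun j => (A j).J) (fun j => (f (A j)).c)
    (fun j => (f (A j)).E) (fun j => (f (A j)).Bs) (fun j => (f (A j)).Fc) (fun j => (f (A j)).θ)
    hAJ (fun j => (f (A j)).c_above) (fun j => (f (A j)).J_sub (Finset.mem_insert_self _ _))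
    (fun j => (f (A j)).E_CJ.mono (f (A j)).J_sub) (fun j => (f (A j)).Bs_CJ)
    (fun j γ hγ => ((f (A j)).Fc_supp γ hγ).trans (f (A j)).J_sub)
    (fun j j' h => (f (A j')).E_sub.trans ((hAE h).trans
      ((f (A j)).En_sub.trans inter_subset_right))) h16)).exists
  let κ : C(B Γ, ℝ) := clampF (1 + (1 / ζ) • ((1 - mass (σ.FJ F J₀)) - (α : ℝ) • (1 - mass (σ.FJ F J))))
  have hκ : ∀ y, κ y = max (min (1 + 1 / ζ * ((1 - mass (σ.FJ F J₀) y) -
      α * (1 - mass (σ.FJ F J) y))) 1) 0 := fun y => rfl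
  have hκ0 : ∀ y, 0 ≤ κ y := fun y => clampF_nonneg _ _
  have hκ1 : ∀ y, κ y ≤ 1 := fun y => clampF_le_one _ _
  have hsum : ∀ y, ∑ b ∈ T, κ y * |σ.tau (st.E1 ∩ ρ.U n b) y| ≤ T.card * (1 / (8 * σ.M)) := by
    intro y
    rw [← Finset.mul_sum]
    by_cases hy : α * (1 - mass (σ.FJ F J) y) ≤ 1 - mass (σ.FJ F J₀) y + ζ
    · refine (mul_le_of_le_one_left (Finset.sum_nonneg fun _ _ => abs_nonneg _) (hκ1 y)).trans
        ((hF1 y hy).trans ?_)
      have h1 : 16 * σ.M ^ 2 * ρ.η * n * σ.M / α ≤ T.card * (1 / (16 * σ.M)) := by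
        have h2 : 1 / (32 * σ.M ^ 2) * ρ.η * n ≤ T.card := le_trans (mul_le_mul_of_nonneg_right
          (mul_le_mul_of_nonneg_right (st.sm_ge.trans (A p).hs.le) hη.le) (by positivity)) hsT
        have h3 : 16 * σ.M ^ 2 * ρ.η * n * σ.M / α =
            1 / (32 * σ.M ^ 2) * ρ.η * n * (512 * σ.M ^ 5 / α) := by field_simp; ring
        rw [h3]
        refine mul_le_mul h2 ?_ (by positivity) hTpos.le
        rw [div_le_div_iff₀ hα0 (by positivity)]
        linarith only [hα]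
      have h2 : (T.card : ℝ) * (1 / (8 * σ.M)) =
          T.card * (1 / (16 * σ.M)) + T.card * (1 / (16 * σ.M)) := by field_simp; ring
      linarith only [h1, h2]
    · have : κ y = 0 := clampF_eq_zero _ _ (by
        change 1 + 1 / ζ * ((1 - mass (σ.FJ F J₀) y) - α * (1 - mass (σ.FJ F J) y)) ≤ 0
        have h1 : 1 / ζ * ((1 - mass (σ.FJ F J₀) y) - α * (1 - mass (σ.FJ F J) y)) ≤ 1 / ζ * (-ζ) :=
          mul_le_mul_of_nonneg_left (by linarith only [not_le.mp hy]) (one_div_pos.mpr hζ).le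
        rw [mul_neg, one_div_mul_cancel hζ.ne'] at h1
        linarith only [h1])
      rw [this, zero_mul]; positivity
  obtain ⟨b, hb, hbm⟩ : ∃ b ∈ T.filter fun b => σ.r (J ∪ {b}) z ∈ ρ.K (A p).s,
      σ.Lam z (κ * |σ.tau (st.E1 ∩ ρ.U n b)|) ≤ 1 / 4 := by
    have hc : 1 / 2 * (T.card : ℝ) ≤ (T.filter fun b => σ.r (J ∪ {b}) z ∈ ρ.K (A p).s).card := by
      have h1 := hcnt.trans (Nat.cast_le.mpr (cnt_one_le _ _))
      rw [pow_one, ovl_eq] at h1
      linarith only [h1]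
    refine Finset.exists_le_of_sum_le (Finset.card_pos.mp (by
      have : (0 : ℝ) < _ := lt_of_lt_of_le (by linarith only [hTpos]) hc
      exact_mod_cast this)) ?_
    rw [Finset.sum_const, nsmul_eq_mul]
    refine le_trans (Finset.sum_le_sum_of_subset_of_nonneg (Finset.filter_subset _ _)
      fun b _ _ => σ.Lam_nonneg _ fun y => mul_nonneg (hκ0 y) (abs_nonneg _)) ?_
    rw [← map_sum]
    refine (σ.Lam_le_const z (c := T.card * (1 / (8 * σ.M))) (by positivity) fun y => ?_).trans ?_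
    · rw [ContinuousMap.sum_apply]; exact hsum y
    · rw [show (T.card : ℝ) * (1 / (8 * σ.M)) * σ.M = 1 / 2 * T.card * (1 / 4) by field_simp; ring]
      exact mul_le_mul_of_nonneg_right hc (by norm_num)
  obtain ⟨hbT, hbK⟩ := Finset.mem_filter.mp hb
  set z' := σ.r (J ∪ {b}) z with hz'
  have hz'K : z' ∈ ρ.K st.sm := ρ.K_mono (A p).hs.le hbK
  have hUb : σ.CJ (J ∪ {b}) (ρ.U n b) := ρ.U_CJ' n ((hT b hbT).mono (A p).hJ)
    ((A p).hJ.trans Finset.subset_union_left) (by simp)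
  have hz'E : z' ∈ (A p).Em := (((A p).hE.mono Finset.subset_union_left).2 z).mpr hz
  have hz'U : z' ∈ ρ.U n b := (hUb.2 z).mpr (hzU b hbT)
  set Es := (A p).Em ∩ ρ.U n b with hEs
  have hEsc : IsClopen Es := (A p).hE.1.inter hUb.1
  have hmR : ∀ P, P ⊆ J → ∀ y, mass (σ.FJ F P) (σ.R (J ∪ {b}) y) = mass (σ.FJ F P) y := by
    intro P hP y
    exact Finset.sum_congr rfl fun γ hγ => by
      rw [σ.R_mem y ((Finset.mem_filter.mp hγ).2.trans (hP.trans Finset.subset_union_left))]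
  have h4 : σ.Lam z' (κ * |σ.tau (st.E1 ∩ ρ.U n b)|) ≤ 1 / 4 := by
    refine (σ.Lam_r _ (fun y => mul_nonneg (hκ0 y) (abs_nonneg _)) z).trans
      ((σ.Lam_mono z fun y => le_of_eq ?_).trans hbm)
    change κ (σ.R _ y) * |σ.tau _ (σ.R _ y)| = κ y * |σ.tau _ y|
    rw [hκ, hκ, hmR _ hJ₀J, hmR _ subset_rfl,
      ((a₀.hE.mono (hJ₀J.trans Finset.subset_union_left)).inter hUb).tau_R]
  let u : ℕ → C(B Γ, ℝ) := fun j => (|σ.tau Es| - |σ.tau (f (A j)).E|) ⊔ 0 +
    |(σ.tau ((f (A j)).E ∩ (f (A j)).Bs)).comp (σ.piM (f (A j)).c (f (A j)).Fc (f (A j)).θ)|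
  have hu0 : ∀ j y, 0 ≤ u j y := fun j y => add_nonneg (le_max_right _ _) (abs_nonneg _)
  have hu : ∀ j ∈ Finset.range p, σ.Lam z' (u j) ≤ 18 * σ.M * ε := by
    intro j hj
    have h1 : (A p).Em ⊆ (f (A j)).nx.Em := hAE (Finset.mem_range.mp hj)
    have h2 := st.S2 z' hz'K Es (f (A j)).E hEsc (f (A j)).E_CJ.1 ⟨hz'E, hz'U⟩
      (inter_subset_left.trans (h1.trans ((f (A j)).En_sub.trans inter_subset_left)))
      ((f (A j)).E_sub.trans (A j).hE1)
    have h3 := (f (A j)).small z' hz'K (h1 hz'E)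
    rw [map_add]
    linarith only [h2, h3, mul_le_mul_of_nonneg_right hM1 hε0.le]
  have h3 := st.S2 z' hz'K Es (st.E1 ∩ ρ.U n b) hEsc (st.E1_clopen.inter hUb.1) ⟨hz'E, hz'U⟩
    (inter_subset_inter_left _ (A p).hE1) inter_subset_left
  obtain ⟨x, hx⟩ : ∃ x, (32 * σ.M ^ 2 / p) * ∑ j ∈ Finset.range p, u j x +
      max (|σ.tau Es x| - |σ.tau (st.E1 ∩ ρ.U n b) x|) 0 + κ x * |σ.tau (st.E1 ∩ ρ.U n b) x| +
      1 / (2 * σ.M) < |σ.tau Es x| := by
    by_contra H
    push Not at H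
    have h1 := σ.Lam_mono z' (f := |σ.tau Es|)
      (g := (32 * σ.M ^ 2 / p) • ∑ j ∈ Finset.range p, u j +
        (|σ.tau Es| - |σ.tau (st.E1 ∩ ρ.U n b)|) ⊔ 0 + κ * |σ.tau (st.E1 ∩ ρ.U n b)| +
        ContinuousMap.const _ (1 / (2 * σ.M))) fun y => by
        have := H y
        rw [← ContinuousMap.sum_apply] at this
        exact this
    rw [map_add, map_add, map_add, map_smul, map_sum, smul_eq_mul] at h1
    have h2 := σ.one_le_Lam_tau hEsc (ℓ := z') ⟨hz'E, hz'U⟩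
    have h5 := σ.Lam_le_const z' (f := ContinuousMap.const _ (1 / (2 * σ.M))) (c := 1 / (2 * σ.M))
      (by positivity) fun _ => le_rfl
    rw [show 1 / (2 * σ.M) * σ.M = 1 / 2 by field_simp] at h5
    have h6 := Finset.sum_le_sum hu
    rw [Finset.sum_const, Finset.card_range, nsmul_eq_mul] at h6
    have h7 := mul_le_mul_of_nonneg_left h6 (show 0 ≤ 32 * σ.M ^ 2 / p by positivity)
    rw [show 32 * σ.M ^ 2 / p * (p * (18 * σ.M * ε)) = 9 / 125 by rw [hε]; field_simp; ring] at h7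
    have h8 : ε ≤ 1 / 8000 := by
      rw [hε]
      exact one_div_le_one_div_of_le (by norm_num) (by linarith only [one_le_pow₀ (n := 3) hM1])
    linarith only [h1, h2, h3, h4, h5, h7, h8]
  have hxM := σ.abs_tau_le Es x
  have hx1 : 0 ≤ (32 * σ.M ^ 2 / p) * ∑ j ∈ Finset.range p, u j x :=
    mul_nonneg (by positivity) (Finset.sum_nonneg fun j _ => hu0 j x)
  have hx2 : 0 ≤ max (|σ.tau Es x| - |σ.tau (st.E1 ∩ ρ.U n b) x|) 0 := le_max_right _ _
  have hx3 : 0 ≤ κ x * |σ.tau (st.E1 ∩ ρ.U n b) x| := mul_nonneg (hκ0 x) (abs_nonneg _)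
  have hx4 : 0 < 1 / (2 * σ.M) := by positivity
  set a := 1 - mass (σ.FJ F J) x with ha
  set b₀ := 1 - mass (σ.FJ F J₀) x with hb₀
  have hroom : b₀ < α * a := by
    by_contra H
    have : κ x = 1 := clampF_eq_one _ _ (by
      change 1 ≤ 1 + 1 / ζ * (b₀ - α * a)
      have : 0 ≤ 1 / ζ * (b₀ - α * a) := mul_nonneg (one_div_pos.mpr hζ).le
        (by linarith only [not_lt.mp H])
      linarith only [this])
    rw [this, one_mul] at hx
    linarith only [hx, hx1, hx4, le_max_left (|σ.tau Es x| - |σ.tau (st.E1 ∩ ρ.U n b) x|) 0]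
  have hb₀0 : 0 ≤ b₀ := sub_nonneg.mpr (mass_le_one _ _)
  have ha0 : 0 < a := pos_of_mul_pos_left (hb₀0.trans_lt (hroom.trans_eq (mul_comm _ _))) hα0.le
  let W : ℕ → ℝ := fun j => mass ((f (A j)).Fc.filter fun γ => (f (A j)).c ∈ σ.supp γ) x
  have hW : ∑ j ∈ Finset.range p, W j ≤ b₀ := by
    have hd : ∀ j j', j < j' → Disjoint ((f (A j)).Fc.filter fun γ => (f (A j)).c ∈ σ.supp γ)
        ((f (A j')).Fc.filter fun γ => (f (A j')).c ∈ σ.supp γ) := fun j j' h =>
      Finset.disjoint_left.mpr fun γ h1 h2 => (f (A j')).c_above.not_mem (hAJ h ((f (A j)).J_sub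
        ((f (A j)).Fc_supp γ (Finset.mem_filter.mp h1).1 (Finset.mem_filter.mp h2).2)))
    have h1 := B_sum_le x (σ.FJ F J₀ ∪ (Finset.range p).biUnion fun j =>
      (f (A j)).Fc.filter fun γ => (f (A j)).c ∈ σ.supp γ)
    rw [Finset.sum_union, Finset.sum_biUnion] at h1
    · simp only [W, hb₀, mass_apply]; linarith only [h1]
    · intro j _ j' _ hne
      rcases lt_or_gt_of_ne hne with h | h
      · exact hd j j' h
      · exact (hd j' j h).symm
    · refine Finset.disjoint_left.mpr fun γ h h' => ?_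
      obtain ⟨j, -, h2⟩ := Finset.mem_biUnion.mp h'
      exact (f (A j)).c_above.not_mem (hAJ (Nat.zero_le j)
        ((Finset.mem_filter.mp h).2 (Finset.mem_filter.mp h2).2))
  have hU : ∑ j ∈ Finset.range p, u j x ≤ p / (32 * σ.M) := by
    have h1 : (32 * σ.M ^ 2 / p) * ∑ j ∈ Finset.range p, u j x ≤ σ.M := by
      linarith only [hx, hxM, hx2, hx3, hx4]
    rw [div_mul_eq_mul_div, div_le_iff₀ hp0] at h1
    rw [le_div_iff₀ (by positivity)]
    refine le_of_mul_le_mul_left ?_ hM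
    linarith only [h1]
  obtain ⟨t, ht, htlt⟩ : ∃ t ∈ Finset.range (2 * α),
      ∑ j ∈ Finset.Ico (t * q) (t * q + q), (16 * σ.M / q * u j x + W j / a) < 1 := by
    refine Finset.exists_lt_of_sum_lt ?_
    rw [sum_groups, ← hp, Finset.sum_add_distrib, ← Finset.mul_sum, ← Finset.sum_div,
      Finset.sum_const, Finset.card_range, nsmul_eq_mul, mul_one]
    have h1 := mul_le_mul_of_nonneg_left hU (show 0 ≤ 16 * σ.M / q by positivity)
    rw [show 16 * σ.M / q * (p / (32 * σ.M)) = α by rw [hp]; push_cast; field_simp; ring] at h1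
    have h2 : (∑ j ∈ Finset.range p, W j) / a < α := by
      rw [div_lt_iff₀ ha0]; linarith only [hW, hroom]
    push_cast; linarith only [h1, h2]
  rw [Finset.sum_add_distrib, ← Finset.mul_sum, ← Finset.sum_div] at htlt
  have hU0 : 0 ≤ ∑ j ∈ Finset.Ico (t * q) (t * q + q), u j x := Finset.sum_nonneg fun j _ => hu0 j x
  have hW0 : 0 ≤ ∑ j ∈ Finset.Ico (t * q) (t * q + q), W j :=
    Finset.sum_nonneg fun j _ => mass_nonneg _ _
  have hU1 : ∑ j ∈ Finset.Ico (t * q) (t * q + q), u j x ≤ q * (1 / (16 * σ.M)) := by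
    have h1 : 16 * σ.M / q * ∑ j ∈ Finset.Ico (t * q) (t * q + q), u j x ≤ 1 := by
      linarith only [htlt, div_nonneg hW0 ha0.le]
    rw [div_mul_eq_mul_div, div_le_one hq0] at h1
    rw [mul_one_div, le_div_iff₀ (by positivity)]
    linarith only [h1]
  have hW1 : ∑ j ∈ Finset.Ico (t * q) (t * q + q), W j ≤ a := by
    have h1 : (∑ j ∈ Finset.Ico (t * q) (t * q + q), W j) / a ≤ 1 := by
      linarith only [htlt, mul_nonneg (show 0 ≤ 16 * σ.M / q by positivity) hU0]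
    rwa [div_le_one ha0] at h1
  have hfin := hF2 x (Finset.Ico (t * q) (t * q + q)) (fun j hj => by
    have h1 := (Finset.mem_Ico.mp hj).2
    have h2 : (t + 1) * q ≤ 2 * α * q := Nat.mul_le_mul_right _ (Finset.mem_range.mp ht)
    rw [Nat.succ_mul] at h2
    omega) hW1
  have hlow : ∀ j ∈ Finset.Ico (t * q) (t * q + q), 6 * (1 / (16 * σ.M)) - u j x ≤
      |σ.tau ((f (A j)).E \ (f (A j)).Bs) (σ.piM (f (A j)).c (f (A j)).Fc (f (A j)).θ x)| -
        1 / (16 * σ.M) := by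
    intro j _
    have h1 := σ.tau_split (f (A j)).E_CJ.1 (f (A j)).Bs_CJ.1
      (σ.piM (f (A j)).c (f (A j)).Fc (f (A j)).θ x)
    have h2 := (f (A j)).close x
    have h5 := abs_sub_abs_le_abs_sub (σ.tau (f (A j)).E x)
      (σ.tau (f (A j)).E (σ.piM (f (A j)).c (f (A j)).Fc (f (A j)).θ x))
    rw [abs_sub_comm] at h5
    have h6 := abs_add_le (σ.tau ((f (A j)).E ∩ (f (A j)).Bs)
      (σ.piM (f (A j)).c (f (A j)).Fc (f (A j)).θ x)) (σ.tau ((f (A j)).E \ (f (A j)).Bs)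
      (σ.piM (f (A j)).c (f (A j)).Fc (f (A j)).θ x))
    rw [← h1] at h6
    have h7 : u j x = max (|σ.tau Es x| - |σ.tau (f (A j)).E x|) 0 +
      |σ.tau ((f (A j)).E ∩ (f (A j)).Bs) (σ.piM (f (A j)).c (f (A j)).Fc (f (A j)).θ x)| := rfl
    have h8 := le_max_left (|σ.tau Es x| - |σ.tau (f (A j)).E x|) 0
    have h9 : 1 / (2 * σ.M) = 8 * (1 / (16 * σ.M)) := by field_simp; ring
    linarith only [h2, h5, h6, h7, h8, h9, hx, hx1, hx2, hx3]
  have h10 := (Finset.sum_le_sum hlow).trans hfin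
  rw [Finset.sum_sub_distrib, Finset.sum_const, Nat.card_Ico, Nat.add_sub_cancel_left,
    nsmul_eq_mul] at h10
  have h11 : (q : ℝ) * (1 / (16 * σ.M)) ≤ σ.M / 5 := by linarith only [h10, hU1]
  rw [mul_one_div, div_le_div_iff₀ (by positivity) (by norm_num)] at h11
  linarith only [h11, hq, sq_nonneg σ.M]

end Pool.Agent.Lib.MP_9e0ccb_an
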