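import Pool.Agent.Lib.MP_9e0ccb_an.Copy

set_option autoImplicit false
set_option linter.unusedSectionVars false
set_option linter.deprecated false
set_option linter.unusedVariables false
set_option linter.unusedSimpArgs false
open Set Filter Topology
open scoped Classical

namespace Pool.Agent.Lib.MP_9e0ccb_an

/-- A finite set of indices with twins. -/
structure Frame where
  P : Finset ℚ
  T : Finset ℚ
  T_above : ∀ b ∈ T, Above P b
  tw : ℚ → ℚ
  lt_tw : ∀ b, b < tw b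
  tw_lt : ∀ b, ∀ j ∈ T, b < j → tw b < j

namespace Frame
variable (fr : Frame)

/-- The twins. -/
def T' : Finset ℚ := fr.T.image fr.tw

/-- All indices of the frame. -/
def J0 : Finset ℚ := fr.P ∪ fr.T ∪ fr.T'

/-- The collapse map. -/
noncomputable def κ (x : ℚ) : ℚ := if h : ∃ b ∈ fr.T, fr.tw b = x then h.choose else x

lemma tw_not_mem_T (b : ℚ) : fr.tw b ∉ fr.T := fun h => lt_irrefl _ (fr.tw_lt b _ h (fr.lt_tw b))

lemma tw_inj {a b : ℚ} (ha : a ∈ fr.T) (hb : b ∈ fr.T) (h : fr.tw a = fr.tw b) : a = b := by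
  rcases lt_trichotomy a b with h1 | h1 | h1
  · exact absurd ((fr.tw_lt a b hb h1).trans (fr.lt_tw b)) (by rw [h]; exact lt_irrefl _)
  · exact h1
  · exact absurd ((fr.tw_lt b a ha h1).trans (fr.lt_tw a)) (by rw [h]; exact lt_irrefl _)

lemma κ_tw {b : ℚ} (hb : b ∈ fr.T) : fr.κ (fr.tw b) = b := by
  have h : ∃ a ∈ fr.T, fr.tw a = fr.tw b := ⟨b, hb, rfl⟩
  rw [κ, dif_pos h]
  exact fr.tw_inj h.choose_spec.1 hb h.choose_spec.2

lemma κ_of_not_mem {x : ℚ} (h : x ∉ fr.T') : fr.κ x = x :=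
  dif_neg fun h' => h (Finset.mem_image.mpr h')

lemma not_mem_T'_of_T {x : ℚ} (h : x ∈ fr.T) : x ∉ fr.T' := fun h' => by
  obtain ⟨b, -, rfl⟩ := Finset.mem_image.mp h'
  exact fr.tw_not_mem_T b h

lemma not_mem_T'_of_P {x : ℚ} (h : x ∈ fr.P) : x ∉ fr.T' := fun h' => by
  obtain ⟨b, hb, rfl⟩ := Finset.mem_image.mp h'
  exact lt_irrefl _ ((fr.T_above b hb _ h).trans (fr.lt_tw b))

lemma P_sub : fr.P ⊆ fr.J0 := Finset.subset_union_left.trans Finset.subset_union_left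
lemma T_sub : fr.T ⊆ fr.J0 := Finset.subset_union_right.trans Finset.subset_union_left
lemma T'_sub : fr.T' ⊆ fr.J0 := Finset.subset_union_right

lemma κ_above {x : ℚ} (h : Above fr.J0 x) : fr.κ x = x :=
  fr.κ_of_not_mem fun h' => h.not_mem (fr.T'_sub h')

lemma κ_le (x : ℚ) : fr.κ x ≤ x := by
  by_cases h : x ∈ fr.T'
  · obtain ⟨b, hb, rfl⟩ := Finset.mem_image.mp h
    rw [fr.κ_tw hb]; exact (fr.lt_tw b).le
  · rw [fr.κ_of_not_mem h]

lemma κ_mem_iff {Q : Finset ℚ} (hQ : fr.J0 ⊆ Q) (x : ℚ) : fr.κ x ∈ Q ↔ x ∈ Q := by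
  by_cases h : x ∈ fr.T'
  · obtain ⟨b, hb, rfl⟩ := Finset.mem_image.mp h
    rw [fr.κ_tw hb]; exact ⟨fun _ => hQ (fr.T'_sub h), fun _ => hQ (fr.T_sub hb)⟩
  · rw [fr.κ_of_not_mem h]

lemma above_of_mem_TT' {x : ℚ} (h : x ∈ fr.T ∪ fr.T') : Above fr.P x := by
  rcases Finset.mem_union.mp h with h | h
  · exact fr.T_above x h
  · obtain ⟨b, hb, rfl⟩ := Finset.mem_image.mp h
    exact fun j hj => (fr.T_above b hb j hj).trans (fr.lt_tw b)

end Frame

/-- A division of part of `T` into `k` rows of `D` cells of size `d`. -/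
structure Win (fr : Frame) where
  k : ℕ
  D : ℕ
  d : ℕ
  D_pos : 0 < D
  d_pos : 0 < d
  io : Fin k → Fin D × Fin d → ℚ
  io_mem : ∀ i p, io i p ∈ fr.T
  io_inj : ∀ i p i' p', io i p = io i' p' → i = i' ∧ p = p'

namespace Win
variable {fr : Frame} (w : Win fr)

/-- Choices of a duplicated cell in each row. -/
abbrev Om' : Type := Fin w.k → Fin w.D

/-- Choices of an element in each extended row. -/
abbrev Sel : Type := Fin w.k → Option (Fin w.D) × Fin w.d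

instance : Nonempty w.Om' := ⟨fun _ => ⟨0, w.D_pos⟩⟩
instance : Nonempty w.Sel := ⟨fun _ => (none, ⟨0, w.d_pos⟩)⟩

/-- Elements of the extended rows. -/
def el (ω : w.Om') (i : Fin w.k) (q : Option (Fin w.D) × Fin w.d) : ℚ :=
  match q.1 with
  | some j => w.io i (j, q.2)
  | none => fr.tw (w.io i (ω i, q.2))

lemma κ_el (ω : w.Om') (i : Fin w.k) (q : Option (Fin w.D) × Fin w.d) :
    fr.κ (w.el ω i q) = w.io i (q.1.getD (ω i), q.2) := by
  rcases q with ⟨_ | j, t⟩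
  · exact fr.κ_tw (w.io_mem _ _)
  · exact fr.κ_of_not_mem (fr.not_mem_T'_of_T (w.io_mem _ _))

lemma el_mem (ω : w.Om') (i : Fin w.k) (q : Option (Fin w.D) × Fin w.d) :
    w.el ω i q ∈ fr.T ∪ fr.T' := by
  rcases q with ⟨_ | j, t⟩
  · exact Finset.mem_union_right _ (Finset.mem_image_of_mem _ (w.io_mem _ _))
  · exact Finset.mem_union_left _ (w.io_mem _ _)

lemma el_inj (ω : w.Om') {i i' : Fin w.k} {q q' : Option (Fin w.D) × Fin w.d}
    (h : w.el ω i q = w.el ω i' q') : i = i' ∧ q = q' := by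
  rcases q with ⟨_ | j, t⟩ <;> rcases q' with ⟨_ | j', t'⟩ <;> simp only [el] at h
  · obtain ⟨h1, h2⟩ := w.io_inj _ _ _ _ (fr.tw_inj (w.io_mem _ _) (w.io_mem _ _) h)
    exact ⟨h1, by rw [show t = t' from (Prod.ext_iff.mp h2).2]⟩
  · exact absurd (h ▸ w.io_mem _ _) (fr.tw_not_mem_T _)
  · exact absurd (h ▸ w.io_mem _ _) (fr.tw_not_mem_T _)
  · obtain ⟨h1, h2⟩ := w.io_inj _ _ _ _ h
    exact ⟨h1, by rw [show j = j' from (Prod.ext_iff.mp h2).1, show t = t' from (Prod.ext_iff.mp h2).2]⟩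

/-- The selected elements. -/
def Gt (ω : w.Om') (g : w.Sel) : Finset ℚ := Finset.univ.image fun i => w.el ω i (g i)

lemma mem_Gt {ω : w.Om'} {g : w.Sel} {b : ℚ} : b ∈ w.Gt ω g ↔ ∃ i, w.el ω i (g i) = b := by
  simp [Gt]

lemma Gt_sub (ω : w.Om') (g : w.Sel) : w.Gt ω g ⊆ fr.T ∪ fr.T' := by
  intro b hb
  obtain ⟨i, rfl⟩ := w.mem_Gt.mp hb
  exact w.el_mem _ _ _

lemma Gc_sub (ω : w.Om') (g : w.Sel) : (w.Gt ω g).image fr.κ ⊆ fr.T := by
  intro b hb
  obtain ⟨a, ha, rfl⟩ := Finset.mem_image.mp hb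
  obtain ⟨i, rfl⟩ := w.mem_Gt.mp ha
  rw [κ_el]; exact w.io_mem _ _

/-- Indices allowed in a transversal support. -/
def Ok (ω : w.Om') (g : w.Sel) (b : ℚ) : Prop := b ∈ fr.P ∨ b ∈ w.Gt ω g ∨ Above fr.J0 b

lemma strictMonoOn_κ (ω : w.Om') (g : w.Sel) : StrictMonoOn fr.κ {b | w.Ok ω g b} := by
  intro x hx y hy hxy
  by_cases hy' : y ∈ fr.T'
  · have hyG : y ∈ w.Gt ω g := by
      rcases hy with h | h | h
      · exact absurd hy' (fr.not_mem_T'_of_P h)
      · exact h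
      · exact absurd (fr.T'_sub hy') h.not_mem
    obtain ⟨b, hb, rfl⟩ := Finset.mem_image.mp hy'
    rcases hx with h | h | h
    · rw [fr.κ_tw hb]; exact (fr.κ_le x).trans_lt (fr.T_above b hb x h)
    · obtain ⟨i, rfl⟩ := w.mem_Gt.mp h
      obtain ⟨i', e⟩ := w.mem_Gt.mp hyG
      have h1 : fr.κ (w.el ω i (g i)) ∈ fr.T := by rw [κ_el]; exact w.io_mem _ _
      rcases lt_trichotomy (fr.κ (w.el ω i (g i))) (fr.κ (fr.tw b)) with h2 | h2 | h2
      · exact h2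
      · rw [← e, κ_el, κ_el] at h2
        obtain ⟨rfl, -⟩ := w.io_inj _ _ _ _ h2
        exact absurd hxy (by rw [e]; exact lt_irrefl _)
      · rw [fr.κ_tw hb] at h2
        exact absurd ((fr.tw_lt b _ h1 h2).trans_le (fr.κ_le _)) (not_lt.mpr hxy.le)
    · exact absurd (h _ (fr.T'_sub hy')) (not_lt.mpr hxy.le)
  · rw [fr.κ_of_not_mem hy']; exact (fr.κ_le x).trans_lt hxy

lemma count_le (ω : w.Om') (pres : ℚ → Prop) {A : ℕ} (hk : w.k = A * w.D) (hd : 2 * w.D ≤ w.d)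
    (hm : ovl (fr.T ∪ fr.T') pres ≤ w.k * w.D * (w.d + 1)) :
    (ovl Finset.univ fun g : w.Sel => ∀ b ∈ w.Gt ω g, pres b : ℝ) ≤
      Real.exp (-(A / 4)) * Fintype.card w.Sel := by
  let a : Fin w.k → Finset (Option (Fin w.D) × Fin w.d) := fun i =>
    Finset.univ.filter fun q => pres (w.el ω i q)
  have h1 : (ovl Finset.univ fun g : w.Sel => ∀ b ∈ w.Gt ω g, pres b) = ∏ i, (a i).card := by
    rw [← Fintype.card_piFinset]
    unfold ovl
    congr 1
    ext g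
    simp [a, Gt]
  have h2 : ∑ i, (a i).card ≤ w.k * w.D * (w.d + 1) := by
    refine le_trans ?_ hm
    rw [← Finset.card_sigma]
    refine Finset.card_le_card_of_injOn (fun p => w.el ω p.1 p.2) (fun p hp => ?_) ?_
    · simp only [Finset.coe_sigma, mem_sigma_iff, Finset.coe_filter, a] at hp
      exact Finset.mem_coe.mpr (Finset.mem_filter.mpr ⟨w.el_mem _ _ _, hp.2.2⟩)
    · rintro ⟨i, q⟩ - ⟨i', q'⟩ - h
      obtain ⟨rfl, rfl⟩ := w.el_inj ω h
      rfl
  have hD : (0 : ℝ) < w.D := by exact_mod_cast w.D_pos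
  have hD1 : (1 : ℝ) ≤ w.D := by exact_mod_cast w.D_pos
  have hd0 : (0 : ℝ) < w.d := by exact_mod_cast w.d_pos
  have hd' : 2 * (w.D : ℝ) ≤ w.d := by exact_mod_cast hd
  set μ : ℝ := (w.D + 1) * w.d with hμ
  have hμ0 : 0 < μ := by positivity
  have h3 : (Fintype.card w.Sel : ℝ) = μ ^ w.k := by simp [hμ]
  rw [h1, h3]
  push_cast
  calc ∏ i, ((a i).card : ℝ) ≤ ∏ i : Fin w.k, (Real.exp ((a i).card / μ - 1) * μ) := by
        refine Finset.prod_le_prod (fun _ _ => Nat.cast_nonneg _) fun i _ => ?_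
        rw [← div_le_iff₀ hμ0]
        linarith [Real.add_one_le_exp ((a i).card / μ - 1)]
    _ = Real.exp ((∑ i, ((a i).card : ℝ)) / μ - w.k) * μ ^ w.k := by
        rw [Finset.prod_mul_distrib, ← Real.exp_sum, Finset.sum_sub_distrib, Finset.sum_div]
        simp
    _ ≤ _ := by
        refine mul_le_mul_of_nonneg_right (Real.exp_le_exp.mpr ?_) (by positivity)
        have h4 : ∑ i, ((a i).card : ℝ) ≤ w.k * w.D * (w.d + 1) := by exact_mod_cast h2
        rw [sub_le_iff_le_add, div_le_iff₀ hμ0]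
        refine h4.trans ?_
        rw [hk, hμ]
        push_cast
        have hA : (0 : ℝ) ≤ A := Nat.cast_nonneg _
        have : (w.D : ℝ) * w.D * (w.d + 1) ≤ (-(1 / 4) + w.D) * ((w.D + 1) * w.d) := by
          nlinarith [mul_nonneg (sub_nonneg.mpr hd') hD.le, mul_nonneg (sub_nonneg.mpr hD1) hd0.le]
        nlinarith [mul_le_mul_of_nonneg_left this hA]

variable {Γ L : Type} [TopologicalSpace L] [CompactSpace L] [T2Space L]
  [TotallyDisconnectedSpace L] (σ : Str Γ L)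

/-- Coordinates with transversal support. -/
def Transv (ω : w.Om') (γ : Γ) : Prop := ∃ g, ∀ b ∈ σ.supp γ, w.Ok ω g b

lemma Transv.mono {w : Win fr} {σ : Str Γ L} {ω : w.Om'} {γ : Γ} (h : w.Transv σ ω γ) :
    StrictMonoOn fr.κ (σ.supp γ) := by
  obtain ⟨g, hg⟩ := h
  exact (w.strictMonoOn_κ ω g).mono hg

lemma eq_of_tr {γ γ' : Γ} (h : StrictMonoOn fr.κ (σ.supp γ)) (h' : StrictMonoOn fr.κ (σ.supp γ'))
    (e : σ.tr fr.κ γ = σ.tr fr.κ γ') (e' : σ.supp γ ∩ fr.T' = σ.supp γ' ∩ fr.T') : γ = γ' := by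
  have key : ∀ {γ γ' : Γ}, StrictMonoOn fr.κ (σ.supp γ) → StrictMonoOn fr.κ (σ.supp γ') →
      σ.tr fr.κ γ = σ.tr fr.κ γ' → σ.supp γ ∩ fr.T' = σ.supp γ' ∩ fr.T' →
      σ.supp γ ⊆ σ.supp γ' := by
    intro γ γ' h h' e e' b hb
    by_cases hbT : b ∈ fr.T'
    · exact (Finset.mem_inter.mp (e' ▸ Finset.mem_inter.mpr ⟨hb, hbT⟩)).1
    · have h1 : fr.κ b ∈ σ.supp (σ.tr fr.κ γ') := by
        rw [← e, σ.supp_tr h]; exact Finset.mem_image_of_mem _ hb
      rw [σ.supp_tr h'] at h1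
      obtain ⟨b', hb', e1⟩ := Finset.mem_image.mp h1
      by_cases hb'T : b' ∈ fr.T'
      · have h2 := (Finset.mem_inter.mp (e'.symm ▸ Finset.mem_inter.mpr ⟨hb', hb'T⟩)).1
        rw [← h.injOn h2 hb e1]; exact hb'
      · rw [fr.κ_of_not_mem hbT, fr.κ_of_not_mem hb'T] at e1
        rw [← e1]; exact hb'
  exact σ.tr_inj h (Finset.Subset.antisymm (key h h' e e') (key h' h e.symm e'.symm)) e

lemma finite_lifts (ω : w.Om') (F : Finset Γ) :
    {γ | w.Transv σ ω γ ∧ σ.tr fr.κ γ ∈ F}.Finite := by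
  refine Set.Finite.of_injOn (f := fun γ => (σ.tr fr.κ γ, σ.supp γ ∩ fr.T'))
    (t := ↑(F ×ˢ fr.T'.powerset)) (fun γ hγ => ?_) (fun γ hγ γ' hγ' h => ?_) (Finset.finite_toSet _)
  · simp [hγ.2]
  · exact eq_of_tr σ hγ.1.mono hγ'.1.mono (congrArg Prod.fst h) (congrArg Prod.snd h)

/-- The transversal lifts of `F`. -/
noncomputable def Fh (ω : w.Om') (F : Finset Γ) : Finset Γ := (w.finite_lifts σ ω F).toFinset

lemma mem_Fh {ω : w.Om'} {F : Finset Γ} {γ : Γ} :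
    γ ∈ w.Fh σ ω F ↔ w.Transv σ ω γ ∧ σ.tr fr.κ γ ∈ F := by simp [Fh]

lemma Fh_mono (ω : w.Om') {F F' : Finset Γ} (h : F ⊆ F') : w.Fh σ ω F ⊆ w.Fh σ ω F' :=
  fun γ hγ => (w.mem_Fh σ).mpr ⟨((w.mem_Fh σ).mp hγ).1, h ((w.mem_Fh σ).mp hγ).2⟩

lemma fib_le (ω : w.Om') (δ : Γ) (G0 : Fin w.k → Fin w.D × Fin w.d)
    (hG : ∀ b ∈ σ.supp δ, b ∈ fr.T → ∃ i, w.io i (G0 i) = b) :
    ((w.Fh σ ω {δ}).card : ℝ) ≤
      ∏ i, (if w.io i (G0 i) ∈ σ.supp δ ∧ ω i = (G0 i).1 then (2 : ℝ) else 1) := by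
  rw [Finset.prod_ite, Finset.prod_const, Finset.prod_const_one, mul_one]
  set S := Finset.univ.filter fun i => w.io i (G0 i) ∈ σ.supp δ ∧ ω i = (G0 i).1 with hS
  have h1 : (w.Fh σ ω {δ}).card ≤ (S.image fun i => fr.tw (w.io i (G0 i))).powerset.card := by
    refine Finset.card_le_card_of_injOn (fun γ => σ.supp γ ∩ fr.T') (fun γ hγ => ?_)
      (fun γ hγ γ' hγ' h => ?_)
    · obtain ⟨ht, hδ⟩ := (w.mem_Fh σ).mp hγ
      rw [Finset.mem_singleton] at hδ
      refine Finset.mem_coe.mpr (Finset.mem_powerset.mpr fun b hb => ?_)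
      obtain ⟨hb1, hb2⟩ := Finset.mem_inter.mp hb
      have hκ : fr.κ b ∈ σ.supp δ := by
        rw [← hδ, σ.supp_tr ht.mono]; exact Finset.mem_image_of_mem _ hb1
      obtain ⟨g, hg⟩ := ht
      have hbG : b ∈ w.Gt ω g := by
        rcases hg b hb1 with h | h | h
        · exact absurd hb2 (fr.not_mem_T'_of_P h)
        · exact h
        · exact absurd (fr.T'_sub hb2) h.not_mem
      obtain ⟨i, rfl⟩ := w.mem_Gt.mp hbG
      rw [κ_el] at hκ
      obtain ⟨i', e⟩ := hG _ hκ (w.io_mem _ _)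
      obtain ⟨rfl, e2⟩ := w.io_inj _ _ _ _ e
      rcases hq : g i' with ⟨_ | j, t⟩
      · rw [hq] at e2 hκ
        simp only [Option.getD_none] at e2 hκ
        refine Finset.mem_image.mpr ⟨i', Finset.mem_filter.mpr ⟨Finset.mem_univ _, ?_, ?_⟩, ?_⟩
        · rw [e2]; exact hκ
        · rw [e2]
        · rw [e2]; rfl
      · rw [hq] at hb2
        exact absurd hb2 (fr.not_mem_T'_of_T (w.io_mem _ _))
    · obtain ⟨ht, hδ⟩ := (w.mem_Fh σ).mp hγ
      obtain ⟨ht', hδ'⟩ := (w.mem_Fh σ).mp hγ'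
      rw [Finset.mem_singleton] at hδ hδ'
      exact eq_of_tr σ ht.mono ht'.mono (hδ.trans hδ'.symm) h
  rw [Finset.card_powerset] at h1
  have h2 := h1.trans (Nat.pow_le_pow_right two_pos Finset.card_image_le)
  exact_mod_cast h2

/-- The number of extra copies of `δ`. -/
noncomputable def ext (ω : w.Om') (δ : Γ) : ℝ := max ((w.Fh σ ω {δ}).card - 1) 0

lemma ext_nonneg (ω : w.Om') (δ : Γ) : 0 ≤ w.ext σ ω δ := le_max_right _ _

lemma sum_ext_le (δ : Γ) : ∑ ω, w.ext σ ω δ ≤ Fintype.card w.Om' *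
    (if (σ.supp δ ∩ fr.T).card ≤ w.k then Real.exp ((σ.supp δ ∩ fr.T).card / w.D) - 1 else 0) := by
  have hD : (0 : ℝ) < w.D := by exact_mod_cast w.D_pos
  by_cases hex : ∃ ω, (w.Fh σ ω {δ}).Nonempty
  · obtain ⟨ω₀, γ, hγ⟩ := hex
    obtain ⟨ht, hδ⟩ := (w.mem_Fh σ).mp hγ
    rw [Finset.mem_singleton] at hδ
    have hs := σ.supp_tr ht.mono
    obtain ⟨g, hg⟩ := ht
    let G0 : Fin w.k → Fin w.D × Fin w.d := fun i => ((g i).1.getD (ω₀ i), (g i).2)
    have hG : ∀ b ∈ σ.supp δ, b ∈ fr.T → ∃ i, w.io i (G0 i) = b := by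
      intro b hb hbT
      rw [← hδ, hs] at hb
      obtain ⟨a, ha, rfl⟩ := Finset.mem_image.mp hb
      rcases hg a ha with h | h | h
      · rw [fr.κ_of_not_mem (fr.not_mem_T'_of_P h)] at hbT
        exact absurd h (fr.T_above a hbT).not_mem
      · obtain ⟨i, rfl⟩ := w.mem_Gt.mp h
        exact ⟨i, (w.κ_el _ _ _).symm⟩
      · rw [fr.κ_above h] at hbT
        exact absurd (fr.T_sub hbT) h.not_mem
    set S := Finset.univ.filter fun i => w.io i (G0 i) ∈ σ.supp δ with hS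
    have hcard : (σ.supp δ ∩ fr.T).card = S.card := by
      symm
      refine Finset.card_bij (fun i _ => w.io i (G0 i)) (fun i hi => ?_) (fun i _ j _ h => ?_)
        (fun b hb => ?_)
      · exact Finset.mem_inter.mpr ⟨(Finset.mem_filter.mp hi).2, w.io_mem _ _⟩
      · exact (w.io_inj _ _ _ _ h).1
      · obtain ⟨i, rfl⟩ := hG b (Finset.mem_inter.mp hb).1 (Finset.mem_inter.mp hb).2
        exact ⟨i, Finset.mem_filter.mpr ⟨Finset.mem_univ _, (Finset.mem_inter.mp hb).1⟩, rfl⟩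
    have hSk : S.card ≤ w.k := (Finset.card_filter_le _ _).trans (by simp)
    rw [hcard, if_pos hSk]
    have h1 : ∀ ω : w.Om', w.ext σ ω δ ≤
        ∏ i, (if w.io i (G0 i) ∈ σ.supp δ ∧ ω i = (G0 i).1 then (2 : ℝ) else 1) - 1 := by
      intro ω
      refine max_le (sub_le_sub_right (w.fib_le σ ω δ G0 hG) _) (sub_nonneg.mpr ?_)
      exact Finset.one_le_prod fun i _ => by split_ifs <;> norm_num
    refine (Finset.sum_le_sum fun ω _ => h1 ω).trans ?_
    rw [Finset.sum_sub_distrib, Finset.sum_const, Finset.card_univ, nsmul_eq_mul, mul_one, mul_sub,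
      mul_one]
    refine sub_le_sub_right ?_ _
    have h2 := Finset.prod_univ_sum (fun _ : Fin w.k => (Finset.univ : Finset (Fin w.D)))
      (fun i j => if w.io i (G0 i) ∈ σ.supp δ ∧ j = (G0 i).1 then (2 : ℝ) else 1)
    rw [Fintype.piFinset_univ] at h2
    rw [← h2]
    have h3 : ∀ i, ∑ j : Fin w.D, (if w.io i (G0 i) ∈ σ.supp δ ∧ j = (G0 i).1 then (2 : ℝ) else 1) ≤
        w.D * Real.exp (if i ∈ S then 1 / w.D else 0) := by
      intro i
      by_cases hi : w.io i (G0 i) ∈ σ.supp δ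
      · have : ∀ j : Fin w.D, (if w.io i (G0 i) ∈ σ.supp δ ∧ j = (G0 i).1 then (2 : ℝ) else 1) =
            1 + if j = (G0 i).1 then 1 else 0 := by
          intro j; by_cases hj : j = (G0 i).1 <;> simp [hi, hj]; norm_num
        simp only [this, Finset.sum_add_distrib, Finset.sum_ite_eq', Finset.mem_univ, if_true]
        rw [if_pos (show i ∈ S from Finset.mem_filter.mpr ⟨Finset.mem_univ _, hi⟩)]
        have h4 := mul_le_mul_of_nonneg_left (Real.add_one_le_exp (1 / w.D)) hD.le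
        rw [mul_add, mul_one_div_cancel hD.ne'] at h4
        simp only [Finset.sum_const, Finset.card_univ, Fintype.card_fin, nsmul_eq_mul, mul_one]
        linarith
      · rw [if_neg (show i ∉ S from fun h => hi (Finset.mem_filter.mp h).2)]; simp [hi]
    refine (Finset.prod_le_prod (fun i _ => Finset.sum_nonneg fun j _ => by
      split_ifs <;> norm_num) fun i _ => h3 i).trans (le_of_eq ?_)
    rw [Finset.prod_mul_distrib, ← Real.exp_sum, Finset.sum_ite_mem, Finset.univ_inter]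
    simp [div_eq_mul_inv]
  · push Not at hex
    rw [Finset.sum_eq_zero fun ω _ => by simp [ext, hex ω]]
    refine mul_nonneg (Nat.cast_nonneg _) ?_
    split_ifs
    · exact sub_nonneg.mpr (Real.one_le_exp (by positivity))
    · exact le_rfl

/-- The extra mass created by copying. -/
noncomputable def cost (ω : w.Om') (F : Finset Γ) : C(B Γ, ℝ) :=
  ∑ δ ∈ F, w.ext σ ω δ • mass {δ}

lemma cost_apply (ω : w.Om') (F : Finset Γ) (x : B Γ) :
    w.cost σ ω F x = ∑ δ ∈ F, w.ext σ ω δ * x.1 δ ^ 2 := by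
  simp [cost, mass_apply]

lemma cost_nonneg (ω : w.Om') (F : Finset Γ) (x : B Γ) : 0 ≤ w.cost σ ω F x := by
  rw [cost_apply]; exact Finset.sum_nonneg fun δ _ => mul_nonneg (w.ext_nonneg σ _ _) (sq_nonneg _)

lemma Q_le (ω : w.Om') (F : Finset Γ) (x : B Γ) :
    Qf (w.Fh σ ω F) (σ.tr fr.κ) x ≤ mass F x + w.cost σ ω F x := by
  rw [Qf_apply, cost_apply, mass_apply, ← Finset.sum_add_distrib,
    ← Finset.sum_fiberwise_of_maps_to (t := F) (g := σ.tr fr.κ)
      fun γ hγ => ((w.mem_Fh σ).mp hγ).2]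
  refine Finset.sum_le_sum fun δ hδ => ?_
  rw [Finset.sum_congr rfl (g := fun _ => x.1 δ ^ 2) fun γ hγ => by
    rw [(Finset.mem_filter.mp hγ).2], Finset.sum_const, nsmul_eq_mul]
  have h1 : ((w.Fh σ ω F).filter fun γ => σ.tr fr.κ γ = δ).card ≤ (w.Fh σ ω {δ}).card :=
    Finset.card_le_card fun γ hγ => (w.mem_Fh σ).mpr
      ⟨((w.mem_Fh σ).mp (Finset.mem_filter.mp hγ).1).1,
        Finset.mem_singleton.mpr (Finset.mem_filter.mp hγ).2⟩
  have h2 : (((w.Fh σ ω F).filter fun γ => σ.tr fr.κ γ = δ).card : ℝ) ≤ 1 + w.ext σ ω δ := by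
    have : ((w.Fh σ ω {δ}).card : ℝ) - 1 ≤ w.ext σ ω δ := le_max_left _ _
    have h3 := (Nat.cast_le (α := ℝ)).mpr h1
    linarith
  nlinarith [sq_nonneg (x.1 δ)]

/-- The coordinates in the window. -/
noncomputable def winF (i₀ : ℕ) (F : Finset Γ) : Finset Γ :=
  F.filter fun δ => i₀ < (σ.supp δ ∩ fr.T).card ∧ (σ.supp δ ∩ fr.T).card ≤ w.k

lemma sum_cost_le {A D' i₀ : ℕ} (hD' : 1 ≤ D') (hD : w.D = D' * i₀) (hk : w.k = A * w.D)
    (F : Finset Γ) (x : B Γ) : ∑ ω, w.cost σ ω F x ≤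
      Fintype.card w.Om' * (2 / D' + Real.exp A * mass (w.winF σ i₀ F) x) := by
  have hD0 : (0 : ℝ) < w.D := by exact_mod_cast w.D_pos
  have hD'0 : (1 : ℝ) ≤ D' := by exact_mod_cast hD'
  simp only [cost_apply]
  rw [Finset.sum_comm]
  simp only [← Finset.sum_mul]
  have h1 : ∀ δ ∈ F, (∑ ω, w.ext σ ω δ) * x.1 δ ^ 2 ≤ Fintype.card w.Om' *
      (2 / D' * x.1 δ ^ 2 + Real.exp A * if i₀ < (σ.supp δ ∩ fr.T).card ∧
        (σ.supp δ ∩ fr.T).card ≤ w.k then x.1 δ ^ 2 else 0) := by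
    intro δ _
    refine (mul_le_mul_of_nonneg_right (w.sum_ext_le σ δ) (sq_nonneg _)).trans ?_
    rw [mul_assoc]
    refine mul_le_mul_of_nonneg_left ?_ (Nat.cast_nonneg _)
    have h0 : 0 ≤ 2 / (D' : ℝ) * x.1 δ ^ 2 := by positivity
    by_cases h2 : (σ.supp δ ∩ fr.T).card ≤ w.k
    · by_cases h3 : i₀ < (σ.supp δ ∩ fr.T).card
      · rw [if_pos h2, if_pos ⟨h3, h2⟩]
        have : ((σ.supp δ ∩ fr.T).card : ℝ) / w.D ≤ A := by
          rw [div_le_iff₀ hD0]; exact_mod_cast hk ▸ h2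
        have := Real.exp_le_exp.mpr this
        nlinarith [sq_nonneg (x.1 δ)]
      · rw [if_pos h2, if_neg fun h => h3 h.1, mul_zero, add_zero]
        refine mul_le_mul_of_nonneg_right ?_ (sq_nonneg _)
        have h4 : ((σ.supp δ ∩ fr.T).card : ℝ) / w.D ≤ 1 / D' := by
          rw [div_le_div_iff₀ hD0 (by linarith), hD]
          push_cast
          have : ((σ.supp δ ∩ fr.T).card : ℝ) ≤ i₀ := by exact_mod_cast not_lt.mp h3
          nlinarith
        have h5 : 1 / (D' : ℝ) ≤ 1 := by rw [div_le_one (by linarith)]; exact hD'0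
        have h6 := Real.abs_exp_sub_one_le (x := 1 / D') (by rw [abs_of_nonneg (by positivity)]; exact h5)
        rw [abs_of_nonneg (a := 1 / (D' : ℝ)) (by positivity)] at h6
        have h7 := Real.exp_le_exp.mpr h4
        have h8 := le_abs_self (Real.exp (1 / D') - 1)
        have : 2 / (D' : ℝ) = 2 * (1 / D') := by ring
        linarith
    · rw [if_neg h2, if_neg fun h => h2 h.2]; simpa using h0
  refine (Finset.sum_le_sum h1).trans ?_
  rw [← Finset.mul_sum, Finset.sum_add_distrib, ← Finset.mul_sum, ← Finset.mul_sum,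
    ← Finset.sum_filter]
  refine mul_le_mul_of_nonneg_left (add_le_add ?_ le_rfl) (Nat.cast_nonneg _)
  have := mul_le_mul_of_nonneg_left (B_sum_le x F) (show 0 ≤ 2 / (D' : ℝ) by positivity)
  simpa using this

end Win

end Pool.Agent.Lib.MP_9e0ccb_an
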