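import Pool.Agent.Lib.MP_9e0ccb_an.Str

set_option autoImplicit false
set_option linter.unusedSectionVars false
set_option linter.deprecated false
set_option linter.unusedVariables false
set_option linter.unusedSimpArgs false
open Set Filter Topology

namespace Pool.Agent.Lib.MP_9e0ccb_an

variable {Γ : Type}

/-- Every functional on `C(B Γ)` lives on countably many coordinates. -/
lemma exists_countable_support (φ : C(B Γ, ℝ) →L[ℝ] ℝ) :
    ∃ A : Set Γ, A.Countable ∧ ∀ A', A ⊆ A' → ∀ h : C(B Γ, ℝ), φ (h.comp (RA A')) = φ h := by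
  classical
  let w : Γ → ℝ := fun γ => absF φ (mass {γ})
  have hw0 : ∀ γ, 0 ≤ w γ := fun γ => absF_nonneg φ (mass_nonneg _)
  have hmass : ∀ F : Finset Γ, absF φ (mass F) = ∑ γ ∈ F, w γ := by
    intro F
    rw [← map_sum]
    congr 1
    ext x; simp [mass_apply]
  have hsum : Summable w := summable_of_sum_le hw0 (c := ‖φ‖) fun F => by
    rw [← hmass]
    simpa using absF_le_const φ le_rfl zero_le_one (mass_le_one F)
  refine ⟨Function.support w, hsum.countable_support, fun A' hA' h => ?_⟩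
  rw [← sub_eq_zero, ← map_sub, ← abs_nonpos_iff]
  apply le_of_forall_pos_le_add
  intro ε hε
  have hφ : 0 < ‖φ‖ + 1 := by have := φ.opNorm_nonneg; linarith
  obtain ⟨F, ω, hω, hF⟩ := insens h (ι := ε / (‖φ‖ + 1)) (by positivity)
  let F' := F.filter (· ∉ A')
  have h1 : ∀ x, |(h.comp (RA A') - h) x| ≤
      (ContinuousMap.const (B Γ) (ε / (‖φ‖ + 1)) + (2 * ‖h‖ / ω ^ 2) • mass F' : C(B Γ, ℝ)) x := by
    intro x
    simp only [ContinuousMap.sub_apply, ContinuousMap.comp_apply, ContinuousMap.add_apply,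
      ContinuousMap.const_apply, ContinuousMap.smul_apply, smul_eq_mul]
    by_cases hx : ∀ γ ∈ F', |x.1 γ| ≤ ω
    · have := hF (RA A' x) x fun γ hγ => by
        by_cases hγA : γ ∈ A'
        · rw [RA_mem x hγA]; simpa using hω.le
        · rw [RA_not_mem x hγA]; simpa using hx γ (Finset.mem_filter.mpr ⟨hγ, hγA⟩)
      have h2 : 0 ≤ 2 * ‖h‖ / ω ^ 2 * mass F' x := mul_nonneg (by positivity) (mass_nonneg _ _)
      linarith
    · push Not at hx
      obtain ⟨γ, hγ, hlt⟩ := hx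
      have h2 : ω ^ 2 ≤ mass F' x := by
        refine le_trans ?_ (Finset.single_le_sum (f := fun γ => x.1 γ ^ 2)
          (fun _ _ => sq_nonneg _) hγ)
        rw [← sq_abs (x.1 γ)]; exact pow_le_pow_left₀ hω.le hlt.le 2
      have h3 : 2 * ‖h‖ ≤ 2 * ‖h‖ / ω ^ 2 * mass F' x := by
        rw [div_mul_eq_mul_div, le_div_iff₀ (by positivity)]
        exact mul_le_mul_of_nonneg_left h2 (by positivity)
      have h4 := h.norm_coe_le_norm (RA A' x)
      have h5 := h.norm_coe_le_norm x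
      have h6 := abs_sub (h (RA A' x)) (h x)
      have h7 : 0 < ε / (‖φ‖ + 1) := by positivity
      rw [Real.norm_eq_abs] at h4 h5
      linarith
  have h2 := abs_le_absF φ h1
  rw [map_add, map_smul, hmass, Finset.sum_eq_zero (fun γ hγ => by
    by_contra hne
    exact (Finset.mem_filter.mp hγ).2 (hA' hne))] at h2
  have h3 := absF_le_const φ (M := ‖φ‖ + 1) (by linarith)
    (f := ContinuousMap.const _ (ε / (‖φ‖ + 1))) (c := ε / (‖φ‖ + 1)) (by positivity)
    fun x => le_rfl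
  rw [div_mul_cancel₀ _ hφ.ne'] at h3
  simp only [smul_eq_mul, mul_zero, add_zero] at h2
  linarith

lemma norm_comp_le' {X Y : Type} [TopologicalSpace X] [CompactSpace X] [TopologicalSpace Y]
    [CompactSpace Y] (h : C(Y, ℝ)) (Φ : C(X, Y)) : ‖h.comp Φ‖ ≤ ‖h‖ :=
  (ContinuousMap.norm_le _ (norm_nonneg _)).mpr fun x => h.norm_coe_le_norm _

section good
variable {L : Type} [TopologicalSpace L] [CompactSpace L] (S : C(B Γ, ℝ) ≃L[ℝ] C(L, ℝ))

/-- The restriction to `A` lifts to `L`. -/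
def Good (A : Set Γ) : Prop := ∀ ℓ, ∃ ℓ', ∀ h : C(B Γ, ℝ), S h ℓ' = S (h.comp (RA A)) ℓ

lemma abs_S_sub_le (h h' : C(B Γ, ℝ)) (ℓ : L) :
    |S h ℓ - S h' ℓ| ≤ ‖(S : C(B Γ, ℝ) →L[ℝ] C(L, ℝ))‖ * ‖h - h'‖ := by
  rw [← ContinuousMap.sub_apply, ← map_sub]
  exact ((S (h - h')).norm_coe_le_norm ℓ).trans ((S : C(B Γ, ℝ) →L[ℝ] C(L, ℝ)).le_opNorm _)

lemma good_step {A : Set Γ} (hA : A.Countable) :
    ∃ A', A ⊆ A' ∧ A'.Countable ∧ ∀ (ℓ : L) (s : Finset C(B Γ, ℝ)) (ε : ℝ), 0 < ε →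
      ∃ ℓ', (∀ A'', A' ⊆ A'' → ∀ h : C(B Γ, ℝ), S (h.comp (RA A'')) ℓ' = S h ℓ') ∧
        ∀ h ∈ s, |S (h.comp (RA A)) ℓ' - S (h.comp (RA A)) ℓ| ≤ ε := by
  classical
  have : Countable A := hA.to_subtype
  let e : A → Γ := Subtype.val
  have he : Function.Injective e := Subtype.val_injective
  obtain ⟨k, hk⟩ := TopologicalSpace.exists_dense_seq C(B A, ℝ)
  let ρ : L → (ℕ → ℝ) := fun ℓ i => S ((k i).comp (pull e he)) ℓ
  obtain ⟨t, ht1, ht2, ht3⟩ :=
    (TopologicalSpace.IsSeparable.of_separableSpace (range ρ)).exists_countable_dense_subset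
  have : ∀ v : t, ∃ ℓ, ρ ℓ = v := fun v => ht1 v.2
  choose d hd using this
  have : Countable t := ht2.to_subtype
  choose C hC1 hC2 using fun ℓ : L => exists_countable_support
    ((ContinuousMap.evalCLM ℝ ℓ).comp (S : C(B Γ, ℝ) →L[ℝ] C(L, ℝ)))
  refine ⟨A ∪ ⋃ v, C (d v), subset_union_left, hA.union (countable_iUnion fun v => hC1 _),
    fun ℓ s ε hε => ?_⟩
  set N := ‖(S : C(B Γ, ℝ) →L[ℝ] C(L, ℝ))‖ with hN
  have hN0 : 0 ≤ N := ContinuousLinearMap.opNorm_nonneg _
  have hδ : 0 < ε / (3 * (N + 1)) := by positivity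
  choose i hi using fun h : C(B Γ, ℝ) => hk.exists_dist_lt (h.comp (push e he)) hδ
  have hU : IsOpen {v : ℕ → ℝ | ∀ h ∈ s, |v (i h) - ρ ℓ (i h)| < ε / 3} := by
    have : {v : ℕ → ℝ | ∀ h ∈ s, |v (i h) - ρ ℓ (i h)| < ε / 3} =
        ⋂ h ∈ s, {v : ℕ → ℝ | |v (i h) - ρ ℓ (i h)| < ε / 3} := by ext; simp
    rw [this]
    exact isOpen_biInter_finset fun h _ =>
      isOpen_lt ((continuous_apply _).sub continuous_const).abs continuous_const
  obtain ⟨v, hv1, hv2⟩ := mem_closure_iff.mp (ht3 (mem_range_self ℓ)) _ hU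
    (fun h _ => by simpa using hε)
  refine ⟨d ⟨v, hv2⟩, fun A'' hA'' h => hC2 _ A''
    ((subset_iUnion (fun v => C (d v)) _).trans (subset_union_right.trans hA'')) h,
    fun h hh => ?_⟩
  have key : ∀ ℓ₀, |S (h.comp (RA A)) ℓ₀ - ρ ℓ₀ (i h)| ≤ ε / 3 := by
    intro ℓ₀
    refine (abs_S_sub_le S _ _ ℓ₀).trans ?_
    have e1 : h.comp (RA A) - (k (i h)).comp (pull e he) =
        (h.comp (push e he) - k (i h)).comp (pull e he) := by
      ext x; simp [push_pull, e]
    have h1 := hi h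
    rw [dist_eq_norm] at h1
    rw [e1]
    calc N * ‖(h.comp (push e he) - k (i h)).comp (pull e he)‖ ≤ (N + 1) * (ε / (3 * (N + 1))) :=
          mul_le_mul (by linarith) ((norm_comp_le' _ _).trans h1.le) (norm_nonneg _) (by linarith)
      _ = ε / 3 := by field_simp
  have h1 := key ℓ
  have h2 := key (d ⟨v, hv2⟩)
  have h3 := hv1 h hh
  rw [hd] at h2
  simp only at h2
  rw [abs_le] at h1 h2 ⊢
  rw [abs_lt] at h3
  constructor <;> linarith [h1.1, h1.2, h2.1, h2.2, h3.1, h3.2]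

lemma exists_good {A : Set Γ} (hA : A.Countable) : ∃ A', A ⊆ A' ∧ A'.Countable ∧ Good S A' := by
  classical
  choose nx hnx1 hnx2 hnx3 using fun a : {A : Set Γ // A.Countable} => good_step S a.2
  let seq : ℕ → {A : Set Γ // A.Countable} := fun n =>
    Nat.rec ⟨A, hA⟩ (fun _ a => ⟨nx a, hnx2 a⟩) n
  have hmono : Monotone fun n => (seq n).1 := monotone_nat_of_le_succ fun n => hnx1 (seq n)
  refine ⟨⋃ n, (seq n).1, subset_iUnion (fun n => (seq n).1) 0,
    countable_iUnion fun n => (seq n).2, fun ℓ => ?_⟩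
  set A' := ⋃ n, (seq n).1 with hA'
  set N := ‖(S : C(B Γ, ℝ) →L[ℝ] C(L, ℝ))‖ with hN
  have hN0 : 0 ≤ N := ContinuousLinearMap.opNorm_nonneg _
  have hcl : IsClosed (range fun (ℓ' : L) (h : C(B Γ, ℝ)) => S h ℓ') :=
    (isCompact_range (continuous_pi fun h => (S h).continuous)).isClosed
  have : (fun h : C(B Γ, ℝ) => S (h.comp (RA A')) ℓ) ∈
      range fun (ℓ' : L) (h : C(B Γ, ℝ)) => S h ℓ' := by
    rw [← hcl.closure_eq, mem_closure_iff_nhds]
    intro U hU
    rw [nhds_pi, Filter.mem_pi'] at hU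
    obtain ⟨s, t, ht, hsub⟩ := hU
    have : ∀ h, ∃ ε > 0, ∀ y, |y - S (h.comp (RA A')) ℓ| ≤ ε → y ∈ t h := by
      intro h
      obtain ⟨ε, hε, hb⟩ := Metric.nhds_basis_closedBall.mem_iff.mp (ht h)
      exact ⟨ε, hε, fun y hy => hb hy⟩
    choose ε hε1 hε2 using this
    obtain ⟨δ, hδ, hδε⟩ : ∃ δ > 0, ∀ h ∈ s, δ ≤ ε h := by
      rcases s.eq_empty_or_nonempty with rfl | hs
      · exact ⟨1, one_pos, by simp⟩
      · obtain ⟨h0, _, h2⟩ := s.exists_min_image ε hs
        exact ⟨ε h0, hε1 h0, h2⟩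
    have hδ' : 0 < δ / (3 * (N + 1)) := by positivity
    choose F ω hω hF using fun h : C(B Γ, ℝ) => insens h hδ'
    obtain ⟨n, hn⟩ : ∃ n, ∀ γ ∈ s.biUnion F, γ ∈ A' → γ ∈ (seq n).1 := by
      have : ∀ γ, ∃ n, γ ∈ A' → γ ∈ (seq n).1 := by
        intro γ
        by_cases hγ : γ ∈ A'
        · obtain ⟨n, hn⟩ := mem_iUnion.mp hγ; exact ⟨n, fun _ => hn⟩
        · exact ⟨0, fun h => absurd h hγ⟩
      choose m hm using this
      exact ⟨(s.biUnion F).sup m, fun γ hγ hγA => hmono (Finset.le_sup hγ) (hm γ hγA)⟩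
    obtain ⟨ℓ', h1, h2⟩ := hnx3 (seq n) ℓ s (δ / 3) (by positivity)
    refine ⟨_, hsub fun h hh => hε2 h _ (le_trans ?_ (hδε h hh)), ℓ', rfl⟩
    have key : ∀ ℓ₀, |S (h.comp (RA A')) ℓ₀ - S (h.comp (RA (seq n).1)) ℓ₀| ≤ δ / 3 := by
      intro ℓ₀
      refine (abs_S_sub_le S _ _ ℓ₀).trans ?_
      have : ‖h.comp (RA A') - h.comp (RA (seq n).1)‖ ≤ δ / (3 * (N + 1)) := by
        refine (ContinuousMap.norm_le _ hδ'.le).mpr fun x => hF h _ _ fun γ hγ => ?_
        by_cases hγA : γ ∈ A'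
        · rw [RA_mem x hγA, RA_mem x (hn γ (Finset.mem_biUnion.mpr ⟨h, hh, hγ⟩) hγA)]
          simpa using (hω h).le
        · rw [RA_not_mem x hγA, RA_not_mem x (fun h' => hγA (mem_iUnion.mpr ⟨n, h'⟩))]
          simpa using (hω h).le
      calc N * _ ≤ (N + 1) * (δ / (3 * (N + 1))) :=
            mul_le_mul (by linarith) this (norm_nonneg _) (by linarith)
        _ = δ / 3 := by field_simp
    have h3 := key ℓ
    have h4 := key ℓ'
    have h5 := h2 h hh
    rw [h1 A' (subset_iUnion (fun n => (seq n).1) (n + 1))] at h4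
    simp only
    rw [abs_le] at h3 h4 h5 ⊢
    constructor <;> linarith [h3.1, h3.2, h4.1, h4.2, h5.1, h5.2]
  obtain ⟨ℓ', hℓ'⟩ := this
  exact ⟨ℓ', fun h => congrFun hℓ' h⟩

/-- A monotone system of enumerated good sets. -/
lemma exists_enum [Infinite Γ] : ∃ e : Finset Γ → ℕ → Γ, (∀ s, Function.Injective (e s)) ∧
    (∀ s, Good S (range (e s))) ∧ (∀ s t, s ⊆ t → range (e s) ⊆ range (e t)) ∧
    ∀ x, e {x} 0 = x := by
  classical
  have : ∀ A : Set Γ, ∃ A', A ⊆ A' ∧ (A.Countable → A'.Countable ∧ Good S A') := by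
    intro A
    by_cases hA : A.Countable
    · obtain ⟨A', h1, h2, h3⟩ := exists_good S hA
      exact ⟨A', h1, fun _ => ⟨h2, h3⟩⟩
    · exact ⟨A, subset_rfl, fun h => absurd h hA⟩
  choose G hG1 hG2 using this
  let e0 := Infinite.natEmbedding Γ
  let F : ℕ → Finset Γ → Set Γ := fun n => Nat.rec (fun s => G (↑s ∪ range e0))
    (fun _ f s => G (⋃ t ∈ s.powerset, f t)) n
  have hF : ∀ n s, (F n s).Countable ∧ Good S (F n s) := by
    intro n
    induction n with
    | zero => exact fun s => hG2 _ (s.countable_toSet.union (countable_range _))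
    | succ n ih =>
      exact fun s => hG2 _ (s.powerset.countable_toSet.biUnion fun t _ => (ih t).1)
  have hsucc : ∀ n s t, t ⊆ s → F n t ⊆ F (n + 1) s := fun n s t h =>
    (subset_biUnion_of_mem (u := fun t => F n t) (Finset.mem_powerset.mpr h)).trans (hG1 _)
  have hmono : ∀ s, Monotone fun n => F n s := fun s =>
    monotone_nat_of_le_succ fun n => hsucc n s s subset_rfl
  have hcl : ∀ s t : Finset Γ, s ⊆ t → F s.card s ⊆ F t.card t := by
    intro s t h
    rcases eq_or_ssubset_of_subset h with rfl | h'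
    · exact subset_rfl
    · have := Finset.card_lt_card h'
      obtain ⟨m, hm⟩ : ∃ m, t.card = m + 1 := ⟨t.card - 1, by omega⟩
      rw [hm]
      exact (hmono s (by omega : s.card ≤ m)).trans (hsucc m t s h)
  have h0 : ∀ s : Finset Γ, ↑s ∪ range e0 ⊆ F s.card s := fun s =>
    (hG1 _).trans (hmono s (Nat.zero_le _))
  have : ∀ s : Finset Γ, ∃ e : ℕ → Γ, Function.Injective e ∧ range e = F s.card s ∧
      ∀ x, s = {x} → e 0 = x := by
    intro s
    have hinf : (F s.card s).Infinite :=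
      (infinite_range_of_injective e0.injective).mono (subset_union_right.trans (h0 s))
    obtain ⟨D⟩ := @nonempty_denumerable ↥(F s.card s) (hF s.card s).1.to_subtype hinf.to_subtype
    let ee : ℕ ≃ ↥(F s.card s) := (@Denumerable.eqv _ D).symm
    let e1 : ℕ → Γ := Subtype.val ∘ ee
    have h1 : Function.Injective e1 := Subtype.val_injective.comp ee.injective
    have h2 : range e1 = F s.card s := by
      rw [range_comp, ee.surjective.range_eq, image_univ, Subtype.range_coe]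
    by_cases hs : ∃ x, s = {x}
    · obtain ⟨x, rfl⟩ := hs
      obtain ⟨i, hi⟩ : x ∈ range e1 := h2 ▸ h0 {x} (by simp)
      refine ⟨e1 ∘ Equiv.swap 0 i, h1.comp (Equiv.injective _), ?_, fun y hy => ?_⟩
      · rw [range_comp, (Equiv.swap 0 i).surjective.range_eq, image_univ, h2]
      · rw [← Finset.singleton_injective hy]; simp [hi]
    · exact ⟨e1, h1, h2, fun x hx => absurd ⟨x, hx⟩ hs⟩
  choose e he1 he2 he3 using this
  refine ⟨e, he1, fun s => by rw [he2]; exact (hF _ _).2, fun s t h => ?_, fun x => he3 _ x rfl⟩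
  rw [he2, he2]; exact hcl s t h

end good

end Pool.Agent.Lib.MP_9e0ccb_an
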