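import Pool.Agent.Lib.MP_9e0ccb_an.Stage

set_option autoImplicit false
set_option linter.unusedSectionVars false
set_option linter.deprecated false
set_option linter.unusedVariables false
set_option linter.unusedSimpArgs false
open Set Filter Topology
open scoped Classical

namespace Pool.Agent.Lib.MP_9e0ccb_an

variable {Γ L : Type} [TopologicalSpace L] [CompactSpace L] [T2Space L]
  [TotallyDisconnectedSpace L] {σ : Str Γ L}

/-- The coordinates of `F` supported in `J`. -/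
noncomputable def Str.FJ (σ : Str Γ L) (F : Finset Γ) (J : Finset ℚ) : Finset Γ :=
  F.filter fun γ => σ.supp γ ⊆ J

lemma act_inv_act (g : ℚ ≃o ℚ) (δ : Γ) : σ.act g⁻¹ (σ.act g δ) = δ := by
  rw [← Equiv.Perm.mul_apply, ← map_mul, inv_mul_cancel, map_one, Equiv.Perm.one_apply]

lemma exists_pos_le {ι : Type} (s : Finset ι) (ω : ι → ℝ) (h : ∀ i ∈ s, 0 < ω i) :
    ∃ ζ, 0 < ζ ∧ ζ ≤ 1 ∧ ∀ i ∈ s, ζ ≤ ω i := by
  rcases s.eq_empty_or_nonempty with rfl | hs
  · exact ⟨1, one_pos, le_rfl, by simp⟩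
  · obtain ⟨i, hi, h2⟩ := s.exists_min_image ω hs
    exact ⟨min 1 (ω i), lt_min one_pos (h i hi), min_le_left _ _,
      fun j hj => (min_le_right _ _).trans (h2 j hj)⟩

lemma Root.host (ρ : Root σ) {J₀ J T : Finset ℚ} (hR : ρ.R0 ⊆ J₀) (hJ : J₀ ⊆ J)
    (hT : ∀ b ∈ T, Above J b) {E : Set L} (hE : σ.CJ J₀ E) (n : ℕ) {α : ℕ} (hα : 0 < α)
    {ι : ℝ} (hι : 0 < ι) : ∃ ζ, 0 < ζ ∧ ∀ᶠ F in atTop, ∀ y : B Γ,
      α * (1 - mass (σ.FJ F J) y) ≤ 1 - mass (σ.FJ F J₀) y + ζ →
      ∑ b ∈ T, |σ.tau (E ∩ ρ.U n b) y| ≤ T.card * ι + 16 * σ.M ^ 2 * ρ.η * n * σ.M / α := by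
  have hT₀ : ∀ b ∈ T, Above J₀ b := fun b hb => (hT b hb).mono hJ
  have hCJ : ∀ b, Above J₀ b → σ.CJ (insert b J₀) (E ∩ ρ.U n b) := fun b hb =>
    (hE.mono (Finset.subset_insert _ _)).inter (ρ.U_CJ' n (hb.mono hR)
      (hR.trans (Finset.subset_insert _ _)) (Finset.mem_insert_self _ _))
  choose! Fs ω hω hFs hins using fun b (hb : b ∈ T) => σ.insens_tau (hCJ b (hT₀ b hb)) hι
  obtain ⟨ζ, hζ, hζ1, hζω⟩ := exists_pos_le T ω hω
  refine ⟨ζ, hζ, ?_⟩
  filter_upwards [eventually_ge_atTop (T.biUnion Fs)] with F hF y hy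
  obtain ⟨u, hu1, hu2⟩ := exists_inj_above J₀ (ℚ × Fin α)
  choose! g hg1 hg2 using fun (p : ℚ × Fin α) (hp : p.1 ∈ T) => exists_move J₀ (hT₀ _ hp).not_mem
    (Above.not_mem (hu2 p)) fun j hj => ⟨fun _ => hu2 p j hj, fun _ => hT₀ _ hp j hj⟩
  let Fb : ℚ → Finset Γ := fun b => F.filter fun δ => b ∈ σ.supp δ ∧ σ.supp δ ⊆ insert b J₀
  let s : Finset (ℚ × Fin α) := T ×ˢ Finset.univ
  have hs : ∀ p ∈ s, p.1 ∈ T := fun p hp => (Finset.mem_product.mp hp).1
  let Fh : Option (ℚ × Fin α) → Finset Γ := fun o =>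
    o.elim (σ.FJ F J₀) fun p => (Fb p.1).image (σ.act (g p))
  have hFh : ∀ p ∈ s, ∀ γ ∈ Fh (some p), u p ∈ σ.supp γ ∧ σ.supp γ ⊆ insert (u p) J₀ := by
    intro p hp γ hγ
    obtain ⟨δ, hδ, rfl⟩ := Finset.mem_image.mp hγ
    have h1 := (Finset.mem_filter.mp hδ).2
    rw [← hg2 p (hs p hp)]
    refine ⟨(σ.mem_supp_act _ _ _).mpr h1.1, ?_⟩
    have := (σ.supp_act_subset (g p) δ _).mpr h1.2
    rwa [Finset.image_insert, Finset.image_congr (g := id) (hg1 p (hs p hp)), Finset.image_id] at this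
  have hd0 : ∀ p ∈ s, Disjoint (Fh none) (Fh (some p)) := fun p hp =>
    Finset.disjoint_left.mpr fun γ h h' =>
      Above.not_mem (hu2 p) ((Finset.mem_filter.mp h).2 (hFh p hp γ h').1)
  have hmass : ∑ b ∈ T, mass (Fb b) y ≤ 1 - mass (σ.FJ F J) y := by
    have h1 := B_sum_le y (σ.FJ F J ∪ T.biUnion Fb)
    rw [Finset.sum_union, Finset.sum_biUnion] at h1
    · simp only [mass_apply]; linarith
    · intro b hb b' hb' hne
      refine Finset.disjoint_left.mpr fun γ h h' => hne ?_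
      exact (Finset.mem_insert.mp ((Finset.mem_filter.mp h').2.2
        (Finset.mem_filter.mp h).2.1)).resolve_right (hT₀ b hb).not_mem
    · refine Finset.disjoint_left.mpr fun γ h h' => ?_
      obtain ⟨b, hb, h2⟩ := Finset.mem_biUnion.mp h'
      exact (hT b hb).not_mem ((Finset.mem_filter.mp h).2 (Finset.mem_filter.mp h2).2.1)
  obtain ⟨y', hy'1, -⟩ := exists_point (Finset.insertNone s) Fh (by
      rintro (_ | p) hp (_ | p') hp' hne
      · exact absurd rfl hne
      · exact hd0 p' (by simpa using hp')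
      · exact (hd0 p (by simpa using hp)).symm
      · refine Finset.disjoint_left.mpr fun γ h h' => hne (congrArg some (hu1 ?_))
        exact (Finset.mem_insert.mp ((hFh p' (by simpa using hp') γ h').2
          (hFh p (by simpa using hp) γ h).1)).resolve_right (Above.not_mem (hu2 p)))
    (fun o γ => (1 - ζ) * o.elim (y.1 γ) fun p => y.1 (σ.act (g p)⁻¹ γ)) (by
      rw [Finset.sum_insertNone]
      have e1 : ∀ p ∈ s, ∑ γ ∈ Fh (some p), ((1 - ζ) * y.1 (σ.act (g p)⁻¹ γ)) ^ 2 =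
          (1 - ζ) ^ 2 * mass (Fb p.1) y := by
        intro p _
        simp only [Fh, Option.elim_some]
        rw [Finset.sum_image fun a _ b _ h => (σ.act (g p)).injective h, mass_apply, Finset.mul_sum]
        refine Finset.sum_congr rfl fun δ _ => ?_
        rw [act_inv_act, mul_pow]
      simp only [Option.elim_some, Option.elim_none]
      rw [Finset.sum_congr rfl e1, ← Finset.mul_sum, Finset.sum_product]
      simp only [Finset.sum_const, Finset.card_univ, Fintype.card_fin, nsmul_eq_mul, mul_pow]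
      rw [← Finset.mul_sum, ← Finset.mul_sum, ← mul_add]
      change (1 - ζ) ^ 2 * (mass (σ.FJ F J₀) y + _) ≤ 1
      have h1 := mul_le_mul_of_nonneg_left hmass (Nat.cast_nonneg α)
      calc _ ≤ (1 - ζ) ^ 2 * (1 + ζ) := mul_le_mul_of_nonneg_left (by linarith) (sq_nonneg _)
        _ ≤ 1 := by nlinarith [mul_nonneg hζ.le hζ.le, mul_nonneg hζ.le (sub_nonneg.mpr hζ1)])
  have hclose : ∀ p ∈ s, |σ.tau (E ∩ ρ.U n p.1) y| ≤ |σ.tau (E ∩ ρ.U n (u p)) y'| + ι := by
    intro p hp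
    have hb := hs p hp
    have e1 : E ∩ ρ.U n (u p) = σ.gL (g p) ⁻¹' (E ∩ ρ.U n p.1) := by
      rw [preimage_inter, hE.gL_fix (hg1 p hb),
        ρ.U_gL n _ _ ((hT₀ _ hb).mono hR) fun j hj => hg1 p hb j (hR hj), hg2 p hb]
    rw [e1, ← σ.tau_gB (hCJ _ (hT₀ _ hb)).1]
    have := hins p.1 hb y (σ.gB (g p) y') fun δ hδ => by
      have hδF : δ ∈ F := hF (Finset.mem_biUnion.mpr ⟨_, hb, hδ⟩)
      have : y'.1 (σ.act (g p) δ) = (1 - ζ) * y.1 δ := by
        by_cases h : p.1 ∈ σ.supp δ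
        · rw [hy'1 (some p) (by simpa using hp) _ (Finset.mem_image_of_mem _
            (Finset.mem_filter.mpr ⟨hδF, h, hFs _ hb δ hδ⟩))]
          simp
        · have h2 : σ.supp δ ⊆ J₀ := fun j hj =>
            (Finset.mem_insert.mp (hFs _ hb δ hδ hj)).resolve_left fun e => h (e ▸ hj)
          rw [σ.act_fix _ _ fun j hj => hg1 p hb j (h2 hj),
            hy'1 none (by simp) _ (Finset.mem_filter.mpr ⟨hδF, h2⟩)]
          simp
      rw [σ.gB_apply, this, show y.1 δ - (1 - ζ) * y.1 δ = ζ * y.1 δ by ring, abs_mul,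
        abs_of_pos hζ]
      exact (mul_le_of_le_one_right hζ.le (B_abs_le _ _)).trans (hζω _ hb)
    have h2 := abs_sub_abs_le_abs_sub (σ.tau (E ∩ ρ.U n p.1) y)
      (σ.tau (E ∩ ρ.U n p.1) (σ.gB (g p) y'))
    linarith
  have hM := σ.M_pos
  have hη := ρ.η_pos
  have h1 := σ.sum_abs_tau_ovl s (fun p => E ∩ ρ.U n (u p)) (fun p _ => (hCJ _ (hu2 p)).1)
    (c := 16 * σ.M ^ 2 * ρ.η * n) (by positivity) (fun ℓ => by
      have := ρ.cap n ((s.filter fun p => ℓ ∈ E ∩ ρ.U n (u p)).image u) ℓ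
        (fun b hb => by
          obtain ⟨p, -, rfl⟩ := Finset.mem_image.mp hb
          exact Above.mono (hu2 p) hR)
        (fun b hb => by
          obtain ⟨p, hp, rfl⟩ := Finset.mem_image.mp hb
          exact (Finset.mem_filter.mp hp).2.2)
      rwa [Finset.card_image_of_injective _ hu1, ← ovl_eq] at this) y'
  have h2 := Finset.sum_le_sum hclose
  rw [Finset.sum_add_distrib, Finset.sum_product, Finset.sum_const, Finset.card_product] at h2
  simp only [Finset.sum_const, Finset.card_univ, Fintype.card_fin, nsmul_eq_mul] at h2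
  rw [← Finset.mul_sum] at h2
  have hα' : (0 : ℝ) < α := by exact_mod_cast hα
  push_cast at h2
  rw [← sub_le_iff_le_add', le_div_iff₀ hα']
  linarith

/-- The twin construction. -/
lemma Str.twins (σ : Str Γ L) (p : ℕ) (J : ℕ → Finset ℚ) (c : ℕ → ℚ) (E Bs : ℕ → Set L)
    (Fc : ℕ → Finset Γ) (θ : ℕ → ℝ) (hJ : Monotone J) (hc : ∀ j, Above (J j) (c j))
    (hcJ : ∀ j, c j ∈ J (j + 1)) (hE : ∀ j, σ.CJ (J (j + 1)) (E j))
    (hB : ∀ j, σ.CJ ((J (j + 1)).erase (c j)) (Bs j))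
    (hFc : ∀ j, ∀ γ ∈ Fc j, σ.supp γ ⊆ J (j + 1)) (hEB : ∀ j j', j < j' → E j' ⊆ Bs j)
    {ι : ℝ} (hι : 0 < ι) : ∀ᶠ F in atTop, ∀ (x : B Γ) (t : Finset ℕ), (∀ j ∈ t, j < p) →
      ∑ j ∈ t, mass ((Fc j).filter fun γ => c j ∈ σ.supp γ) x ≤ 1 - mass (σ.FJ F (J p)) x →
      ∑ j ∈ t, (|σ.tau (E j \ Bs j) (σ.piM (c j) (Fc j) (θ j) x)| - ι) ≤ σ.M := by
  have hJp : ∀ j, j < p → J (j + 1) ⊆ J p := fun j hj => hJ hj
  have hD : ∀ j, j < p → σ.CJ (J p) (E j \ Bs j) := fun j hj =>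
    ((hE j).mono (hJp j hj)).diff ((hB j).mono ((Finset.erase_subset _ _).trans (hJp j hj)))
  choose! Fs ω hω hFs hins using fun j (hj : j < p) => σ.insens_tau (hD j hj) hι
  filter_upwards [eventually_ge_atTop ((Finset.range p).biUnion Fs)] with F hF x t ht hx
  obtain ⟨tw, htw⟩ := exists_twin (J p)
  have htwJ : ∀ b, tw b ∉ J p := fun b h => lt_irrefl _ ((htw b).2 _ h (htw b).1)
  choose g hg1 hg2 using fun j => exists_move ((J p).erase (c j)) (a := c j) (a' := tw (c j))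
    (Finset.notMem_erase _ _) (fun h => htwJ _ (Finset.mem_of_mem_erase h)) fun b hb =>
      ⟨fun h => h.trans (htw _).1, fun h => by
        by_contra hn
        exact absurd ((htw _).2 b (Finset.mem_of_mem_erase hb)
          (lt_of_le_of_ne (not_lt.mp hn) (Finset.ne_of_mem_erase hb).symm)) (not_lt.mpr h.le)⟩
  have hclt : ∀ j j', j < j' → c j < c j' := fun j j' h => hc j' _ (hJ h (hcJ j))
  have htwne : ∀ j j', j < p → j' < p → tw (c j) = tw (c j') → j = j' := by
    have : ∀ j j', j < j' → j' < p → tw (c j) < tw (c j') := fun j j' h h' =>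
      ((htw _).2 _ (hJp j' h' (hcJ j')) (hclt j j' h)).trans (htw _).1
    intro j j' h h' e
    rcases lt_trichotomy j j' with h1 | h1 | h1
    · exact absurd e (this j j' h1 h').ne
    · exact h1
    · exact absurd e (this j' j h1 h).ne'
  let Fb : ℕ → Finset Γ := fun j => (Fc j).filter fun γ => c j ∈ σ.supp γ
  let Fh : Option ℕ → Finset Γ := fun o => o.elim (σ.FJ F (J p)) fun j => (Fb j).image (σ.act (g j))
  have hsupp : ∀ j δ, σ.supp δ ⊆ J p → σ.supp (σ.act (g j) δ) ⊆ insert (tw (c j)) (J p) := by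
    intro j δ hδ b hb
    rw [σ.supp_act] at hb
    obtain ⟨a, ha, rfl⟩ := Finset.mem_image.mp hb
    by_cases e : a = c j
    · rw [e, hg2]; exact Finset.mem_insert_self _ _
    · rw [hg1 j a (Finset.mem_erase.mpr ⟨e, hδ ha⟩)]; exact Finset.mem_insert_of_mem (hδ ha)
  have htwm : ∀ j δ, c j ∈ σ.supp δ → tw (c j) ∈ σ.supp (σ.act (g j) δ) := fun j δ h => by
    rw [← hg2 j]; exact (σ.mem_supp_act _ _ _).mpr h
  have hFh : ∀ j ∈ t, ∀ γ ∈ Fh (some j), tw (c j) ∈ σ.supp γ ∧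
      σ.supp γ ⊆ insert (tw (c j)) (J p) := by
    intro j hj γ hγ
    obtain ⟨δ, hδ, rfl⟩ := Finset.mem_image.mp hγ
    have h1 := Finset.mem_filter.mp hδ
    exact ⟨htwm j δ h1.2, hsupp j δ ((hFc j δ h1.1).trans (hJp j (ht j hj)))⟩
  have hd0 : ∀ j ∈ t, Disjoint (Fh none) (Fh (some j)) := fun j hj =>
    Finset.disjoint_left.mpr fun γ h h' => htwJ _ ((Finset.mem_filter.mp h).2 (hFh j hj γ h').1)
  obtain ⟨y', hy'1, hy'2⟩ := exists_point (Finset.insertNone t) Fh (by
      rintro (_ | j) hj (_ | j') hj' hne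
      · exact absurd rfl hne
      · exact hd0 j' (by simpa using hj')
      · exact (hd0 j (by simpa using hj)).symm
      · have h1 : j ∈ t := by simpa using hj
        have h2 : j' ∈ t := by simpa using hj'
        refine Finset.disjoint_left.mpr fun γ h h' =>
          hne (congrArg some (htwne _ _ (ht j h1) (ht j' h2) ?_))
        exact (Finset.mem_insert.mp ((hFh j' h2 γ h').2 (hFh j h1 γ h).1)).resolve_right (htwJ _))
    (fun o γ => o.elim (x.1 γ) fun j => (σ.piM (c j) (Fc j) (θ j) x).1 (σ.act (g j)⁻¹ γ)) (by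
      rw [Finset.sum_insertNone]
      have e1 : ∀ j ∈ t, ∑ γ ∈ Fh (some j),
          (σ.piM (c j) (Fc j) (θ j) x).1 (σ.act (g j)⁻¹ γ) ^ 2 ≤ mass (Fb j) x := by
        intro j _
        simp only [Fh, Option.elim_some]
        rw [Finset.sum_image fun a _ b _ h => (σ.act (g j)).injective h, mass_apply]
        refine Finset.sum_le_sum fun δ _ => ?_
        rw [act_inv_act]
        exact σ.piM_sq_le _ _ _ _ _
      simp only [Option.elim_some, Option.elim_none]
      have := Finset.sum_le_sum e1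
      change mass (σ.FJ F (J p)) x + _ ≤ 1
      linarith)
  have hclose : ∀ j ∈ t, |σ.tau (E j \ Bs j) (σ.piM (c j) (Fc j) (θ j) x)| - ι ≤
      |σ.tau (σ.gL (g j) ⁻¹' (E j \ Bs j)) y'| := by
    intro j hj
    rw [← σ.tau_gB (hD j (ht j hj)).1]
    have := hins j (ht j hj) (σ.piM (c j) (Fc j) (θ j) x) (σ.gB (g j) y') fun δ hδ => by
      have hδF : δ ∈ F := hF (Finset.mem_biUnion.mpr ⟨_, Finset.mem_range.mpr (ht j hj), hδ⟩)
      have hδJ := hFs j (ht j hj) δ hδ
      have : y'.1 (σ.act (g j) δ) = (σ.piM (c j) (Fc j) (θ j) x).1 δ := by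
        by_cases h : c j ∈ σ.supp δ
        · by_cases h' : δ ∈ Fc j
          · rw [hy'1 (some j) (by simpa using hj) _ (Finset.mem_image_of_mem _
              (Finset.mem_filter.mpr ⟨h', h⟩))]
            simp
          · rw [σ.piM_apply, if_pos h, if_neg h']
            refine hy'2 _ ?_
            rintro (_ | j') hj' hm
            · exact htwJ _ ((Finset.mem_filter.mp hm).2 (htwm j δ h))
            · have h2 : j' ∈ t := by simpa using hj'
              have h3 := htwne _ _ (ht j hj) (ht j' h2) ((Finset.mem_insert.mp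
                ((hFh j' h2 _ hm).2 (htwm j δ h))).resolve_right (htwJ _))
              subst h3
              obtain ⟨δ', h4, h5⟩ := Finset.mem_image.mp hm
              rw [(σ.act (g j)).injective h5] at h4
              exact h' (Finset.mem_filter.mp h4).1
        · rw [σ.act_fix _ _ fun b hb => hg1 j b (Finset.mem_erase.mpr ⟨fun e => h (e ▸ hb), hδJ hb⟩),
            hy'1 none (by simp) _ (Finset.mem_filter.mpr ⟨hδF, hδJ⟩), σ.piM_apply, if_neg h]
          simp
      rw [σ.gB_apply, this]; simpa using (hω j (ht j hj)).le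
    have h2 := abs_sub_abs_le_abs_sub (σ.tau (E j \ Bs j) (σ.piM (c j) (Fc j) (θ j) x))
      (σ.tau (E j \ Bs j) (σ.gB (g j) y'))
    linarith
  refine (Finset.sum_le_sum hclose).trans ?_
  have hdis : ∀ j ∈ t, ∀ j' ∈ t, j < j' →
      Disjoint (σ.gL (g j) ⁻¹' (E j \ Bs j)) (σ.gL (g j') ⁻¹' (E j' \ Bs j')) := by
    intro j hj j' hj' hlt
    refine Set.disjoint_left.mpr fun ℓ h h' => h.2 ?_
    have e1 := (hB j).gL_fix (g := g j) fun b hb =>
      hg1 j b (Finset.erase_subset_erase _ (hJp j (ht j hj)) hb)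
    have e2 := (hB j).gL_fix (g := g j') fun b hb => hg1 j' b (Finset.mem_erase.mpr
      ⟨(hc j' b (hJ hlt (Finset.mem_of_mem_erase hb))).ne,
        hJp j (ht j hj) (Finset.mem_of_mem_erase hb)⟩)
    have h1 : ℓ ∈ σ.gL (g j') ⁻¹' Bs j := hEB j j' hlt h'.1
    rw [e2, ← e1] at h1
    exact h1
  have := σ.sum_abs_tau_ovl t (fun j => σ.gL (g j) ⁻¹' (E j \ Bs j))
    (fun j hj => (hD j (ht j hj)).1.preimage (σ.gL _).continuous) zero_le_one
    (ovl_le_one fun j hj j' hj' hne => by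
      rcases lt_or_gt_of_ne hne with h | h
      · exact hdis j hj j' hj' h
      · exact (hdis j' hj' j hj h).symm) y'
  simpa using this

end Pool.Agent.Lib.MP_9e0ccb_an
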