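import Pool.Agent.Lib.MP_9e0ccb_an.Class

set_option autoImplicit false
set_option linter.unusedSectionVars false
set_option linter.deprecated false
set_option linter.unusedVariables false
set_option linter.unusedSimpArgs false
open Set Filter Topology
open scoped Classical

namespace Pool.Agent.Lib.MP_9e0ccb_an

variable {Γ L : Type} [TopologicalSpace L] [CompactSpace L] [T2Space L]
  [TotallyDisconnectedSpace L] {σ : Str Γ L}

lemma ovl_congr {ι : Type} {s : Finset ι} {P Q : ι → Prop} (h : ∀ i ∈ s, P i ↔ Q i) :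
    ovl s P = ovl s Q :=
  le_antisymm (ovl_mono fun i hi => (h i hi).1) (ovl_mono fun i hi => (h i hi).2)

lemma isClopen_ovl {ι : Type} (s : Finset ι) {V : ι → Set L} (hV : ∀ i ∈ s, IsClopen (V i))
    (P : ℕ → Prop) : IsClopen {ℓ | P (ovl s fun i => ℓ ∈ V i)} := by
  have : IsLocallyConstant fun ℓ => ovl s fun i => ℓ ∈ V i := by
    rw [IsLocallyConstant.iff_eventually_eq]
    intro ℓ
    have : ∀ᶠ x in 𝓝 ℓ, ∀ i ∈ s, (x ∈ V i ↔ ℓ ∈ V i) := by
      rw [eventually_all_finset]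
      intro i hi
      by_cases h : ℓ ∈ V i
      · filter_upwards [(hV i hi).isOpen.mem_nhds h] with x hx using ⟨fun _ => h, fun _ => hx⟩
      · filter_upwards [(hV i hi).compl.isOpen.mem_nhds h] with x hx using
          ⟨fun h' => absurd h' hx, fun h' => absurd h' h⟩
    filter_upwards [this] with x hx using ovl_congr hx
  exact ⟨⟨this {n | P n}ᶜ⟩, this {n | P n}⟩

lemma Str.CJ.ovl {ι : Type} {J : Finset ℚ} (s : Finset ι) {V : ι → Set L}
    (hV : ∀ i ∈ s, σ.CJ J (V i)) (P : ℕ → Prop) : σ.CJ J {ℓ | P (ovl s fun i => ℓ ∈ V i)} :=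
  ⟨isClopen_ovl s (fun i hi => (hV i hi).1) P, fun ℓ => by
    simp only [mem_setOf_eq]
    rw [ovl_congr fun i hi => (hV i hi).2 ℓ]⟩

lemma ovl_le_one {ι : Type} {s : Finset ι} {Y : ι → Set L}
    (h : ∀ i ∈ s, ∀ j ∈ s, i ≠ j → Disjoint (Y i) (Y j)) (ℓ : L) :
    (ovl s fun i => ℓ ∈ Y i : ℝ) ≤ 1 := by
  have : ovl s (fun i => ℓ ∈ Y i) ≤ 1 := by
    refine Finset.card_le_one.mpr fun i hi j hj => ?_
    rw [Finset.mem_filter] at hi hj
    by_contra hij
    exact Set.disjoint_left.mp (h i hi.1 j hj.1 hij) hi.2 hj.2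
  exact_mod_cast this

lemma exists_pow_le {x ε : ℝ} (hx : x < 1) (hε : 0 < ε) (hx0 : 0 ≤ x) : ∃ a : ℕ, x ^ a ≤ ε := by
  obtain ⟨a, ha⟩ := exists_pow_lt_of_lt_one hε hx
  exact ⟨a, ha.le⟩

namespace Root
variable (ρ : Root σ)

theorem K_nonempty : (ρ.K (1 / (16 * σ.M ^ 2))).Nonempty := by
  by_contra hne
  have hM := σ.M_pos
  have hM1 := σ.one_le_M
  have hη := ρ.η_pos
  set s := 1 / (16 * σ.M ^ 2) with hs
  obtain ⟨β₀, hβ₀⟩ := ρ.exists_Inv (s := s) isClopen_univ fun ℓ _ h => hne ⟨ℓ, h⟩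
  let St := {p : Finset ℚ × B Γ // ρ.R0 ⊆ p.1 ∧ σ.R p.1 p.2 = p.2 ∧ σ.R ρ.R0 p.2 = ρ.x0 ∧
    ∃ ξ > 0, ∀ F, mass F p.2 ≤ 1 - ρ.η / 2 - ξ}
  refine no_chain (St := St) (Lab := Unit) (fun a b => a.1.1 ⊆ b.1.1 ∧ σ.R a.1.1 b.1.2 = a.1.2)
    (fun a => ⟨subset_rfl, a.2.2.1⟩)
    (fun a b c h h' => ⟨h.1.trans h'.1, by rw [← σ.R_R_of_subset h.1, h'.2, h.2]⟩) (fun _ => ())
    (M := σ.M) (c := 1 / (16 * σ.M)) (by positivity) (fun a X => σ.Nu a.1.2 (ind X))
    (fun a => ⟨fun X Y hX hY => by rw [ind_split hX hY, map_add], fun ι t Y h1 h2 => ?_⟩)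
    (ρ.Inv s univ) β₀ hβ₀ ⟨(ρ.R0, ρ.x0), subset_rfl, ρ.x0_R, ρ.x0_R, ρ.η / 2, by positivity,
      fun F => by linarith [ρ.x0_mass F]⟩ ?_
  · rw [← map_sum]
    have := σ.Nu_le_const a.1.2 (f := ∑ i ∈ t, ind (Y i)) zero_le_one fun ℓ => by
      rw [ContinuousMap.sum_apply, sum_ind_eq_ovl t Y h1]; exact ovl_le_one h2 ℓ
    simpa using this
  rintro ⟨⟨J, y⟩, hJ, hy, hy0, ξ, hξ, hm⟩ β hβ
  simp only at hJ hy hy0 hm
  obtain ⟨J₁, k, n₀, δ, hJ₁, -, hδ, hδ1, -, hβJ, hfail⟩ := hβ.params ρ isClopen_univ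
  set J' := J ∪ J₁ with hJ'
  have hRJ' : ρ.R0 ⊆ J' := hJ.trans Finset.subset_union_left
  set f : ℝ := 1 / (4 * σ.M ^ 2) with hf
  have hf0 : 0 < f := by positivity
  have hf1 : f ≤ 1 := by
    rw [hf, div_le_one (by positivity)]; nlinarith
  have hfk : 0 < δ * f ^ k := by positivity
  have hfk1 : δ * f ^ k ≤ 1 := mul_le_one₀ hδ1 (by positivity) (pow_le_one₀ hf0.le hf1)
  obtain ⟨a, ha⟩ := exists_pow_le (x := 1 - δ * f ^ k) (ε := 1 / 2) (by linarith) (by norm_num)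
    (by linarith)
  obtain ⟨n, hn⟩ := exists_nat_gt (max (n₀ : ℝ) (max ((a * k : ℕ) / ξ) (2 / ρ.η)))
  have hn₀ : n₀ ≤ n := by exact_mod_cast ((le_max_left _ _).trans_lt hn).le
  have hn2 : 2 < n * ρ.η := by
    have := ((le_max_right _ _).trans (le_max_right _ _)).trans_lt hn
    rwa [div_lt_iff₀ hη] at this
  have hnpos : (0 : ℝ) < n := lt_of_le_of_lt ((Nat.cast_nonneg n₀).trans (le_max_left _ _)) hn
  have hnξ : ((a * k : ℕ) : ℝ) / n < ξ := by
    have := ((le_max_left _ _).trans (le_max_right _ _)).trans_lt hn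
    rw [div_lt_iff₀ hξ] at this
    rw [div_lt_iff₀ hnpos]; linarith
  set t := ⌊n * ρ.η / 2⌋₊ with ht
  have ht1 : (t : ℝ) ≤ n * ρ.η / 2 := Nat.floor_le (by positivity)
  have ht0 : 1 ≤ t := Nat.le_floor (by push_cast; linarith)
  have ht0' : (1 : ℝ) ≤ t := by exact_mod_cast ht0
  have ht2 : n * ρ.η / 4 ≤ t := by
    have := Nat.lt_floor_add_one (n * ρ.η / 2)
    rw [← ht] at this; linarith
  obtain ⟨u, hu1, hu2⟩ := exists_inj_above J' (Fin t)
  set T := Finset.univ.image u with hT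
  have hTc : T.card = t := by rw [hT, Finset.card_image_of_injective _ hu1]; simp
  have hTa : ∀ b ∈ T, Above J' b := by
    intro b hb
    obtain ⟨i, -, rfl⟩ := Finset.mem_image.mp hb
    exact hu2 i
  have hTR : ∀ b ∈ T, Above ρ.R0 b := fun b hb => (hTa b hb).mono hRJ'
  set v : ℝ := Real.sqrt (1 / n) with hv
  have hv2 : v ^ 2 = 1 / n := Real.sq_sqrt (by positivity)
  have hsum : ∀ (A : Finset ℚ) (F : Finset Γ) (w : Γ → ℝ),
      (∀ γ, w γ ^ 2 ≤ if γ ∈ A.image σ.atom then v ^ 2 else y.1 γ ^ 2) →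
      ∑ γ ∈ F, w γ ^ 2 ≤ A.card / n + (1 - ρ.η / 2 - ξ) := by
    intro A F w hw
    refine (Finset.sum_le_sum fun γ _ => hw γ).trans ?_
    rw [Finset.sum_ite]
    refine add_le_add ?_ (hm _)
    rw [Finset.sum_const, nsmul_eq_mul, hv2, mul_one_div]
    refine div_le_div_of_nonneg_right (Nat.cast_le.mpr ?_) hnpos.le
    exact (Finset.card_le_card fun γ hγ => (Finset.mem_filter.mp hγ).2).trans Finset.card_image_le
  let yh : B Γ := ⟨fun γ => if γ ∈ T.image σ.atom then v else y.1 γ, fun F => by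
    refine (hsum T F _ fun γ => by split_ifs <;> exact le_rfl).trans ?_
    rw [hTc]
    have : (t : ℝ) / n ≤ ρ.η / 2 := by rw [div_le_iff₀ hnpos]; linarith
    linarith⟩
  have hyh : ∀ γ, σ.supp γ ⊆ J' → yh.1 γ = y.1 γ := by
    intro γ hγ
    refine if_neg fun h => ?_
    obtain ⟨b, hb, rfl⟩ := Finset.mem_image.mp h
    rw [σ.supp_atom] at hγ
    exact (hTa b hb).not_mem (hγ (Finset.mem_singleton_self b))
  have hRyh : ∀ P, P ⊆ J' → σ.R P yh = σ.R P y := by
    intro P hP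
    apply Subtype.ext; funext γ
    by_cases h : σ.supp γ ⊆ P
    · rw [σ.R_mem _ h, σ.R_mem _ h, hyh γ (h.trans hP)]
    · rw [σ.R_not_mem _ h, σ.R_not_mem _ h]
  have hyh0 : σ.R ρ.R0 yh = ρ.x0 := by rw [hRyh _ hRJ', hy0]
  have hUc : ∀ b ∈ T, IsClopen (ρ.U n b) := fun b hb => (ρ.U_CJ n b (hTR b hb)).1
  set Y := {ℓ | f * t ≤ (ovl T fun b => ℓ ∈ ρ.U n b : ℕ)} with hY
  have hYc : IsClopen Y := isClopen_ovl T hUc fun m => f * t ≤ (m : ℝ)
  have hYm : 1 / (4 * σ.M) ≤ σ.Nu yh (ind Y) := by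
    have h1 : ∑ b ∈ T, 1 / (2 * σ.M) ≤ ∑ b ∈ T, σ.Nu yh (ind (ρ.U n b)) :=
      Finset.sum_le_sum fun b hb => ρ.pres n b yh (hTR b hb) hyh0 (by
        have : yh.1 (σ.atom b) = v := if_pos (Finset.mem_image_of_mem _ hb)
        rw [this, hv2, mul_one_div_cancel hnpos.ne'])
    rw [← map_sum, Finset.sum_const, nsmul_eq_mul, hTc] at h1
    have h2 := σ.Nu_mono yh (f := ∑ b ∈ T, ind (ρ.U n b))
      (g := (t : ℝ) • ind Y + ContinuousMap.const _ (f * t)) fun ℓ => by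
        rw [ContinuousMap.sum_apply, sum_ind_eq_ovl T _ hUc]
        simp only [ContinuousMap.add_apply, ContinuousMap.smul_apply, ContinuousMap.const_apply,
          smul_eq_mul]
        by_cases hℓ : ℓ ∈ Y
        · rw [ind_mem hYc hℓ]
          have : ((ovl T fun b => ℓ ∈ ρ.U n b : ℕ) : ℝ) ≤ t := by
            rw [← hTc]; exact_mod_cast ovl_le_card _ _
          have : 0 ≤ f * t := by positivity
          linarith
        · rw [ind_not_mem hℓ]
          have : ((ovl T fun b => ℓ ∈ ρ.U n b : ℕ) : ℝ) < f * t := not_le.mp hℓ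
          linarith
    rw [map_add, map_smul, smul_eq_mul] at h2
    have h3 := σ.Nu_le_const yh (f := ContinuousMap.const _ (f * t)) (c := f * t) (by positivity)
      fun _ => le_rfl
    have h4 : f * t * σ.M = t * (1 / (4 * σ.M)) := by rw [hf]; field_simp
    have h5 : (t : ℝ) * (1 / (2 * σ.M)) = t * (1 / (4 * σ.M)) + t * (1 / (4 * σ.M)) := by
      field_simp; ring
    have h6 : (t : ℝ) * (1 / (4 * σ.M)) ≤ t * σ.Nu yh (ind Y) := by linarith
    exact le_of_mul_le_mul_left h6 (by linarith)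
  obtain ⟨O, hO1, hO2, hO3⟩ := ρ.exists_test (s := s) hβ.1 (seqs (a * k) T)
    (fun H => J' ∪ im H) (fun H => hRJ'.trans Finset.subset_union_left)
    (fun H => hβJ _ (Finset.subset_union_right.trans Finset.subset_union_left))
    (fun _ => univ) (fun _ => Str.CJ.univ _) hYc.isClosed (θ := 1 / 2 * (t : ℝ) ^ (a * k)) (by
      intro ℓ hℓ
      set T' := T.filter (fun b => ℓ ∈ ρ.U n b) with hT'
      have h1 : f * t ≤ T'.card := hℓ
      have h2 := hfail ℓ (mem_univ _) J' Finset.subset_union_right n hn₀ T'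
        (fun b hb => hTa b (Finset.mem_filter.mp hb).1) (by
          refine le_trans ?_ h1
          have : s * ρ.η * n = f * (n * ρ.η / 4) := by rw [hs, hf]; field_simp; ring
          rw [this]; exact mul_le_mul_of_nonneg_left ht2 hf0.le)
        (fun b hb => (Finset.mem_filter.mp hb).2)
      have h3 : ((cnt k T (fun B => σ.r (J' ∪ B) ℓ ∈ ρ.Sa s (β ℓ)) : ℕ) : ℝ) + (T'.card : ℝ) ^ k ≤
          (T.card : ℝ) ^ k + (cnt k T' (fun B => σ.r (J' ∪ B) ℓ ∈ ρ.Sa s (β ℓ)) : ℕ) := by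
        exact_mod_cast cnt_sub (Finset.filter_subset _ T) _
      have h4 : (f * t) ^ k ≤ (T'.card : ℝ) ^ k := pow_le_pow_left₀ (by positivity) h1 k
      have h5 := cnt_boost a k T (Q := fun B => σ.r (J' ∪ B) ℓ ∈ ρ.Sa s (β ℓ))
        (fun B B' hB h' => (ρ.RCl_Sa _ _).her ρ (hRJ'.trans Finset.subset_union_left)
          (Finset.union_subset_union_right hB) h') (θ := 1 - δ * f ^ k) (by
          rw [hTc] at h3 ⊢
          rw [mul_pow] at h4
          have := mul_le_mul_of_nonneg_left h4 hδ.le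
          nlinarith)
      rw [hTc] at h5
      refine le_trans (Nat.cast_le.mpr (ovl_mono fun H _ h => h.2)) (h5.trans ?_)
      exact mul_le_mul_of_nonneg_right ha (by positivity))
  have hcard : ((seqs (a * k) T).card : ℝ) = (t : ℝ) ^ (a * k) := by
    rw [card_seqs, hTc]; push_cast; rfl
  have htk : 0 < (t : ℝ) ^ (a * k) := by positivity
  obtain ⟨H, hH, hHm⟩ : ∃ H ∈ seqs (a * k) T, 1 / (8 * σ.M) ≤ σ.Nu yh (ind (O H)ᶜ) := by
    have h1 := σ.Nu_mono yh (f := (1 / 2 * (t : ℝ) ^ (a * k)) • ind Y)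
      (g := ∑ H ∈ seqs (a * k) T, ind (O H)ᶜ) fun ℓ => by
        rw [ContinuousMap.sum_apply, sum_ind_eq_ovl _ _ fun H _ => (hO1 H).1.compl]
        simp only [ContinuousMap.smul_apply, smul_eq_mul]
        by_cases hℓ : ℓ ∈ Y
        · rw [ind_mem hYc hℓ]
          have h2 := hO3 ℓ hℓ
          have h3 := Finset.card_filter_add_card_filter_not (s := seqs (a * k) T)
            fun H => ℓ ∈ O H
          have h4 : ((ovl (seqs (a * k) T) fun H => ℓ ∈ O H : ℕ) : ℝ) +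
              (ovl (seqs (a * k) T) fun H => ℓ ∈ (O H)ᶜ : ℕ) = (seqs (a * k) T).card := by
            rw [ovl_eq, ovl_eq]; exact_mod_cast h3
          linarith
        · rw [ind_not_mem hℓ, mul_zero]; exact Nat.cast_nonneg _
    rw [map_smul, map_sum, smul_eq_mul] at h1
    refine Finset.exists_le_of_sum_le (Finset.card_pos.mp (by exact_mod_cast hcard ▸ htk)) ?_
    rw [Finset.sum_const, nsmul_eq_mul, hcard]
    refine le_trans ?_ h1
    have : (t : ℝ) ^ (a * k) * (1 / (8 * σ.M)) = 1 / 2 * (t : ℝ) ^ (a * k) * (1 / (4 * σ.M)) := by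
      field_simp; ring
    rw [this]
    exact mul_le_mul_of_nonneg_left hYm (by positivity)
  obtain ⟨β', hβ'1, hβ'2, hβ'3⟩ := hβ.refine ρ (hO1 H).1.compl fun ℓ hℓ =>
    hO2 H ℓ ⟨mem_univ _, hℓ⟩
  have hy'0 : σ.R ρ.R0 (σ.R (J' ∪ im H) yh) = ρ.x0 := by
    rw [σ.R_R_of_subset (hRJ'.trans Finset.subset_union_left), hyh0]
  refine ⟨⟨(J' ∪ im H, σ.R (J' ∪ im H) yh), hRJ'.trans Finset.subset_union_left,
    σ.R_R_of_subset subset_rfl _, hy'0, ξ - (a * k : ℕ) / n, by linarith, fun F => ?_⟩, β',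
    (O H)ᶜ, ⟨Finset.subset_union_left.trans Finset.subset_union_left, ?_⟩, hβ'1, (hO1 H).1.compl,
    hβ'2, hβ'3, ?_⟩
  · refine (hsum (im H) F _ fun γ => ?_).trans ?_
    · simp only
      by_cases h : σ.supp γ ⊆ J' ∪ im H
      · rw [σ.R_mem _ h]
        by_cases h2 : γ ∈ T.image σ.atom
        · obtain ⟨b, hb, rfl⟩ := Finset.mem_image.mp h2
          rw [σ.supp_atom] at h
          have h3 := (Finset.mem_union.mp (h (Finset.mem_singleton_self b))).resolve_left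
            (hTa b hb).not_mem
          rw [if_pos (Finset.mem_image_of_mem _ h3)]
          exact le_of_eq (by simp only [yh]; rw [if_pos h2])
        · rw [if_neg fun h3 => h2 (Finset.image_subset_image (im_subset hH) h3)]
          exact le_of_eq (by simp only [yh]; rw [if_neg h2])
      · rw [σ.R_not_mem _ h]
        split_ifs <;> simpa using sq_nonneg _
    · have : ((im H).card : ℝ) / n ≤ (a * k : ℕ) / n :=
        div_le_div_of_nonneg_right (Nat.cast_le.mpr (card_im_le H)) hnpos.le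
      linarith
  · simp only
    rw [σ.R_R_of_subset (Finset.subset_union_left.trans Finset.subset_union_left),
      hRyh _ Finset.subset_union_left, hy]
  · rintro ⟨⟨J'', y''⟩, h''⟩ ⟨-, hle⟩ -
    simp only at hle ⊢
    have h1 := σ.Nu_R (J' ∪ im H) (ind_nonneg (O H)ᶜ) y''
    rw [hle, (hO1 H).compl.ind_comp] at h1
    have h2 := σ.Nu_R (J' ∪ im H) (ind_nonneg (O H)) yh
    rw [(hO1 H).ind_comp] at h2
    have h3 := ρ.big _ yh hy'0
    have e : (1 : C(L, ℝ)) = ind (O H) + ind (O H)ᶜ := by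
      rw [← ind_univ, ind_split isClopen_univ (hO1 H).1, univ_inter, compl_eq_univ_diff]
    rw [e, map_add, map_add] at h3
    have h4 : 1 / (8 * σ.M) = 1 / (16 * σ.M) + 1 / (16 * σ.M) := by field_simp; ring
    linarith

end Root

end Pool.Agent.Lib.MP_9e0ccb_an
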