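import Mathlib

set_option autoImplicit false
set_option linter.unusedSectionVars false
set_option linter.deprecated false
open Set Cardinal

namespace Pool.Agent.Lib.MP_9e0ccb_an

lemma exists_rec_sol {W Y : Type} [LinearOrder W] [WellFoundedLT W] (y0 : Y)
    (Φ : W → (W → Y) → Y)
    (hΦ : ∀ w φ ψ, (∀ w' < w, φ w' = ψ w') → Φ w φ = Φ w ψ) : ∃ f : W → Y, ∀ w, f w = Φ w f := by
  classical
  let f : W → Y := WellFounded.fix (wellFounded_lt (α := W))
    (fun w rec => Φ w (fun w' => if h : w' < w then rec w' h else y0))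
  refine ⟨f, fun w => ?_⟩
  have : f w = Φ w (fun w' => if h : w' < w then f w' else y0) := by
    simp only [f]; rw [WellFounded.fix_eq]
  rw [this]
  exact hΦ _ _ _ fun w' hw' => by simp [hw']

lemma rec_sol_unique {W Y : Type} [LinearOrder W] [WellFoundedLT W]
    (Φ : W → (W → Y) → Y)
    (hΦ : ∀ w φ ψ, (∀ w' < w, φ w' = ψ w') → Φ w φ = Φ w ψ) {f g : W → Y}
    (hf : ∀ w, f w = Φ w f) (hg : ∀ w, g w = Φ w g) : f = g := by
  funext w
  induction w using WellFoundedLT.induction with
  | ind w ih => rw [hf w, hg w]; exact hΦ _ _ _ ih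

/-- End-homogeneous sequences (the key step of the Erdős–Rado theorem). -/
lemma end_homog {W Y Col : Type} [LinearOrder W] [WellFoundedLT W] [DecidableEq Y]
    (hY : #(W × (Finset W → Col)) < #Y) (c : Finset Y → Col) :
    ∃ (f : W → Y) (y : Y), Function.Injective f ∧ ∀ w, ∀ s : Finset W, (∀ x ∈ s, x < w) →
      c (insert (f w) (s.image f)) = c (insert y (s.image f)) := by
  classical
  have hne : Nonempty Y := by
    rw [← Cardinal.mk_ne_zero_iff]; exact (lt_of_le_of_lt zero_le hY).ne'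
  obtain ⟨y0⟩ := hne
  have : Nonempty Y := ⟨y0⟩
  let P : (Finset W → Col) → W → (W → Y) → Y → Prop := fun g w φ y' =>
    (∀ w' < w, y' ≠ φ w') ∧ ∀ s : Finset W, (∀ x ∈ s, x < w) → c (insert y' (s.image φ)) = g s
  have hP : ∀ g w φ ψ, (∀ w' < w, φ w' = ψ w') → P g w φ = P g w ψ := by
    intro g w φ ψ h
    funext y'
    have h2 : ∀ s : Finset W, (∀ x ∈ s, x < w) → s.image φ = s.image ψ := fun s hs =>
      Finset.image_congr fun x hx => h x (hs x hx)
    apply propext
    constructor
    · rintro ⟨h1, h3⟩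
      exact ⟨fun w' hw' => by rw [← h w' hw']; exact h1 w' hw',
        fun s hs => by rw [← h2 s hs]; exact h3 s hs⟩
    · rintro ⟨h1, h3⟩
      exact ⟨fun w' hw' => by rw [h w' hw']; exact h1 w' hw',
        fun s hs => by rw [h2 s hs]; exact h3 s hs⟩
  let Φ : (Finset W → Col) → W → (W → Y) → Y := fun g w φ => Classical.epsilon (P g w φ)
  have hΦ : ∀ g w φ ψ, (∀ w' < w, φ w' = ψ w') → Φ g w φ = Φ g w ψ := by
    intro g w φ ψ h; simp only [Φ]; rw [hP g w φ ψ h]
  choose F hF using fun g => exists_rec_sol y0 (Φ g) (hΦ g)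
  obtain ⟨y, hy⟩ : ∃ y : Y, y ∉ range (fun p : W × (Finset W → Col) => F p.2 p.1) := by
    by_contra H
    push Not at H
    exact absurd (Cardinal.mk_le_of_surjective H) (not_le.mpr hY)
  let Ψ : W → (W → Y) → Y := fun w φ => Φ (fun s => c (insert y (s.image φ))) w φ
  have hΨ : ∀ w φ ψ, (∀ w' < w, φ w' = ψ w') → Ψ w φ = Ψ w ψ := by
    intro w φ ψ h
    simp only [Ψ, Φ]
    rw [hP _ w φ ψ h]
    congr 1
    funext y'
    have h2 : ∀ s : Finset W, (∀ x ∈ s, x < w) → s.image φ = s.image ψ := fun s hs =>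
      Finset.image_congr fun x hx => h x (hs x hx)
    apply propext
    simp only [P]
    refine and_congr_right fun _ => forall_congr' fun s => imp_congr_right fun hs => ?_
    rw [h2 s hs]
  obtain ⟨f, hf⟩ := exists_rec_sol y0 Ψ hΨ
  let g : Finset W → Col := fun s => c (insert y (s.image f))
  have hfg : f = F g := rec_sol_unique (Φ g) (hΦ g) hf (hF g)
  have hPf : ∀ w, P g w f (f w) := by
    intro w
    have : P g w f (Φ g w f) := by
      apply Classical.epsilon_spec (p := P g w f)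
      refine ⟨y, fun w' _ h => hy ⟨(w', g), ?_⟩, fun s _ => rfl⟩
      simp only; rw [← hfg, h]
    rw [hf w]; exact this
  refine ⟨f, y, fun a b hab => ?_, fun w s hs => (hPf w).2 s hs⟩
  rcases lt_trichotomy a b with h | h | h
  · exact absurd hab.symm ((hPf b).1 a h)
  · exact h
  · exact absurd hab ((hPf a).1 b h)

/-- The Erdős–Rado theorem, without explicit bounds. -/
lemma erdos_rado (Col : Type) (n : ℕ) : ∀ μ : Cardinal.{0}, ∃ Θ : Cardinal.{0}, ∀ (Y : Type),
    Θ ≤ #Y → ∀ c : Finset Y → Col, ∃ X : Set Y, μ ≤ #X ∧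
      ∃ p, ∀ s : Finset Y, (↑s : Set Y) ⊆ X → s.card = n → c s = p := by
  classical
  induction n with
  | zero =>
    intro μ
    refine ⟨μ, fun Y hY c => ⟨univ, by simpa using hY, c ∅, fun s _ hs => ?_⟩⟩
    rw [Finset.card_eq_zero.mp hs]
  | succ n ih =>
    intro μ
    obtain ⟨Θ, hΘ⟩ := ih μ
    let W : Type := Θ.ord.ToType
    refine ⟨Order.succ #(W × (Finset W → Col)), fun Y hY c => ?_⟩
    obtain ⟨f, y, hf, hend⟩ := end_homog (Order.succ_le_iff.mp hY) c
    obtain ⟨X, hX, p, hp⟩ := hΘ W (by simp [W]) (fun s => c (insert y (s.image f)))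
    refine ⟨f '' X, by rwa [Cardinal.mk_image_eq hf], p, fun s hs hcard => ?_⟩
    obtain ⟨t, htX, rfl⟩ : ∃ t : Finset W, (↑t : Set W) ⊆ X ∧ t.image f = s := by
      refine ⟨s.preimage f hf.injOn, fun x hx => ?_, ?_⟩
      · obtain ⟨x', hx', e⟩ := hs (Finset.mem_preimage.mp hx)
        rwa [← hf e]
      · rw [Finset.image_preimage]
        exact Finset.filter_true_of_mem fun x hx => image_subset_range _ _ (hs hx)
    rw [Finset.card_image_of_injective _ hf] at hcard
    have hne : t.Nonempty := Finset.card_pos.mp (by omega)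
    have e : t = insert (t.max' hne) (t.erase (t.max' hne)) :=
      (Finset.insert_erase (t.max'_mem hne)).symm
    rw [e, Finset.image_insert, hend]
    · refine hp _ (fun x hx => htX (Finset.mem_of_mem_erase hx)) ?_
      rw [Finset.card_erase_of_mem (t.max'_mem hne)]; omega
    · intro x hx
      exact lt_of_le_of_ne (t.le_max' x (Finset.mem_of_mem_erase hx)) (Finset.ne_of_mem_erase hx)

/-- Morley's argument: a pattern of colours realised by arbitrarily long homogeneous sets. -/
lemma morley {ι : Type*} (Γ : ι → Type) (hbig : ∀ μ : Cardinal.{0}, ∃ i, μ ≤ #(Γ i))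
    {Col : Type} (c : ∀ i, Finset (Γ i) → Col) :
    ∃ p : ℕ → Col, ∀ N : ℕ, ∃ i, ∃ X : Set (Γ i), X.Infinite ∧
      ∀ s : Finset (Γ i), (↑s : Set (Γ i)) ⊆ X → s.card < N → c i s = p s.card := by
  classical
  let Large : ℕ → (ℕ → Col) → Prop := fun n p => ∀ μ : Cardinal.{0}, ∃ i, ∃ X : Set (Γ i),
    μ ≤ #X ∧ ∀ s : Finset (Γ i), (↑s : Set (Γ i)) ⊆ X → s.card < n → c i s = p s.card
  have step : ∀ n p, Large n p → ∃ q, Large (n + 1) (Function.update p n q) := by
    intro n p hp
    by_contra H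
    simp only [Large, not_exists, not_forall] at H
    choose μ hμ using H
    obtain ⟨Θ, hΘ⟩ := erdos_rado Col n (⨆ q, μ q)
    obtain ⟨i, X, hX, hc⟩ := hp Θ
    obtain ⟨X', hX', q, hq⟩ := hΘ X hX (fun s => c i (s.map (Function.Embedding.subtype _)))
    apply hμ q i (Subtype.val '' X')
    refine ⟨?_, fun s hs hcard => ?_⟩
    · rw [Cardinal.mk_image_eq Subtype.val_injective]
      exact (le_ciSup (Cardinal.bddAbove_of_small) q).trans hX'
    · have hsX : (↑s : Set (Γ i)) ⊆ X := fun x hx => by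
        obtain ⟨x', _, rfl⟩ := hs hx; exact x'.2
      rcases Nat.lt_succ_iff_lt_or_eq.mp hcard with h | h
      · rw [Function.update_of_ne h.ne]; exact hc s hsX h
      · rw [h, Function.update_self]
        have e : (s.subtype (· ∈ X)).map (Function.Embedding.subtype _) = s :=
          Finset.subtype_map_of_mem fun x hx => hsX hx
        have := hq (s.subtype (· ∈ X)) (fun x hx => by
          obtain ⟨x', hx', e'⟩ := hs (Finset.mem_subtype.mp hx)
          rwa [← Subtype.ext e']) (by rw [← h, ← Finset.card_map (Function.Embedding.subtype _), e])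
        rw [e] at this; exact this
  obtain ⟨i0, -⟩ := hbig 0
  have h0 : Large 0 (fun _ => c i0 ∅) := fun μ => by
    obtain ⟨i, hi⟩ := hbig μ
    exact ⟨i, univ, by simpa using hi, fun s _ h => absurd h (Nat.not_lt_zero _)⟩
  choose q hq using step
  let seq : (n : ℕ) → {p // Large n p} := fun n => Nat.rec (motive := fun n => {p // Large n p}) ⟨fun _ => c i0 ∅, h0⟩
    (fun n a => ⟨_, hq n a.1 a.2⟩) n
  have hseq : ∀ n m, m < n → (seq n).1 m = (seq (m + 1)).1 m := by
    intro n
    induction n with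
    | zero => intro m h; omega
    | succ n ih =>
      intro m h
      rcases Nat.lt_succ_iff_lt_or_eq.mp h with h | h
      · rw [← ih m h]
        change Function.update _ _ _ _ = _
        rw [Function.update_of_ne h.ne]
      · rw [h]
  refine ⟨fun m => (seq (m + 1)).1 m, fun N => ?_⟩
  obtain ⟨i, X, hX, hc⟩ := (seq N).2 ℵ₀
  refine ⟨i, X, Set.infinite_coe_iff.mp (Cardinal.infinite_iff.mpr hX), fun s hs hcard => ?_⟩
  rw [hc s hs hcard, hseq N _ hcard]

/-! ### Automorphisms of the rational order -/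

/-- A finite strictly monotone map of rationals extends to an order automorphism. -/
lemma exists_orderIso (J : Finset ℚ) (κ : ℚ → ℚ) (hκ : StrictMonoOn κ J) :
    ∃ g : ℚ ≃o ℚ, ∀ b ∈ J, g b = κ b := by
  classical
  let p0 : Order.PartialIso ℚ ℚ := ⟨J.image (fun b => (b, κ b)), by
    intro p hp q hq
    obtain ⟨a, ha, rfl⟩ := Finset.mem_image.mp hp
    obtain ⟨b, hb, rfl⟩ := Finset.mem_image.mp hq
    exact (hκ.cmp_map_eq ha hb).symm⟩
  let to_cofinal : ℚ ⊕ ℚ → Order.Cofinal (Order.PartialIso ℚ ℚ) := fun p ↦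
    Sum.recOn p (Order.PartialIso.definedAtLeft ℚ) (Order.PartialIso.definedAtRight ℚ)
  let our_ideal : Order.Ideal (Order.PartialIso ℚ ℚ) := Order.idealOfCofinals p0 to_cofinal
  let F a := Order.PartialIso.funOfIdeal a our_ideal
    (Order.cofinal_meets_idealOfCofinals _ to_cofinal (Sum.inl a))
  let G b := Order.PartialIso.invOfIdeal b our_ideal
    (Order.cofinal_meets_idealOfCofinals _ to_cofinal (Sum.inr b))
  refine ⟨OrderIso.ofCmpEqCmp (fun a ↦ (F a).val) (fun b ↦ (G b).val) fun a b ↦ ?_, ?_⟩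
  · rcases (F a).prop with ⟨f, hf, ha⟩
    rcases (G b).prop with ⟨g, hg, hb⟩
    rcases our_ideal.directed _ hf _ hg with ⟨m, _, fm, gm⟩
    exact m.prop (a, _) (fm ha) (_, b) (gm hb)
  · intro b hb
    change (F b).val = κ b
    rcases (F b).prop with ⟨f, hf, ha⟩
    rcases our_ideal.directed _ hf _ (Order.mem_idealOfCofinals p0 to_cofinal) with ⟨m, _, fm, gm⟩
    have h1 : (b, κ b) ∈ p0.1 := Finset.mem_image.mpr ⟨b, hb, rfl⟩
    have := m.prop (b, _) (fm ha) (b, κ b) (gm h1)
    simp only [cmp_self_eq_eq] at this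
    exact cmp_eq_eq_iff _ _ |>.mp this.symm

lemma exists_move (J : Finset ℚ) {a a' : ℚ} (ha : a ∉ J) (ha' : a' ∉ J)
    (h : ∀ b ∈ J, b < a ↔ b < a') : ∃ g : ℚ ≃o ℚ, (∀ b ∈ J, g b = b) ∧ g a = a' := by
  classical
  obtain ⟨g, hg⟩ := exists_orderIso (insert a J) (Function.update id a a') (by
    intro x hx y hy hxy
    simp only [Finset.coe_insert, mem_insert_iff, Finset.mem_coe] at hx hy
    rcases hx with rfl | hx <;> rcases hy with rfl | hy
    · exact absurd hxy (lt_irrefl _)
    · rw [Function.update_self, Function.update_of_ne hxy.ne']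
      have h1 : ¬ y < a' := fun h1 => absurd ((h y hy).mpr h1) (not_lt.mpr hxy.le)
      exact lt_of_le_of_ne (not_lt.mp h1) (fun e => ha' (e ▸ hy))
    · rw [Function.update_self, Function.update_of_ne hxy.ne]
      exact (h x hx).mp hxy
    · rw [Function.update_of_ne (ne_of_mem_of_not_mem hx ha),
        Function.update_of_ne (ne_of_mem_of_not_mem hy ha)]
      exact hxy)
  refine ⟨g, fun b hb => ?_, ?_⟩
  · rw [hg b (Finset.mem_insert_of_mem hb), Function.update_of_ne (ne_of_mem_of_not_mem hb ha)]; rfl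
  · rw [hg a (Finset.mem_insert_self _ _), Function.update_self]

lemma exists_twin (P : Finset ℚ) :
    ∃ tw : ℚ → ℚ, ∀ b, b < tw b ∧ ∀ j ∈ P, b < j → tw b < j := by
  classical
  have : ∀ b : ℚ, ∃ t, b < t ∧ ∀ j ∈ P, b < j → t < j := by
    intro b
    by_cases h : (P.filter (b < ·)).Nonempty
    · have h1 := (P.filter (b < ·)).min'_mem h
      obtain ⟨t, ht1, ht2⟩ := exists_between (Finset.mem_filter.mp h1).2
      exact ⟨t, ht1, fun j hj hbj =>
        ht2.trans_le (Finset.min'_le _ _ (Finset.mem_filter.mpr ⟨hj, hbj⟩))⟩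
    · exact ⟨b + 1, by linarith, fun j hj hbj => absurd ⟨j, Finset.mem_filter.mpr ⟨hj, hbj⟩⟩ h⟩
  choose tw htw using this
  exact ⟨tw, htw⟩

lemma exists_above (J : Finset ℚ) : ∃ b : ℚ, ∀ j ∈ J, j < b := by
  obtain ⟨b, hb⟩ := J.bddAbove
  exact ⟨b + 1, fun j hj => lt_of_le_of_lt (hb hj) (by linarith)⟩

lemma exists_inj_above (J : Finset ℚ) (ι : Type) [Countable ι] :
    ∃ u : ι → ℚ, Function.Injective u ∧ ∀ i, ∀ j ∈ J, j < u i := by
  obtain ⟨b, hb⟩ := exists_above J
  obtain ⟨e, he⟩ := exists_injective_nat ι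
  refine ⟨fun i => b + e i, fun i j h => he ?_, fun i j hj => (hb j hj).trans_le ?_⟩
  · have : (e i : ℚ) = e j := by simpa using h
    exact_mod_cast this
  · simp

section supports
variable {Γ : Type} (act : (ℚ ≃o ℚ) →* Equiv.Perm Γ)

/-- The finite set `J` supports `γ`. -/
def Supports (J : Finset ℚ) (γ : Γ) : Prop := ∀ g : ℚ ≃o ℚ, (∀ b ∈ J, g b = b) → act g γ = γ

lemma Supports.agree {J : Finset ℚ} {γ : Γ} (h : Supports act J γ) {g g' : ℚ ≃o ℚ}
    (hg : ∀ b ∈ J, g b = g' b) : act g γ = act g' γ := by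
  have := h (g'⁻¹ * g) fun b hb => by
    change g'.symm (g b) = b
    rw [hg b hb]; exact g'.symm_apply_apply b
  rw [map_mul, map_inv, Equiv.Perm.mul_apply, Equiv.Perm.inv_eq_iff_eq] at this
  exact this

lemma Supports.erase {J J' : Finset ℚ} {γ : Γ} (h : Supports act J γ) (h' : Supports act J' γ)
    {a : ℚ} (ha' : a ∉ J') : Supports act (J.erase a) γ := by
  classical
  have key : ∀ g : ℚ ≃o ℚ, (∀ b ∈ J.erase a, g b = b) → a < g a → act g γ = γ := by
    intro g hg hlt
    obtain ⟨tw, htw⟩ := exists_twin (J.erase a ∪ J')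
    have h1 : ∀ b ∈ J.erase a ∪ J', b < a ↔ b < tw a := by
      intro b hb
      have hba : b ≠ a := by
        rintro rfl
        rcases Finset.mem_union.mp hb with hb | hb
        · exact Finset.notMem_erase _ _ hb
        · exact ha' hb
      refine ⟨fun hb' => hb'.trans (htw a).1, fun hb' => ?_⟩
      by_contra hn
      exact absurd ((htw a).2 b hb (lt_of_le_of_ne (not_lt.mp hn) hba.symm)) (not_lt.mpr hb'.le)
    have h2 : tw a ∉ J.erase a ∪ J' := fun hb => absurd ((htw a).2 _ hb (htw a).1) (lt_irrefl _)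
    obtain ⟨u, hu1, hu2⟩ := exists_move (J.erase a ∪ J') (a := a) (a' := tw a)
      (by simp [ha']) h2 h1
    obtain ⟨k, hk1, hk2⟩ := exists_move (insert a (J.erase a)) (a := tw a) (a' := g a)
      (by
        intro hb
        rcases Finset.mem_insert.mp hb with hb | hb
        · exact (htw a).1.ne' hb
        · exact h2 (Finset.mem_union_left _ hb))
      (by
        intro hb
        rcases Finset.mem_insert.mp hb with hb | hb
        · exact hlt.ne' hb
        · exact hlt.ne' (g.injective (hg _ hb)))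
      (by
        intro b hb
        rcases Finset.mem_insert.mp hb with rfl | hb
        · exact ⟨fun _ => hlt, fun _ => (htw _).1⟩
        · rw [← h1 b (Finset.mem_union_left _ hb), ← g.lt_iff_lt, hg b hb])
    have e1 : act u γ = γ := h' u fun b hb => hu1 b (Finset.mem_union_right _ hb)
    have e2 : act k γ = γ := h k fun b hb => hk1 b (by
      by_cases hba : b = a
      · simp [hba]
      · simp [hb, hba])
    have e3 : act g γ = act (k * u) γ := h.agree act fun b hb => by
      change g b = k (u b)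
      by_cases hba : b = a
      · rw [hba, hu2, hk2]
      · have hb' : b ∈ J.erase a := Finset.mem_erase.mpr ⟨hba, hb⟩
        rw [hg b hb', hu1 b (Finset.mem_union_left _ hb'), hk1 b (Finset.mem_insert_of_mem hb')]
    rw [e3, map_mul, Equiv.Perm.mul_apply, e1, e2]
  intro g hg
  rcases lt_trichotomy a (g a) with hlt | heq | hgt
  · exact key g hg hlt
  · refine h g fun b hb => ?_
    by_cases hba : b = a
    · rw [hba]; exact heq.symm
    · exact hg b (Finset.mem_erase.mpr ⟨hba, hb⟩)
  · have := key g⁻¹ (fun b hb => by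
      change g.symm b = b
      rw [OrderIso.symm_apply_eq, hg b hb]) (by
      change a < g.symm a
      rw [← g.lt_iff_lt, g.apply_symm_apply]; exact hgt)
    rw [map_inv, Equiv.Perm.inv_eq_iff_eq] at this
    exact this.symm

/-- Least supports. -/
lemma exists_supp (hfin : ∀ γ, ∃ J, Supports act J γ) :
    ∃ supp : Γ → Finset ℚ, (∀ γ J, Supports act J γ ↔ supp γ ⊆ J) ∧
      ∀ g γ, supp (act g γ) = (supp γ).image g := by
  classical
  have : ∀ γ, ∃ J₀ : Finset ℚ, ∀ J, Supports act J γ ↔ J₀ ⊆ J := by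
    intro γ
    have hex : ∃ n, ∃ J : Finset ℚ, J.card = n ∧ Supports act J γ := by
      obtain ⟨J, hJ⟩ := hfin γ; exact ⟨_, J, rfl, hJ⟩
    obtain ⟨J₀, hc, hJ₀⟩ := Nat.find_spec hex
    refine ⟨J₀, fun J => ⟨fun hJ a ha => ?_, fun hJ g hg => hJ₀ g fun b hb => hg b (hJ hb)⟩⟩
    by_contra haJ
    have := Nat.find_min' hex ⟨J₀.erase a, rfl, hJ₀.erase act hJ haJ⟩
    rw [Finset.card_erase_of_mem ha, ← hc] at this
    have := Finset.card_pos.mpr ⟨a, ha⟩
    omega
  choose supp hsupp using this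
  have h1 : ∀ g γ, supp (act g γ) ⊆ (supp γ).image g := by
    intro g γ
    rw [← hsupp]
    intro k hk
    have := ((hsupp γ _).mpr subset_rfl).agree act (g := k * g) (g' := g) fun b hb =>
      hk _ (Finset.mem_image_of_mem _ hb)
    rwa [map_mul, Equiv.Perm.mul_apply] at this
  refine ⟨supp, hsupp, fun g γ => Finset.Subset.antisymm (h1 g γ) ?_⟩
  have h2 := h1 g⁻¹ (act g γ)
  rw [← Equiv.Perm.mul_apply, ← map_mul, inv_mul_cancel, map_one, Equiv.Perm.one_apply] at h2
  intro b hb
  obtain ⟨a, ha, rfl⟩ := Finset.mem_image.mp hb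
  obtain ⟨c, hc, e⟩ := Finset.mem_image.mp (h2 ha)
  have : c = g a := by rw [← e]; exact (g.apply_symm_apply c).symm
  rwa [← this]

end supports

end Pool.Agent.Lib.MP_9e0ccb_an
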