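import Pool.Agent.Lib.MP_9e0ccb_an.Str

set_option autoImplicit false
set_option linter.unusedSectionVars false
set_option linter.deprecated false
set_option linter.unusedVariables false
set_option linter.unusedSimpArgs false
open Set Filter Topology

namespace Pool.Agent.Lib.MP_9e0ccb_an

/-- Truncation of a function to `[0, 1]`. -/
noncomputable def clampF {X : Type} [TopologicalSpace X] (f : C(X, ℝ)) : C(X, ℝ) := (f ⊓ 1) ⊔ 0

section clamp
variable {X : Type} [TopologicalSpace X] (f : C(X, ℝ)) (x : X)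

lemma clampF_apply : clampF f x = max (min (f x) 1) 0 := rfl
lemma clampF_nonneg : 0 ≤ clampF f x := le_max_right _ _
lemma clampF_le_one : clampF f x ≤ 1 := max_le (min_le_right _ _) zero_le_one
lemma clampF_eq_one (h : 1 ≤ f x) : clampF f x = 1 := by
  rw [clampF_apply, min_eq_right h]; simp
lemma clampF_eq_zero (h : f x ≤ 0) : clampF f x = 0 := by
  rw [clampF_apply]; exact max_eq_right ((min_le_left _ _).trans h)
lemma clampF_le {c : ℝ} (hc : 0 ≤ c) (h : f x ≤ c) : clampF f x ≤ c :=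
  max_le ((min_le_left _ _).trans h) hc

end clamp

variable {Γ L : Type} [TopologicalSpace L] [CompactSpace L] [T2Space L]
  [TotallyDisconnectedSpace L]

/-- `b` lies above the finite set `J`. -/
def Above (J : Finset ℚ) (b : ℚ) : Prop := ∀ j ∈ J, j < b

lemma Above.not_mem {J : Finset ℚ} {b : ℚ} (h : Above J b) : b ∉ J := fun hb => lt_irrefl _ (h b hb)

lemma Above.mono {J J' : Finset ℚ} {b : ℚ} (h : Above J' b) (hJ : J ⊆ J') : Above J b :=
  fun j hj => h j (hJ hj)

lemma Above.map {J : Finset ℚ} {b : ℚ} (h : Above J b) {g : ℚ ≃o ℚ} (hg : ∀ j ∈ J, g j = j) :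
    Above J (g b) := fun j hj => by rw [← hg j hj]; exact g.strictMono (h j hj)

/-- The root data: a base point and the clopen sets detecting the atoms. -/
structure Root (σ : Str Γ L) where
  R0 : Finset ℚ
  η : ℝ
  η_pos : 0 < η
  U : ℕ → ℚ → Set L
  U_CJ : ∀ n b, Above R0 b → σ.CJ (insert b R0) (U n b)
  U_gL : ∀ n b (g : ℚ ≃o ℚ), Above R0 b → (∀ j ∈ R0, g j = j) → σ.gL g ⁻¹' U n b = U n (g b)
  U_van : ∀ n b J ℓ, Above R0 b → b ∉ J → σ.r J ℓ ∉ U n b
  cap : ∀ (n : ℕ) (T : Finset ℚ) ℓ, (∀ b ∈ T, Above R0 b) → (∀ b ∈ T, ℓ ∈ U n b) →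
    (T.card : ℝ) ≤ 16 * σ.M ^ 2 * η * n
  x0 : B Γ
  x0_R : σ.R R0 x0 = x0
  x0_mass : ∀ F, mass F x0 ≤ 1 - η
  big : ∀ y y', σ.R R0 y = x0 → σ.Nu y' 1 ≤ σ.Nu y 1 + 1 / (16 * σ.M)
  pres : ∀ (n : ℕ) b y, Above R0 b → σ.R R0 y = x0 → 1 ≤ n * y.1 (σ.atom b) ^ 2 →
    1 / (2 * σ.M) ≤ σ.Nu y (ind (U n b))

namespace Str
variable (σ : Str Γ L)

lemma exists_base : ∃ (F : Finset Γ) (x : B Γ), (∀ γ, γ ∉ F → x.1 γ = 0) ∧ mass F x < 1 ∧
    ∀ y', σ.Nu y' 1 ≤ σ.Nu x 1 + 1 / (16 * σ.M) := by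
  have hM := σ.M_pos
  have hb : BddAbove (range fun y => σ.Nu y 1) := ⟨σ.M, by rintro _ ⟨y, rfl⟩; exact σ.Nu_one_le y⟩
  have h16 : 0 < 1 / (16 * σ.M) := by positivity
  obtain ⟨x, hx⟩ := exists_lt_of_lt_ciSup
    (show (⨆ y, σ.Nu y 1) - 1 / (16 * σ.M) < ⨆ y, σ.Nu y 1 by linarith)
  obtain ⟨f, hf, hlt⟩ := exists_lt_absF _ (fun _ => by simp) hx
  rw [nu_apply] at hlt
  obtain ⟨F, ω, hω, hF⟩ := insens (σ.S.symm f) (sub_pos.mpr hlt)
  have ht : 0 < min ω (1 / 2) := lt_min hω (by norm_num)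
  have ht1 : min ω (1 / 2) ≤ 1 / 2 := min_le_right _ _
  have hm : ∑ γ ∈ F, ((1 - min ω (1 / 2)) * x.1 γ) ^ 2 < 1 := by
    simp only [mul_pow]
    rw [← Finset.mul_sum]
    have h1 := B_sum_le x F
    have h2 : (1 - min ω (1 / 2)) ^ 2 < 1 := by nlinarith
    calc _ ≤ (1 - min ω (1 / 2)) ^ 2 * 1 := mul_le_mul_of_nonneg_left h1 (sq_nonneg _)
      _ < 1 := by linarith
  obtain ⟨x0, h1, h2⟩ := exists_point_fin F _ hm.le
  refine ⟨F, x0, h2, ?_, fun y' => ?_⟩
  · rw [mass_apply, Finset.sum_congr rfl fun γ hγ => by rw [h1 γ hγ]]; exact hm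
  · have h3 := hF x x0 fun γ hγ => by
      rw [h1 γ hγ, show x.1 γ - (1 - min ω (1 / 2)) * x.1 γ = min ω (1 / 2) * x.1 γ by ring,
        abs_mul, abs_of_pos ht]
      calc _ ≤ min ω (1 / 2) * 1 := mul_le_mul_of_nonneg_left (B_abs_le x γ) ht.le
        _ ≤ ω := by rw [mul_one]; exact min_le_left _ _
    have h4 := (le_abs_self _).trans (σ.abs_T_le_Nu x0 hf)
    have h5 := le_ciSup hb y'
    have h6 := (abs_le.mp h3).2
    linarith

lemma exists_root : Nonempty (Root σ) := by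
  classical
  have hM := σ.M_pos
  obtain ⟨F, x0, hx0, hmass, hbig⟩ := σ.exists_base
  set R0 := F.biUnion σ.supp with hR0
  have hFR : ∀ γ ∈ F, σ.supp γ ⊆ R0 := fun γ hγ => Finset.subset_biUnion_of_mem σ.supp hγ
  set η := 1 - mass F x0 with hη
  have hη0 : 0 < η := sub_pos.mpr hmass
  let h0 : C(B Γ, ℝ) := clampF ((1 / η) • (mass F - ContinuousMap.const _ (1 - 2 * η)))
  let hb : ℕ → ℚ → C(B Γ, ℝ) := fun n b => clampF ((2 * n : ℝ) • mass {σ.atom b} - 1)
  have h0_apply : ∀ x, h0 x = max (min (1 / η * (mass F x - (1 - 2 * η))) 1) 0 := fun x => rfl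
  have hb_apply : ∀ n b x, hb n b x = max (min (2 * n * x.1 (σ.atom b) ^ 2 - 1) 1) 0 := by
    intro n b x; simp [hb, clampF_apply, mass_apply]
  let f : ℕ → ℚ → C(L, ℝ) := fun n b => σ.S (h0 * hb n b)
  have hf_g : ∀ n b (g : ℚ ≃o ℚ) ℓ, (∀ j ∈ R0, g j = j) → f n b (σ.gL g ℓ) = f n (g b) ℓ := by
    intro n b g ℓ hg
    simp only [f]
    rw [S_gL]
    congr 2
    ext x
    simp only [ContinuousMap.comp_apply, ContinuousMap.mul_apply, h0_apply, hb_apply, gB_apply,
      σ.act_atom, mass_apply]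
    rw [Finset.sum_congr rfl fun γ hγ => by rw [σ.act_fix g γ fun b hb => hg b (hFR γ hγ hb)]]
  have hf_r : ∀ n b J ℓ, insert b R0 ⊆ J → f n b (σ.r J ℓ) = f n b ℓ := by
    intro n b J ℓ hJ
    simp only [f]
    rw [S_r]
    congr 2
    ext x
    simp only [ContinuousMap.comp_apply, ContinuousMap.mul_apply, h0_apply, hb_apply, mass_apply]
    rw [Finset.sum_congr rfl fun γ hγ => by
      rw [σ.R_mem x ((hFR γ hγ).trans ((Finset.subset_insert _ _).trans hJ))],
      σ.R_mem x (by rw [σ.supp_atom]; simpa using hJ (Finset.mem_insert_self _ _))]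
  have hf_van : ∀ n b J ℓ, b ∉ J → f n b (σ.r J ℓ) = 0 := by
    intro n b J ℓ hJ
    simp only [f]
    rw [S_r]
    have : (h0 * hb n b).comp (σ.R J) = 0 := by
      ext x
      simp only [ContinuousMap.comp_apply, ContinuousMap.mul_apply, hb_apply]
      rw [σ.R_not_mem x (by rw [σ.supp_atom]; simpa using hJ)]
      simp
    rw [this, map_zero]; rfl
  obtain ⟨b0, hb0⟩ := exists_above R0
  have h4 : 1 / (4 * σ.M) < 1 / (2 * σ.M) := by
    apply one_div_lt_one_div_of_lt <;> linarith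
  choose U' hU'1 hU'2 hU'3 using fun n => exists_clopen_between
    (K := {ℓ | 1 / (2 * σ.M) ≤ |f n b0 ℓ|}) (U := {ℓ | 1 / (4 * σ.M) < |f n b0 ℓ|})
    (isClosed_le continuous_const (f n b0).continuous.abs)
    (isOpen_lt continuous_const (f n b0).continuous.abs) fun ℓ h => h4.trans_le h
  let U0 : ℕ → Set L := fun n => σ.r (insert b0 R0) ⁻¹' U' n
  have hU0 : ∀ n, σ.CJ (insert b0 R0) (U0 n) := fun n => CJ.preimage_r _ (hU'1 n)
  let U : ℕ → ℚ → Set L := fun n b =>
    {ℓ | ∀ g : ℚ ≃o ℚ, (∀ j ∈ R0, g j = j) → g b0 = b → σ.gL g ℓ ∈ U0 n}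
  have hU : ∀ n (g : ℚ ≃o ℚ), (∀ j ∈ R0, g j = j) → U n (g b0) = σ.gL g ⁻¹' U0 n := by
    intro n g hg
    ext ℓ
    refine ⟨fun h => h g hg rfl, fun h g' hg' e => ?_⟩
    have := (hU0 n).gL_agree (g := g) (g' := g') fun b hb => by
      rcases Finset.mem_insert.mp hb with rfl | hb
      · exact e.symm
      · rw [hg b hb, hg' b hb]
    rw [this] at h; exact h
  have hex : ∀ b, Above R0 b → ∃ g : ℚ ≃o ℚ, (∀ j ∈ R0, g j = j) ∧ g b0 = b := fun b hb =>
    exists_move R0 (Above.not_mem hb0) hb.not_mem fun j hj => ⟨fun _ => hb j hj, fun _ => hb0 j hj⟩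
  have hlow : ∀ n b ℓ, Above R0 b → ℓ ∈ U n b → 1 / (4 * σ.M) < |f n b ℓ| := by
    intro n b ℓ hb hℓ
    obtain ⟨g, hg, rfl⟩ := hex b hb
    have := hU'3 n (hℓ g hg rfl)
    rwa [mem_setOf_eq, hf_r _ _ _ _ subset_rfl, hf_g _ _ _ _ hg] at this
  have hup : ∀ n b ℓ, Above R0 b → ℓ ∉ U n b → |f n b ℓ| < 1 / (2 * σ.M) := by
    intro n b ℓ hb hℓ
    obtain ⟨g, hg, rfl⟩ := hex b hb
    rw [hU n g hg] at hℓ
    by_contra hn
    refine hℓ (hU'2 n ?_)
    rw [mem_setOf_eq, hf_r _ _ _ _ subset_rfl, hf_g _ _ _ _ hg]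
    exact not_lt.mp hn
  have hCJ : ∀ n b, Above R0 b → σ.CJ (insert b R0) (U n b) := by
    intro n b hb
    obtain ⟨g, hg, rfl⟩ := hex b hb
    rw [hU n g hg]
    have := (hU0 n).gL g
    rwa [Finset.image_insert, Finset.image_congr (g := id) hg, Finset.image_id] at this
  have hx0R : σ.R R0 x0 = x0 := by
    apply Subtype.ext; funext γ
    by_cases h : σ.supp γ ⊆ R0
    · exact σ.R_mem _ h
    · rw [σ.R_not_mem _ h, hx0 γ fun hγ => h (hFR γ hγ)]
  refine ⟨⟨R0, η, hη0, U, hCJ, ?_, ?_, ?_, x0, hx0R, ?_, ?_, ?_⟩⟩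
  · intro n b g' hb hg'
    obtain ⟨g, hg, rfl⟩ := hex b hb
    have := hU n (g' * g) fun j hj => by
      change g' (g j) = j
      rw [hg j hj, hg' j hj]
    change U n (g' (g b0)) = _ at this
    rw [this, hU n g hg]
    ext ℓ; simp [gL_mul]
  · intro n b J ℓ hb hJ h
    have := hlow n b _ hb h
    rw [hf_van n b J ℓ hJ, abs_zero] at this
    exact absurd this (not_lt.mpr (by positivity))
  · intro n T ℓ hT hℓ
    have h1 := σ.sum_abs_S_le T (fun b => h0 * hb n b) (c := 4 * n * η) (by positivity) (fun x => by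
      by_cases hx : mass F x ≤ 1 - 2 * η
      · have : h0 x = 0 := clampF_eq_zero _ _ (by
          simp only [ContinuousMap.smul_apply, ContinuousMap.sub_apply, ContinuousMap.const_apply,
            smul_eq_mul]
          exact mul_nonpos_of_nonneg_of_nonpos (by positivity) (by linarith))
        simp only [ContinuousMap.mul_apply, this, zero_mul, abs_zero, Finset.sum_const_zero]
        positivity
      · have hd : Disjoint F (T.image σ.atom) := by
          rw [Finset.disjoint_right]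
          intro γ hγ hγF
          obtain ⟨b, hb, rfl⟩ := Finset.mem_image.mp hγ
          have := hFR _ hγF
          rw [σ.supp_atom] at this
          exact (hT b hb).not_mem (this (Finset.mem_singleton_self b))
        have h2 := B_sum_le x (F ∪ T.image σ.atom)
        rw [Finset.sum_union hd, Finset.sum_image fun a _ b _ h => σ.atom_injective h] at h2
        rw [mass_apply] at hx
        calc ∑ b ∈ T, |(h0 * hb n b) x| ≤ ∑ b ∈ T, 2 * n * x.1 (σ.atom b) ^ 2 := by
              refine Finset.sum_le_sum fun b _ => ?_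
              rw [ContinuousMap.mul_apply, abs_mul, abs_of_nonneg (clampF_nonneg _ _),
                abs_of_nonneg (clampF_nonneg _ _)]
              have h3 : hb n b x ≤ 2 * n * x.1 (σ.atom b) ^ 2 := by
                rw [hb_apply]
                exact max_le ((min_le_left _ _).trans (by linarith)) (by positivity)
              calc h0 x * hb n b x ≤ 1 * hb n b x :=
                    mul_le_mul_of_nonneg_right (clampF_le_one _ _) (clampF_nonneg _ _)
                _ ≤ _ := by rw [one_mul]; exact h3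
          _ = 2 * n * ∑ b ∈ T, x.1 (σ.atom b) ^ 2 := by rw [Finset.mul_sum]
          _ ≤ 2 * n * (2 * η) := mul_le_mul_of_nonneg_left (by linarith) (by positivity)
          _ = 4 * n * η := by ring) ℓ
    have h2 : ∑ b ∈ T, 1 / (4 * σ.M) ≤ ∑ b ∈ T, |σ.S (h0 * hb n b) ℓ| :=
      Finset.sum_le_sum fun b hb => (hlow n b ℓ (hT b hb) (hℓ b hb)).le
    rw [Finset.sum_const, nsmul_eq_mul, mul_one_div] at h2
    have h3 := h2.trans h1
    rw [div_le_iff₀ (by positivity)] at h3
    linarith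
  · intro F'
    have : mass F' x0 ≤ mass F x0 := by
      calc mass F' x0 = mass (F' ∩ F) x0 := by
            rw [mass_apply, mass_apply]
            symm
            refine Finset.sum_subset Finset.inter_subset_left fun γ h1 h2 => ?_
            rw [hx0 γ fun h => h2 (Finset.mem_inter.mpr ⟨h1, h⟩)]; simp
        _ ≤ _ := mass_mono Finset.inter_subset_right _
    linarith
  · intro y y' hy
    have := σ.Nu_R R0 (f := 1) (fun _ => zero_le_one) y
    rw [hy] at this
    have h1 := hbig y'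
    change σ.Nu x0 1 ≤ σ.Nu y 1 at this
    linarith
  · intro n b y hb' hy h1
    have e0 : h0 y = 1 := clampF_eq_one _ _ (by
      have : mass F y = mass F x0 := by
        rw [mass_apply, mass_apply, ← hy]
        exact Finset.sum_congr rfl fun γ hγ => by rw [σ.R_mem y (hFR γ hγ)]
      simp only [ContinuousMap.smul_apply, ContinuousMap.sub_apply, ContinuousMap.const_apply,
        smul_eq_mul, this]
      rw [show mass F x0 - (1 - 2 * η) = η by rw [hη]; ring, one_div_mul_cancel hη0.ne'])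
    have e1 : hb n b y = 1 := by
      rw [hb_apply, min_eq_right (by linarith)]; simp
    have h2 := σ.abs_T_le_Nu y (h := f n b)
      (f := σ.M • ind (U n b) + ContinuousMap.const _ (1 / (2 * σ.M))) fun ℓ => by
        simp only [ContinuousMap.add_apply, ContinuousMap.smul_apply, ContinuousMap.const_apply,
          smul_eq_mul]
        by_cases hℓ : ℓ ∈ U n b
        · rw [ind_mem (hCJ n b hb').1 hℓ]
          have h3 := σ.abs_S_le_Lam ℓ (h := h0 * hb n b) (f := 1) fun x => by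
            rw [ContinuousMap.mul_apply, abs_mul, abs_of_nonneg (clampF_nonneg _ _),
              abs_of_nonneg (clampF_nonneg _ _)]
            exact mul_le_one₀ (clampF_le_one _ _) (clampF_nonneg _ _) (clampF_le_one _ _)
          have h4 := σ.Lam_one_le ℓ
          have : 0 < 1 / (2 * σ.M) := by positivity
          change |σ.S (h0 * hb n b) ℓ| ≤ _
          linarith
        · rw [ind_not_mem hℓ]; have := hup n b ℓ hb' hℓ; linarith
    simp only [f] at h2
    rw [σ.S.symm_apply_apply, ContinuousMap.mul_apply, e0, e1, map_add, map_smul] at h2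
    have h3 := σ.Nu_le_const y (f := ContinuousMap.const _ (1 / (2 * σ.M))) (c := 1 / (2 * σ.M))
      (by positivity) fun _ => le_rfl
    have h5 : 1 / (2 * σ.M) * σ.M = 1 / 2 := by field_simp
    rw [div_le_iff₀ (by positivity)]
    simp only [smul_eq_mul, mul_one, abs_one] at h2
    linarith

end Str

namespace Root
variable {σ : Str Γ L} (ρ : Root σ)

/-- `T 1_X` vanishes at points without `c`-part when `X` lies inside the set detecting `c`. -/
lemma tau_van {n : ℕ} {c : ℚ} (hc : Above ρ.R0 c) {X : Set L} (hX : IsClopen X)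
    (hXU : X ⊆ ρ.U n c) {y : B Γ} (hy : ∀ γ, c ∈ σ.supp γ → y.1 γ = 0) : σ.tau X y = 0 := by
  obtain ⟨J, hJ⟩ := σ.exists_CJ hX
  have e : σ.R J y = σ.R (J.erase c) y := by
    apply Subtype.ext; funext γ
    by_cases h1 : σ.supp γ ⊆ J.erase c
    · rw [σ.R_mem _ h1, σ.R_mem _ (h1.trans (Finset.erase_subset _ _))]
    · rw [σ.R_not_mem _ h1]
      by_cases h2 : σ.supp γ ⊆ J
      · rw [σ.R_mem _ h2]
        apply hy
        by_contra h3
        exact h1 fun b hb => Finset.mem_erase.mpr ⟨fun e => h3 (e ▸ hb), h2 hb⟩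
      · exact σ.R_not_mem _ h2
  rw [← hJ.tau_R, e, σ.tau_R hX]
  have : σ.r (J.erase c) ⁻¹' X = ∅ := by
    ext ℓ
    simp only [mem_preimage, mem_empty_iff_false, iff_false]
    exact fun h => ρ.U_van n c _ ℓ hc (Finset.notMem_erase _ _) (hXU h)
  rw [this, σ.tau_empty]

lemma U_CJ' (n : ℕ) {b : ℚ} {J : Finset ℚ} (hb : Above ρ.R0 b) (hR : ρ.R0 ⊆ J) (hbJ : b ∈ J) :
    σ.CJ J (ρ.U n b) := (ρ.U_CJ n b hb).mono (Finset.insert_subset hbJ hR)

end Root

end Pool.Agent.Lib.MP_9e0ccb_an
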