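import Pool.Agent.Lib.MP_9e0ccb_an.Nonempty

set_option autoImplicit false
set_option linter.unusedSectionVars false
set_option linter.deprecated false
set_option linter.unusedVariables false
set_option linter.unusedSimpArgs false
open Set Filter Topology
open scoped Classical

namespace Pool.Agent.Lib.MP_9e0ccb_an

lemma plateau (Φ : ℝ → ℝ) {a b Bd ε : ℝ} (hab : a < b) (hε : 0 < ε)
    (h : ∀ s, a ≤ s → s ≤ b → 0 ≤ Φ s ∧ Φ s ≤ Bd) :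
    ∃ s₁ s₂, a ≤ s₁ ∧ s₁ < s₂ ∧ s₂ ≤ b ∧ Φ s₁ ≤ Φ s₂ + ε := by
  by_contra H
  push Not at H
  obtain ⟨N, hN⟩ := exists_nat_gt (Bd / ε)
  have hB : 0 ≤ Bd := (h a le_rfl hab.le).1.trans (h a le_rfl hab.le).2
  have hN0 : (0 : ℝ) < N := lt_of_le_of_lt (by positivity) hN
  have hd : 0 < (b - a) / N := div_pos (by linarith) hN0
  have key : ∀ j : ℕ, j ≤ N → Φ (a + j * ((b - a) / N)) + j * ε ≤ Φ a := by
    intro j
    induction j with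
    | zero => simp
    | succ j ih =>
      intro hj
      have h1 := ih (by omega)
      have h2 : ((j + 1 : ℕ) : ℝ) ≤ N := by exact_mod_cast hj
      have h3 := H (a + j * ((b - a) / N)) (a + (j + 1 : ℕ) * ((b - a) / N))
        (by have : 0 ≤ j * ((b - a) / N) := by positivity
            linarith) (by push_cast; linarith) (by
          have := mul_le_mul_of_nonneg_right h2 hd.le
          rw [mul_div_cancel₀ _ hN0.ne'] at this; linarith)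
      push_cast at h3 ⊢
      linarith
  have h1 := key N le_rfl
  rw [mul_div_cancel₀ _ hN0.ne', add_sub_cancel] at h1
  rw [div_lt_iff₀ hε] at hN
  linarith [(h a le_rfl hab.le).2, (h b hab.le le_rfl).1]

lemma exists_sign (t : ℝ) : ∃ a : ℝ, |a| ≤ 1 ∧ a * t = |t| := by
  rcases le_total 0 t with h | h
  · exact ⟨1, by simp, by rw [abs_of_nonneg h, one_mul]⟩
  · exact ⟨-1, by simp, by rw [abs_of_nonpos h]; ring⟩

variable {Γ L : Type} [TopologicalSpace L] [CompactSpace L] [T2Space L]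
  [TotallyDisconnectedSpace L] {σ : Str Γ L}

/-- Stabilisation data. -/
structure Stab (ρ : Root σ) (ε : ℝ) where
  sm : ℝ
  sp : ℝ
  sm_ge : 1 / (32 * σ.M ^ 2) ≤ sm
  lt : sm < sp
  E1 : Set L
  E1_clopen : IsClopen E1
  ne : ∃ ℓ ∈ ρ.K sp, ℓ ∈ E1
  S1 : ∀ ℓ ∈ ρ.K sm, ℓ ∈ E1 → ∀ ℓ' ∈ E1, σ.Lam ℓ 1 ≤ σ.Lam ℓ' 1 + 4 * ε
  S2 : ∀ ℓ ∈ ρ.K sm, ∀ E' E'', IsClopen E' → IsClopen E'' → ℓ ∈ E' → E' ⊆ E'' → E'' ⊆ E1 →
    σ.Lam ℓ ((|σ.tau E'| - |σ.tau E''|) ⊔ 0) ≤ 4 * ε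

/-- Admissible pairs. -/
def Str.Adm (σ : Str Γ L) (u : Set L) (ψ : C(B Γ, ℝ)) : Prop :=
  IsClopen u ∧ (∀ y, 0 ≤ ψ y) ∧
    ∀ f : C(L, ℝ), (∀ ℓ, |f ℓ| ≤ ind u ℓ) → ∀ y, ψ y + |σ.S.symm f y| ≤ σ.M

lemma Str.Adm.refine {u : Set L} {ψ : C(B Γ, ℝ)} (h : σ.Adm u ψ) {E : Set L} (hE : IsClopen E)
    (hEu : E ⊆ u) : σ.Adm E (ψ + |σ.tau (u \ E)|) := by
  refine ⟨hE, fun y => add_nonneg (h.2.1 y) (abs_nonneg _), fun f hf y => ?_⟩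
  obtain ⟨a, ha1, ha2⟩ := exists_sign (σ.tau (u \ E) y)
  obtain ⟨c, hc1, hc2⟩ := exists_sign (σ.S.symm f y)
  have := h.2.2 (a • ind (u \ E) + c • f) (fun ℓ => by
    simp only [ContinuousMap.add_apply, ContinuousMap.smul_apply, smul_eq_mul]
    by_cases hℓ : ℓ ∈ E
    · rw [ind_not_mem (fun h' => h'.2 hℓ), mul_zero, zero_add, abs_mul, ind_mem h.1 (hEu hℓ)]
      exact mul_le_one₀ hc1 (abs_nonneg _) ((hf ℓ).trans (ind_le_one _ _))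
    · have h0 : f ℓ = 0 := abs_nonpos_iff.mp (by rw [← ind_not_mem hℓ]; exact hf ℓ)
      rw [h0, mul_zero, add_zero, abs_mul, abs_ind]
      by_cases hu : ℓ ∈ u
      · rw [ind_mem h.1 hu]; exact mul_le_one₀ ha1 (ind_nonneg _ _) (ind_le_one _ _)
      · rw [ind_not_mem hu, ind_not_mem fun h' => hu h'.1]; simp) y
  rw [map_add, map_smul, map_smul] at this
  simp only [ContinuousMap.add_apply, ContinuousMap.smul_apply, smul_eq_mul] at this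
  change ψ y + |a * σ.tau (u \ E) y + c * σ.S.symm f y| ≤ σ.M at this
  rw [ha2, hc2, abs_of_nonneg (add_nonneg (abs_nonneg _) (abs_nonneg _))] at this
  change ψ y + |σ.tau (u \ E) y| + _ ≤ _
  linarith

namespace Root
variable (ρ : Root σ)

theorem exists_stab {ε : ℝ} (hε : 0 < ε) : Nonempty (Stab ρ ε) := by
  have hM := σ.M_pos
  let Val : ℝ → Set ℝ := fun s => {t | ∃ ℓ ∈ ρ.K s, ∃ u ψ, σ.Adm u ψ ∧ ℓ ∈ u ∧
    t = σ.Lam ℓ 1 + σ.Lam ℓ (ψ + |σ.tau u|)}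
  have hub : ∀ s, σ.M + σ.M * σ.M ∈ upperBounds (Val s) := by
    rintro s _ ⟨ℓ, -, u, ψ, h, -, rfl⟩
    refine add_le_add (σ.Lam_one_le ℓ) (σ.Lam_le_const ℓ hM.le fun y => ?_)
    exact h.2.2 (ind u) (fun ℓ => (abs_ind _ _).le) y
  have hadm : σ.Adm univ 0 := ⟨isClopen_univ, fun _ => le_rfl, fun f hf y => by
    rw [ind_univ] at hf
    simpa using (σ.abs_T_le_Nu y hf).trans (σ.Nu_one_le y)⟩
  obtain ⟨ℓ₁, hℓ₁⟩ := ρ.K_nonempty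
  have hmem : ∀ s, s ≤ 1 / (16 * σ.M ^ 2) → σ.Lam ℓ₁ 1 + σ.Lam ℓ₁ (0 + |σ.tau univ|) ∈ Val s :=
    fun s hs => ⟨ℓ₁, ρ.K_mono hs hℓ₁, univ, 0, hadm, mem_univ _, rfl⟩
  obtain ⟨sm, sp, h1, h2, h3, h4⟩ := plateau (fun s => sSup (Val s)) (a := 1 / (32 * σ.M ^ 2))
    (b := 1 / (16 * σ.M ^ 2)) (Bd := σ.M + σ.M * σ.M)
    (one_div_lt_one_div_of_lt (by positivity) (by nlinarith [sq_pos_of_pos hM])) hε
    fun s _ hs => ⟨le_trans (add_nonneg (σ.Lam_nonneg _ fun _ => zero_le_one)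
      (σ.Lam_nonneg _ fun y => by simp)) (le_csSup ⟨_, hub s⟩ (hmem s hs)),
      csSup_le ⟨_, hmem s hs⟩ (hub s)⟩
  obtain ⟨_, ⟨ℓ₀, hℓ₀, u, ψ, hadm₀, hu, rfl⟩, hlt⟩ := exists_lt_of_lt_csSup ⟨_, hmem sp h3⟩
    (show sSup (Val sp) - ε < sSup (Val sp) by linarith)
  obtain ⟨V₁, hV₁, h5, h6⟩ := σ.Lam_lsc ℓ₀ (f := 1) (fun _ => zero_le_one)
    (show σ.Lam ℓ₀ 1 - ε < σ.Lam ℓ₀ 1 by linarith)
  obtain ⟨V₂, hV₂, h7, h8⟩ := σ.Lam_lsc ℓ₀ (f := ψ + |σ.tau u|)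
    (fun y => add_nonneg (hadm₀.2.1 y) (abs_nonneg _))
    (show σ.Lam ℓ₀ (ψ + |σ.tau u|) - ε < _ by linarith)
  refine ⟨⟨sm, sp, h1, h2, V₁ ∩ V₂ ∩ u, (hV₁.inter hV₂).inter hadm₀.1, ⟨ℓ₀, hℓ₀, ⟨h5, h7⟩, hu⟩,
    fun ℓ hℓ hE ℓ' hE' => ?_, fun ℓ hℓ E' E'' hE' hE'' h9 h10 h11 => ?_⟩⟩
  · have h9 := le_csSup ⟨_, hub sm⟩ (show _ ∈ Val sm from ⟨ℓ, hℓ, u, ψ, hadm₀, hE.2, rfl⟩)
    linarith [h6 ℓ' hE'.1.1, h8 ℓ hE.1.2]
  · have hE := h11 (h10 h9)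
    have hu'' : E'' ⊆ u := fun x hx => (h11 hx).2
    have h12 := (hadm₀.refine hE'' hu'').refine hE' h10
    have h13 := le_csSup ⟨_, hub sm⟩ (show _ ∈ Val sm from ⟨ℓ, hℓ, E', _, h12, h9, rfl⟩)
    have h14 := σ.Lam_mono ℓ (f := (|σ.tau E'| - |σ.tau E''|) ⊔ 0 + (ψ + |σ.tau u|))
      (g := ψ + |σ.tau (u \ E'')| + |σ.tau (E'' \ E')| + |σ.tau E'|) fun y => by
        have e1 := σ.tau_split hadm₀.1 hE'' y
        have e2 := σ.tau_split hE'' hE' y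
        rw [inter_eq_right.mpr hu''] at e1
        rw [inter_eq_right.mpr h10] at e2
        have i1 := abs_add_le (σ.tau E'' y) (σ.tau (u \ E'') y)
        have i2 := abs_add_le (σ.tau E' y) (σ.tau (E'' \ E') y)
        rw [← e1] at i1
        rw [← e2] at i2
        change max (|σ.tau E' y| - |σ.tau E'' y|) 0 + (ψ y + |σ.tau u y|) ≤
          ψ y + |σ.tau (u \ E'') y| + |σ.tau (E'' \ E') y| + |σ.tau E' y|
        have i3 := abs_nonneg (σ.tau (E'' \ E') y)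
        rcases le_total (|σ.tau E' y| - |σ.tau E'' y|) 0 with h | h
        · rw [max_eq_right h]; linarith
        · rw [max_eq_left h]; linarith
    rw [map_add] at h14
    linarith [h6 ℓ hE.1.1, h8 ℓ hE.1.2]

end Root

lemma Stab.upper {ρ : Root σ} {ε : ℝ} (st : Stab ρ ε) {z : L} (hz : z ∈ st.E1) {f : C(B Γ, ℝ)}
    {D ε' : ℝ} (hD : 0 ≤ D) (hf : ∀ y, f y ≤ D) (hε' : 0 < ε') :
    ∃ V, IsClopen V ∧ z ∈ V ∧ ∀ ℓ ∈ V, ℓ ∈ ρ.K st.sm → ℓ ∈ st.E1 →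
      σ.Lam ℓ f ≤ σ.Lam z f + 4 * ε * D + ε' := by
  obtain ⟨V, hV, h1, h2⟩ := σ.Lam_lsc z (f := D • 1 - f) (fun y => by simpa using hf y)
    (show σ.Lam z (D • 1 - f) - ε' < _ by linarith)
  refine ⟨V, hV, h1, fun ℓ hℓ hK hE => ?_⟩
  have h3 := h2 ℓ hℓ
  rw [map_sub, map_sub, map_smul, map_smul, smul_eq_mul, smul_eq_mul] at h3
  have h4 := mul_le_mul_of_nonneg_left (st.S1 ℓ hK hE z hz) hD
  linarith

end Pool.Agent.Lib.MP_9e0ccb_an
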