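import Pool.Agent.Lib.MP_9e0ccb_an.Chain

set_option autoImplicit false
set_option linter.unusedSectionVars false
set_option linter.deprecated false
set_option linter.unusedVariables false
set_option linter.unusedSimpArgs false
open Set Filter Topology
open scoped Classical

namespace Pool.Agent.Lib.MP_9e0ccb_an

lemma exists_inj_high {k : ℕ} {T : Finset ℚ} (hT : 2 * k ≤ T.card) (hT0 : 0 < T.card)
    {Q : Finset ℚ → Prop}
    (h : (1 - (1 / 2 : ℝ) ^ (k + 1)) * T.card ^ k ≤ cnt k T Q) :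
    ∃ H ∈ seqs k T, Q (im H) ∧ (im H).card = k := by
  let I : Finset (Fin k → ℚ) := Finset.univ.image fun e : Fin k ↪ T => fun i => (e i : ℚ)
  have hI : I.card = T.card.descFactorial k := by
    rw [Finset.card_image_of_injective, Finset.card_univ, Fintype.card_embedding_eq]
    · simp
    · intro e e' h
      ext i; exact congrFun h i
  have hIs : I ⊆ seqs k T := by
    intro H hH
    obtain ⟨e, -, rfl⟩ := Finset.mem_image.mp hH
    exact mem_seqs.mpr fun i => (e i).2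
  have h1 : ((T.card : ℝ) / 2) ^ k ≤ I.card := by
    rw [hI]
    have h2 : ((T.card + 1 - k : ℕ) : ℝ) ^ k ≤ T.card.descFactorial k := by
      exact_mod_cast Nat.pow_sub_le_descFactorial T.card k
    refine le_trans (pow_le_pow_left₀ (by positivity) ?_ k) h2
    rw [Nat.cast_sub (by omega)]
    have : 2 * (k : ℝ) ≤ T.card := by exact_mod_cast hT
    push_cast; linarith
  obtain ⟨H, hH⟩ := Finset.inter_nonempty_of_card_lt_card_add_card hIs
    (Finset.filter_subset (fun H => Q (im H)) (seqs k T)) (by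
      have h3 : (0 : ℝ) < (1 / 2 : ℝ) ^ (k + 1) * T.card ^ k := by positivity
      have h4 : ((T.card : ℝ) / 2) ^ k = 2 * ((1 / 2 : ℝ) ^ (k + 1) * T.card ^ k) := by
        rw [div_eq_mul_one_div, mul_pow]; ring
      have h5 : ((seqs k T).card : ℝ) < I.card + cnt k T Q := by
        rw [card_seqs]; push_cast; linarith
      exact_mod_cast h5)
  obtain ⟨h2, h3⟩ := Finset.mem_inter.mp hH
  obtain ⟨e, -, rfl⟩ := Finset.mem_image.mp h2
  refine ⟨_, hIs h2, (Finset.mem_filter.mp h3).2, ?_⟩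
  rw [im, Finset.card_image_of_injective _ fun a b h => e.injective (Subtype.ext h)]
  simp

variable {Γ L : Type} [TopologicalSpace L] [CompactSpace L] [T2Space L]
  [TotallyDisconnectedSpace L] {σ : Str Γ L} {ρ : Root σ}

/-- Input of a stage. -/
structure StageIn {ε : ℝ} (st : Stab ρ ε) where
  J : Finset ℚ
  Em : Set L
  s : ℝ
  hJ : ρ.R0 ⊆ J
  hE : σ.CJ J Em
  hE1 : Em ⊆ st.E1
  hs : st.sm < s
  ne : ∃ ℓ ∈ ρ.K s, ℓ ∈ Em

/-- Output of a stage. -/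
structure StageOut {ε : ℝ} {st : Stab ρ ε} (a : StageIn st) (ε₅ e : ℝ) where
  c : ℚ
  c_above : Above a.J c
  E : Set L
  E_CJ : σ.CJ (insert c a.J) E
  E_sub : E ⊆ a.Em
  Fc : Finset Γ
  Fc_supp : ∀ γ ∈ Fc, σ.supp γ ⊆ insert c a.J
  θ : ℝ
  close : ∀ y, |σ.tau E (σ.piM c Fc θ y) - σ.tau E y| ≤ ε₅
  nx : StageIn st
  J_sub : insert c a.J ⊆ nx.J
  Bs : Set L
  Bs_CJ : σ.CJ (nx.J.erase c) Bs
  En_sub : nx.Em ⊆ E ∩ Bs
  small : ∀ ℓ ∈ ρ.K st.sm, ℓ ∈ nx.Em → σ.Lam ℓ |(σ.tau (E ∩ Bs)).comp (σ.piM c Fc θ)| ≤ e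

theorem stage {ε : ℝ} (hε : 0 < ε) {st : Stab ρ ε} (a : StageIn st) {ε₅ : ℝ} (hε₅ : 0 < ε₅) :
    Nonempty (StageOut a ε₅ (14 * σ.M * ε)) := by
  have hM := σ.M_pos
  have hM1 := σ.one_le_M
  have hη := ρ.η_pos
  have hsm : 0 < st.sm := lt_of_lt_of_le (by positivity) st.sm_ge
  have hs : 0 < a.s := hsm.trans a.hs
  obtain ⟨ℓ, hℓK, hℓE⟩ := a.ne
  -- the atom `c`
  obtain ⟨n₁, c, hc, z₁, hz₁K, hz₁E, hz₁U⟩ : ∃ n₁ c, Above a.J c ∧ ∃ z₁ ∈ ρ.K a.s, z₁ ∈ a.Em ∧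
      z₁ ∈ ρ.U n₁ c := by
    obtain ⟨n, hn, T, hT, hsT, z, hz, hzU, hcnt⟩ := ρ.K_subset_Theta _ hℓK a.J a.hJ a.Em a.hE hℓE
      1 1 (1 / 2) (by norm_num)
    have hn1 : (1 : ℝ) ≤ n := by exact_mod_cast hn
    have hTpos : (0 : ℝ) < T.card := lt_of_lt_of_le (by positivity) hsT
    have : 0 < cnt 1 T fun B => σ.r (a.J ∪ B) z ∈ ρ.K a.s := by
      have : (0 : ℝ) < _ := lt_of_lt_of_le (by positivity) hcnt
      exact_mod_cast this
    obtain ⟨H, hH⟩ := Finset.card_pos.mp this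
    obtain ⟨h1, h2⟩ := Finset.mem_filter.mp hH
    have h3 := mem_seqs.mp h1 0
    refine ⟨n, H 0, hT _ h3, _, h2, ((a.hE.mono Finset.subset_union_left).2 z).mpr hz, ?_⟩
    exact ((ρ.U_CJ' n ((hT _ h3).mono a.hJ) (a.hJ.trans Finset.subset_union_left)
      (Finset.mem_union_right _ (mem_im.mpr ⟨0, rfl⟩))).2 z).mpr (hzU _ h3)
  set P := insert c a.J with hP
  have hRP : ρ.R0 ⊆ P := a.hJ.trans (Finset.subset_insert _ _)
  set E := a.Em ∩ ρ.U n₁ c with hE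
  have hECJ : σ.CJ P E := (a.hE.mono (Finset.subset_insert _ _)).inter
    (ρ.U_CJ' _ (hc.mono a.hJ) hRP (Finset.mem_insert_self _ _))
  obtain ⟨Fc, θ, hθ, hFc, hclose⟩ := σ.insens_tau hECJ hε₅
  -- constants
  obtain ⟨A, hA⟩ := exists_nat_ge (max 1 (4 * (σ.M * σ.M / ε)))
  have hA1 : 1 ≤ A := by exact_mod_cast (le_max_left _ _).trans hA
  obtain ⟨D', hD'⟩ := exists_nat_ge (max 1 (4 * σ.M * σ.M / (θ ^ 2 * ε)))
  have hD'1 : 1 ≤ D' := by exact_mod_cast (le_max_left _ _).trans hD'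
  obtain ⟨W, hW⟩ := exists_nat_ge (max 1 (2 * Real.exp A * σ.M * σ.M / (θ ^ 2 * ε)))
  have hW1 : 1 ≤ W := by exact_mod_cast (le_max_left _ _).trans hW
  have hAD : 1 ≤ A * D' := Nat.mul_pos hA1 hD'1
  let i : Fin W → ℕ := fun w => (A * D') ^ (w : ℕ)
  have hi : ∀ w, 0 < i w := fun w => pow_pos hAD _
  let m₀ := Finset.univ.sup fun w : Fin W => A * (D' * i w) * (D' * i w) * (2 * (D' * i w))
  -- many atoms at one level
  obtain ⟨n, T₀, hT₀c, hT₀, z₂, hz₂K, hz₂E, hz₂U⟩ : ∃ n, ∃ T : Finset ℚ, T.card = m₀ ∧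
      (∀ b ∈ T, Above P b) ∧ ∃ z ∈ ρ.K a.s, z ∈ E ∧ ∀ b ∈ T, z ∈ ρ.U n b := by
    obtain ⟨n₀, hn₀⟩ := exists_nat_gt ((2 * m₀ + 1) / (a.s * ρ.η))
    obtain ⟨n, hn, T, hT, hsT, z, hz, hzU, hcnt⟩ := ρ.K_subset_Theta _ hz₁K P hRP E hECJ
      ⟨hz₁E, hz₁U⟩ m₀ n₀ ((1 / 2) ^ (m₀ + 1)) (by positivity)
    have h1 : 2 * m₀ + 1 ≤ T.card := by
      rw [div_lt_iff₀ (by positivity)] at hn₀
      have h2 : (n₀ : ℝ) ≤ n := by exact_mod_cast hn
      have h3 := mul_le_mul_of_nonneg_right h2 (show 0 ≤ a.s * ρ.η by positivity)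
      have : (2 * m₀ + 1 : ℝ) ≤ T.card := by linarith
      exact_mod_cast this
    obtain ⟨H, hH, h2, h3⟩ := exists_inj_high (by omega) (by omega) hcnt
    refine ⟨n, im H, h3, fun b hb => hT b (im_subset hH hb), _, h2,
      ((hECJ.mono Finset.subset_union_left).2 z).mpr hz, fun b hb => ?_⟩
    exact ((ρ.U_CJ' n ((hT _ (im_subset hH hb)).mono hRP) (hRP.trans Finset.subset_union_left)
      (Finset.mem_union_right _ hb)).2 z).mpr (hzU _ (im_subset hH hb))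
  let Has : ℝ → Set ℕ := fun s => {j | ∃ T : Finset ℚ, T.card = j ∧
      (∀ b ∈ T, Above P b) ∧ ∃ z ∈ ρ.K s, z ∈ E ∧ ∀ b ∈ T, z ∈ ρ.U n b}
  have hub : ∀ s, ⌈16 * σ.M ^ 2 * ρ.η * n⌉₊ ∈ upperBounds (Has s) := by
    rintro s _ ⟨T, rfl, hT, z, -, -, hz⟩
    have := (ρ.cap n T z (fun b hb => (hT b hb).mono hRP) hz).trans (Nat.le_ceil _)
    exact_mod_cast this
  have hm₀ : ∀ s, s ≤ a.s → m₀ ∈ Has s := fun s h => ⟨T₀, hT₀c, hT₀, z₂, ρ.K_mono h hz₂K, hz₂E, hz₂U⟩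
  obtain ⟨s₂, s₁, h21, h22, h23, h24⟩ := plateau (fun s => ((sSup (Has s) : ℕ) : ℝ))
    (a := (st.sm + a.s) / 2) (b := a.s) (Bd := ⌈16 * σ.M ^ 2 * ρ.η * n⌉₊) (ε := 1 / 2)
    (by linarith [a.hs]) (by norm_num) fun s _ hs =>
      ⟨Nat.cast_nonneg _, Nat.cast_le.mpr (csSup_le ⟨_, hm₀ s hs⟩ (hub s))⟩
  have h25 : sSup (Has s₂) ≤ sSup (Has s₁) := by
    have : ((sSup (Has s₂) : ℕ) : ℝ) < (sSup (Has s₁) : ℕ) + 1 := by linarith
    exact Nat.lt_succ_iff.mp (by exact_mod_cast this)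
  obtain ⟨T, hTc, hT, z₀, hz₀K, hz₀E, hz₀U⟩ := Nat.sSup_mem ⟨_, hm₀ s₁ h23⟩ ⟨_, hub s₁⟩
  have hmT : m₀ ≤ T.card := hTc ▸ le_csSup ⟨_, hub s₁⟩ (hm₀ s₁ h23)
  obtain ⟨tw, htw⟩ := exists_twin T
  let fr : Frame := ⟨P, T, hT, tw, fun b => (htw b).1, fun b => (htw b).2⟩
  have hwin : ∀ w : Fin W, ∃ wn : Win fr, wn.D = D' * i w ∧ wn.k = A * wn.D ∧ 2 * wn.D ≤ wn.d ∧
      T.card ≤ wn.k * wn.D * (wn.d + 1) := by
    intro w
    have hD : 0 < D' * i w := Nat.mul_pos hD'1 (hi w)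
    have hkD : 0 < A * (D' * i w) * (D' * i w) := Nat.mul_pos (Nat.mul_pos hA1 hD) hD
    have h1 : 2 * (D' * i w) ≤ T.card / (A * (D' * i w) * (D' * i w)) := by
      rw [Nat.le_div_iff_mul_le hkD, mul_comm]
      exact (Finset.le_sup (f := fun w : Fin W =>
        A * (D' * i w) * (D' * i w) * (2 * (D' * i w))) (Finset.mem_univ w)).trans hmT
    obtain ⟨e⟩ : Nonempty (Fin (A * (D' * i w)) × Fin (D' * i w) ×
        Fin (T.card / (A * (D' * i w) * (D' * i w))) ↪ T) := by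
      apply Function.Embedding.nonempty_of_card_le
      simp only [Fintype.card_prod, Fintype.card_fin, Fintype.card_coe]
      rw [← mul_assoc]; exact Nat.mul_div_le _ _
    exact ⟨⟨_, _, _, hD, by omega, fun i p => e (i, p), fun i p => (e (i, p)).2,
      fun i p i' p' h => Prod.ext_iff.mp (e.injective (Subtype.ext h))⟩, rfl, rfl, h1,
      (Nat.lt_mul_div_succ _ hkD).le⟩
  choose win hw1 hw2 hw3 hw4 using hwin
  have hUc : ∀ b ∈ fr.T ∪ fr.T', IsClopen (ρ.U n b) := fun b hb =>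
    (ρ.U_CJ n b ((fr.above_of_mem_TT' hb).mono hRP)).1
  let su : Setup ρ :=
    { fr := fr, hR := hRP, p := ⟨c, Finset.mem_insert_self _ _, Fc, θ, hθ⟩, n := n, E := E,
      hE := hECJ
      hv := fun X hX hXE y hy => ρ.tau_van (hc.mono a.hJ) hX (fun x hx => (hXE hx).2) hy
      e := ε, e_pos := hε, A := A, D' := D', hD' := hD'1, W := W, hW := hW1, i := i, win := win,
      hD := hw1, hk := hw2, hd := hw3
      hdisj := by
        intro w w' j h1 h2 h3 h4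
        rw [hw2, hw1, ← mul_assoc] at h2 h4
        simp only [i] at h1 h2 h3 h4
        rw [← pow_succ'] at h2 h4
        rcases lt_trichotomy w w' with h | h | h
        · exact absurd (h2.trans (Nat.pow_le_pow_right hAD h)) (not_le.mpr h3)
        · exact h
        · exact absurd (h4.trans (Nat.pow_le_pow_right hAD h)) (not_le.mpr h1)
      herr := by
        have h1 := (le_max_right _ _).trans hD'
        have h2 := (le_max_right _ _).trans hW
        have h3 : (0 : ℝ) < D' := by exact_mod_cast hD'1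
        have h4 : (0 : ℝ) < W := by exact_mod_cast hW1
        rw [div_le_iff₀ (by positivity)] at h1 h2
        have h5 : σ.M / θ ^ 2 * (2 / D' * σ.M) ≤ ε / 2 := by
          rw [show σ.M / θ ^ 2 * (2 / D' * σ.M) = 2 * σ.M * σ.M / (θ ^ 2 * D') by field_simp,
            div_le_iff₀ (by positivity)]
          linarith
        have h6 : σ.M / θ ^ 2 * (Real.exp A * (σ.M / W)) ≤ ε / 2 := by
          rw [show σ.M / θ ^ 2 * (Real.exp A * (σ.M / W)) = Real.exp A * σ.M * σ.M / (θ ^ 2 * W) by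
            field_simp, div_le_iff₀ (by positivity)]
          linarith
        change σ.M / θ ^ 2 * _ ≤ ε
        rw [mul_add]; linarith
      hA := by
        have h1 := (le_max_right _ _).trans hA
        have h2 := Real.add_one_le_exp ((A : ℝ) / 4)
        have h3 : σ.M * σ.M / ε ≤ Real.exp (A / 4) := by linarith
        rw [div_le_iff₀ hε] at h3
        rw [Real.exp_neg, mul_assoc, inv_mul_le_iff₀ (Real.exp_pos _)]
        exact h3
      s₁ := s₁, s₂ := s₂, s₂_pos := by linarith [a.hs], s_lt := h22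
      C := E ∩ {ℓ | T.card < ovl (fr.T ∪ fr.T') fun b => ℓ ∈ ρ.U n b}
      hC := hECJ.1.inter (isClopen_ovl _ hUc fun j => T.card < j)
      hCE := inter_subset_left
      hCK := by
        intro ℓ hℓ hK
        have := le_csSup ⟨_, hub s₂⟩ (show _ ∈ Has s₂ from
          ⟨(fr.T ∪ fr.T').filter fun b => ℓ ∈ ρ.U n b, rfl,
            fun b hb => fr.above_of_mem_TT' (Finset.mem_filter.mp hb).1, ℓ, hK, hℓ.1,
            fun b hb => (Finset.mem_filter.mp hb).2⟩)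
        exact absurd (this.trans (h25.trans hTc.ge)) (not_le.mpr hℓ.2)
      hm := fun w ℓ hℓ => le_trans (not_lt.mp fun h => hℓ.2 ⟨hℓ.1, h⟩) (hw4 w)
      z₀ := z₀, z₀_K := hz₀K, z₀_E := hz₀E, z₀_U := hz₀U }
  obtain ⟨z, hzK, N, Bs, hN, hBs, hzE, hzB, hsmall⟩ := su.core
  obtain ⟨V, hV, hzV, hV'⟩ := st.upper (a.hE1 hzE.1) (f := |(σ.tau (E ∩ Bs)).comp (σ.piM c Fc θ)|)
    hM.le (fun y => σ.abs_tau_le _ _) hε
  obtain ⟨JV, hJV⟩ := σ.exists_CJ hV
  have hBs' : σ.CJ ((P ∪ N ∪ JV).erase c) Bs := hBs.mono fun b hb => by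
    refine Finset.mem_erase.mpr ⟨?_, ?_⟩
    · rintro rfl
      rcases Finset.mem_union.mp hb with h | h
      · exact hc.not_mem (a.hJ h)
      · exact (hN _ h).not_mem (Finset.mem_insert_self _ _)
    · exact Finset.mem_union_left _ (Finset.union_subset_union_left hRP hb)
  have hPJ : P ⊆ P ∪ N ∪ JV := Finset.subset_union_left.trans Finset.subset_union_left
  refine ⟨⟨c, hc, E, hECJ, inter_subset_left, Fc, hFc, θ,
    fun y => hclose _ _ fun γ hγ => σ.piM_close c hθ.le y hγ,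
    ⟨P ∪ N ∪ JV, E ∩ Bs ∩ V, s₁, hRP.trans hPJ, ((hECJ.mono hPJ).inter
      (hBs'.mono (Finset.erase_subset _ _))).inter (hJV.mono Finset.subset_union_right),
      fun x hx => a.hE1 hx.1.1.1, by linarith [a.hs], z, hzK, ⟨hzE, hzB⟩, hzV⟩,
    hPJ, Bs, hBs', inter_subset_left, fun ℓ hℓ hℓE => ?_⟩⟩
  have h1 := hV' ℓ hℓE.2 hℓ (a.hE1 hℓE.1.1.1)
  change σ.Lam z |(σ.tau (E ∩ Bs)).comp (σ.piM c Fc θ)| ≤ 9 * ε at hsmall
  nlinarith [mul_le_mul_of_nonneg_right hM1 hε.le]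

end Pool.Agent.Lib.MP_9e0ccb_an
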