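import Pool.Agent.Lib.MP_9e0ccb_an.Basic
import Pool.Agent.Lib.MP_9e0ccb_an.Ramsey

set_option autoImplicit false
set_option linter.unusedSectionVars false
set_option linter.deprecated false
open Set Filter Topology

namespace Pool.Agent.Lib.MP_9e0ccb_an

/-- A symmetric isomorphism between `C(B Γ)` and `C(L)`. -/
structure Str (Γ L : Type) [TopologicalSpace L] [CompactSpace L] where
  act : (ℚ ≃o ℚ) →* Equiv.Perm Γ
  supp : Γ → Finset ℚ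
  supp_act : ∀ g γ, supp (act g γ) = (supp γ).image g
  act_fix : ∀ (g : ℚ ≃o ℚ) γ, (∀ b ∈ supp γ, g b = b) → act g γ = γ
  atom : ℚ → Γ
  supp_atom : ∀ b, supp (atom b) = {b}
  act_atom : ∀ g b, act g (atom b) = atom (g b)
  S : C(B Γ, ℝ) ≃L[ℝ] C(L, ℝ)
  liftR : ∀ (J : Finset ℚ) (ℓ : L), ∃ ℓ', ∀ h, S h ℓ' = S (h.comp (RA {γ | supp γ ⊆ J})) ℓ
  liftG : ∀ g ℓ, ∃ ℓ', ∀ h, S h ℓ' = S (h.comp (pull (act g) (act g).injective)) ℓ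

section ind
variable {L : Type} [TopologicalSpace L]

open Classical in
/-- The indicator function of a clopen set. -/
noncomputable def ind (V : Set L) : C(L, ℝ) :=
  if h : IsClopen V then ⟨V.indicator (fun _ => 1), h.continuous_indicator continuous_const⟩ else 0

lemma ind_mem {V : Set L} (hV : IsClopen V) {ℓ : L} (h : ℓ ∈ V) : ind V ℓ = 1 := by
  simp [ind, hV, h]

lemma ind_not_mem {V : Set L} {ℓ : L} (h : ℓ ∉ V) : ind V ℓ = 0 := by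
  by_cases hV : IsClopen V <;> simp [ind, hV, h]

open Classical in
lemma ind_apply {V : Set L} (hV : IsClopen V) (ℓ : L) : ind V ℓ = if ℓ ∈ V then 1 else 0 := by
  split_ifs with h
  · exact ind_mem hV h
  · exact ind_not_mem h

lemma ind_nonneg (V : Set L) (ℓ : L) : 0 ≤ ind V ℓ := by
  by_cases hV : IsClopen V
  · rw [ind_apply hV]; split_ifs <;> simp
  · simp [ind, hV]

lemma ind_le_one (V : Set L) (ℓ : L) : ind V ℓ ≤ 1 := by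
  by_cases hV : IsClopen V
  · rw [ind_apply hV]; split_ifs <;> simp
  · simp [ind, hV]

lemma abs_ind (V : Set L) (ℓ : L) : |ind V ℓ| = ind V ℓ := abs_of_nonneg (ind_nonneg V ℓ)

lemma ind_split {V W : Set L} (hV : IsClopen V) (hW : IsClopen W) :
    ind V = ind (V ∩ W) + ind (V \ W) := by
  ext ℓ
  rw [ContinuousMap.add_apply, ind_apply hV, ind_apply (hV.inter hW), ind_apply (hV.diff hW)]
  by_cases h1 : ℓ ∈ V <;> by_cases h2 : ℓ ∈ W <;> simp [h1, h2]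

lemma ind_empty : ind (∅ : Set L) = 0 := by
  ext ℓ; exact ind_not_mem (notMem_empty ℓ)

lemma ind_univ : ind (univ : Set L) = 1 := by
  ext ℓ; exact ind_mem isClopen_univ (mem_univ ℓ)

lemma ind_comp {V : Set L} (hV : IsClopen V) (ρ : C(L, L)) : (ind V).comp ρ = ind (ρ ⁻¹' V) := by
  ext ℓ
  rw [ContinuousMap.comp_apply, ind_apply hV, ind_apply (hV.preimage ρ.continuous)]
  rfl

open Classical in
lemma sum_ind_eq_card {ι : Type} (s : Finset ι) (V : ι → Set L) (hV : ∀ i ∈ s, IsClopen (V i))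
    (ℓ : L) : ∑ i ∈ s, ind (V i) ℓ = ((s.filter fun i => ℓ ∈ V i).card : ℝ) := by
  rw [Finset.card_filter]
  push_cast
  exact Finset.sum_congr rfl fun i hi => by rw [ind_apply (hV i hi)]

end ind

section zerodim
variable {L : Type} [TopologicalSpace L] [CompactSpace L] [T2Space L] [TotallyDisconnectedSpace L]

lemma exists_clopen_nhd {U : Set L} (hU : IsOpen U) {ℓ : L} (h : ℓ ∈ U) :
    ∃ V, IsClopen V ∧ ℓ ∈ V ∧ V ⊆ U := by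
  obtain ⟨V, hV, h1, h2⟩ := isTopologicalBasis_isClopen.exists_subset_of_mem_open h hU
  exact ⟨V, hV, h1, h2⟩

lemma exists_clopen_between {K U : Set L} (hK : IsClosed K) (hU : IsOpen U) (h : K ⊆ U) :
    ∃ V, IsClopen V ∧ K ⊆ V ∧ V ⊆ U := exists_clopen_of_closed_subset_open hK hU h

lemma eq_of_forall_cont {a b : L} (h : ∀ f : C(L, ℝ), f a = f b) : a = b := by
  by_contra hab
  obtain ⟨V, hV, h1, h2⟩ := exists_clopen_nhd (isOpen_compl_singleton (x := b)) hab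
  have := h (ind V)
  rw [ind_mem hV h1, ind_not_mem (fun hb => h2 hb rfl)] at this
  exact one_ne_zero this

lemma continuous_of_forall_cont {X : Type} [TopologicalSpace X] {ρ : X → L}
    (h : ∀ f : C(L, ℝ), Continuous fun x => f (ρ x)) : Continuous ρ := by
  rw [isTopologicalBasis_isClopen.continuous_iff]
  intro V hV
  have : ρ ⁻¹' V = (fun x => ind V (ρ x)) ⁻¹' (Ioi 0) := by
    ext x
    by_cases hx : ρ x ∈ V
    · simp [hx, ind_mem hV hx]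
    · simp [hx, ind_not_mem hx]
  rw [this]; exact isOpen_Ioi.preimage (h _)

/-- Choosing a parameter in a locally constant way. -/
lemma exists_locConst {ι : Type*} (P : L → ι → Prop) (i0 : ι)
    (h : ∀ ℓ, ∃ i, ∃ V, IsClopen V ∧ ℓ ∈ V ∧ ∀ ℓ' ∈ V, P ℓ' i) :
    ∃ β : L → ι, IsLocallyConstant β ∧ ∀ ℓ, P ℓ (β ℓ) := by
  classical
  have := isCompact_univ.induction_on
    (p := fun K : Set L => ∃ W, IsClopen W ∧ K ⊆ W ∧ ∃ β : L → ι, IsLocallyConstant β ∧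
      ∀ ℓ ∈ W, P ℓ (β ℓ))
    ⟨∅, isClopen_empty, subset_rfl, fun _ => i0, IsLocallyConstant.const _, by simp⟩
    (fun s t hst ⟨W, hW, h1, h2⟩ => ⟨W, hW, hst.trans h1, h2⟩)
    (by
      rintro s t ⟨W, hW, h1, β, hβ, h2⟩ ⟨W', hW', h1', β', hβ', h2'⟩
      refine ⟨W ∪ W', hW.union hW', union_subset_union h1 h1',
        fun ℓ => if ℓ ∈ W then β ℓ else β' ℓ, ?_, fun ℓ hℓ => ?_⟩
      · intro u
        have : (fun ℓ => if ℓ ∈ W then β ℓ else β' ℓ) ⁻¹' u = (W ∩ β ⁻¹' u) ∪ (Wᶜ ∩ β' ⁻¹' u) := by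
          ext ℓ; by_cases hℓ : ℓ ∈ W <;> simp [hℓ]
        rw [this]
        exact (hW.isOpen.inter (hβ u)).union (hW.compl.isOpen.inter (hβ' u))
      · by_cases h : ℓ ∈ W
        · simp only [h, if_true]; exact h2 ℓ h
        · simp only [h, if_false]; exact h2' ℓ (hℓ.resolve_left h))
    (by
      intro ℓ _
      obtain ⟨i, V, hV, h1, h2⟩ := h ℓ
      exact ⟨V, mem_nhdsWithin_of_mem_nhds (hV.isOpen.mem_nhds h1), V, hV, subset_rfl,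
        fun _ => i, IsLocallyConstant.const _, h2⟩)
  obtain ⟨W, _, h1, β, hβ, h2⟩ := this
  exact ⟨β, hβ, fun ℓ => h2 ℓ (h1 (mem_univ ℓ))⟩

end zerodim

namespace Str
variable {Γ L : Type} [TopologicalSpace L] [CompactSpace L] [T2Space L]
  [TotallyDisconnectedSpace L] (σ : Str Γ L)

/-- The distortion constant. -/
noncomputable def M : ℝ :=
  max 1 (max ‖(σ.S : C(B Γ, ℝ) →L[ℝ] C(L, ℝ))‖ ‖(σ.S.symm : C(L, ℝ) →L[ℝ] C(B Γ, ℝ))‖)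

lemma one_le_M : 1 ≤ σ.M := le_max_left _ _
lemma M_pos : 0 < σ.M := lt_of_lt_of_le one_pos σ.one_le_M

lemma S_le (h : C(B Γ, ℝ)) : ‖σ.S h‖ ≤ σ.M * ‖h‖ :=
  ((σ.S : C(B Γ, ℝ) →L[ℝ] C(L, ℝ)).le_opNorm h).trans
    (mul_le_mul_of_nonneg_right ((le_max_left _ _).trans (le_max_right _ _)) (norm_nonneg _))

lemma T_le (f : C(L, ℝ)) : ‖σ.S.symm f‖ ≤ σ.M * ‖f‖ :=
  ((σ.S.symm : C(L, ℝ) →L[ℝ] C(B Γ, ℝ)).le_opNorm f).trans
    (mul_le_mul_of_nonneg_right ((le_max_right _ _).trans (le_max_right _ _)) (norm_nonneg _))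

/-- The functional `h ↦ S h ℓ`. -/
noncomputable def mu (ℓ : L) : C(B Γ, ℝ) →L[ℝ] ℝ :=
  (ContinuousMap.evalCLM ℝ ℓ).comp (σ.S : C(B Γ, ℝ) →L[ℝ] C(L, ℝ))

/-- The functional `f ↦ T f y`. -/
noncomputable def nu (y : B Γ) : C(L, ℝ) →L[ℝ] ℝ :=
  (ContinuousMap.evalCLM ℝ y).comp (σ.S.symm : C(L, ℝ) →L[ℝ] C(B Γ, ℝ))

lemma mu_apply (ℓ : L) (h : C(B Γ, ℝ)) : σ.mu ℓ h = σ.S h ℓ := rfl
lemma nu_apply (y : B Γ) (f : C(L, ℝ)) : σ.nu y f = σ.S.symm f y := rfl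

lemma norm_mu (ℓ : L) : ‖σ.mu ℓ‖ ≤ σ.M :=
  ContinuousLinearMap.opNorm_le_bound _ σ.M_pos.le fun h =>
    ((σ.S h).norm_coe_le_norm ℓ).trans (σ.S_le h)

lemma norm_nu (y : B Γ) : ‖σ.nu y‖ ≤ σ.M :=
  ContinuousLinearMap.opNorm_le_bound _ σ.M_pos.le fun f =>
    ((σ.S.symm f).norm_coe_le_norm y).trans (σ.T_le f)

/-- The modulus of `mu ℓ`. -/
noncomputable def Lam (ℓ : L) : C(B Γ, ℝ) →ₗ[ℝ] ℝ := absF (σ.mu ℓ)

/-- The modulus of `nu y`. -/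
noncomputable def Nu (y : B Γ) : C(L, ℝ) →ₗ[ℝ] ℝ := absF (σ.nu y)

lemma Lam_mono (ℓ : L) {f g : C(B Γ, ℝ)} (h : ∀ x, f x ≤ g x) : σ.Lam ℓ f ≤ σ.Lam ℓ g :=
  absF_mono _ h

lemma Lam_nonneg (ℓ : L) {f : C(B Γ, ℝ)} (h : ∀ x, 0 ≤ f x) : 0 ≤ σ.Lam ℓ f := absF_nonneg _ h

lemma Lam_le_const (ℓ : L) {f : C(B Γ, ℝ)} {c : ℝ} (hc : 0 ≤ c) (h : ∀ x, f x ≤ c) :
    σ.Lam ℓ f ≤ c * σ.M := absF_le_const _ (σ.norm_mu ℓ) hc h

lemma Lam_one_le (ℓ : L) : σ.Lam ℓ 1 ≤ σ.M := absF_one_le _ (σ.norm_mu ℓ)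

lemma abs_S_le_Lam (ℓ : L) {f h : C(B Γ, ℝ)} (hh : ∀ x, |h x| ≤ f x) :
    |σ.S h ℓ| ≤ σ.Lam ℓ f := abs_le_absF (σ.mu ℓ) hh

lemma Nu_mono (y : B Γ) {f g : C(L, ℝ)} (h : ∀ x, f x ≤ g x) : σ.Nu y f ≤ σ.Nu y g :=
  absF_mono _ h

lemma Nu_nonneg (y : B Γ) {f : C(L, ℝ)} (h : ∀ x, 0 ≤ f x) : 0 ≤ σ.Nu y f := absF_nonneg _ h

lemma Nu_le_const (y : B Γ) {f : C(L, ℝ)} {c : ℝ} (hc : 0 ≤ c) (h : ∀ x, f x ≤ c) :
    σ.Nu y f ≤ c * σ.M := absF_le_const _ (σ.norm_nu y) hc h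

lemma Nu_one_le (y : B Γ) : σ.Nu y 1 ≤ σ.M := absF_one_le _ (σ.norm_nu y)

lemma abs_T_le_Nu (y : B Γ) {f h : C(L, ℝ)} (hh : ∀ x, |h x| ≤ f x) :
    |σ.S.symm h y| ≤ σ.Nu y f := abs_le_absF (σ.nu y) hh

lemma Lam_lsc (ℓ : L) {f : C(B Γ, ℝ)} (hf : ∀ x, 0 ≤ f x) {c : ℝ} (hc : c < σ.Lam ℓ f) :
    ∃ V, IsClopen V ∧ ℓ ∈ V ∧ ∀ ℓ' ∈ V, c < σ.Lam ℓ' f := by
  obtain ⟨h, hh, hlt⟩ := exists_lt_absF _ hf hc
  obtain ⟨V, hV, h1, h2⟩ := exists_clopen_nhd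
    (isOpen_lt continuous_const (σ.S h).continuous : IsOpen {ℓ' | c < σ.S h ℓ'}) hlt
  exact ⟨V, hV, h1, fun ℓ' h' => lt_of_lt_of_le (h2 h')
    ((le_abs_self _).trans (σ.abs_S_le_Lam ℓ' hh))⟩

lemma sum_abs_S_le {ι : Type} (s : Finset ι) (h : ι → C(B Γ, ℝ)) {c : ℝ} (hc : 0 ≤ c)
    (H : ∀ x, ∑ i ∈ s, |h i x| ≤ c) (ℓ : L) : ∑ i ∈ s, |σ.S (h i) ℓ| ≤ c * σ.M := by
  calc ∑ i ∈ s, |σ.S (h i) ℓ| ≤ ∑ i ∈ s, σ.Lam ℓ |h i| :=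
        Finset.sum_le_sum fun i _ => σ.abs_S_le_Lam ℓ fun x => le_rfl
    _ = σ.Lam ℓ (∑ i ∈ s, |h i|) := (map_sum _ _ _).symm
    _ ≤ c * σ.M := σ.Lam_le_const ℓ hc fun x => by
        rw [ContinuousMap.sum_apply]; exact H x

lemma sum_abs_T_le {ι : Type} (s : Finset ι) (f : ι → C(L, ℝ)) {c : ℝ} (hc : 0 ≤ c)
    (H : ∀ x, ∑ i ∈ s, |f i x| ≤ c) (y : B Γ) : ∑ i ∈ s, |σ.S.symm (f i) y| ≤ c * σ.M := by
  calc ∑ i ∈ s, |σ.S.symm (f i) y| ≤ ∑ i ∈ s, σ.Nu y |f i| :=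
        Finset.sum_le_sum fun i _ => σ.abs_T_le_Nu y fun x => le_rfl
    _ = σ.Nu y (∑ i ∈ s, |f i|) := (map_sum _ _ _).symm
    _ ≤ c * σ.M := σ.Nu_le_const y hc fun x => by
        rw [ContinuousMap.sum_apply]; exact H x

/-- Lifting a self-map of the ball to `L`. -/
noncomputable def lift (Φ : C(B Γ, B Γ)) (hΦ : ∀ ℓ, ∃ ℓ', ∀ h, σ.S h ℓ' = σ.S (h.comp Φ) ℓ) :
    C(L, L) where
  toFun ℓ := (hΦ ℓ).choose
  continuous_toFun := continuous_of_forall_cont fun f => by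
    have : (fun ℓ => f (hΦ ℓ).choose) = σ.S ((σ.S.symm f).comp Φ) := by
      funext ℓ
      rw [← (hΦ ℓ).choose_spec, σ.S.apply_symm_apply]
    rw [this]; exact ContinuousMap.continuous _

lemma S_lift (Φ : C(B Γ, B Γ)) (hΦ) (h : C(B Γ, ℝ)) (ℓ : L) :
    σ.S h (σ.lift Φ hΦ ℓ) = σ.S (h.comp Φ) ℓ := (hΦ ℓ).choose_spec h

lemma T_lift (Φ : C(B Γ, B Γ)) (hΦ) (f : C(L, ℝ)) (y : B Γ) :
    σ.S.symm (f.comp (σ.lift Φ hΦ)) y = σ.S.symm f (Φ y) := by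
  have : f.comp (σ.lift Φ hΦ) = σ.S ((σ.S.symm f).comp Φ) := by
    ext ℓ
    rw [← σ.S_lift Φ hΦ, σ.S.apply_symm_apply]; rfl
  rw [this, σ.S.symm_apply_apply]; rfl

lemma L_ext {a b : L} (h : ∀ h, σ.S h a = σ.S h b) : a = b :=
  eq_of_forall_cont fun f => by rw [← σ.S.apply_symm_apply f]; exact h _

lemma Lam_lift (Φ : C(B Γ, B Γ)) (hΦ) {f : C(B Γ, ℝ)} (hf : ∀ x, 0 ≤ f x) (ℓ : L) :
    σ.Lam (σ.lift Φ hΦ ℓ) f ≤ σ.Lam ℓ (f.comp Φ) := by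
  refine absF_le _ hf fun h hh => ?_
  rw [mu_apply, S_lift]
  exact (le_abs_self _).trans (σ.abs_S_le_Lam ℓ fun x => hh _)

lemma Nu_lift (Φ : C(B Γ, B Γ)) (hΦ) {f : C(L, ℝ)} (hf : ∀ x, 0 ≤ f x) (y : B Γ) :
    σ.Nu (Φ y) f ≤ σ.Nu y (f.comp (σ.lift Φ hΦ)) := by
  refine absF_le _ hf fun h hh => ?_
  rw [nu_apply, ← σ.T_lift Φ hΦ]
  exact (le_abs_self _).trans (σ.abs_T_le_Nu y fun x => hh _)

/-- Restriction to the coordinates supported in `J`. -/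
noncomputable def R (J : Finset ℚ) : C(B Γ, B Γ) := RA {γ | σ.supp γ ⊆ J}

/-- The corresponding retraction of `L`. -/
noncomputable def r (J : Finset ℚ) : C(L, L) := σ.lift (σ.R J) (σ.liftR J)

/-- The action on the ball. -/
def gB (g : ℚ ≃o ℚ) : C(B Γ, B Γ) := pull (σ.act g) (σ.act g).injective

/-- The action on `L`. -/
noncomputable def gL (g : ℚ ≃o ℚ) : C(L, L) := σ.lift (σ.gB g) (σ.liftG g)

lemma R_mem {J : Finset ℚ} (x : B Γ) {γ : Γ} (h : σ.supp γ ⊆ J) : (σ.R J x).1 γ = x.1 γ :=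
  RA_mem x h

lemma R_not_mem {J : Finset ℚ} (x : B Γ) {γ : Γ} (h : ¬ σ.supp γ ⊆ J) : (σ.R J x).1 γ = 0 :=
  RA_not_mem x h

lemma R_sq_le (J : Finset ℚ) (x : B Γ) (γ : Γ) : (σ.R J x).1 γ ^ 2 ≤ x.1 γ ^ 2 := RA_sq_le _ _ _

lemma gB_apply (g : ℚ ≃o ℚ) (x : B Γ) (γ : Γ) : (σ.gB g x).1 γ = x.1 (σ.act g γ) := rfl

lemma R_R (J J' : Finset ℚ) (x : B Γ) : σ.R J (σ.R J' x) = σ.R (J ∩ J') x := by
  simp only [R, RA_RA]
  congr 2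
  ext γ; simp [Finset.subset_inter_iff]

lemma S_r (J : Finset ℚ) (h : C(B Γ, ℝ)) (ℓ : L) :
    σ.S h (σ.r J ℓ) = σ.S (h.comp (σ.R J)) ℓ := σ.S_lift _ _ _ _

lemma S_gL (g : ℚ ≃o ℚ) (h : C(B Γ, ℝ)) (ℓ : L) :
    σ.S h (σ.gL g ℓ) = σ.S (h.comp (σ.gB g)) ℓ := σ.S_lift _ _ _ _

lemma r_r (J J' : Finset ℚ) (ℓ : L) : σ.r J (σ.r J' ℓ) = σ.r (J ∩ J') ℓ := by
  refine σ.L_ext fun h => ?_
  rw [S_r, S_r, S_r]
  congr 2
  ext x; simp [R_R]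

lemma r_r_of_subset {J J' : Finset ℚ} (h : J ⊆ J') (ℓ : L) : σ.r J (σ.r J' ℓ) = σ.r J ℓ := by
  rw [r_r, Finset.inter_eq_left.mpr h]

lemma R_R_of_subset {J J' : Finset ℚ} (h : J ⊆ J') (x : B Γ) : σ.R J (σ.R J' x) = σ.R J x := by
  rw [R_R, Finset.inter_eq_left.mpr h]

lemma act_agree {γ : Γ} {g g' : ℚ ≃o ℚ} (h : ∀ b ∈ σ.supp γ, g b = g' b) :
    σ.act g γ = σ.act g' γ :=
  Supports.agree σ.act (J := σ.supp γ) (fun g hg => σ.act_fix g γ hg) h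

lemma supp_act_subset (g : ℚ ≃o ℚ) (γ : Γ) (J : Finset ℚ) :
    σ.supp (σ.act g γ) ⊆ J.image g ↔ σ.supp γ ⊆ J := by
  rw [σ.supp_act]; exact Finset.image_subset_image_iff g.injective

lemma mem_supp_act (g : ℚ ≃o ℚ) (γ : Γ) (b : ℚ) :
    g b ∈ σ.supp (σ.act g γ) ↔ b ∈ σ.supp γ := by
  rw [σ.supp_act]; exact Function.Injective.mem_finset_image g.injective

lemma R_gB (g : ℚ ≃o ℚ) (J : Finset ℚ) (x : B Γ) :
    σ.R J (σ.gB g x) = σ.gB g (σ.R (J.image g) x) := by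
  apply Subtype.ext; funext γ
  by_cases h : σ.supp γ ⊆ J
  · rw [σ.R_mem _ h, gB_apply, gB_apply, σ.R_mem _ ((σ.supp_act_subset g γ J).mpr h)]
  · rw [σ.R_not_mem _ h, gB_apply, σ.R_not_mem _ (fun h' => h ((σ.supp_act_subset g γ J).mp h'))]

lemma R_gB_agree {g g' : ℚ ≃o ℚ} {J : Finset ℚ} (hg : ∀ b ∈ J, g b = g' b) (x : B Γ) :
    σ.R J (σ.gB g x) = σ.R J (σ.gB g' x) := by
  apply Subtype.ext; funext γ
  by_cases h : σ.supp γ ⊆ J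
  · rw [σ.R_mem _ h, σ.R_mem _ h, gB_apply, gB_apply, σ.act_agree fun b hb => hg b (h hb)]
  · rw [σ.R_not_mem _ h, σ.R_not_mem _ h]

lemma r_gL (g : ℚ ≃o ℚ) (J : Finset ℚ) (ℓ : L) :
    σ.r J (σ.gL g ℓ) = σ.gL g (σ.r (J.image g) ℓ) := by
  refine σ.L_ext fun h => ?_
  rw [S_r, S_gL, S_gL, S_r]
  congr 2
  ext x; simp [R_gB]

lemma r_gL_agree {g g' : ℚ ≃o ℚ} {J : Finset ℚ} (hg : ∀ b ∈ J, g b = g' b) (ℓ : L) :
    σ.r J (σ.gL g ℓ) = σ.r J (σ.gL g' ℓ) := by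
  refine σ.L_ext fun h => ?_
  rw [S_r, S_gL, S_r, S_gL]
  congr 2
  ext x; simp [σ.R_gB_agree hg]

lemma gL_one (ℓ : L) : σ.gL 1 ℓ = ℓ := by
  refine σ.L_ext fun h => ?_
  rw [S_gL]
  congr 2
  ext x
  simp only [ContinuousMap.comp_apply]
  congr 1
  apply Subtype.ext; funext γ; rw [gB_apply, map_one]; rfl

lemma gL_mul (g g' : ℚ ≃o ℚ) (ℓ : L) : σ.gL (g * g') ℓ = σ.gL g' (σ.gL g ℓ) := by
  refine σ.L_ext fun h => ?_
  rw [S_gL, S_gL, S_gL]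
  congr 2
  ext x
  simp only [ContinuousMap.comp_apply]
  congr 1
  apply Subtype.ext; funext γ; rw [gB_apply, gB_apply, gB_apply, map_mul]; rfl

lemma Lam_r (J : Finset ℚ) {f : C(B Γ, ℝ)} (hf : ∀ x, 0 ≤ f x) (ℓ : L) :
    σ.Lam (σ.r J ℓ) f ≤ σ.Lam ℓ (f.comp (σ.R J)) := σ.Lam_lift _ _ hf ℓ

lemma Nu_R (J : Finset ℚ) {f : C(L, ℝ)} (hf : ∀ x, 0 ≤ f x) (y : B Γ) :
    σ.Nu (σ.R J y) f ≤ σ.Nu y (f.comp (σ.r J)) := σ.Nu_lift _ (σ.liftR J) hf y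

/-- Clopen sets depending only on `J`. -/
def CJ (J : Finset ℚ) (V : Set L) : Prop := IsClopen V ∧ ∀ ℓ, σ.r J ℓ ∈ V ↔ ℓ ∈ V

variable {σ}

lemma CJ.mono {J J' : Finset ℚ} {V : Set L} (h : σ.CJ J V) (hJ : J ⊆ J') : σ.CJ J' V :=
  ⟨h.1, fun ℓ => by rw [← h.2, σ.r_r_of_subset hJ, h.2]⟩

lemma CJ.inter {J : Finset ℚ} {V W : Set L} (h : σ.CJ J V) (h' : σ.CJ J W) : σ.CJ J (V ∩ W) :=
  ⟨h.1.inter h'.1, fun ℓ => by simp [h.2, h'.2]⟩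

lemma CJ.compl {J : Finset ℚ} {V : Set L} (h : σ.CJ J V) : σ.CJ J Vᶜ :=
  ⟨h.1.compl, fun ℓ => by simp [h.2]⟩

lemma CJ.diff {J : Finset ℚ} {V W : Set L} (h : σ.CJ J V) (h' : σ.CJ J W) : σ.CJ J (V \ W) :=
  h.inter h'.compl

lemma CJ.univ (J : Finset ℚ) : σ.CJ J univ := ⟨isClopen_univ, fun ℓ => by simp⟩

lemma CJ.biInter {ι : Type} {J : Finset ℚ} (s : Finset ι) {V : ι → Set L}
    (h : ∀ i ∈ s, σ.CJ J (V i)) : σ.CJ J {ℓ | ∀ i ∈ s, ℓ ∈ V i} := by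
  refine ⟨?_, fun ℓ => ?_⟩
  · have : {ℓ | ∀ i ∈ s, ℓ ∈ V i} = ⋂ i ∈ s, V i := by ext; simp
    rw [this]; exact isClopen_biInter_finset fun i hi => (h i hi).1
  · exact forall₂_congr fun i hi => (h i hi).2 ℓ

lemma CJ.preimage_r (J : Finset ℚ) {V : Set L} (h : IsClopen V) : σ.CJ J (σ.r J ⁻¹' V) :=
  ⟨h.preimage (σ.r J).continuous, fun ℓ => by
    simp only [mem_preimage]; rw [σ.r_r_of_subset subset_rfl]⟩

lemma CJ.gL {J : Finset ℚ} {V : Set L} (h : σ.CJ J V) (g : ℚ ≃o ℚ) :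
    σ.CJ (J.image g) (σ.gL g ⁻¹' V) :=
  ⟨h.1.preimage (σ.gL g).continuous, fun ℓ => by
    simp only [mem_preimage]; rw [← σ.r_gL, h.2]⟩

lemma CJ.gL_agree {J : Finset ℚ} {V : Set L} (h : σ.CJ J V) {g g' : ℚ ≃o ℚ}
    (hg : ∀ b ∈ J, g b = g' b) : σ.gL g ⁻¹' V = σ.gL g' ⁻¹' V := by
  ext ℓ
  simp only [mem_preimage]
  rw [← h.2, σ.r_gL_agree hg, h.2]

lemma CJ.gL_fix {J : Finset ℚ} {V : Set L} (h : σ.CJ J V) {g : ℚ ≃o ℚ}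
    (hg : ∀ b ∈ J, g b = b) : σ.gL g ⁻¹' V = V := by
  rw [h.gL_agree (g' := 1) hg]
  ext ℓ; simp [σ.gL_one]

lemma CJ.ind_comp {J : Finset ℚ} {V : Set L} (h : σ.CJ J V) : (ind V).comp (σ.r J) = ind V := by
  rw [MP_9e0ccb_an.ind_comp h.1]
  congr 1
  ext ℓ; exact h.2 ℓ

variable (σ)

/-- The function `T 1_V`. -/
noncomputable def tau (V : Set L) : C(B Γ, ℝ) := σ.S.symm (ind V)

lemma abs_tau_le (V : Set L) (y : B Γ) : |σ.tau V y| ≤ σ.M := by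
  have := σ.abs_T_le_Nu y (f := 1) (h := ind V) fun x => by
    rw [abs_ind]; exact ind_le_one _ _
  exact this.trans (σ.Nu_one_le y)

lemma tau_R {V : Set L} (hV : IsClopen V) (J : Finset ℚ) (y : B Γ) :
    σ.tau V (σ.R J y) = σ.tau (σ.r J ⁻¹' V) y := by
  rw [tau, tau, ← ind_comp hV]; exact (σ.T_lift _ (σ.liftR J) _ _).symm

lemma tau_gB {V : Set L} (hV : IsClopen V) (g : ℚ ≃o ℚ) (y : B Γ) :
    σ.tau V (σ.gB g y) = σ.tau (σ.gL g ⁻¹' V) y := by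
  rw [tau, tau, ← ind_comp hV]; exact (σ.T_lift _ (σ.liftG g) _ _).symm

lemma CJ.tau_R {σ : Str Γ L} {J : Finset ℚ} {V : Set L} (h : σ.CJ J V) (y : B Γ) :
    σ.tau V (σ.R J y) = σ.tau V y := by
  rw [σ.tau_R h.1]
  congr 2
  ext ℓ; exact h.2 ℓ

lemma tau_split {V W : Set L} (hV : IsClopen V) (hW : IsClopen W) (y : B Γ) :
    σ.tau V y = σ.tau (V ∩ W) y + σ.tau (V \ W) y := by
  rw [tau, ind_split hV hW, map_add]; rfl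

lemma tau_empty (y : B Γ) : σ.tau ∅ y = 0 := by
  rw [tau, ind_empty, map_zero]; rfl

lemma one_le_Lam_tau {V : Set L} (hV : IsClopen V) {ℓ : L} (h : ℓ ∈ V) :
    1 ≤ σ.Lam ℓ |σ.tau V| := by
  have := σ.abs_S_le_Lam ℓ (f := |σ.tau V|) (h := σ.tau V) fun x => le_rfl
  rw [tau, σ.S.apply_symm_apply, ind_mem hV h, abs_one] at this
  exact this

open Classical in
lemma sum_abs_tau_le {ι : Type} (s : Finset ι) (V : ι → Set L) (hV : ∀ i ∈ s, IsClopen (V i))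
    {c : ℝ} (hc : 0 ≤ c) (H : ∀ ℓ, ((s.filter fun i => ℓ ∈ V i).card : ℝ) ≤ c) (y : B Γ) :
    ∑ i ∈ s, |σ.tau (V i) y| ≤ c * σ.M := by
  refine σ.sum_abs_T_le s (fun i => ind (V i)) hc (fun ℓ => ?_) y
  simp only [abs_ind]
  rw [sum_ind_eq_card s V hV]; exact H ℓ

lemma exists_CJ {V : Set L} (hV : IsClopen V) : ∃ J, σ.CJ J V := by
  classical
  obtain ⟨F, ω, hω, hF⟩ := insens (σ.tau V) (ι := 1 / (2 * σ.M)) (by have := σ.M_pos; positivity)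
  refine ⟨F.biUnion σ.supp, hV, fun ℓ => ?_⟩
  set J := F.biUnion σ.supp
  have h1 : ∀ x, |((σ.tau V).comp (σ.R J) - σ.tau V) x| ≤ 1 / (2 * σ.M) := fun x =>
    hF _ _ fun γ hγ => by
      rw [σ.R_mem x (Finset.subset_biUnion_of_mem σ.supp hγ)]; simpa using hω.le
  have h2 := σ.abs_S_le_Lam ℓ (f := ContinuousMap.const _ (1 / (2 * σ.M))) h1
  have h3 := σ.Lam_le_const ℓ (f := ContinuousMap.const _ (1 / (2 * σ.M))) (c := 1 / (2 * σ.M))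
    (by have := σ.M_pos; positivity) fun x => le_rfl
  have h4 : 1 / (2 * σ.M) * σ.M = 1 / 2 := by have := σ.M_pos; field_simp
  rw [map_sub, ContinuousMap.sub_apply, ← S_r, tau, σ.S.apply_symm_apply, ind_apply hV,
    ind_apply hV] at h2
  have h5 := abs_le.mp (h2.trans (h3.trans h4.le))
  by_cases ha : σ.r J ℓ ∈ V <;> by_cases hb : ℓ ∈ V <;> simp only [ha, hb, if_true, if_false] at h5 ⊢
  all_goals first | rfl | (exfalso; linarith [h5.1, h5.2])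

lemma exists_inv_locConst {ι : Type*} {β : L → ι} (hβ : IsLocallyConstant β) :
    ∃ J, ∀ J', J ⊆ J' → ∀ ℓ, β (σ.r J' ℓ) = β ℓ := by
  classical
  choose Jf hJf using fun i : ι => σ.exists_CJ (hβ.isClopen_fiber i)
  refine ⟨hβ.range_finite.toFinset.biUnion Jf, fun J' hJ' ℓ => ?_⟩
  have h1 : Jf (β ℓ) ⊆ J' := (Finset.subset_biUnion_of_mem Jf (by simp)).trans hJ'
  exact (((hJf (β ℓ)).mono h1).2 ℓ).mpr rfl

lemma insens_tau {J : Finset ℚ} {V : Set L} (h : σ.CJ J V) {ι : ℝ} (hι : 0 < ι) :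
    ∃ (F : Finset Γ) (ω : ℝ), 0 < ω ∧ (∀ γ ∈ F, σ.supp γ ⊆ J) ∧
      ∀ x y : B Γ, (∀ γ ∈ F, |x.1 γ - y.1 γ| ≤ ω) → |σ.tau V x - σ.tau V y| ≤ ι :=
  insens_of_inv (σ.tau V) (A := {γ | σ.supp γ ⊆ J}) h.tau_R hι

lemma atom_injective : Function.Injective σ.atom := fun a b h => by
  have := congrArg σ.supp h
  rw [σ.supp_atom, σ.supp_atom] at this
  exact Finset.singleton_injective this

end Str

end Pool.Agent.Lib.MP_9e0ccb_an
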