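import Pool.Agent.Lib.MP_9e0ccb_an.Frame

set_option autoImplicit false
set_option linter.unusedSectionVars false
set_option linter.deprecated false
set_option linter.unusedVariables false
set_option linter.unusedSimpArgs false
open Set Filter Topology
open scoped Classical

namespace Pool.Agent.Lib.MP_9e0ccb_an

section av
variable {ι : Type} [Fintype ι] [Nonempty ι]

/-- Average over a finite type. -/
noncomputable def av (f : ι → ℝ) : ℝ := (∑ i, f i) / Fintype.card ι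

lemma card_pos' : (0 : ℝ) < Fintype.card ι := by exact_mod_cast Fintype.card_pos

lemma av_mono {f g : ι → ℝ} (h : ∀ i, f i ≤ g i) : av f ≤ av g :=
  div_le_div_of_nonneg_right (Finset.sum_le_sum fun i _ => h i) card_pos'.le

lemma av_add (f g : ι → ℝ) : av (fun i => f i + g i) = av f + av g := by
  unfold av; rw [Finset.sum_add_distrib, add_div]

lemma av_const (c : ℝ) : av (fun _ : ι => c) = c := by
  unfold av
  rw [Finset.sum_const, Finset.card_univ, nsmul_eq_mul, mul_div_cancel_left₀ _ card_pos'.ne']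

lemma av_mul (c : ℝ) (f : ι → ℝ) : av (fun i => c * f i) = c * av f := by
  unfold av; rw [← Finset.mul_sum, mul_div_assoc]

lemma av_sum {κ : Type} (s : Finset κ) (f : κ → ι → ℝ) :
    ∑ j ∈ s, av (f j) = av fun i => ∑ j ∈ s, f j i := by
  unfold av; rw [← Finset.sum_div, Finset.sum_comm]

lemma exists_le_av (f : ι → ℝ) : ∃ i, f i ≤ av f := by
  obtain ⟨i, -, hi⟩ := Finset.exists_le_of_sum_le (s := Finset.univ) (f := f)
    (g := fun _ => av f) Finset.univ_nonempty (by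
      rw [Finset.sum_const, Finset.card_univ, nsmul_eq_mul, av, mul_div_cancel₀ _ card_pos'.ne'])
  exact ⟨i, hi⟩

lemma av_prod_le {κ : Type} [Fintype κ] [Nonempty κ] (f : ι × κ → ℝ) {c : ℝ}
    (h : ∀ i, ∑ j, f (i, j) ≤ c * Fintype.card κ) : av f ≤ c := by
  unfold av
  rw [div_le_iff₀ card_pos', Fintype.sum_prod_type, Fintype.card_prod]
  refine (Finset.sum_le_sum fun i _ => h i).trans (le_of_eq ?_)
  rw [Finset.sum_const, Finset.card_univ, nsmul_eq_mul]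
  push_cast; ring

lemma av_fst_le {κ : Type} [Fintype κ] [Nonempty κ] (f : ι → ℝ) {c : ℝ}
    (h : ∑ i, f i ≤ Fintype.card ι * c) : av (fun p : ι × κ => f p.1) ≤ c := by
  unfold av
  rw [div_le_iff₀ card_pos', Fintype.sum_prod_type, Fintype.card_prod]
  simp only [Finset.sum_const, Finset.card_univ, nsmul_eq_mul]
  rw [← Finset.mul_sum]
  push_cast
  nlinarith [mul_le_mul_of_nonneg_left h (card_pos' (ι := κ)).le]

/-- Average of continuous functions. -/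
noncomputable def avF {X : Type} [TopologicalSpace X] (f : ι → C(X, ℝ)) : C(X, ℝ) :=
  (1 / Fintype.card ι : ℝ) • ∑ i, f i

lemma avF_apply {X : Type} [TopologicalSpace X] (f : ι → C(X, ℝ)) (x : X) :
    avF f x = av fun i => f i x := by
  simp [avF, av, div_eq_inv_mul]

lemma map_avF {X : Type} [TopologicalSpace X] (φ : C(X, ℝ) →ₗ[ℝ] ℝ) (f : ι → C(X, ℝ)) :
    φ (avF f) = av fun i => φ (f i) := by
  simp [avF, av, div_eq_inv_mul]

end av

variable {Γ L : Type} [TopologicalSpace L] [CompactSpace L] [T2Space L]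
  [TotallyDisconnectedSpace L]

/-- The data of the shrinking map. -/
structure Shr (σ : Str Γ L) (fr : Frame) where
  c : ℚ
  c_mem : c ∈ fr.P
  Fc : Finset Γ
  θ : ℝ
  θ_pos : 0 < θ

/-- Simultaneous presence of the atoms in `G`. -/
def BU (U : ℚ → Set L) (G : Finset ℚ) : Set L := {ℓ | ∀ b ∈ G, ℓ ∈ U b}

namespace Shr
variable {σ : Str Γ L} {fr : Frame} (p : Shr σ fr) (w : Win fr)

/-- The shrinking map. -/
noncomputable def pi : C(B Γ, B Γ) := σ.piM p.c p.Fc p.θ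

/-- Shrinking followed by copying. -/
noncomputable def Cp (ω : w.Om') (F : Finset Γ) : C(B Γ, B Γ) :=
  (Om (w.Fh σ ω F) (σ.tr fr.κ)).comp p.pi

/-- Vanishing on points without `c`-part. -/
def Van (X : Set L) : Prop := ∀ y : B Γ, (∀ γ, p.c ∈ σ.supp γ → y.1 γ = 0) → σ.tau X y = 0

lemma transfer (ω : w.Om') (F : Finset Γ) (y : B Γ) {a b ι : ℝ}
    (hvan : (∀ γ, p.c ∈ σ.supp γ → (p.pi y).1 γ = 0) → a = 0)
    (hQ : Qf (w.Fh σ ω F) (σ.tr fr.κ) (p.pi y) ≤ 1 → a ≤ b + ι) (ha : a ≤ σ.M) (hb : 0 ≤ b)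
    (hι : 0 ≤ ι) : a ≤ b + ι + σ.M / p.θ ^ 2 * w.cost σ ω F y := by
  have hM := σ.M_pos
  have hθ := p.θ_pos
  have h0 : 0 ≤ σ.M / p.θ ^ 2 * w.cost σ ω F y := mul_nonneg (by positivity) (w.cost_nonneg σ _ _ _)
  rcases σ.piM_gain p.c p.Fc hθ.le y with h | h
  · rw [hvan h]; linarith
  · by_cases hc : w.cost σ ω F y ≤ p.θ ^ 2
    · have h1 := w.Q_le σ ω F (p.pi y)
      have h2 : w.cost σ ω F (p.pi y) ≤ w.cost σ ω F y := by
        rw [w.cost_apply, w.cost_apply]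
        exact Finset.sum_le_sum fun δ _ =>
          mul_le_mul_of_nonneg_left (σ.piM_sq_le _ _ _ _ _) (w.ext_nonneg σ _ _)
      have h3 := h F
      have := hQ (by change mass F (p.pi y) ≤ _ at h3; linarith)
      linarith
    · have : σ.M ≤ σ.M / p.θ ^ 2 * w.cost σ ω F y := by
        rw [div_mul_eq_mul_div, le_div_iff₀ (by positivity)]
        exact mul_le_mul_of_nonneg_left (not_le.mp hc).le hM.le
      linarith

lemma Om_van (ω : w.Om') (F : Finset Γ) {x : B Γ} (h : ∀ γ, p.c ∈ σ.supp γ → x.1 γ = 0) :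
    ∀ γ, p.c ∈ σ.supp γ → (Om (w.Fh σ ω F) (σ.tr fr.κ) x).1 γ = 0 := by
  intro γ hγ
  refine Om_eq_zero fun hF => h _ ?_
  rw [σ.supp_tr ((w.mem_Fh σ).mp hF).1.mono]
  exact Finset.mem_image.mpr ⟨_, hγ, fr.κ_of_not_mem (fr.not_mem_T'_of_P p.c_mem)⟩

lemma Om_R (ω : w.Om') (F : Finset Γ) {Q : Finset ℚ} (hQ : fr.J0 ⊆ Q) {x : B Γ}
    (h : Qf (w.Fh σ ω F) (σ.tr fr.κ) x ≤ 1) :
    Om (w.Fh σ ω F) (σ.tr fr.κ) (σ.R Q x) = σ.R Q (Om (w.Fh σ ω F) (σ.tr fr.κ) x) := by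
  have h' : Qf (w.Fh σ ω F) (σ.tr fr.κ) (σ.R Q x) ≤ 1 :=
    le_trans (Finset.sum_le_sum fun γ _ => σ.R_sq_le _ _ _) h
  apply Subtype.ext; funext γ
  rw [Om_apply_of_le h']
  by_cases hγ : γ ∈ w.Fh σ ω F
  · have hiff : σ.supp (σ.tr fr.κ γ) ⊆ Q ↔ σ.supp γ ⊆ Q := by
      rw [σ.supp_tr ((w.mem_Fh σ).mp hγ).1.mono, Finset.image_subset_iff]
      exact forall₂_congr fun b _ => fr.κ_mem_iff hQ b
    rw [if_pos hγ]
    by_cases h2 : σ.supp γ ⊆ Q
    · rw [σ.R_mem _ h2, σ.R_mem _ (hiff.mpr h2), Om_apply_of_le h, if_pos hγ]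
    · rw [σ.R_not_mem _ h2, σ.R_not_mem _ fun h3 => h2 (hiff.mp h3)]
  · rw [if_neg hγ]
    by_cases h2 : σ.supp γ ⊆ Q
    · rw [σ.R_mem _ h2, Om_apply_of_le h, if_neg hγ]
    · rw [σ.R_not_mem _ h2]

lemma T1 (ω : w.Om') (F : Finset Γ) {Q : Finset ℚ} (hQ : fr.J0 ⊆ Q) {X : Set L}
    (hX : σ.CJ Q X) (hv : p.Van X) (y : B Γ) :
    |σ.tau X (p.Cp w ω F (σ.R Q y))| ≤ |σ.tau X (p.Cp w ω F y)| + σ.M / p.θ ^ 2 * w.cost σ ω F y := by
  have e : p.Cp w ω F (σ.R Q y) = Om (w.Fh σ ω F) (σ.tr fr.κ) (σ.R Q (p.pi y)) := by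
    simp only [Cp, pi, ContinuousMap.comp_apply, σ.piM_R]
  have := p.transfer w ω F y (a := |σ.tau X (p.Cp w ω F (σ.R Q y))|)
    (b := |σ.tau X (p.Cp w ω F y)|) (ι := 0) (fun h => by
      rw [e, hv _ (p.Om_van w ω F fun γ hγ => ?_), abs_zero]
      have := σ.R_sq_le Q (p.pi y) γ
      rw [h γ hγ] at this
      nlinarith [sq_nonneg ((σ.R Q (p.pi y)).1 γ)]) (fun h => by
      rw [e, Om_R w ω F hQ h, hX.tau_R, add_zero]; rfl) (σ.abs_tau_le _ _) (abs_nonneg _) le_rfl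
  linarith

lemma T2 (ω : w.Om') {X : Set L} (hv : p.Van X) {ι : ℝ} (hι : 0 < ι) :
    ∀ᶠ F in atTop, ∀ F'', F ⊆ F'' → ∀ y, |σ.tau X (p.Cp w ω F y)| ≤
      |σ.tau X (p.Cp w ω F'' y)| + ι + σ.M / p.θ ^ 2 * w.cost σ ω F'' y := by
  obtain ⟨F₀, η, hη, hF⟩ := insens (σ.tau X) hι
  filter_upwards [eventually_ge_atTop (F₀.image (σ.tr fr.κ))] with F hF₀ F'' hF'' y
  refine p.transfer w ω F'' y (fun h => ?_) (fun h => ?_) (σ.abs_tau_le _ _) (abs_nonneg _) hι.le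
  · rw [abs_eq_zero]; exact hv _ (p.Om_van w ω F h)
  · have h' : Qf (w.Fh σ ω F) (σ.tr fr.κ) (p.pi y) ≤ 1 :=
      le_trans (Finset.sum_le_sum_of_subset_of_nonneg (w.Fh_mono σ ω hF'') fun _ _ _ => sq_nonneg _) h
    have := hF (p.Cp w ω F y) (p.Cp w ω F'' y) fun γ hγ => by
      simp only [Cp, ContinuousMap.comp_apply]
      rw [Om_apply_of_le h, Om_apply_of_le h']
      have h1 : σ.tr fr.κ γ ∈ F := hF₀ (Finset.mem_image_of_mem _ hγ)
      have : γ ∈ w.Fh σ ω F ↔ γ ∈ w.Fh σ ω F'' := by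
        rw [w.mem_Fh, w.mem_Fh]; simp [h1, hF'' h1]
      simp only [this]; simpa using hη.le
    have h2 := abs_sub_abs_le_abs_sub (σ.tau X (p.Cp w ω F y)) (σ.tau X (p.Cp w ω F'' y))
    linarith

lemma T3 (ω : w.Om') (g : w.Sel) {N : Finset ℚ} (hN : ∀ b ∈ N, Above fr.J0 b) {X : Set L}
    (hX : σ.CJ (fr.P ∪ (w.Gt ω g).image fr.κ ∪ N) X) (hv : p.Van X) {u : ℚ ≃o ℚ}
    (hu : ∀ b ∈ fr.P ∪ w.Gt ω g ∪ N, u (fr.κ b) = b) {ι : ℝ} (hι : 0 < ι) :
    ∀ᶠ F in atTop, ∀ y, |σ.tau X (p.pi y)| ≤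
      |σ.tau (σ.gL u ⁻¹' X) (p.Cp w ω F y)| + ι + σ.M / p.θ ^ 2 * w.cost σ ω F y := by
  obtain ⟨F₀, η, hη, hs, hF⟩ := σ.insens_tau hX hι
  filter_upwards [eventually_ge_atTop F₀] with F hF₀ y
  refine p.transfer w ω F y (fun h => ?_) (fun h => ?_) (σ.abs_tau_le _ _) (abs_nonneg _) hι.le
  · rw [abs_eq_zero]; exact hv _ h
  · rw [← σ.tau_gB hX.1]
    have := hF (p.pi y) (σ.gB u (p.Cp w ω F y)) fun δ hδ => by
      have h1 : ∀ b ∈ σ.supp (σ.act u δ), b ∈ fr.P ∪ w.Gt ω g ∪ N := by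
        intro b hb
        rw [σ.supp_act] at hb
        obtain ⟨a, ha, rfl⟩ := Finset.mem_image.mp hb
        have : ∃ a' ∈ fr.P ∪ w.Gt ω g ∪ N, fr.κ a' = a := by
          rcases Finset.mem_union.mp (hs δ hδ ha) with h | h
          · rcases Finset.mem_union.mp h with h | h
            · exact ⟨a, by simp [h], fr.κ_of_not_mem (fr.not_mem_T'_of_P h)⟩
            · obtain ⟨a', ha', e⟩ := Finset.mem_image.mp h
              exact ⟨a', by simp [ha'], e⟩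
          · exact ⟨a, by simp [h], fr.κ_above (hN a h)⟩
        obtain ⟨a', ha', rfl⟩ := this
        rw [hu a' ha']; exact ha'
      have h2 : σ.tr fr.κ (σ.act u δ) = δ := by
        rw [σ.tr_eq (g := u⁻¹) fun b hb => ?_, ← Equiv.Perm.mul_apply, ← map_mul, inv_mul_cancel,
          map_one, Equiv.Perm.one_apply]
        change u.symm b = _
        rw [OrderIso.symm_apply_eq, hu b (h1 b hb)]
      have h3 : σ.act u δ ∈ w.Fh σ ω F := (w.mem_Fh σ).mpr ⟨⟨g, fun b hb => by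
        rcases Finset.mem_union.mp (h1 b hb) with h | h
        · rcases Finset.mem_union.mp h with h | h
          · exact Or.inl h
          · exact Or.inr (Or.inl h)
        · exact Or.inr (Or.inr (hN b h))⟩, by rw [h2]; exact hF₀ hδ⟩
      simp only [Cp, ContinuousMap.comp_apply]
      rw [σ.gB_apply, Om_apply_of_le h, if_pos h3, h2]; simpa using hη.le
    have h2 := abs_sub_abs_le_abs_sub (σ.tau X (p.pi y)) (σ.tau X (σ.gB u (p.Cp w ω F y)))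
    linarith

variable (U : ℚ → Set L)

/-- The averaged size of `T 1_X` after copying. -/
noncomputable def Psi (F : Finset Γ) (X : Set L) : C(B Γ, ℝ) :=
  avF fun ξ : w.Om' × w.Sel => |(σ.tau (X ∩ BU U (w.Gt ξ.1 ξ.2))).comp (p.Cp w ξ.1 F)|

lemma Psi_apply (F : Finset Γ) (X : Set L) (y : B Γ) : p.Psi w U F X y =
    av fun ξ : w.Om' × w.Sel => |σ.tau (X ∩ BU U (w.Gt ξ.1 ξ.2)) (p.Cp w ξ.1 F y)| :=
  avF_apply _ _

lemma Psi_nonneg (F : Finset Γ) (X : Set L) (y : B Γ) : 0 ≤ p.Psi w U F X y := by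
  rw [Psi_apply, ← av_const (ι := w.Om' × w.Sel) 0]; exact av_mono fun _ => abs_nonneg _

/-- The averaged error term. -/
noncomputable def Err (F : Finset Γ) : C(B Γ, ℝ) :=
  avF fun ξ : w.Om' × w.Sel => (σ.M / p.θ ^ 2) • w.cost σ ξ.1 F

lemma Err_apply (F : Finset Γ) (y : B Γ) : p.Err w F y =
    av fun ξ : w.Om' × w.Sel => σ.M / p.θ ^ 2 * w.cost σ ξ.1 F y := avF_apply _ _

lemma Err_le {A D' i₀ : ℕ} (hD' : 1 ≤ D') (hD : w.D = D' * i₀) (hk : w.k = A * w.D)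
    (F : Finset Γ) (y : B Γ) :
    p.Err w F y ≤ σ.M / p.θ ^ 2 * (2 / D' + Real.exp A * mass (w.winF σ i₀ F) y) := by
  rw [Err_apply, av_mul]
  have hM := σ.M_pos
  exact mul_le_mul_of_nonneg_left (av_fst_le (fun ω => w.cost σ ω F y)
    (w.sum_cost_le σ hD' hD hk F y)) (by positivity)

variable {U} (hU : ∀ b ∈ fr.T ∪ fr.T', σ.CJ fr.J0 (U b))
include hU

lemma BU_CJ (ω : w.Om') (g : w.Sel) : σ.CJ fr.J0 (BU U (w.Gt ω g)) :=
  Str.CJ.biInter _ fun b hb => hU b (w.Gt_sub ω g hb)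

lemma Psi_sub (F : Finset Γ) {X Y : Set L} (hX : IsClopen X) (hY : IsClopen Y) (y : B Γ) :
    p.Psi w U F X y ≤ p.Psi w U F (X ∩ Y) y + p.Psi w U F (X \ Y) y := by
  rw [Psi_apply, Psi_apply, Psi_apply, ← av_add]
  refine av_mono fun ξ => ?_
  rw [σ.tau_split (hX.inter (BU_CJ w hU _ _).1) hY, inter_right_comm X _ Y,
    show (X ∩ BU U (w.Gt ξ.1 ξ.2)) \ Y = (X \ Y) ∩ BU U (w.Gt ξ.1 ξ.2) from by
      ext; simp only [mem_diff, mem_inter_iff]; tauto]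
  exact abs_add_le _ _

lemma Psi_sum (F : Finset Γ) {ι : Type} (s : Finset ι) (V : ι → Set L)
    (hV : ∀ i ∈ s, IsClopen (V i)) {c : ℝ} (hc : 0 ≤ c)
    (H : ∀ ℓ, (ovl s fun i => ℓ ∈ V i : ℝ) ≤ c) (y : B Γ) :
    ∑ i ∈ s, p.Psi w U F (V i) y ≤ c * σ.M := by
  simp only [Psi_apply]
  rw [av_sum, ← av_const (ι := w.Om' × w.Sel) (c * σ.M)]
  refine av_mono fun ξ => σ.sum_abs_tau_ovl s _
    (fun i hi => (hV i hi).inter (BU_CJ w hU _ _).1) hc (fun ℓ => ?_) _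
  exact le_trans (Nat.cast_le.mpr (ovl_mono fun i _ h => h.1)) (H ℓ)

lemma Psi_count (F : Finset Γ) {X : Set L} (hX : IsClopen X) {A : ℕ} (hk : w.k = A * w.D)
    (hd : 2 * w.D ≤ w.d)
    (hm : ∀ ℓ ∈ X, ovl (fr.T ∪ fr.T') (fun b => ℓ ∈ U b) ≤ w.k * w.D * (w.d + 1)) (y : B Γ) :
    p.Psi w U F X y ≤ Real.exp (-(A / 4)) * σ.M := by
  rw [Psi_apply]
  refine av_prod_le _ fun ω => ?_
  rw [mul_right_comm]
  refine σ.sum_abs_tau_ovl Finset.univ (fun g : w.Sel => X ∩ BU U (w.Gt ω g))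
    (fun g _ => hX.inter (BU_CJ w hU _ _).1) (c := Real.exp (-(A / 4)) * Fintype.card w.Sel)
    (by positivity) (fun ℓ => ?_) (p.Cp w ω F y)
  by_cases hℓ : ℓ ∈ X
  · exact le_trans (Nat.cast_le.mpr (ovl_mono fun g _ h => h.2))
      (w.count_le ω (fun b => ℓ ∈ U b) hk hd (hm ℓ hℓ))
  · rw [ovl_congr (Q := fun _ => False) fun g _ => by simp [hℓ]]
    simp only [ovl, Finset.filter_false, Finset.card_empty, Nat.cast_zero]
    positivity

lemma Psi_T1 (F : Finset Γ) {Q : Finset ℚ} (hQ : fr.J0 ⊆ Q) {X : Set L} (hX : σ.CJ Q X)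
    (hv : ∀ Y, IsClopen Y → p.Van (X ∩ Y)) (y : B Γ) :
    p.Psi w U F X (σ.R Q y) ≤ p.Psi w U F X y + p.Err w F y := by
  rw [Psi_apply, Psi_apply, Err_apply, ← av_add]
  exact av_mono fun ξ => p.T1 w ξ.1 F hQ (hX.inter ((BU_CJ w hU _ _).mono hQ))
    (hv _ (BU_CJ w hU _ _).1) y

lemma Psi_T2 {X : Set L} (hv : ∀ Y, IsClopen Y → p.Van (X ∩ Y)) {ι : ℝ} (hι : 0 < ι) :
    ∀ᶠ F in atTop, ∀ F'', F ⊆ F'' → ∀ y,
      p.Psi w U F X y ≤ p.Psi w U F'' X y + ι + p.Err w F'' y := by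
  have := eventually_all.mpr fun ξ : w.Om' × w.Sel => p.T2 w ξ.1 (hv _ (BU_CJ w hU ξ.1 ξ.2).1) hι
  filter_upwards [this] with F hF F'' hF'' y
  rw [Psi_apply, Psi_apply, Err_apply, ← av_const (ι := w.Om' × w.Sel) ι, ← av_add, ← av_add]
  exact av_mono fun ξ => hF ξ F'' hF'' y

end Shr

end Pool.Agent.Lib.MP_9e0ccb_an
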